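import Pool.Agent.Helper369.NF.Defs

open MeasureTheory Filter Topology Metric UpperHalfPlane

namespace NF

set_option linter.unusedSimpArgs false

theorem coe_smul' (g : SL2) (z : ℍ) : ((g • z : ℍ) : ℂ) = mob g z := by
  rw [coe_specialLinearGroup_apply]
  rfl

theorem denom_eq (g : SL2) (z : ℍ) : denom g (z : ℂ) = dn g z := rfl

theorem det_eq (g : SL2) : g 0 0 * g 1 1 - g 0 1 * g 1 0 = 1 := by
  have := g.det_coe
  rwa [Matrix.det_fin_two] at this

theorem det_eqC (g : SL2) : (g 0 0 : ℂ) * g 1 1 - (g 0 1 : ℂ) * g 1 0 = 1 := by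
  exact_mod_cast det_eq g

theorem dn_ne (g : SL2) (z : ℂ) (hz : 0 < z.im) : dn g z ≠ 0 := by
  intro h
  have him := congrArg Complex.im h
  have hre := congrArg Complex.re h
  simp only [dn, Complex.add_im, Complex.mul_im, Complex.ofReal_re, Complex.ofReal_im, zero_mul,
    add_zero, Complex.zero_im, Complex.add_re, Complex.mul_re, sub_zero, Complex.zero_re] at him hre
  have hc : g 1 0 = 0 := by
    rcases mul_eq_zero.mp him with h1 | h1
    · exact h1
    · exact absurd h1 hz.ne'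
  have hd : g 1 1 = 0 := by rw [hc] at hre; linarith
  have := det_eq g
  rw [hc, hd] at this
  norm_num at this

theorem im_mob (g : SL2) (z : ℂ) (hz : 0 < z.im) : (mob g z).im = z.im / ‖dn g z‖ ^ 2 := by
  have hd := dn_ne g z hz
  have hn : Complex.normSq (dn g z) ≠ 0 := by
    rw [Ne, Complex.normSq_eq_zero]; exact hd
  rw [mob, Complex.div_im, ← Complex.normSq_eq_norm_sq, ← sub_div]
  congr 1
  have := det_eq g
  simp only [dn, Complex.add_im, Complex.mul_im, Complex.ofReal_re, Complex.ofReal_im, zero_mul,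
    add_zero, Complex.add_re, Complex.mul_re, sub_zero]
  linear_combination z.im * this

theorem mob_sub (g : SL2) (z : ℂ) (hz : 0 < z.im) : mob g z - z = X g z / dn g z := by
  have hd := dn_ne g z hz
  rw [mob, div_sub' hd]
  congr 1
  simp only [X, dn]
  ring

theorem disp_eq (g : SL2) (z : ℍ) : disp g z = 2 * Real.sinh (dist z (g • z) / 2) := by
  have hz : 0 < (z : ℂ).im := z.im_pos
  have hd := dn_ne g z hz
  have hdp : 0 < ‖dn g z‖ := norm_pos_iff.mpr hd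
  rw [sinh_half_dist, dist_comm, dist_eq_norm, coe_smul', mob_sub g z hz, norm_div]
  have him : (g • z).im = z.im / ‖dn g z‖ ^ 2 := by
    have := im_mob g z hz
    rw [← coe_smul'] at this
    exact this
  rw [him]
  have hz' : 0 < z.im := z.im_pos
  have hs : z.im * (z.im / ‖dn g z‖ ^ 2) = (z.im / ‖dn g z‖) ^ 2 := by
    rw [div_pow]; ring
  rw [hs, Real.sqrt_sq (by positivity), disp]
  field_simp

theorem X_conj (γ g : SL2) (z : ℂ) (hz : 0 < z.im) :
    X (γ * g * γ⁻¹) (mob γ z) * dn γ z ^ 2 = X g z := by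
  have hd := dn_ne γ z hz
  have hdet := det_eqC γ
  have hN : mob γ z * dn γ z = (γ 0 0 : ℂ) * z + (γ 0 1 : ℂ) := by
    rw [mob, div_mul_cancel₀ _ hd]
  have h1 : X (γ * g * γ⁻¹) (mob γ z) * dn γ z ^ 2 =
      ((γ * g * γ⁻¹) 0 1 : ℂ) * dn γ z ^ 2 +
        (((γ * g * γ⁻¹) 0 0 : ℂ) - ((γ * g * γ⁻¹) 1 1 : ℂ)) * (mob γ z * dn γ z) * dn γ z -
        ((γ * g * γ⁻¹) 1 0 : ℂ) * (mob γ z * dn γ z) ^ 2 := by
    rw [X]; ring
  rw [h1, hN]
  have i00 : (γ⁻¹) 0 0 = γ 1 1 := by rw [Matrix.SpecialLinearGroup.SL2_inv_expl]; rfl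
  have i01 : (γ⁻¹) 0 1 = -γ 0 1 := by rw [Matrix.SpecialLinearGroup.SL2_inv_expl]; rfl
  have i10 : (γ⁻¹) 1 0 = -γ 1 0 := by rw [Matrix.SpecialLinearGroup.SL2_inv_expl]; rfl
  have i11 : (γ⁻¹) 1 1 = γ 0 0 := by rw [Matrix.SpecialLinearGroup.SL2_inv_expl]; rfl
  have e00 : (γ * g * γ⁻¹) 0 0 = (γ 0 0 * g 0 0 + γ 0 1 * g 1 0) * γ 1 1 -
      (γ 0 0 * g 0 1 + γ 0 1 * g 1 1) * γ 1 0 := by
    rw [Matrix.SpecialLinearGroup.coe_mul, Matrix.SpecialLinearGroup.coe_mul]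
    simp only [Matrix.mul_apply, Fin.sum_univ_two, i00, i01, i10, i11]
    ring
  have e01 : (γ * g * γ⁻¹) 0 1 = -(γ 0 0 * g 0 0 + γ 0 1 * g 1 0) * γ 0 1 +
      (γ 0 0 * g 0 1 + γ 0 1 * g 1 1) * γ 0 0 := by
    rw [Matrix.SpecialLinearGroup.coe_mul, Matrix.SpecialLinearGroup.coe_mul]
    simp only [Matrix.mul_apply, Fin.sum_univ_two, i00, i01, i10, i11]
    ring
  have e10 : (γ * g * γ⁻¹) 1 0 = (γ 1 0 * g 0 0 + γ 1 1 * g 1 0) * γ 1 1 -
      (γ 1 0 * g 0 1 + γ 1 1 * g 1 1) * γ 1 0 := by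
    rw [Matrix.SpecialLinearGroup.coe_mul, Matrix.SpecialLinearGroup.coe_mul]
    simp only [Matrix.mul_apply, Fin.sum_univ_two, i00, i01, i10, i11]
    ring
  have e11 : (γ * g * γ⁻¹) 1 1 = -(γ 1 0 * g 0 0 + γ 1 1 * g 1 0) * γ 0 1 +
      (γ 1 0 * g 0 1 + γ 1 1 * g 1 1) * γ 0 0 := by
    rw [Matrix.SpecialLinearGroup.coe_mul, Matrix.SpecialLinearGroup.coe_mul]
    simp only [Matrix.mul_apply, Fin.sum_univ_two, i00, i01, i10, i11]
    ring
  rw [e00, e01, e10, e11]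
  push_cast
  simp only [dn, X]
  generalize (γ 0 0 : ℂ) = p at *
  generalize (γ 0 1 : ℂ) = q at *
  generalize (γ 1 0 : ℂ) = r at *
  generalize (γ 1 1 : ℂ) = s at *
  generalize (g 0 0 : ℂ) = a at *
  generalize (g 0 1 : ℂ) = b at *
  generalize (g 1 0 : ℂ) = c at *
  generalize (g 1 1 : ℂ) = d at *
  linear_combination (p * s - q * r + 1) * (b + (a - d) * z - c * z ^ 2) * hdet

theorem disp_conj (γ g : SL2) (z : ℍ) : disp (γ * g * γ⁻¹) (γ • z) = disp g z := by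
  have hz : 0 < (z : ℂ).im := z.im_pos
  have hd := dn_ne γ z hz
  have hdp : 0 < ‖dn γ z‖ := norm_pos_iff.mpr hd
  have him : (γ • z).im = z.im / ‖dn γ z‖ ^ 2 := by
    have := im_mob γ z hz
    rw [← coe_smul'] at this
    exact this
  have hX := X_conj γ g z hz
  have hz' : 0 < z.im := z.im_pos
  rw [disp, disp, him, coe_smul', ← hX, norm_mul, norm_pow]
  field_simp

theorem X_inv (g : SL2) (z : ℂ) : X g⁻¹ z = - X g z := by
  simp only [X, Matrix.SpecialLinearGroup.SL2_inv_expl]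
  simp
  ring

theorem X_neg (g : SL2) (z : ℂ) : X (-g) z = - X g z := by
  simp [X]
  ring

theorem disp_tri (g : SL2) (z w : ℍ) :
    disp g w ≤ disp g z * Real.cosh (dist z w) + (disp g z + 2) * Real.sinh (dist z w) := by
  rw [disp_eq, disp_eq]
  have h1 : dist w (g • w) ≤ 2 * dist z w + dist z (g • z) := by
    have e1 : dist w (g • w) ≤ dist w z + dist z (g • w) := dist_triangle _ _ _
    have e2 : dist z (g • w) ≤ dist z (g • z) + dist (g • z) (g • w) := dist_triangle _ _ _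
    have e3 : dist (g • z) (g • w) = dist z w := dist_smul g z w
    rw [dist_comm w z] at e1
    linarith
  set t := dist z w with ht
  set D := dist z (g • z) with hD
  have ht0 : 0 ≤ t := dist_nonneg
  have hD0 : 0 ≤ D := dist_nonneg
  have h2 : Real.sinh (dist w (g • w) / 2) ≤ Real.sinh (t + D / 2) := by
    apply Real.sinh_le_sinh.mpr
    linarith
  rw [Real.sinh_add] at h2
  have h3 : Real.cosh (D / 2) ≤ Real.sinh (D / 2) + 1 := by
    have := Real.cosh_sub_sinh (D / 2)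
    have h4 : Real.exp (-(D / 2)) ≤ 1 := by
      rw [Real.exp_le_one_iff]; linarith
    linarith
  have h5 : 0 ≤ Real.sinh t := Real.sinh_nonneg_iff.mpr ht0
  nlinarith [mul_le_mul_of_nonneg_left h3 h5]

theorem tr_sq_le (g : SL2) (z : ℍ) : tr g ^ 2 - 4 ≤ disp g z ^ 2 := by
  have hz' : 0 < z.im := z.im_pos
  have hdet := det_eq g
  rw [disp, div_pow, le_div_iff₀ (by positivity), ← Complex.normSq_eq_norm_sq, Complex.normSq_apply]
  have hre : (X g z).re = g 0 1 + (g 0 0 - g 1 1) * z.re - g 1 0 * (z.re ^ 2 - z.im ^ 2) := by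
    simp [X, pow_two]
  have him : (X g z).im = (g 0 0 - g 1 1) * z.im - g 1 0 * (2 * z.re * z.im) := by
    simp only [X, pow_two, Complex.sub_im, Complex.add_im, Complex.mul_im, Complex.ofReal_im,
      Complex.sub_re, Complex.ofReal_re, coe_im, coe_re, Complex.mul_re]
    ring
  rw [hre, him, tr]
  have key : (g 0 1 + (g 0 0 - g 1 1) * z.re - g 1 0 * (z.re ^ 2 - z.im ^ 2)) *
      (g 0 1 + (g 0 0 - g 1 1) * z.re - g 1 0 * (z.re ^ 2 - z.im ^ 2)) +
      ((g 0 0 - g 1 1) * z.im - g 1 0 * (2 * z.re * z.im)) *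
      ((g 0 0 - g 1 1) * z.im - g 1 0 * (2 * z.re * z.im)) =
      (-g 0 1 + (g 1 1 - g 0 0) * z.re + g 1 0 * (z.re ^ 2 + z.im ^ 2)) ^ 2 +
      z.im ^ 2 * ((g 0 0 + g 1 1) ^ 2 - 4) := by
    linear_combination (-4 * z.im ^ 2) * hdet
  rw [key]
  nlinarith [sq_nonneg (-g 0 1 + (g 1 1 - g 0 0) * z.re + g 1 0 * (z.re ^ 2 + z.im ^ 2))]

end NF

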