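import Pool.Agent.Helper369.NF.Defs

open MeasureTheory Filter Topology Metric UpperHalfPlane

namespace NF

/-! auxiliary facts for `packing` -/

/-- the disc coordinate of `p` centred at `z` -/
noncomputable def pkW (z p : ℍ) : ℂ :=
  ((p : ℂ) - z) / ((p : ℂ) - (starRingEnd ℂ) (z : ℂ))

theorem pkW_ne (z p : ℍ) : (p : ℂ) - (starRingEnd ℂ) (z : ℂ) ≠ 0 := by
  intro h
  have h1 := congrArg Complex.im h
  simp only [Complex.sub_im, Complex.conj_im, coe_im, Complex.zero_im] at h1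
  have := p.im_pos; have := z.im_pos
  linarith

theorem pkW_norm_sq (z p : ℍ) :
    1 - ‖pkW z p‖ ^ 2 = ((Real.cosh (dist z p / 2)) ^ 2)⁻¹ := by
  have h1 : ‖pkW z p‖ = Real.tanh (dist z p / 2) := by
    rw [dist_comm z p, UpperHalfPlane.tanh_half_dist, pkW, norm_div, Complex.dist_eq,
      Complex.dist_eq]
  rw [h1, Real.tanh_eq_sinh_div_cosh, div_pow]
  have h2 : Real.cosh (dist z p / 2) ≠ 0 := (Real.cosh_pos _).ne'
  have h3 := Real.cosh_sq (dist z p / 2)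
  field_simp
  linarith

theorem pkW_lt_one (z p : ℍ) : ‖pkW z p‖ < 1 := by
  have h := pkW_norm_sq z p
  have h2 : 0 < ((Real.cosh (dist z p / 2)) ^ 2)⁻¹ := by positivity
  have h3 : ‖pkW z p‖ ^ 2 < 1 := by linarith
  have h4 : 0 ≤ ‖pkW z p‖ := norm_nonneg _
  nlinarith

theorem pkW_rel (z p q : ℍ) :
    ‖pkW z p - pkW z q‖ = Real.tanh (dist p q / 2) *
      ‖1 - (starRingEnd ℂ) (pkW z p) * pkW z q‖ := by
  have hp := pkW_ne z p
  have hq := pkW_ne z q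
  have hp' : (starRingEnd ℂ) (p : ℂ) - (z : ℂ) ≠ 0 := by
    intro h; apply hp
    have := congrArg (starRingEnd ℂ) h
    simpa using this
  have hpq : (q : ℂ) - (starRingEnd ℂ) (p : ℂ) ≠ 0 := pkW_ne p q
  have e1 : pkW z p - pkW z q = (((p : ℂ) - q) * ((z : ℂ) - (starRingEnd ℂ) (z : ℂ))) /
      (((p : ℂ) - (starRingEnd ℂ) (z : ℂ)) * ((q : ℂ) - (starRingEnd ℂ) (z : ℂ))) := by
    unfold pkW
    field_simp
    ring
  have e2 : 1 - (starRingEnd ℂ) (pkW z p) * pkW z q =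
      (((starRingEnd ℂ) (p : ℂ) - q) * ((z : ℂ) - (starRingEnd ℂ) (z : ℂ))) /
      (((starRingEnd ℂ) (p : ℂ) - (z : ℂ)) * ((q : ℂ) - (starRingEnd ℂ) (z : ℂ))) := by
    unfold pkW
    simp only [map_div₀, map_sub, Complex.conj_conj]
    field_simp
    ring
  have e3 : ‖(starRingEnd ℂ) (p : ℂ) - (z : ℂ)‖ = ‖(p : ℂ) - (starRingEnd ℂ) (z : ℂ)‖ := by
    rw [← Complex.norm_conj ((starRingEnd ℂ) (p : ℂ) - (z : ℂ))]
    simp
  have e4 : ‖(starRingEnd ℂ) (p : ℂ) - (q : ℂ)‖ = ‖(p : ℂ) - (starRingEnd ℂ) (q : ℂ)‖ := by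
    rw [← Complex.norm_conj ((starRingEnd ℂ) (p : ℂ) - (q : ℂ))]
    simp
  rw [e1, e2, norm_div, norm_div, norm_mul, norm_mul, norm_mul, norm_mul, e3, e4,
    UpperHalfPlane.tanh_half_dist, Complex.dist_eq, Complex.dist_eq]
  have n1 : ‖(p : ℂ) - (starRingEnd ℂ) (z : ℂ)‖ ≠ 0 := norm_ne_zero_iff.2 hp
  have n2 : ‖(q : ℂ) - (starRingEnd ℂ) (z : ℂ)‖ ≠ 0 := norm_ne_zero_iff.2 hq
  have n3 : ‖(p : ℂ) - (starRingEnd ℂ) (q : ℂ)‖ ≠ 0 := norm_ne_zero_iff.2 (pkW_ne q p)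
  field_simp

theorem tanh_lower (δ d : ℝ) (h : δ ≤ d) :
    Real.tanh (δ / 2) ≤ Real.tanh (d / 2) := by
  rw [Real.tanh_eq_sinh_div_cosh, Real.tanh_eq_sinh_div_cosh,
    div_le_div_iff₀ (Real.cosh_pos _) (Real.cosh_pos _)]
  have h1 : 0 ≤ Real.sinh (d / 2 - δ / 2) := Real.sinh_nonneg_iff.2 (by linarith)
  rw [Real.sinh_sub] at h1
  linarith

/-- the packing radii -/
noncomputable def pkR (k : ℝ) (z p : ℍ) : ℝ := k / 4 * (1 - ‖pkW z p‖ ^ 2)

theorem pkR_pos {k : ℝ} (hk : 0 < k) (z p : ℍ) : 0 < pkR k z p := by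
  unfold pkR
  have h1 := pkW_lt_one z p
  have h2 : 0 ≤ ‖pkW z p‖ := norm_nonneg _
  have h3 : 0 < 1 - ‖pkW z p‖ ^ 2 := by nlinarith
  positivity

theorem pk_sub {k : ℝ} (hk : 0 < k) (hk1 : k ≤ 1) (z p : ℍ) :
    Metric.ball (pkW z p) (pkR k z p) ⊆ Metric.ball (0 : ℂ) 1 := by
  apply Metric.ball_subset_ball'
  rw [dist_zero_right]
  unfold pkR
  have h1 := pkW_lt_one z p
  have h2 : 0 ≤ ‖pkW z p‖ := norm_nonneg _
  have h3 : 0 ≤ 1 - ‖pkW z p‖ ^ 2 := by nlinarith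
  have h4 : k / 4 * (1 - ‖pkW z p‖ ^ 2) ≤ 1 / 4 * (1 - ‖pkW z p‖ ^ 2) := by
    apply mul_le_mul_of_nonneg_right _ h3
    linarith
  nlinarith

theorem pk_half {k : ℝ} (hk : 0 < k) (z p q : ℍ) (h : k ≤ Real.tanh (dist p q / 2)) :
    2 * pkR k z p ≤ ‖pkW z p - pkW z q‖ := by
  have h1 := pkW_lt_one z p
  have h2 : 0 ≤ ‖pkW z p‖ := norm_nonneg _
  have h1' := pkW_lt_one z q
  have h2' : 0 ≤ ‖pkW z q‖ := norm_nonneg _
  rw [pkW_rel]
  have h5 : 1 - ‖pkW z p‖ ≤ ‖1 - (starRingEnd ℂ) (pkW z p) * pkW z q‖ := by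
    have := norm_sub_norm_le (1 : ℂ) ((starRingEnd ℂ) (pkW z p) * pkW z q)
    rw [norm_one, norm_mul, Complex.norm_conj] at this
    nlinarith
  have h6 : k * (1 - ‖pkW z p‖) ≤ Real.tanh (dist p q / 2) *
      ‖1 - (starRingEnd ℂ) (pkW z p) * pkW z q‖ :=
    mul_le_mul h h5 (by linarith) (le_trans hk.le h)
  refine le_trans ?_ h6
  unfold pkR
  have h7 : (1 - ‖pkW z p‖ ^ 2) ≤ 2 * (1 - ‖pkW z p‖) := by nlinarith
  nlinarith

theorem pk_disj {k : ℝ} (hk : 0 < k) (z p q : ℍ) (h : k ≤ Real.tanh (dist p q / 2)) :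
    Disjoint (Metric.ball (pkW z p) (pkR k z p)) (Metric.ball (pkW z q) (pkR k z q)) := by
  apply Metric.ball_disjoint_ball
  have h1 := pk_half hk z p q h
  have h2 := pk_half hk z q p (by rwa [dist_comm q p])
  rw [norm_sub_rev] at h2
  rw [Complex.dist_eq]
  linarith

theorem pk_sum {k : ℝ} (hk : 0 < k) (hk1 : k ≤ 1) {T : Type} (p : T → ℍ)
    (h : ∀ s t, s ≠ t → k ≤ Real.tanh (dist (p s) (p t) / 2)) (z : ℍ) (S : Finset T) :
    ∑ t ∈ S, (pkR k z (p t)) ^ 2 ≤ 1 := by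
  have hd : (S : Set T).PairwiseDisjoint
      (fun t => Metric.ball (pkW z (p t)) (pkR k z (p t))) := by
    intro s _ t _ hst
    exact pk_disj hk z _ _ (h s t hst)
  have h1 : ∑ t ∈ S, volume (Metric.ball (pkW z (p t)) (pkR k z (p t))) ≤
      volume (Metric.ball (0 : ℂ) 1) := by
    rw [← measure_biUnion_finset hd (fun t _ => measurableSet_ball)]
    apply measure_mono
    intro x hx
    simp only [Set.mem_iUnion] at hx
    obtain ⟨t, _, ht⟩ := hx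
    exact pk_sub hk hk1 z _ ht
  simp only [Complex.volume_ball] at h1
  have h2 : ∀ t ∈ S, ENNReal.ofReal (pkR k z (p t)) ^ 2 * (NNReal.pi : ENNReal) =
      ENNReal.ofReal ((pkR k z (p t)) ^ 2 * Real.pi) := by
    intro t _
    rw [ENNReal.ofReal_mul (by positivity), ENNReal.ofReal_pow (pkR_pos hk z _).le]
    congr 1
    rw [← NNReal.coe_real_pi, ENNReal.ofReal_coe_nnreal]
  rw [Finset.sum_congr rfl h2, ← ENNReal.ofReal_sum_of_nonneg (fun t _ => by positivity)] at h1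
  have h3 : ENNReal.ofReal 1 ^ 2 * (NNReal.pi : ENNReal) = ENNReal.ofReal Real.pi := by
    rw [ENNReal.ofReal_one, one_pow, one_mul, ← NNReal.coe_real_pi, ENNReal.ofReal_coe_nnreal]
  rw [h3, ENNReal.ofReal_le_ofReal_iff Real.pi_pos.le, ← Finset.sum_mul] at h1
  have hpi := Real.pi_pos
  by_contra hc
  push Not at hc
  nlinarith

/-! TARGET: -/

theorem packing (δ : ℝ) (hδ : 0 < δ) : ∃ C : ℝ, 0 < C ∧ ∀ (T : Type) (p : T → ℍ),
    (∀ s t, s ≠ t → δ ≤ dist (p s) (p t)) → ∀ z : ℍ,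
      Summable (fun t => ((Real.cosh (dist z (p t) / 2)) ^ 4)⁻¹) ∧
        ∑' t, ((Real.cosh (dist z (p t) / 2)) ^ 4)⁻¹ ≤ C := by
  set k : ℝ := Real.tanh (δ / 2) with hkdef
  have hk : 0 < k := by
    rw [hkdef, Real.tanh_eq_sinh_div_cosh]
    have h1 : 0 < Real.sinh (δ / 2) := Real.sinh_pos_iff.2 (by linarith)
    have h2 := Real.cosh_pos (δ / 2)
    positivity
  have hk1 : k ≤ 1 := (Real.tanh_lt_one _).le
  refine ⟨16 / k ^ 2, by positivity, fun T p hp z => ?_⟩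
  have hkp : ∀ s t, s ≠ t → k ≤ Real.tanh (dist (p s) (p t) / 2) :=
    fun s t hst => tanh_lower δ _ (hp s t hst)
  have hterm : ∀ t, ((Real.cosh (dist z (p t) / 2)) ^ 4)⁻¹ =
      16 / k ^ 2 * (pkR k z (p t)) ^ 2 := by
    intro t
    unfold pkR
    rw [pkW_norm_sq]
    have := (Real.cosh_pos (dist z (p t) / 2)).ne'
    field_simp
    norm_num
  have hfin : ∀ S : Finset T, ∑ t ∈ S, ((Real.cosh (dist z (p t) / 2)) ^ 4)⁻¹ ≤ 16 / k ^ 2 := by
    intro S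
    rw [Finset.sum_congr rfl (fun t _ => hterm t), ← Finset.mul_sum]
    have h1 := pk_sum hk hk1 p hkp z S
    have h2 : 0 ≤ 16 / k ^ 2 := by positivity
    nlinarith
  have hnn : ∀ t, 0 ≤ ((Real.cosh (dist z (p t) / 2)) ^ 4)⁻¹ := by
    intro t
    have := Real.cosh_pos (dist z (p t) / 2)
    positivity
  have hs := summable_of_sum_le hnn hfin
  exact ⟨hs, hs.tsum_le_of_sum_le hfin⟩

end NF

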