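import Pool.Agent.Helper369.NF.Defs
import Pool.Agent.Helper369.NF.P1

open MeasureTheory Filter Topology Metric UpperHalfPlane

namespace NF

/-! The following statements are GIVEN (other jobs); do not prove them. -/

/-! TARGET: -/

theorem kk_row (δ : ℝ) (hδ : 0 < δ) (N : ℕ) : ∃ C : ℝ, 0 < C ∧ ∀ (Γ : Subgroup SL2) (J : Type) (p : J → ℍ),
    (∀ j, ∀ γ ∈ Γ, γ • p j = p j ∨ δ ≤ dist (p j) (γ • p j)) →
    (∀ j, {γ : SL2 | γ ∈ Γ ∧ γ • p j = p j}.Finite ∧ {γ : SL2 | γ ∈ Γ ∧ γ • p j = p j}.ncard ≤ N) →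
    (∀ i j, i ≠ j → ∀ γ ∈ Γ, δ ≤ dist (γ • p i) (p j)) →
    ∀ z : ℍ, (∀ j, Summable (fun γ : Γ => ((Real.cosh (dist z ((γ : SL2) • p j) / 2)) ^ 4)⁻¹)) ∧
      Summable (fun j => kk Γ z (p j)) ∧ ∑' j, kk Γ z (p j) ≤ C := by
  classical
  obtain ⟨C1, hC1, hpack⟩ := packing δ hδ
  refine ⟨N * C1 + 1, by positivity, ?_⟩
  intro Γ J p h1 h2 h3 z
  let g : ℍ → ℝ := fun w => ((Real.cosh (dist z w / 2)) ^ 4)⁻¹
  have hg : ∀ w, 0 ≤ g w := fun w => by
    have := Real.cosh_pos (dist z w / 2)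
    positivity
  let φ : J × Γ → ℍ := fun x => (x.2 : SL2) • p x.1
  have hfib : ∀ x y : J × Γ, φ x = φ y → x.1 = y.1 := by
    rintro ⟨i, γ⟩ ⟨j, γ'⟩ hxy
    by_contra hne
    have hne' : i ≠ j := hne
    have hh := h3 i j hne' ((γ' : SL2)⁻¹ * γ) (Γ.mul_mem (Γ.inv_mem γ'.2) γ.2)
    have hxy' : (γ : SL2) • p i = (γ' : SL2) • p j := hxy
    rw [mul_smul, hxy', inv_smul_smul, dist_self] at hh
    linarith
  have hsep : ∀ x y : J × Γ, φ x ≠ φ y → δ ≤ dist (φ x) (φ y) := by
    rintro ⟨i, γ⟩ ⟨j, γ'⟩ hxy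
    have hxy' : (γ : SL2) • p i ≠ (γ' : SL2) • p j := hxy
    show δ ≤ dist ((γ : SL2) • p i) ((γ' : SL2) • p j)
    by_cases hij : i = j
    · subst hij
      have hh := h1 i ((γ : SL2)⁻¹ * γ') (Γ.mul_mem (Γ.inv_mem γ.2) γ'.2)
      rcases hh with hh | hh
      · exfalso
        apply hxy'
        rw [mul_smul, inv_smul_eq_iff] at hh
        exact hh.symm
      · have : dist ((γ : SL2) • p i) ((γ' : SL2) • p i)
            = dist (p i) (((γ : SL2)⁻¹ * γ') • p i) := by
          rw [← dist_smul (γ : SL2) (p i) (((γ : SL2)⁻¹ * γ') • p i), ← mul_smul]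
          congr 2
          group
        rw [this]; exact hh
    · have hh := h3 i j hij ((γ' : SL2)⁻¹ * γ) (Γ.mul_mem (Γ.inv_mem γ'.2) γ.2)
      have : dist ((γ : SL2) • p i) ((γ' : SL2) • p j)
            = dist (((γ' : SL2)⁻¹ * γ) • p i) (p j) := by
        rw [← dist_smul (γ' : SL2) (((γ' : SL2)⁻¹ * γ) • p i) (p j), ← mul_smul]
        congr 2
        group
      rw [this]; exact hh
  have hbound : ∀ s : Finset (J × Γ), ∑ x ∈ s, g (φ x) ≤ N * C1 := by
    intro s
    let T : Finset ℍ := s.image φ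
    have hT := hpack {w // w ∈ T} (fun w => w.1) (by
      rintro ⟨a, ha⟩ ⟨b, hb⟩ hab
      obtain ⟨x, hx, rfl⟩ := Finset.mem_image.1 ha
      obtain ⟨y, hy, rfl⟩ := Finset.mem_image.1 hb
      apply hsep
      intro h
      apply hab
      exact Subtype.ext h) z
    have hTsum : ∑ w ∈ T, g w ≤ C1 := by
      have h := hT.2
      rw [tsum_fintype] at h
      have e : ∑ b : {w // w ∈ T}, ((Real.cosh (dist z b.1 / 2)) ^ 4)⁻¹ = ∑ w ∈ T, g w := by
        rw [← Finset.sum_coe_sort T g]
      rw [e] at h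
      exact h
    calc ∑ x ∈ s, g (φ x) = ∑ w ∈ T, ∑ x ∈ s with φ x = w, g (φ x) :=
          (Finset.sum_fiberwise_of_maps_to (fun x hx => Finset.mem_image_of_mem φ hx) _).symm
      _ ≤ ∑ w ∈ T, (N : ℝ) * g w := by
          apply Finset.sum_le_sum
          intro w hw
          have e1 : ∑ x ∈ s with φ x = w, g (φ x) = ((s.filter (fun x => φ x = w)).card : ℝ) * g w := by
            rw [Finset.sum_congr rfl (g := fun _ => g w)]
            · rw [Finset.sum_const, nsmul_eq_mul]
            · intro x hx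
              rw [(Finset.mem_filter.1 hx).2]
          rw [e1]
          apply mul_le_mul_of_nonneg_right _ (hg w)
          obtain ⟨x0, hx0, hw0⟩ := Finset.mem_image.1 hw
          have hcard : (s.filter (fun x => φ x = w)).card ≤ N := by
            obtain ⟨hfin, hn⟩ := h2 x0.1
            refine le_trans ?_ hn
            rw [Set.ncard_eq_toFinset_card _ hfin]
            apply Finset.card_le_card_of_injOn (fun x => (x0.2 : SL2)⁻¹ * x.2)
            · intro x hx
              have hx' := (Finset.mem_filter.1 (Finset.mem_coe.1 hx)).2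
              have hxx : φ x = φ x0 := by rw [hx', hw0]
              have hj := hfib x x0 hxx
              simp only [Set.Finite.coe_toFinset, Set.mem_ofPred_eq]
              refine ⟨Γ.mul_mem (Γ.inv_mem x0.2.2) x.2.2, ?_⟩
              have h5 : (x.2 : SL2) • p x.1 = (x0.2 : SL2) • p x0.1 := hxx
              rw [hj] at h5
              rw [mul_smul, h5, inv_smul_smul]
            · intro x hx y hy hxy
              have hx' := (Finset.mem_filter.1 (Finset.mem_coe.1 hx)).2
              have hy' := (Finset.mem_filter.1 (Finset.mem_coe.1 hy)).2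
              have hj := hfib x y (by rw [hx', hy'])
              have hxy' : (x0.2 : SL2)⁻¹ * x.2 = (x0.2 : SL2)⁻¹ * y.2 := hxy
              have h6 := mul_left_cancel hxy'
              exact Prod.ext hj (Subtype.ext h6)
          exact_mod_cast hcard
      _ = N * ∑ w ∈ T, g w := by rw [Finset.mul_sum]
      _ ≤ N * C1 := by
          apply mul_le_mul_of_nonneg_left hTsum (by positivity)
  have hsum : Summable (fun x : J × Γ => g (φ x)) :=
    summable_of_sum_le (fun x => hg _) hbound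
  have htot : ∑' x : J × Γ, g (φ x) ≤ N * C1 :=
    hsum.tsum_le_of_sum_le hbound
  have hfac : ∀ j, Summable (fun γ : Γ => g (φ (j, γ))) := fun j => hsum.prod_factor j
  refine ⟨hfac, hsum.prod, ?_⟩
  have e := hsum.tsum_prod
  have e' : ∑' j, kk Γ z (p j) = ∑' x : J × Γ, g (φ x) := e.symm
  rw [e']
  linarith

end NF

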