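import Pool.Agent.Helper369.NF.Defs
import Pool.Agent.Helper369.NF.P2

open MeasureTheory Filter Topology Metric UpperHalfPlane

namespace NF

/-! The following statements are GIVEN (other jobs); do not prove them. -/

/-! TARGET: -/


theorem cosh_add_le' (x y : ℝ) (hy : 0 ≤ y) : Real.cosh (x + y) ≤ Real.cosh x * Real.exp y := by
  rw [Real.cosh_add, ← Real.cosh_add_sinh y, mul_add]
  have h1 : Real.sinh x ≤ Real.cosh x := (Real.sinh_lt_cosh x).le
  have h2 : 0 ≤ Real.sinh y := Real.sinh_nonneg_iff.2 hy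
  have := mul_le_mul_of_nonneg_right h1 h2
  linarith

theorem term_le_K1 (p a z : ℍ) (γ : SL2) (h : dist p a ≤ 1 / (4 * 10 ^ 6)) :
    ((Real.cosh (dist z (γ • p) / 2)) ^ 4)⁻¹ ≤ 3 * ((Real.cosh (dist z (γ • a) / 2)) ^ 4)⁻¹ := by
  have h1 : dist z (γ • a) ≤ dist z (γ • p) + dist p a := by
    have := dist_triangle z (γ • p) (γ • a)
    rw [dist_smul] at this
    exact this
  have hda : 0 ≤ dist p a := dist_nonneg
  have h2 : Real.cosh (dist z (γ • a) / 2) ≤ Real.cosh (dist z (γ • p) / 2) * Real.exp (dist p a / 2) := by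
    have h3 : Real.cosh (dist z (γ • a) / 2) ≤ Real.cosh (dist z (γ • p) / 2 + dist p a / 2) := by
      rw [Real.cosh_le_cosh, abs_of_nonneg (by positivity), abs_of_nonneg (by positivity)]
      linarith
    exact h3.trans (cosh_add_le' _ _ (by positivity))
  have hpos1 : 0 < Real.cosh (dist z (γ • a) / 2) := Real.cosh_pos _
  have hpos2 : 0 < Real.cosh (dist z (γ • p) / 2) := Real.cosh_pos _
  have h4 : (Real.cosh (dist z (γ • a) / 2)) ^ 4 ≤ 3 * (Real.cosh (dist z (γ • p) / 2)) ^ 4 := by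
    have h5 : (Real.cosh (dist z (γ • a) / 2)) ^ 4 ≤
        (Real.cosh (dist z (γ • p) / 2) * Real.exp (dist p a / 2)) ^ 4 :=
      pow_le_pow_left₀ hpos1.le h2 4
    have h6 : (Real.exp (dist p a / 2)) ^ 4 ≤ 3 := by
      rw [← Real.exp_nat_mul]
      have : ((4:ℕ):ℝ) * (dist p a / 2) ≤ 1 := by
        push_cast
        have : (1:ℝ) / (4 * 10 ^ 6) ≤ 1/2 := by norm_num
        linarith
      have h7 := Real.exp_le_exp.2 this
      have h8 := Real.exp_one_lt_d9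
      linarith
    rw [mul_pow] at h5
    have h9 : 0 ≤ (Real.cosh (dist z (γ • p) / 2)) ^ 4 := by positivity
    nlinarith
  rw [← div_eq_mul_inv, inv_eq_one_div, div_le_div_iff₀ (by positivity) (by positivity)]
  linarith

theorem kk_port (N0 M0 : ℕ) (hst : StabBound N0 M0) : ∃ C : ℝ, 0 < C ∧ ∀ (Γ : Subgroup SL2), PD Γ →
    -1 ∈ Γ → ∀ p : ℍ, (∀ g ∈ Sp Γ, 1 / 100 ≤ disp g p) →
      (∃ a : ℍ, dist p a ≤ 1 / (4 * 10 ^ 6) ∧ Good Γ a (1 / 10 ^ 11)) →
      KSum Γ p ∧ ∀ z : ℍ, kk Γ z p ≤ C := by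
  obtain ⟨C0, hC0, hrow⟩ := kk_row (8 * (1 / 10 ^ 11)) (by norm_num) N0
  refine ⟨3 * C0, by positivity, ?_⟩
  rintro Γ hPD _ p _ ⟨a, hpa, hgood⟩
  obtain ⟨hfin, hcard, _⟩ := hst.2.2 Γ hPD a hgood.2.1
  have hr := hrow Γ Unit (fun _ => a) (fun _ γ hγ => hgood.1 γ hγ) (fun _ => ⟨hfin, hcard⟩)
    (fun i j hij => absurd (Subsingleton.elim i j) hij)
  have hsum : ∀ z : ℍ, Summable (fun γ : Γ => ((Real.cosh (dist z ((γ : SL2) • a) / 2)) ^ 4)⁻¹) :=
    fun z => (hr z).1 ()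
  have hle : ∀ z : ℍ, kk Γ z a ≤ C0 := by
    intro z
    have := (hr z).2.2
    simpa using this
  have hsp : KSum Γ p := by
    intro z
    refine Summable.of_nonneg_of_le (fun γ => ?_) (fun γ => term_le_K1 p a z γ hpa) ((hsum z).mul_left 3)
    have := Real.cosh_pos (dist z ((γ : SL2) • p) / 2)
    positivity
  refine ⟨hsp, fun z => ?_⟩
  have h1 : kk Γ z p ≤ 3 * kk Γ z a := by
    unfold kk
    rw [← tsum_mul_left]
    exact (hsp z).tsum_le_tsum (fun γ => term_le_K1 p a z γ hpa) ((hsum z).mul_left 3)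
  linarith [hle z]

end NF

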