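import Pool.Agent.Helper369.NF.Defs

open MeasureTheory Filter Topology Metric UpperHalfPlane

namespace NF

/-! TARGET: -/

theorem cosh_le_aux (a b D : ℝ) (h : |a - b| ≤ D) :
    Real.cosh a ≤ Real.exp D * Real.cosh b := by
  rw [Real.cosh_eq, Real.cosh_eq]
  have h1 : Real.exp a ≤ Real.exp D * Real.exp b := by
    rw [← Real.exp_add]
    apply Real.exp_le_exp.mpr
    have := (abs_le.mp h).2
    linarith
  have h2 : Real.exp (-a) ≤ Real.exp D * Real.exp (-b) := by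
    rw [← Real.exp_add]
    apply Real.exp_le_exp.mpr
    have := (abs_le.mp h).1
    linarith
  calc (Real.exp a + Real.exp (-a)) / 2
      ≤ (Real.exp D * Real.exp b + Real.exp D * Real.exp (-b)) / 2 := by gcongr
    _ = _ := by ring

theorem term_le_P3 (z w q : ℍ) :
    ((Real.cosh (dist w q / 2)) ^ 4)⁻¹ ≤
      Real.exp (2 * dist z w) * ((Real.cosh (dist z q / 2)) ^ 4)⁻¹ := by
  have hz : 0 < Real.cosh (dist z q / 2) := Real.cosh_pos _
  have hw : 0 < Real.cosh (dist w q / 2) := Real.cosh_pos _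
  have h1 : |dist z q / 2 - dist w q / 2| ≤ dist z w / 2 := by
    rw [← sub_div, abs_div, abs_two]
    have := abs_dist_sub_le z w q
    gcongr
  have h2 := cosh_le_aux _ _ _ h1
  have h3 : (Real.cosh (dist z q / 2)) ^ 4 ≤
      Real.exp (2 * dist z w) * (Real.cosh (dist w q / 2)) ^ 4 := by
    calc (Real.cosh (dist z q / 2)) ^ 4
        ≤ (Real.exp (dist z w / 2) * Real.cosh (dist w q / 2)) ^ 4 := by gcongr
      _ = (Real.exp (dist z w / 2)) ^ 4 * (Real.cosh (dist w q / 2)) ^ 4 := by ring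
      _ = _ := by
        rw [← Real.exp_nat_mul]
        congr 2
        push_cast
        ring
  rw [← div_eq_mul_inv, le_div_iff₀ (by positivity), inv_mul_eq_div, div_le_iff₀ (by positivity)]
  exact h3

theorem kk_props (Γ : Subgroup SL2) :
    (∀ z p : ℍ, kk Γ z p = kk Γ p z) ∧
    (∀ z p : ℍ, ∀ γ ∈ Γ, kk Γ (γ • z) p = kk Γ z p) ∧
    (∀ z p : ℍ, 0 ≤ kk Γ z p) ∧
    (∀ z w p : ℍ, Summable (fun γ : Γ => ((Real.cosh (dist z ((γ : SL2) • p) / 2)) ^ 4)⁻¹) →
      Summable (fun γ : Γ => ((Real.cosh (dist w ((γ : SL2) • p) / 2)) ^ 4)⁻¹) ∧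
      kk Γ w p ≤ Real.exp (2 * dist z w) * kk Γ z p) ∧
    (∀ z p : ℍ, Summable (fun γ : Γ => ((Real.cosh (dist z ((γ : SL2) • p) / 2)) ^ 4)⁻¹) →
      0 < kk Γ z p ∧ ((Real.cosh (dist z p / 2)) ^ 4)⁻¹ ≤ kk Γ z p) := by
  have hnn : ∀ (z p : ℍ) (γ : Γ), 0 ≤ ((Real.cosh (dist z ((γ : SL2) • p) / 2)) ^ 4)⁻¹ := by
    intro z p γ
    have := Real.cosh_pos (dist z ((γ : SL2) • p) / 2)
    positivity
  refine ⟨?_, ?_, ?_, ?_, ?_⟩
  · intro z p
    unfold kk
    rw [← (Equiv.inv Γ).tsum_eq]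
    congr 1
    funext γ
    have : dist z (((Equiv.inv Γ) γ : SL2) • p) = dist p ((γ : SL2) • z) := by
      have h1 := dist_smul (γ : SL2) z (((Equiv.inv Γ) γ : SL2) • p)
      rw [← h1]
      have h2 : (γ : SL2) • (((Equiv.inv Γ) γ : SL2) • p) = p := by
        rw [← mul_smul]
        simp
      rw [h2, dist_comm]
    rw [this]
  · intro z p γ hγ
    unfold kk
    rw [← (Equiv.mulLeft (⟨γ, hγ⟩ : Γ)).tsum_eq]
    congr 1
    funext δ
    have : dist (γ • z) ((((Equiv.mulLeft (⟨γ, hγ⟩ : Γ)) δ : Γ) : SL2) • p) =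
        dist z ((δ : SL2) • p) := by
      have h2 : (((Equiv.mulLeft (⟨γ, hγ⟩ : Γ)) δ : Γ) : SL2) • p = γ • ((δ : SL2) • p) := by
        rw [← mul_smul]
        simp
      rw [h2, dist_smul]
    rw [this]
  · intro z p
    exact tsum_nonneg (hnn z p)
  · intro z w p hs
    have hs' : Summable (fun γ : Γ => Real.exp (2 * dist z w) *
        ((Real.cosh (dist z ((γ : SL2) • p) / 2)) ^ 4)⁻¹) := hs.mul_left _
    have hsw : Summable (fun γ : Γ => ((Real.cosh (dist w ((γ : SL2) • p) / 2)) ^ 4)⁻¹) :=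
      Summable.of_nonneg_of_le (hnn w p) (fun γ => term_le_P3 z w ((γ : SL2) • p)) hs'
    refine ⟨hsw, ?_⟩
    unfold kk
    rw [← tsum_mul_left]
    exact hsw.tsum_le_tsum (fun γ => term_le_P3 z w ((γ : SL2) • p)) hs'
  · intro z p hs
    have h1 : ((Real.cosh (dist z p / 2)) ^ 4)⁻¹ ≤ kk Γ z p := by
      unfold kk
      have := hs.le_tsum (1 : Γ) (fun γ _ => hnn z p γ)
      simpa using this
    refine ⟨lt_of_lt_of_le ?_ h1, h1⟩
    have := Real.cosh_pos (dist z p / 2)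
    positivity

end NF

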