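import Pool.Agent.Helper369.NF.Defs
import Pool.Agent.Helper369.NF.B0

open MeasureTheory Filter Topology Metric UpperHalfPlane

namespace NF

/-! The following statements are GIVEN (other jobs); do not prove them. -/

/-! TARGET: -/

theorem N_eq_R1 (g : SL2) (z : ℂ) (hz : 0 < z.im) :
    (g 0 0 : ℂ) * z + (g 0 1 : ℂ) = dn g z * mob g z := by
  rw [mob, mul_div_cancel₀ _ (dn_ne g z hz)]

/-- one term of the kernel -/
noncomputable def DD (a : ℍ) (g : SL2) (z : ℍ) : ℝ := ((Real.cosh (dist z (g • a) / 2)) ^ 4)⁻¹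

theorem DD_pos (a : ℍ) (g : SL2) (z : ℍ) : 0 < DD a g z := by
  unfold DD
  have := Real.cosh_pos (dist z (g • a) / 2)
  positivity

theorem DD_le_one (a : ℍ) (g : SL2) (z : ℍ) : DD a g z ≤ 1 := by
  unfold DD
  apply inv_le_one_of_one_le₀
  exact one_le_pow₀ (Real.one_le_cosh _)

theorem norm_Tr_le (n e : ℕ) (a : ℍ) (g : SL2) (z : ℍ) :
    z.im ^ (2 * n) * ‖Tr n e a g z‖ ≤ (DD a g⁻¹ z) ^ n := by
  have hdist : dist z (g⁻¹ • a) = dist (g • z) a := by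
    rw [← dist_smul g z (g⁻¹ • a), smul_inv_smul]
  have hz : 0 < (z : ℂ).im := z.im_pos
  have hw : ((g • z : ℍ) : ℂ) = mob g z := coe_smul' g z
  have hwim : (g • z).im = z.im / ‖dn g z‖ ^ 2 := by
    rw [← UpperHalfPlane.coe_im, hw, im_mob g z hz]
    rfl
  set w : ℍ := g • z with hwdef
  have hd0 : dn g z ≠ 0 := dn_ne g z hz
  have hd : 0 < ‖dn g z‖ := norm_pos_iff.2 hd0
  set r := ‖(w : ℂ) - (starRingEnd ℂ) (a : ℂ)‖ with hr
  set s := ‖(w : ℂ) - (a : ℂ)‖ with hs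
  have hr0 : 0 < r := by
    rw [hr, norm_pos_iff]
    intro h
    have h1 := congrArg Complex.im h
    rw [Complex.sub_im, Complex.conj_im, Complex.zero_im] at h1
    have h2 : 0 < (w : ℂ).im := w.im_pos
    have h3 : 0 < (a : ℂ).im := a.im_pos
    linarith
  have hsr : s ≤ r := by
    rw [hs, hr, Complex.norm_def, Complex.norm_def]
    apply Real.sqrt_le_sqrt
    rw [Complex.normSq_apply, Complex.normSq_apply, Complex.sub_re, Complex.sub_im,
      Complex.sub_re, Complex.sub_im, Complex.conj_re, Complex.conj_im]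
    have h2 : 0 < (w : ℂ).im := w.im_pos
    have h3 : 0 < (a : ℂ).im := a.im_pos
    nlinarith [mul_pos h2 h3]
  have hwp : 0 < w.im := w.im_pos
  have hap : 0 < a.im := a.im_pos
  have hc : (Real.cosh (dist w a / 2)) ^ 2 = r ^ 2 / (4 * (w.im * a.im)) := by
    rw [UpperHalfPlane.cosh_half_dist, div_pow, mul_pow, Real.sq_sqrt (by positivity),
      Complex.dist_eq, hr]
    norm_num
  have hT : ‖Tr n e a g z‖ = (2 * Real.sqrt a.im) ^ (4 * n) * (‖dn g z‖ * s) ^ e /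
      (‖dn g z‖ * r) ^ (4 * n + e) := by
    rw [Tr, norm_div, norm_mul, norm_pow, norm_pow, norm_pow, N_eq_R1 g z hz, ← hw]
    have e1 : dn g z * (w : ℂ) - (a : ℂ) * dn g z = dn g z * ((w : ℂ) - a) := by ring
    have e2 : dn g z * (w : ℂ) - (starRingEnd ℂ) (a : ℂ) * dn g z =
        dn g z * ((w : ℂ) - (starRingEnd ℂ) (a : ℂ)) := by ring
    have e3 : ‖(2 * (Real.sqrt a.im : ℂ))‖ = 2 * Real.sqrt a.im := by
      rw [norm_mul, Complex.norm_real, Real.norm_eq_abs, abs_of_nonneg (Real.sqrt_nonneg _)]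
      norm_num
    rw [e1, e2, e3, norm_mul (dn g z), norm_mul (dn g z)]
  have hT2 : ‖Tr n e a g z‖ ≤ (2 * Real.sqrt a.im) ^ (4 * n) / (‖dn g z‖ * r) ^ (4 * n) := by
    rw [hT, pow_add, mul_div_mul_comm]
    apply mul_le_of_le_one_right (by positivity)
    apply div_le_one_of_le₀ _ (by positivity)
    apply pow_le_pow_left₀ (by positivity)
    exact mul_le_mul_of_nonneg_left hsr hd.le
  calc z.im ^ (2 * n) * ‖Tr n e a g z‖ ≤
      z.im ^ (2 * n) * ((2 * Real.sqrt a.im) ^ (4 * n) / (‖dn g z‖ * r) ^ (4 * n)) :=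
        mul_le_mul_of_nonneg_left hT2 (by have := z.im_pos; positivity)
    _ = (DD a g⁻¹ z) ^ n := by
        unfold DD
        rw [hdist]
        have e1 : (Real.cosh (dist w a / 2)) ^ 4 = (r ^ 2 / (4 * (w.im * a.im))) ^ 2 := by
          rw [← hc, ← pow_mul]
        rw [e1, hwim]
        have e2 : (2 * Real.sqrt a.im) ^ (4 * n) = (4 * a.im) ^ (2 * n) := by
          rw [show 4 * n = 2 * (2 * n) by ring, pow_mul, mul_pow, Real.sq_sqrt hap.le]
          norm_num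
        have e3 : (‖dn g z‖ * r) ^ (4 * n) = (‖dn g z‖ ^ 2 * r ^ 2) ^ (2 * n) := by
          rw [show 4 * n = 2 * (2 * n) by ring, pow_mul, mul_pow]
        rw [e2, e3, ← div_pow, ← mul_pow, ← inv_pow, ← pow_mul]
        congr 1
        have := z.im_pos
        field_simp

theorem summ1 (Γ : Subgroup SL2) (a : ℍ)
    (hs : ∀ z : ℍ, Summable (fun γ : Γ => ((Real.cosh (dist z ((γ : SL2) • a) / 2)) ^ 4)⁻¹))
    (z : ℍ) : Summable (fun γ : Γ => DD a ((γ : SL2))⁻¹ z) := by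
  have := (Equiv.inv Γ).summable_iff.2 (hs z)
  exact this

theorem summn (Γ : Subgroup SL2) (n : ℕ) (hn : 1 ≤ n) (a : ℍ)
    (hs : ∀ z : ℍ, Summable (fun γ : Γ => ((Real.cosh (dist z ((γ : SL2) • a) / 2)) ^ 4)⁻¹))
    (z : ℍ) : Summable (fun γ : Γ => (DD a ((γ : SL2))⁻¹ z) ^ n) := by
  apply Summable.of_nonneg_of_le (fun γ => (pow_pos (DD_pos _ _ _) n).le) _ (summ1 Γ a hs z)
  intro γ
  calc (DD a ((γ : SL2))⁻¹ z) ^ n ≤ (DD a ((γ : SL2))⁻¹ z) ^ 1 :=
      pow_le_pow_of_le_one (DD_pos _ _ _).le (DD_le_one _ _ _) hn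
    _ = _ := pow_one _

theorem summT (Γ : Subgroup SL2) (n e : ℕ) (hn : 1 ≤ n) (a : ℍ)
    (hs : ∀ z : ℍ, Summable (fun γ : Γ => ((Real.cosh (dist z ((γ : SL2) • a) / 2)) ^ 4)⁻¹))
    (z : ℍ) : Summable (fun γ : Γ => z.im ^ (2 * n) * ‖Tr n e a (γ : SL2) z‖) := by
  apply Summable.of_nonneg_of_le _ (fun γ : Γ => norm_Tr_le n e a (γ : SL2) z)
    (summn Γ n hn a hs z)
  intro γ
  have := z.im_pos
  positivity

theorem cosh_add_le (x y : ℝ) (hy : 0 ≤ y) : Real.cosh (x + y) ≤ Real.exp y * Real.cosh x := by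
  rw [Real.cosh_add, ← Real.cosh_add_sinh y]
  have h1 : Real.sinh x ≤ Real.cosh x := (Real.sinh_lt_cosh x).le
  have h2 : 0 ≤ Real.sinh y := Real.sinh_nonneg_iff.2 hy
  nlinarith

theorem DD_near (a : ℍ) (g : SL2) (z w : ℍ) (h : dist w z ≤ 1) :
    DD a g w ≤ Real.exp 2 * DD a g z := by
  unfold DD
  have h1 : dist z (g • a) / 2 ≤ dist w (g • a) / 2 + 1 / 2 := by
    have := dist_triangle z w (g • a)
    rw [dist_comm z w] at this
    linarith
  have h2 : Real.cosh (dist z (g • a) / 2) ≤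
      Real.exp (1 / 2) * Real.cosh (dist w (g • a) / 2) := by
    refine le_trans ?_ (cosh_add_le _ _ (by norm_num))
    rw [Real.cosh_le_cosh, abs_of_nonneg (by positivity), abs_of_nonneg (by positivity)]
    exact h1
  have h3 : 0 < Real.cosh (dist z (g • a) / 2) := Real.cosh_pos _
  have h4 : 0 < Real.cosh (dist w (g • a) / 2) := Real.cosh_pos _
  have h5 : (Real.cosh (dist z (g • a) / 2)) ^ 4 ≤
      Real.exp 2 * (Real.cosh (dist w (g • a) / 2)) ^ 4 := by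
    calc (Real.cosh (dist z (g • a) / 2)) ^ 4 ≤
        (Real.exp (1 / 2) * Real.cosh (dist w (g • a) / 2)) ^ 4 :=
          pow_le_pow_left₀ h3.le h2 4
      _ = _ := by
        rw [mul_pow, ← Real.exp_nat_mul]
        norm_num
  rw [inv_eq_one_div, ← div_eq_mul_inv, div_le_div_iff₀ (by positivity) (by positivity), one_mul]
  exact h5

theorem num_ne (a : ℍ) (g : SL2) (z : ℂ) (hz : 0 < z.im) :
    ((g 0 0 : ℂ) * z + (g 0 1 : ℂ)) - (starRingEnd ℂ) (a : ℂ) * dn g z ≠ 0 := by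
  rw [N_eq_R1 g z hz]
  have e2 : dn g z * mob g z - (starRingEnd ℂ) (a : ℂ) * dn g z =
      dn g z * (mob g z - (starRingEnd ℂ) (a : ℂ)) := by ring
  rw [e2]
  apply mul_ne_zero (dn_ne g z hz)
  intro h
  have h1 := congrArg Complex.im h
  rw [Complex.sub_im, Complex.conj_im, Complex.zero_im, im_mob g z hz] at h1
  have h3 : 0 < (a : ℂ).im := a.im_pos
  have h4 : 0 < ‖dn g z‖ := norm_pos_iff.2 (dn_ne g z hz)
  have : 0 < z.im / ‖dn g z‖ ^ 2 := by positivity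
  linarith

theorem Tr_diff (n e : ℕ) (a : ℍ) (g : SL2) (z : ℂ) (hz : 0 < z.im) :
    DifferentiableAt ℂ (Tr n e a g) z := by
  unfold Tr dn
  apply DifferentiableAt.div
  · fun_prop
  · fun_prop
  · exact pow_ne_zero _ (num_ne a g z hz)

theorem PR_props (Γ : Subgroup SL2) (n e : ℕ) (hn : 1 ≤ n) (a : ℍ)
    (hs : ∀ z : ℍ, Summable (fun γ : Γ => ((Real.cosh (dist z ((γ : SL2) • a) / 2)) ^ 4)⁻¹)) :
    (∀ z : ℂ, 0 < z.im → DifferentiableAt ℂ (PR Γ n e a) z) ∧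
    (∀ γ ∈ Γ, ∀ z : ℍ, PR Γ n e a (mob γ z) = dn γ z ^ (4 * n) * PR Γ n e a z) ∧
    (∀ z : ℍ, z.im ^ (2 * n) * ‖PR Γ n e a z‖ ≤ (kk Γ z a) ^ n) := by
  refine ⟨?_, ?_, ?_⟩
  · intro z0 hz0
    set p : ℍ := ⟨z0, hz0⟩ with hp
    set V : Set ℍ := {w : ℍ | dist w p < 1 ∧ p.im / 2 < w.im} with hV
    have hVo : IsOpen V := by
      apply IsOpen.inter
      · exact isOpen_lt (continuous_id.dist continuous_const) continuous_const
      · exact isOpen_lt continuous_const UpperHalfPlane.continuous_im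
    set U : Set ℂ := (fun w : ℍ => (w : ℂ)) '' V with hU
    have hUo : IsOpen U := UpperHalfPlane.isOpenEmbedding_coe.isOpenMap V hVo
    have hzU : z0 ∈ U := ⟨p, ⟨by rw [dist_self]; exact one_pos, by
      have := p.im_pos
      linarith⟩, rfl⟩
    have hd := Complex.differentiableOn_tsum_of_summable_norm (ι := Γ)
      (u := fun γ : Γ => ((p.im / 2) ^ (2 * n))⁻¹ * (Real.exp 2 * DD a ((γ : SL2))⁻¹ p))
      (F := fun γ z => Tr n e a (γ : SL2) z) (U := U)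
      (((summ1 Γ a hs p).mul_left _).mul_left _) ?_ hUo ?_
    · exact (hd z0 hzU).differentiableAt (hUo.mem_nhds hzU)
    · rintro γ _ ⟨w, hw, rfl⟩
      exact (Tr_diff n e a γ w w.im_pos).differentiableWithinAt
    · rintro γ _ ⟨w, hw, rfl⟩
      have h1 := norm_Tr_le n e a (γ : SL2) w
      have h2 : (DD a ((γ : SL2))⁻¹ w) ^ n ≤ DD a ((γ : SL2))⁻¹ w := by
        calc (DD a ((γ : SL2))⁻¹ w) ^ n ≤ (DD a ((γ : SL2))⁻¹ w) ^ 1 :=
            pow_le_pow_of_le_one (DD_pos _ _ _).le (DD_le_one _ _ _) hn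
          _ = _ := pow_one _
      have h3 := DD_near a ((γ : SL2))⁻¹ p w hw.1.le
      have hpp := p.im_pos
      have h4 : (p.im / 2) ^ (2 * n) ≤ w.im ^ (2 * n) :=
        pow_le_pow_left₀ (by positivity) hw.2.le _
      have h5 : 0 < (p.im / 2) ^ (2 * n) := by positivity
      rw [inv_mul_eq_div, le_div_iff₀ h5, mul_comm]
      calc (p.im / 2) ^ (2 * n) * ‖Tr n e a (γ : SL2) w‖ ≤
          w.im ^ (2 * n) * ‖Tr n e a (γ : SL2) w‖ :=
            mul_le_mul_of_nonneg_right h4 (norm_nonneg _)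
        _ ≤ _ := h1.trans (h2.trans h3)
  · intro γ0 hγ0 z
    have hz : 0 < (z : ℂ).im := z.im_pos
    have hd0 : dn γ0 z ≠ 0 := dn_ne γ0 z hz
    have key : ∀ γ : SL2, Tr n e a γ (mob γ0 z) = dn γ0 z ^ (4 * n) * Tr n e a (γ * γ0) z := by
      intro γ
      have m00 : ((γ * γ0) 0 0 : ℝ) = γ 0 0 * γ0 0 0 + γ 0 1 * γ0 1 0 := by
        rw [Matrix.SpecialLinearGroup.coe_mul, Matrix.mul_apply, Fin.sum_univ_two]
      have m01 : ((γ * γ0) 0 1 : ℝ) = γ 0 0 * γ0 0 1 + γ 0 1 * γ0 1 1 := by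
        rw [Matrix.SpecialLinearGroup.coe_mul, Matrix.mul_apply, Fin.sum_univ_two]
      have m10 : ((γ * γ0) 1 0 : ℝ) = γ 1 0 * γ0 0 0 + γ 1 1 * γ0 1 0 := by
        rw [Matrix.SpecialLinearGroup.coe_mul, Matrix.mul_apply, Fin.sum_univ_two]
      have m11 : ((γ * γ0) 1 1 : ℝ) = γ 1 0 * γ0 0 1 + γ 1 1 * γ0 1 1 := by
        rw [Matrix.SpecialLinearGroup.coe_mul, Matrix.mul_apply, Fin.sum_univ_two]
      have hN := N_eq_R1 γ0 z hz
      have hD : dn γ0 z = (γ0 1 0 : ℂ) * z + (γ0 1 1 : ℂ) := rfl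
      have f1 : ((γ 0 0 : ℂ) * mob γ0 z + (γ 0 1 : ℂ)) =
          (((γ * γ0) 0 0 : ℝ) * (z : ℂ) + ((γ * γ0) 0 1 : ℝ)) / dn γ0 z := by
        rw [eq_div_iff hd0, m00, m01]
        push_cast
        linear_combination (-(γ 0 0 : ℂ)) * hN + (γ 0 1 : ℂ) * hD
      have f2 : dn γ (mob γ0 z) = dn (γ * γ0) z / dn γ0 z := by
        rw [eq_div_iff hd0]
        unfold dn at hN hD ⊢
        rw [m10, m11]
        push_cast
        linear_combination (-(γ 1 0 : ℂ)) * hN + (γ 1 1 : ℂ) * hD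
      rw [Tr, Tr, f1, f2]
      have f3 : (((γ * γ0) 0 0 : ℝ) * (z : ℂ) + ((γ * γ0) 0 1 : ℝ)) / dn γ0 z -
          (a : ℂ) * (dn (γ * γ0) z / dn γ0 z) =
          ((((γ * γ0) 0 0 : ℝ) * (z : ℂ) + ((γ * γ0) 0 1 : ℝ)) -
          (a : ℂ) * dn (γ * γ0) z) / dn γ0 z := by ring
      have f4 : (((γ * γ0) 0 0 : ℝ) * (z : ℂ) + ((γ * γ0) 0 1 : ℝ)) / dn γ0 z -
          (starRingEnd ℂ) (a : ℂ) * (dn (γ * γ0) z / dn γ0 z) =
          ((((γ * γ0) 0 0 : ℝ) * (z : ℂ) + ((γ * γ0) 0 1 : ℝ)) -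
          (starRingEnd ℂ) (a : ℂ) * dn (γ * γ0) z) / dn γ0 z := by ring
      rw [f3, f4, div_pow, div_pow]
      have hne := num_ne a (γ * γ0) z hz
      set Q := ((((γ * γ0) 0 0 : ℝ) * (z : ℂ) + ((γ * γ0) 0 1 : ℝ)) -
          (starRingEnd ℂ) (a : ℂ) * dn (γ * γ0) z) with hQ
      rw [pow_add (dn γ0 z)]
      field_simp
    unfold PR
    rw [← tsum_mul_left]
    rw [← (Equiv.mulRight (⟨γ0, hγ0⟩ : Γ)).tsum_eq
      (fun γ : Γ => dn γ0 z ^ (4 * n) * Tr n e a (γ : SL2) z)]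
    apply tsum_congr
    intro γ
    rw [key]
    rfl
  · intro z
    have hzp := z.im_pos
    have hsT := summT Γ n e hn a hs z
    have hsT' : Summable (fun γ : Γ => ‖Tr n e a (γ : SL2) z‖) := by
      have := hsT.mul_left ((z.im ^ (2 * n))⁻¹)
      refine this.congr (fun γ => ?_)
      rw [← mul_assoc, inv_mul_cancel₀ (by positivity), one_mul]
    have h1 : ‖PR Γ n e a z‖ ≤ ∑' γ : Γ, ‖Tr n e a (γ : SL2) z‖ := norm_tsum_le_tsum_norm hsT'
    have hK : Summable (fun γ : Γ => DD a (γ : SL2) z) := hs z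
    have hKn : Summable (fun γ : Γ => (DD a (γ : SL2) z) ^ n) := by
      apply Summable.of_nonneg_of_le (fun γ => (pow_pos (DD_pos _ _ _) n).le) _ hK
      intro γ
      calc (DD a ((γ : SL2)) z) ^ n ≤ (DD a ((γ : SL2)) z) ^ 1 :=
          pow_le_pow_of_le_one (DD_pos _ _ _).le (DD_le_one _ _ _) hn
        _ = _ := pow_one _
    calc z.im ^ (2 * n) * ‖PR Γ n e a z‖ ≤
        z.im ^ (2 * n) * ∑' γ : Γ, ‖Tr n e a (γ : SL2) z‖ :=
          mul_le_mul_of_nonneg_left h1 (by positivity)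
      _ = ∑' γ : Γ, z.im ^ (2 * n) * ‖Tr n e a (γ : SL2) z‖ := by rw [tsum_mul_left]
      _ ≤ ∑' γ : Γ, (DD a ((γ : SL2))⁻¹ z) ^ n :=
          hsT.tsum_le_tsum (fun γ => norm_Tr_le n e a (γ : SL2) z) (summn Γ n hn a hs z)
      _ = ∑' γ : Γ, (DD a (γ : SL2) z) ^ n :=
          (Equiv.inv Γ).tsum_eq (fun γ : Γ => (DD a (γ : SL2) z) ^ n)
      _ ≤ ∑' γ : Γ, DD a (γ : SL2) z * (kk Γ z a) ^ (n - 1) := by
          apply hKn.tsum_le_tsum _ (hK.mul_right _)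
          intro γ
          obtain ⟨m, rfl⟩ : ∃ m, n = m + 1 := ⟨n - 1, by omega⟩
          rw [Nat.add_sub_cancel, pow_succ, mul_comm]
          apply mul_le_mul_of_nonneg_left _ (DD_pos _ _ _).le
          apply pow_le_pow_left₀ (DD_pos _ _ _).le
          exact hK.le_tsum γ (fun j _ => (DD_pos _ _ _).le)
      _ = (kk Γ z a) ^ n := by
          rw [tsum_mul_right]
          obtain ⟨m, rfl⟩ : ∃ m, n = m + 1 := ⟨n - 1, by omega⟩
          rw [Nat.add_sub_cancel, pow_succ, mul_comm]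
          rfl

end NF

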