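import Pool.Agent.Helper369.NF.Defs
import Pool.Agent.Helper369.NF.B0
import Pool.Agent.Helper369.NF.P2

open MeasureTheory Filter Topology Metric UpperHalfPlane

namespace NF

/-! The following statements are GIVEN (other jobs); do not prove them. -/

/-! TARGET: -/

theorem prc_num (g : SL2) (z : ℍ) :
    (g 0 0 : ℂ) * (z : ℂ) + (g 0 1 : ℂ) = ((g • z : ℍ) : ℂ) * dn g z := by
  rw [coe_smul']
  unfold mob
  rw [div_mul_cancel₀ _ (dn_ne g z z.im_pos)]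

theorem prc_det (g : SL2) : (g 0 0 : ℂ) * (g 1 1 : ℂ) - (g 0 1 : ℂ) * (g 1 0 : ℂ) = 1 := by
  have h := g.det_coe
  rw [Matrix.det_fin_two] at h
  exact_mod_cast h

theorem prc_im (g : SL2) (z : ℍ) : (g • z : ℍ).im = z.im / ‖dn g z‖ ^ 2 := by
  have h := im_mob g z z.im_pos
  rw [← coe_smul'] at h
  exact h

/-- stabiliser terms -/
theorem prc_stab (n e M0 : ℕ) (he : M0 ∣ e) (hn : M0 ∣ 4 * n) (a z : ℍ) (g : SL2)
    (hg : g • a = a) (hd : (dn g a) ^ M0 = 1) :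
    Tr n e a g z * (((z : ℂ) - (starRingEnd ℂ) (a : ℂ)) / (2 * (Real.sqrt a.im : ℂ))) ^ (4 * n) =
      (((z : ℂ) - (a : ℂ)) / ((z : ℂ) - (starRingEnd ℂ) (a : ℂ))) ^ e := by
  set Z : ℂ := (z : ℂ) with hZ
  set A : ℂ := (a : ℂ) with hA
  set Ab : ℂ := (starRingEnd ℂ) A with hAb
  set d : ℂ := dn g a with hdd
  set db : ℂ := (starRingEnd ℂ) d with hdb
  have hA1 : (g 0 0 : ℂ) * A + (g 0 1 : ℂ) = A * d := by
    have := prc_num g a
    rw [hg] at this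
    exact this
  have hd1 : d = (g 1 0 : ℂ) * A + (g 1 1 : ℂ) := rfl
  have hdb1 : db = (g 1 0 : ℂ) * Ab + (g 1 1 : ℂ) := by
    rw [hdb, hd1, map_add, map_mul, Complex.conj_ofReal, Complex.conj_ofReal]
  have hAb1 : (g 0 0 : ℂ) * Ab + (g 0 1 : ℂ) = Ab * db := by
    have := congrArg (starRingEnd ℂ) hA1
    rw [map_add, map_mul, map_mul, Complex.conj_ofReal, Complex.conj_ofReal] at this
    exact this
  have hdet := prc_det g
  have hd0 : d ≠ 0 := dn_ne g a a.im_pos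
  have hnorm : ‖d‖ = 1 := by
    have h1 := prc_im g a
    rw [hg] at h1
    have h2 : ‖d‖ ^ 2 = 1 := by
      have hp : 0 < ‖d‖ ^ 2 := by positivity
      have h3 : a.im * ‖d‖ ^ 2 = a.im := by
        rw [eq_div_iff hp.ne'] at h1
        exact h1
      have h4 := a.im_pos
      nlinarith
    nlinarith [norm_nonneg d]
  have hddb : d * db = 1 := by
    rw [hdb, Complex.mul_conj, Complex.normSq_eq_norm_sq, hnorm]
    simp
  have hdb0 : db ≠ 0 := right_ne_zero_of_mul_eq_one hddb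
  have e1 : ((g 0 0 : ℂ) * Z + (g 0 1 : ℂ)) - A * dn g Z = (Z - A) / d := by
    rw [eq_div_iff hd0]
    unfold dn
    have : (g 1 0 : ℂ) * A + (g 1 1 : ℂ) = d := hd1.symm
    linear_combination (Z - A) * hdet + ((g 1 0 : ℂ) * Z + (g 1 1 : ℂ)) * hA1 + ((g 0 0 : ℂ) * Z + (g 0 1 : ℂ)) * hd1
  have e2 : ((g 0 0 : ℂ) * Z + (g 0 1 : ℂ)) - Ab * dn g Z = (Z - Ab) / db := by
    rw [eq_div_iff hdb0]
    unfold dn
    linear_combination (Z - Ab) * hdet + ((g 1 0 : ℂ) * Z + (g 1 1 : ℂ)) * hAb1 + ((g 0 0 : ℂ) * Z + (g 0 1 : ℂ)) * hdb1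
  have hdbM : db ^ M0 = 1 := by
    rw [hdb, ← map_pow, hd, map_one]
  have hde : d ^ e = 1 := by
    obtain ⟨k, rfl⟩ := he
    rw [pow_mul, hd, one_pow]
  have hdbe : db ^ (4 * n + e) = 1 := by
    obtain ⟨k, hk⟩ := (Nat.dvd_add hn he)
    rw [hk, pow_mul, hdbM, one_pow]
  have hs0 : (2 * (Real.sqrt a.im : ℂ)) ≠ 0 := by
    have : (0:ℝ) < Real.sqrt a.im := Real.sqrt_pos.mpr a.im_pos
    have h2 : (Real.sqrt a.im : ℂ) ≠ 0 := by exact_mod_cast this.ne'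
    exact mul_ne_zero two_ne_zero h2
  have hZAb : Z - Ab ≠ 0 := by
    intro h
    have h1 : (Z - Ab).im = 0 := by rw [h]; simp
    have h2 : (Z - Ab).im = z.im + a.im := by
      rw [Complex.sub_im, hAb, Complex.conj_im]
      simp [hZ, hA]
    have := z.im_pos
    have := a.im_pos
    linarith
  have hTr : Tr n e a g Z = (2 * (Real.sqrt a.im : ℂ)) ^ (4 * n) *
      (((g 0 0 : ℂ) * Z + (g 0 1 : ℂ)) - A * dn g Z) ^ e /
      (((g 0 0 : ℂ) * Z + (g 0 1 : ℂ)) - Ab * dn g Z) ^ (4 * n + e) := rfl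
  rw [hTr, e1, e2, div_pow, div_pow (Z - Ab) db, hde, hdbe, div_one, div_one]
  rw [pow_add (Z - Ab), div_pow, div_pow]
  field_simp

theorem prc_conj_dist (z a : ℍ) : ‖(z : ℂ) - (starRingEnd ℂ) (a : ℂ)‖ =
    Real.cosh (dist z a / 2) * (2 * √(z.im * a.im)) := by
  rw [UpperHalfPlane.cosh_half_dist, dist_eq_norm, div_mul_cancel₀]
  have := z.im_pos
  have := a.im_pos
  positivity

theorem prc_dist (z a : ℍ) : ‖(z : ℂ) - (a : ℂ)‖ ≤ ‖(z : ℂ) - (starRingEnd ℂ) (a : ℂ)‖ := by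
  have h1 := UpperHalfPlane.sinh_half_dist z a
  have h2 := UpperHalfPlane.cosh_half_dist z a
  have h3 : Real.sinh (dist z a / 2) ≤ Real.cosh (dist z a / 2) := (Real.sinh_lt_cosh _).le
  rw [h1, h2, dist_eq_norm, dist_eq_norm] at h3
  have hz := z.im_pos
  have ha := a.im_pos
  have hp : 0 < 2 * √(z.im * a.im) := by positivity
  exact (div_le_div_iff_of_pos_right hp).mp h3

/-- norm of the general terms -/
theorem prc_norm (n e : ℕ) (a z : ℍ) (g : SL2) :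
    ‖Tr n e a g z * (((z : ℂ) - (starRingEnd ℂ) (a : ℂ)) / (2 * (Real.sqrt a.im : ℂ))) ^ (4 * n)‖ ≤
      (Real.cosh (dist z a / 2) / Real.cosh (dist (g • z) a / 2)) ^ (4 * n) := by
  have hz := z.im_pos
  have ha := a.im_pos
  set W : ℂ := ((g • z : ℍ) : ℂ) with hW
  set D : ℂ := dn g z with hD
  have hD0 : D ≠ 0 := dn_ne g z hz
  have hDp : 0 < ‖D‖ := norm_pos_iff.mpr hD0
  have e1 : ((g 0 0 : ℂ) * (z : ℂ) + (g 0 1 : ℂ)) - (a : ℂ) * dn g (z : ℂ) = (W - a) * D := by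
    rw [prc_num]; ring
  have e2 : ((g 0 0 : ℂ) * (z : ℂ) + (g 0 1 : ℂ)) - (starRingEnd ℂ) (a : ℂ) * dn g (z : ℂ) =
      (W - (starRingEnd ℂ) (a : ℂ)) * D := by
    rw [prc_num]; ring
  have hc1 := Real.cosh_pos (dist z a / 2)
  have hc2 := Real.cosh_pos (dist (g • z) a / 2)
  have hs : √((g • z : ℍ).im * a.im) = √(z.im * a.im) / ‖D‖ := by
    rw [prc_im, div_mul_eq_mul_div, Real.sqrt_div (by positivity), Real.sqrt_sq hDp.le]
  have n1 := prc_conj_dist z a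
  have n2 := prc_conj_dist (g • z) a
  rw [hs] at n2
  have hsa : 0 < √(z.im * a.im) := by positivity
  have hsy : 0 < √a.im := by positivity
  have n3 : ‖(z : ℂ) - (starRingEnd ℂ) (a : ℂ)‖ / (‖W - (starRingEnd ℂ) (a : ℂ)‖ * ‖D‖) =
      Real.cosh (dist z a / 2) / Real.cosh (dist (g • z) a / 2) := by
    rw [n1, hW, n2]
    field_simp
  have n4 : ‖W - (a:ℂ)‖ ≤ ‖W - (starRingEnd ℂ) (a : ℂ)‖ := prc_dist (g • z) a
  have n5 : 0 < ‖W - (starRingEnd ℂ) (a : ℂ)‖ := by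
    rw [hW, n2]; positivity
  have n6 : ‖(2 : ℂ)‖ * ‖((Real.sqrt a.im : ℝ) : ℂ)‖ = 2 * √a.im := by
    rw [Complex.norm_real]
    simp [abs_of_pos hsy]
  have hTr : Tr n e a g z = (2 * (Real.sqrt a.im : ℂ)) ^ (4 * n) *
      (((g 0 0 : ℂ) * (z : ℂ) + (g 0 1 : ℂ)) - (a : ℂ) * dn g (z : ℂ)) ^ e /
      (((g 0 0 : ℂ) * (z : ℂ) + (g 0 1 : ℂ)) - (starRingEnd ℂ) (a : ℂ) * dn g (z : ℂ)) ^ (4 * n + e) := rfl
  rw [hTr, e1, e2]
  simp only [norm_mul, norm_div, norm_pow]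
  rw [n6, ← n3]
  have key : (2 * √a.im) ^ (4 * n) * (‖W - (a:ℂ)‖ * ‖D‖) ^ e /
      (‖W - (starRingEnd ℂ) (a : ℂ)‖ * ‖D‖) ^ (4 * n + e) *
      (‖(z : ℂ) - (starRingEnd ℂ) (a : ℂ)‖ / (2 * √a.im)) ^ (4 * n) =
      (‖W - (a:ℂ)‖ / ‖W - (starRingEnd ℂ) (a : ℂ)‖) ^ e *
      (‖(z : ℂ) - (starRingEnd ℂ) (a : ℂ)‖ / (‖W - (starRingEnd ℂ) (a : ℂ)‖ * ‖D‖)) ^ (4 * n) := by
    rw [pow_add, mul_pow _ _ e, mul_pow _ _ e, div_pow, div_pow, div_pow]
    field_simp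
  rw [key]
  have h1 : (‖W - (a:ℂ)‖ / ‖W - (starRingEnd ℂ) (a : ℂ)‖) ^ e ≤ 1 := by
    apply pow_le_one₀ (by positivity)
    rw [div_le_one n5]
    exact n4
  have h2 : 0 ≤ (‖(z : ℂ) - (starRingEnd ℂ) (a : ℂ)‖ / (‖W - (starRingEnd ℂ) (a : ℂ)‖ * ‖D‖)) ^ (4 * n) := by
    positivity
  nlinarith

theorem prc_dist_inv (g : SL2) (z a : ℍ) : dist (g • z) a = dist z (g⁻¹ • a) := by
  have h := dist_smul g z (g⁻¹ • a)
  rw [smul_inv_smul] at h
  exact h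

/-- bound of the non stabiliser terms -/
theorem prc_bound (ρ : ℝ) (n e : ℕ) (hn : 1 ≤ n) (a z : ℍ) (hz : dist z a ≤ ρ) (g : SL2)
    (hg : 8 * ρ ≤ dist a (g⁻¹ • a)) (hρ : 0 < ρ) :
    ‖Tr n e a g z * (((z : ℂ) - (starRingEnd ℂ) (a : ℂ)) / (2 * (Real.sqrt a.im : ℂ))) ^ (4 * n)‖ ≤
      ((Real.cosh (ρ / 2) / Real.cosh (7 * ρ / 2)) ^ (4 * (n - 1)) * Real.cosh (ρ / 2) ^ 4) *
        ((Real.cosh (dist z (g⁻¹ • a) / 2)) ^ 4)⁻¹ := by
  refine (prc_norm n e a z g).trans ?_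
  rw [prc_dist_inv]
  have hd : 7 * ρ ≤ dist z (g⁻¹ • a) := by
    have := dist_triangle a z (g⁻¹ • a)
    rw [dist_comm a z] at this
    linarith
  have c1 : Real.cosh (dist z a / 2) ≤ Real.cosh (ρ / 2) := by
    rw [Real.cosh_le_cosh, abs_of_nonneg (by positivity), abs_of_nonneg (by positivity)]
    linarith
  have c2 : Real.cosh (7 * ρ / 2) ≤ Real.cosh (dist z (g⁻¹ • a) / 2) := by
    rw [Real.cosh_le_cosh, abs_of_nonneg (by positivity), abs_of_nonneg (by positivity)]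
    linarith
  have p0 := Real.cosh_pos (dist z a / 2)
  have p1 := Real.cosh_pos (ρ / 2)
  have p2 := Real.cosh_pos (7 * ρ / 2)
  have p3 := Real.cosh_pos (dist z (g⁻¹ • a) / 2)
  have e1 : 4 * n = 4 * (n - 1) + 4 := by omega
  rw [e1, pow_add, mul_assoc]
  apply mul_le_mul
  · apply pow_le_pow_left₀ (by positivity)
    exact div_le_div₀ p1.le c1 p2 c2
  · rw [div_pow, div_eq_mul_inv]
    apply mul_le_mul_of_nonneg_right _ (by positivity)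
    exact pow_le_pow_left₀ p0.le c1 4
  · positivity
  · positivity

theorem PR_center (ρ : ℝ) (hρ : 0 < ρ) (hρ1 : ρ ≤ 1) (N0 M0 : ℕ) (hM0 : 0 < M0) (ε : ℝ) (hε : 0 < ε) :
    ∃ n0 : ℕ, ∀ n : ℕ, n0 ≤ n → M0 ∣ 4 * n → ∀ (Γ : Subgroup SL2) (a : ℍ),
    (∀ γ ∈ Γ, γ • a = a ∨ 8 * ρ ≤ dist a (γ • a)) →
    {γ : SL2 | γ ∈ Γ ∧ γ • a = a}.Finite → {γ : SL2 | γ ∈ Γ ∧ γ • a = a}.ncard ≤ N0 →
    (∀ γ ∈ Γ, γ • a = a → (dn γ a) ^ M0 = 1) → ∀ e : ℕ, M0 ∣ e → ∀ z : ℍ, dist z a ≤ ρ →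
    ‖PR Γ n e a z * (((z : ℂ) - (starRingEnd ℂ) (a : ℂ)) / (2 * (Real.sqrt a.im : ℂ))) ^ (4 * n) -
      ({γ : SL2 | γ ∈ Γ ∧ γ • a = a}.ncard : ℂ) *
        (((z : ℂ) - (a : ℂ)) / ((z : ℂ) - (starRingEnd ℂ) (a : ℂ))) ^ e‖ ≤ ε := by
  classical
  obtain ⟨C, hC, hkk⟩ := kk_row (8 * ρ) (by positivity) N0
  have p1 := Real.cosh_pos (ρ / 2)
  have p2 := Real.cosh_pos (7 * ρ / 2)
  set q : ℝ := Real.cosh (ρ / 2) / Real.cosh (7 * ρ / 2) with hq
  have hq0 : 0 < q := by positivity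
  have hq1 : q < 1 := by
    rw [hq, div_lt_one p2, Real.cosh_lt_cosh, abs_of_nonneg (by positivity), abs_of_nonneg (by positivity)]
    linarith
  obtain ⟨n1, hn1⟩ := exists_pow_lt_of_lt_one (show 0 < ε / (Real.cosh (ρ / 2) ^ 4 * C) by positivity) hq1
  refine ⟨n1 + 1, ?_⟩
  intro n hn hMn Γ a hsep hfin hcard hdn e he z hza
  obtain ⟨hsum, -, htot⟩ := hkk Γ Unit (fun _ => a) (fun _ => hsep) (fun _ => ⟨hfin, hcard⟩)
    (fun i j hij => absurd (Subsingleton.elim i j) hij) z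
  have hsum0 := hsum ()
  have hkkC : kk Γ z a ≤ C := by
    simpa using htot
  set c : ℂ := (((z : ℂ) - (starRingEnd ℂ) (a : ℂ)) / (2 * (Real.sqrt a.im : ℂ))) ^ (4 * n) with hc
  set w : ℂ := (((z : ℂ) - (a : ℂ)) / ((z : ℂ) - (starRingEnd ℂ) (a : ℂ))) ^ e with hw
  set T : Set Γ := {γ : Γ | (γ : SL2) • a = a} with hT
  have hTi : Subtype.val '' T = {γ : SL2 | γ ∈ Γ ∧ γ • a = a} := by
    ext g
    constructor
    · rintro ⟨x, hx, rfl⟩
      exact ⟨x.2, hx⟩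
    · rintro ⟨h1, h2⟩
      exact ⟨⟨g, h1⟩, h2, rfl⟩
  have hTfin : T.Finite := by
    apply Set.Finite.of_finite_image (f := Subtype.val)
    · rw [hTi]; exact hfin
    · exact Subtype.val_injective.injOn
  have hTcard : T.ncard = {γ : SL2 | γ ∈ Γ ∧ γ • a = a}.ncard := by
    rw [← hTi, Set.ncard_image_of_injective _ Subtype.val_injective]
  set F : Γ → ℂ := fun γ => Tr n e a (γ : SL2) z * c with hF
  set ind : Γ → ℂ := T.indicator (fun _ => w) with hind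
  set B : ℝ := (q ^ (4 * (n - 1)) * Real.cosh (ρ / 2) ^ 4) with hB
  have hB0 : 0 ≤ B := by positivity
  have hn0 : 1 ≤ n := by omega
  set k0 : Γ → ℝ := fun γ => ((Real.cosh (dist z ((γ : SL2) • a) / 2)) ^ 4)⁻¹ with hk0
  have hk0s : Summable k0 := hsum0
  have hk1s : Summable (fun γ : Γ => k0 γ⁻¹) := (Equiv.inv Γ).summable_iff.mpr hk0s
  have hbd : ∀ γ : Γ, ‖F γ - ind γ‖ ≤ B * k0 γ⁻¹ := by
    intro γ
    by_cases hγ : γ ∈ T
    · have h1 : F γ = w := prc_stab n e M0 he hMn a z γ hγ (hdn γ γ.2 hγ)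
      have h2 : ind γ = w := Set.indicator_of_mem hγ _
      rw [h1, h2, sub_self, norm_zero]
      have : 0 ≤ k0 γ⁻¹ := by rw [hk0]; positivity
      positivity
    · have h2 : ind γ = 0 := Set.indicator_of_notMem hγ _
      rw [h2, sub_zero]
      have hne : ((γ : SL2)⁻¹) • a ≠ a := by
        intro h
        apply hγ
        show (γ : SL2) • a = a
        conv_lhs => rw [← h]
        rw [smul_inv_smul]
      have hsep' : 8 * ρ ≤ dist a ((γ : SL2)⁻¹ • a) := by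
        rcases hsep ((γ : SL2)⁻¹) (Γ.inv_mem γ.2) with h | h
        · exact absurd h hne
        · exact h
      exact prc_bound ρ n e hn0 a z hza γ hsep' hρ
  have hds : Summable (fun γ : Γ => F γ - ind γ) :=
    Summable.of_norm_bounded (hk1s.mul_left B) hbd
  have hinds : Summable ind := by
    apply summable_of_finite_support
    exact hTfin.subset Set.support_indicator_subset
  have hindt : ∑' γ, ind γ = (T.ncard : ℂ) * w := by
    rw [hind, ← tsum_subtype, tsum_const]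
    simp [Set.ncard_def, Nat.card_coe_set_eq]
  have hPR : PR Γ n e a z * c = ∑' γ : Γ, F γ := by
    unfold PR
    rw [← tsum_mul_right]
  have hsplit : ∑' γ : Γ, F γ = ∑' γ : Γ, (F γ - ind γ) + ∑' γ : Γ, ind γ := by
    rw [← hds.tsum_add hinds]
    refine tsum_congr fun γ => ?_
    ring
  rw [hPR, hsplit, hindt, hTcard, add_sub_cancel_right]
  have hnn : Summable (fun γ : Γ => ‖F γ - ind γ‖) :=
    Summable.of_nonneg_of_le (fun _ => norm_nonneg _) hbd (hk1s.mul_left B)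
  calc ‖∑' γ : Γ, (F γ - ind γ)‖ ≤ ∑' γ : Γ, ‖F γ - ind γ‖ := norm_tsum_le_tsum_norm hnn
    _ ≤ ∑' γ : Γ, B * k0 γ⁻¹ := hnn.tsum_le_tsum hbd (hk1s.mul_left B)
    _ = B * ∑' γ : Γ, k0 γ⁻¹ := by rw [tsum_mul_left]
    _ = B * ∑' γ : Γ, k0 γ := by
        congr 1
        exact (Equiv.inv Γ).tsum_eq k0
    _ = B * kk Γ z a := rfl
    _ ≤ B * C := mul_le_mul_of_nonneg_left hkkC hB0
    _ ≤ ε := by
        have h1 : q ^ (4 * (n - 1)) ≤ q ^ n1 := pow_le_pow_of_le_one hq0.le hq1.le (by omega)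
        have h2 : q ^ n1 * (Real.cosh (ρ / 2) ^ 4 * C) ≤ ε := by
          have hp : 0 < Real.cosh (ρ / 2) ^ 4 * C := by positivity
          have := (lt_div_iff₀ hp).mp hn1
          exact this.le
        have hp : 0 < Real.cosh (ρ / 2) ^ 4 * C := by positivity
        calc B * C = q ^ (4 * (n - 1)) * (Real.cosh (ρ / 2) ^ 4 * C) := by rw [hB]; ring
          _ ≤ q ^ n1 * (Real.cosh (ρ / 2) ^ 4 * C) := mul_le_mul_of_nonneg_right h1 hp.le
          _ ≤ ε := h2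

end NF

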