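import Pool.Agent.Helper369.NF.Defs
import Pool.Agent.Helper369.NF.B0
import Pool.Agent.Helper369.NF.K1
import Pool.Agent.Helper369.NF.P3
import Pool.Agent.Helper369.NF.R1
import Pool.Agent.Helper369.NF.R2

open MeasureTheory Filter Topology Metric UpperHalfPlane

namespace NF

/-! The following statements are GIVEN (other jobs); do not prove them. -/

/-! TARGET: -/

theorem small_hyp {x : ℝ} (h0 : 0 ≤ x) (h1 : x ≤ 1 / 10 ^ 5) :
    Real.cosh x ≤ 1001 / 1000 ∧ Real.sinh x ≤ 1001 / 1000 * x := by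
  have hx1 : 0 < 1 - x := by
    have : (1 : ℝ) / 10 ^ 5 < 1 := by norm_num
    linarith
  have e1 : 1 - x ≤ Real.exp (-x) := by have := Real.add_one_le_exp (-x); linarith
  have e2 : Real.exp x ≤ 1 / (1 - x) := by
    rw [le_div_iff₀ hx1]
    have h : Real.exp x * Real.exp (-x) = 1 := by rw [← Real.exp_add]; simp
    have := mul_le_mul_of_nonneg_left e1 (Real.exp_pos x).le
    linarith
  have e3 : Real.exp (-x) ≤ 1 := by rw [Real.exp_le_one_iff]; linarith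
  have e4 : 1 / (1 - x) ≤ 1 + 1001 / 1000 * x := by
    rw [div_le_iff₀ hx1]
    norm_num at h1
    nlinarith
  have e5 : Real.exp x ≤ 1 + 1001 / 1000 * x := e2.trans e4
  norm_num at h1
  constructor
  · rw [Real.cosh_eq]; linarith
  · rw [Real.sinh_eq]; linarith

theorem tanh_lt' {x y : ℝ} (h : x < y) : Real.tanh x < Real.tanh y := by
  rw [Real.tanh_eq_sinh_div_cosh, Real.tanh_eq_sinh_div_cosh,
    div_lt_div_iff₀ (Real.cosh_pos x) (Real.cosh_pos y)]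
  have h1 : 0 < Real.sinh (y - x) := Real.sinh_pos_iff.mpr (sub_pos.mpr h)
  rw [Real.sinh_sub] at h1
  linarith

theorem tanh_small {x : ℝ} (h0 : 0 ≤ x) (h1 : x ≤ 1 / 10 ^ 5) :
    x ≤ 1001 / 1000 * Real.tanh x ∧ Real.tanh x ≤ 1001 / 1000 * x := by
  obtain ⟨c1, c2⟩ := small_hyp h0 h1
  have c3 : 1 ≤ Real.cosh x := Real.one_le_cosh x
  have c4 : x ≤ Real.sinh x := Real.self_le_sinh_iff.mpr h0
  have c0 : 0 < Real.cosh x := Real.cosh_pos x
  rw [Real.tanh_eq_sinh_div_cosh]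
  constructor
  · rw [← mul_div_assoc, le_div_iff₀ c0]
    nlinarith
  · rw [div_le_iff₀ c0]
    have : 0 ≤ 1001 / 1000 * x := by positivity
    nlinarith

/-- inverse chart -/
noncomputable def psi_A1 (a : ℍ) (w : ℂ) : ℂ := ((a : ℂ) - (starRingEnd ℂ) (a : ℂ) * w) / (1 - w)

theorem one_sub_ne0 {w : ℂ} (hw : ‖w‖ < 1) : 1 - w ≠ 0 := by
  intro h
  have : w = 1 := (sub_eq_zero.mp h).symm
  rw [this, norm_one] at hw
  exact lt_irrefl _ hw

theorem psi_im (a : ℍ) {w : ℂ} (hw : ‖w‖ < 1) :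
    (psi_A1 a w).im = a.im * (1 - ‖w‖ ^ 2) / ‖1 - w‖ ^ 2 := by
  have h := one_sub_ne0 hw
  have h2 : Complex.normSq (1 - w) ≠ 0 := fun h3 => h (Complex.normSq_eq_zero.mp h3)
  unfold psi_A1
  rw [Complex.div_im, ← Complex.normSq_eq_norm_sq, ← Complex.normSq_eq_norm_sq, ← sub_div]
  congr 1
  simp [Complex.normSq_apply]
  ring

theorem psi_im_pos (a : ℍ) {w : ℂ} (hw : ‖w‖ < 1) : 0 < (psi_A1 a w).im := by
  rw [psi_im a hw]
  have h1 : 0 < 1 - ‖w‖ ^ 2 := by nlinarith [norm_nonneg w]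
  have h2 : 0 < ‖1 - w‖ := norm_pos_iff.mpr (one_sub_ne0 hw)
  have h3 := a.im_pos
  positivity

theorem sub_conj_ne (a z : ℍ) : (z : ℂ) - (starRingEnd ℂ) (a : ℂ) ≠ 0 := by
  intro h
  have h1 := congrArg Complex.im h
  simp only [Complex.sub_im, Complex.conj_im, Complex.zero_im, UpperHalfPlane.coe_im] at h1
  have := a.im_pos
  have := z.im_pos
  linarith

theorem psi_sub (a : ℍ) {w : ℂ} (hw : ‖w‖ < 1) :
    psi_A1 a w - (a : ℂ) = w * (psi_A1 a w - (starRingEnd ℂ) (a : ℂ)) := by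
  have h := one_sub_ne0 hw
  unfold psi_A1
  field_simp
  ring

theorem psi_tanh (a z : ℍ) {w : ℂ} (hw : ‖w‖ < 1) (h : (z : ℂ) = psi_A1 a w) :
    Real.tanh (dist z a / 2) = ‖w‖ := by
  rw [UpperHalfPlane.tanh_half_dist, Complex.dist_eq, Complex.dist_eq]
  have h1 := psi_sub a hw
  rw [← h] at h1
  rw [h1, norm_mul, mul_div_assoc, div_self (norm_ne_zero_iff.mpr (sub_conj_ne a z)), mul_one]

theorem psi_dist (a z : ℍ) {w : ℂ} (h : (z : ℂ) = psi_A1 a w) {ρ : ℝ} (hw : ‖w‖ < Real.tanh (ρ / 2)) :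
    dist z a < ρ := by
  have hw1 : ‖w‖ < 1 := hw.trans (Real.tanh_lt_one _)
  rw [← psi_tanh a z hw1 h] at hw
  by_contra hcon
  push Not at hcon
  rcases lt_or_eq_of_le hcon with h1 | h1
  · have := tanh_lt' (show ρ / 2 < dist z a / 2 by linarith)
    linarith
  · rw [h1] at hw; exact lt_irrefl _ hw

theorem psi_inv (a z : ℍ) : psi_A1 a (((z : ℂ) - (a : ℂ)) / ((z : ℂ) - (starRingEnd ℂ) (a : ℂ))) = z := by
  have h1 := sub_conj_ne a z
  have h2 := sub_conj_ne a a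
  unfold psi_A1
  have e1 : (1 : ℂ) - ((z : ℂ) - (a : ℂ)) / ((z : ℂ) - (starRingEnd ℂ) (a : ℂ)) =
      ((a : ℂ) - (starRingEnd ℂ) (a : ℂ)) / ((z : ℂ) - (starRingEnd ℂ) (a : ℂ)) := by
    field_simp; ring
  have e2 : (a : ℂ) - (starRingEnd ℂ) (a : ℂ) * (((z : ℂ) - (a : ℂ)) / ((z : ℂ) - (starRingEnd ℂ) (a : ℂ))) =
      (z : ℂ) * (((a : ℂ) - (starRingEnd ℂ) (a : ℂ)) / ((z : ℂ) - (starRingEnd ℂ) (a : ℂ))) := by
    field_simp; ring
  rw [e1, e2, mul_div_assoc, div_self (div_ne_zero h2 h1), mul_one]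

theorem psi_inv_norm (a z : ℍ) : ‖((z : ℂ) - (a : ℂ)) / ((z : ℂ) - (starRingEnd ℂ) (a : ℂ))‖ =
    Real.tanh (dist z a / 2) := by
  rw [UpperHalfPlane.tanh_half_dist, Complex.dist_eq, Complex.dist_eq, norm_div]

theorem psi_hasDeriv (a : ℍ) {w : ℂ} (hw : ‖w‖ < 1) :
    HasDerivAt (psi_A1 a) (((a : ℂ) - (starRingEnd ℂ) (a : ℂ)) / (1 - w) ^ 2) w := by
  have h := one_sub_ne0 hw
  have h1 : HasDerivAt (fun w : ℂ => (a : ℂ) - (starRingEnd ℂ) (a : ℂ) * w) (-(starRingEnd ℂ) (a : ℂ)) w := by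
    have := ((hasDerivAt_id w).const_mul ((starRingEnd ℂ) (a : ℂ))).const_sub (a : ℂ)
    simpa using this
  have h2 : HasDerivAt (fun w : ℂ => 1 - w) (-1) w := by
    simpa using (hasDerivAt_id w).const_sub (1 : ℂ)
  have h3 := h1.div h2 h
  refine h3.congr_deriv ?_
  congr 1
  ring

/-- automorphy factor -/
noncomputable def phf (a : ℍ) (n : ℕ) (z : ℂ) : ℂ :=
  ((z - (starRingEnd ℂ) (a : ℂ)) / (2 * (Real.sqrt a.im : ℂ))) ^ (4 * n)

theorem sqrt_ne (a : ℍ) : (2 * (Real.sqrt a.im : ℂ)) ≠ 0 := by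
  have : Real.sqrt a.im ≠ 0 := (Real.sqrt_pos.mpr a.im_pos).ne'
  exact mul_ne_zero two_ne_zero (by exact_mod_cast this)

theorem phf_diff (a : ℍ) (n : ℕ) (z : ℂ) : DifferentiableAt ℂ (phf a n) z := by
  unfold phf
  fun_prop

theorem phf_analytic (a : ℍ) (n : ℕ) (z : ℂ) : AnalyticAt ℂ (phf a n) z := by
  apply DifferentiableOn.analyticAt (s := Set.univ) _ Filter.univ_mem
  intro x _
  exact (phf_diff a n x).differentiableWithinAt

theorem phf_ne (a z : ℍ) (n : ℕ) : phf a n z ≠ 0 :=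
  pow_ne_zero _ (div_ne_zero (sub_conj_ne a z) (sqrt_ne a))

theorem phf_norm (a z : ℍ) (n : ℕ) :
    ‖phf a n z‖ = z.im ^ (2 * n) * Real.cosh (dist z a / 2) ^ (4 * n) := by
  have h1 := UpperHalfPlane.cosh_half_dist z a
  rw [Complex.dist_eq] at h1
  have hz := z.im_pos
  have ha := a.im_pos
  have h2 : ‖(z : ℂ) - (starRingEnd ℂ) (a : ℂ)‖ = Real.cosh (dist z a / 2) * (2 * Real.sqrt (z.im * a.im)) := by
    rw [h1, div_mul_cancel₀]
    positivity
  unfold phf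
  rw [norm_pow, norm_div, h2, norm_mul, Complex.norm_real, Real.norm_of_nonneg (Real.sqrt_nonneg _)]
  have h3 : ‖(2 : ℂ)‖ = 2 := by simp
  have h4 : Real.sqrt (z.im * a.im) = Real.sqrt z.im * Real.sqrt a.im := Real.sqrt_mul hz.le _
  have h5 : Real.sqrt a.im ≠ 0 := (Real.sqrt_pos.mpr ha).ne'
  have h6 : Real.cosh (dist z a / 2) * (2 * Real.sqrt (z.im * a.im)) / (‖(2 : ℂ)‖ * Real.sqrt a.im) =
      Real.cosh (dist z a / 2) * Real.sqrt z.im := by
    rw [h3, h4]; field_simp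
  rw [h6, mul_pow]
  have h7 : Real.sqrt z.im ^ (4 * n) = z.im ^ (2 * n) := by
    rw [show 4 * n = 2 * (2 * n) by ring, pow_mul (Real.sqrt z.im) 2 (2 * n), Real.sq_sqrt hz.le]
  rw [h7, mul_comm]

theorem away_of_good {Γ : Subgroup SL2} {a : ℍ} {ρ : ℝ} (hg : Good Γ a ρ) (hρ1 : ρ ≤ 1 / 10 ^ 5)
    {z : ℍ} (hz : dist z a ≤ ρ) : Away Γ z := by
  intro h hh
  by_contra hcon
  push Not at hcon
  have h1 := hg.2.2 h hh
  have h2 := disp_tri h z a
  obtain ⟨c1, c2⟩ := small_hyp (x := dist z a) dist_nonneg (hz.trans hρ1)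
  have hd0 : 0 ≤ disp h z := by
    unfold disp
    exact div_nonneg (norm_nonneg _) z.im_pos.le
  have hs0 : 0 ≤ Real.sinh (dist z a) := Real.sinh_nonneg_iff.mpr dist_nonneg
  have hc0 : 0 ≤ Real.cosh (dist z a) := (Real.cosh_pos _).le
  have hzs : dist z a ≤ 1 / 10 ^ 5 := hz.trans hρ1
  norm_num at hzs
  have h3 : Real.sinh (dist z a) ≤ 2 / 100000 := by linarith
  have h4 : disp h z * Real.cosh (dist z a) ≤ (1 / 200) * (1001 / 1000) :=
    mul_le_mul hcon.le c1 hc0 (by norm_num)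
  have h5 : (disp h z + 2) * Real.sinh (dist z a) ≤ (1 / 200 + 2) * (2 / 100000) :=
    mul_le_mul (by linarith) h3 hs0 (by norm_num)
  norm_num at h1 h4 h5
  linarith

theorem X_ne_of_away {Γ : Subgroup SL2} {z : ℍ} (hz : Away Γ z) : ∀ h ∈ Sp Γ, X h z ≠ 0 := by
  intro h hh h0
  have := hz h hh
  unfold disp at this
  rw [h0, norm_zero, zero_div] at this
  norm_num at this

theorem regular_cell (N0 M0 : ℕ) (hst : StabBound N0 M0) (ρ : ℝ) (hρ : 1 / 10 ^ 11 ≤ ρ)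
    (hρ1 : ρ ≤ 1 / 10 ^ 5) : ∃ n0 : ℕ, ∀ n : ℕ, n0 ≤ n → M0 ∣ 4 * n → ∃ K : ℝ, ∀ K1 : ℝ, K ≤ K1 →
    ∀ (Γ : Subgroup SL2), PD Γ → -1 ∈ Γ → ∀ a : ℍ, Good Γ a ρ →
      ∃ c : Cell Γ n K1, (∀ b, c.pt b = a) ∧ c.In = {z : ℍ | dist z a ≤ ρ / 20} := by
  have hρ0 : 0 < ρ := lt_of_lt_of_le (by positivity) hρ
  have hρsmall : ρ ≤ 1 := hρ1.trans (by norm_num)
  obtain ⟨n0, hn0⟩ := PR_center ρ hρ0 hρsmall N0 M0 hst.2.1 (1/2) (by norm_num)
  refine ⟨max 1 n0, fun n hn hMn => ⟨max 1 (Real.cosh (ρ/2) ^ (4*n)), fun K1 hK1 Γ hPD hneg a hgood => ?_⟩⟩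
  have hn1 : 1 ≤ n := le_trans (le_max_left _ _) hn
  have hn2 : n0 ≤ n := le_trans (le_max_right _ _) hn
  have hK1a : 1 ≤ K1 := le_trans (le_max_left _ _) hK1
  have hK1b : Real.cosh (ρ/2) ^ (4*n) ≤ K1 := le_trans (le_max_right _ _) hK1
  obtain ⟨hfin, hcard, hroot⟩ := hst.2.2 Γ hPD a hgood.2.1
  obtain ⟨C, hC, hport⟩ := kk_port N0 M0 hst
  have hgood' : Good Γ a (1/10^11) :=
    ⟨fun γ hγ => (hgood.1 γ hγ).imp id (fun h => le_trans (by linarith) h), hgood.2.1, hgood.2.2⟩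
  obtain ⟨hks, hkC⟩ := hport Γ hPD hneg a hgood.2.2 ⟨a, by rw [dist_self]; positivity, hgood'⟩
  obtain ⟨pr1, pr2, pr3⟩ := PR_props Γ n 0 hn1 a hks
  have hkk0 : ∀ z p : ℍ, 0 ≤ kk Γ z p := (kk_props Γ).2.2.1
  set T : ℝ := Real.tanh (ρ / 2) with hT
  obtain ⟨tl, tu⟩ := tanh_small (x := ρ / 2) (by positivity) (by linarith)
  rw [← hT] at tl tu
  have hT0 : 0 < T := by linarith
  have hT1 : T < 1 := Real.tanh_lt_one _
  have hTc : (T : ℂ) ≠ 0 := by exact_mod_cast hT0.ne'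
  -- norm of the scaled point
  have hscale : ∀ q ∈ Dom (1/4) 0, ‖((4 * T : ℝ) : ℂ) * q‖ < T := by
    intro q hq
    rw [norm_mul, Complex.norm_real, Real.norm_of_nonneg (by positivity)]
    have := hq.1
    nlinarith
  have hchart : ∀ F : ℂ → ℂ, IsForm Γ n F → ∀ β : ℝ, 0 ≤ β →
    (∀ z : ℍ, Away Γ z → (∃ b : Bool, ∃ γ ∈ Γ, dist z (γ • (fun _ : Bool => a) b) ≤ 10) → z.im ^ (2 * n) * ‖F z‖ ≤ β) →
    ∃ p : Bool → ℂ → ℂ, (∀ b, DifferentiableOn ℂ (p b) (Dom (1 / 4) 0)) ∧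
      (∀ b, ∀ q ∈ Dom (1 / 4) 0, ‖p b q‖ ≤ K1 * β) ∧
      ((0:ℝ) < 0 → ∀ q ∈ Dom (1 / 4) 0, p true q = p false (((0:ℝ):ℂ) / q)) ∧
      ∀ b : Bool, ∀ u ∈ (fun _ : Bool => Metric.ball (0:ℂ) T) b, F ((fun _ : Bool => psi_A1 a) b u) * phf a n ((fun _ : Bool => psi_A1 a) b u) =
        p b ((fun (_ : Bool) (w : ℂ) => (((1/4)/T : ℝ) : ℂ) * w) b u) := by
    intro F hF β hβ hbd
    refine ⟨fun _ q => F (psi_A1 a (((4 * T : ℝ) : ℂ) * q)) * phf a n (psi_A1 a (((4 * T : ℝ) : ℂ) * q)), ?_, ?_, ?_, ?_⟩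
    · intro _ q hq
      apply DifferentiableAt.differentiableWithinAt
      have hw := hscale q hq
      have hw1 : ‖((4 * T : ℝ) : ℂ) * q‖ < 1 := hw.trans hT1
      have him := psi_im_pos a hw1
      have hdist := psi_dist a ⟨psi_A1 a (((4 * T : ℝ) : ℂ) * q), him⟩ rfl hw
      have haway := away_of_good hgood hρ1 hdist.le
      have hFd : DifferentiableAt ℂ F (psi_A1 a (((4 * T : ℝ) : ℂ) * q)) :=
        hF.diff _ him (fun h hh => X_ne_of_away haway h hh)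
      have hpd : DifferentiableAt ℂ (fun q : ℂ => psi_A1 a (((4 * T : ℝ) : ℂ) * q)) q := by
        have h1 : DifferentiableAt ℂ (psi_A1 a) (((4 * T : ℝ) : ℂ) * q) := (psi_hasDeriv a hw1).differentiableAt
        have h2 : DifferentiableAt ℂ (fun q : ℂ => ((4 * T : ℝ) : ℂ) * q) q := by fun_prop
        exact DifferentiableAt.comp q h1 h2
      have e1 : DifferentiableAt ℂ (fun q : ℂ => F (psi_A1 a (((4 * T : ℝ) : ℂ) * q))) q :=
        DifferentiableAt.comp q hFd hpd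
      have e2 : DifferentiableAt ℂ (fun q : ℂ => phf a n (psi_A1 a (((4 * T : ℝ) : ℂ) * q))) q :=
        DifferentiableAt.comp (g := phf a n) q (phf_diff a n _) hpd
      exact e1.mul e2
    · intro _ q hq
      have hw := hscale q hq
      have hw1 : ‖((4 * T : ℝ) : ℂ) * q‖ < 1 := hw.trans hT1
      have him := psi_im_pos a hw1
      set z : ℍ := ⟨psi_A1 a (((4 * T : ℝ) : ℂ) * q), him⟩ with hz
      have hdist : dist z a < ρ := psi_dist a z rfl hw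
      have haway := away_of_good hgood hρ1 hdist.le
      have hb := hbd z haway ⟨true, 1, Γ.one_mem, by
        show dist z ((1 : SL2) • a) ≤ 10
        rw [one_smul]
        linarith⟩
      show ‖F z * phf a n z‖ ≤ K1 * β
      rw [norm_mul, phf_norm]
      have hcosh : Real.cosh (dist z a / 2) ≤ Real.cosh (ρ / 2) := by
        rw [Real.cosh_le_cosh, abs_of_nonneg (by positivity), abs_of_nonneg (by positivity)]
        linarith
      have hc1 : Real.cosh (dist z a / 2) ^ (4 * n) ≤ K1 :=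
        (pow_le_pow_left₀ (Real.cosh_pos _).le hcosh _).trans hK1b
      calc ‖F z‖ * (z.im ^ (2 * n) * Real.cosh (dist z a / 2) ^ (4 * n))
          = Real.cosh (dist z a / 2) ^ (4 * n) * (z.im ^ (2 * n) * ‖F z‖) := by ring
        _ ≤ K1 * β := by
          apply mul_le_mul hc1 hb
          · exact mul_nonneg (pow_nonneg z.im_pos.le _) (norm_nonneg _)
          · linarith
    · intro h; exact absurd h (lt_irrefl _)
    · intro _ u _
      show F (psi_A1 a u) * phf a n (psi_A1 a u) = F (psi_A1 a (((4 * T : ℝ) : ℂ) * ((((1/4)/T : ℝ) : ℂ) * u))) *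
        phf a n (psi_A1 a (((4 * T : ℝ) : ℂ) * ((((1/4)/T : ℝ) : ℂ) * u)))
      have : ((4 * T : ℝ) : ℂ) * ((((1/4)/T : ℝ) : ℂ) * u) = u := by
        push_cast; field_simp
      rw [this]
  have hPform : IsForm Γ n (fun z => 2 * PR Γ n 0 a z) := by
    refine ⟨fun z hz _ => (pr1 z hz).const_mul 2, fun γ hγ z => ?_, fun g _ => ?_⟩
    · show 2 * PR Γ n 0 a (mob γ z) = dn γ z ^ (4 * n) * (2 * PR Γ n 0 a z)
      rw [pr2 γ hγ z]; ring
    · refine ⟨2 * C ^ n, fun z hz _ => ?_⟩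
      have hX : ‖X g z‖ = disp g z * z.im := by
        unfold disp; rw [div_mul_cancel₀ _ z.im_pos.ne']
      have hd0 : 0 ≤ disp g z := by
        unfold disp
        exact div_nonneg (norm_nonneg _) z.im_pos.le
      have hd1 : disp g z ^ (2 * n) ≤ 1 := pow_le_one₀ hd0 (by linarith)
      have h1 : kk Γ z a ^ n ≤ C ^ n := pow_le_pow_left₀ (hkk0 _ _) (hkC z) n
      have h2 := (pr3 z).trans h1
      have h3 : ‖(2 : ℂ)‖ = 2 := by simp
      rw [norm_mul, norm_mul, norm_pow, hX, mul_pow, h3]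
      calc 2 * ‖PR Γ n 0 a z‖ * (disp g z ^ (2 * n) * z.im ^ (2 * n))
          = 2 * (disp g z ^ (2 * n) * (z.im ^ (2 * n) * ‖PR Γ n 0 a z‖)) := by ring
        _ ≤ 2 * (1 * C ^ n) := by
          apply mul_le_mul_of_nonneg_left _ (by norm_num)
          apply mul_le_mul hd1 h2 _ (by norm_num)
          exact mul_nonneg (pow_nonneg z.im_pos.le _) (norm_nonneg _)
        _ = 2 * C ^ n := by ring
  have hPbd : ∀ z : ℍ, Away Γ z →
    z.im ^ (2 * n) * ‖2 * PR Γ n 0 a z‖ ≤ (K1 * (kk Γ z a + kk Γ z a)) ^ n := by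
    intro z _
    have h1 := pr3 z
    have h0 := hkk0 z a
    have h3 : ‖(2 : ℂ)‖ = 2 := by simp
    rw [norm_mul, h3]
    have h4 : (2 : ℝ) ≤ 2 ^ n := by
      calc (2 : ℝ) = 2 ^ 1 := by norm_num
        _ ≤ 2 ^ n := pow_le_pow_right₀ (by norm_num) hn1
    have h5 : (2 * kk Γ z a) ^ n ≤ (K1 * (kk Γ z a + kk Γ z a)) ^ n := by
      apply pow_le_pow_left₀ (by positivity)
      nlinarith
    calc z.im ^ (2 * n) * (2 * ‖PR Γ n 0 a z‖) = 2 * (z.im ^ (2 * n) * ‖PR Γ n 0 a z‖) := by ring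
      _ ≤ 2 * kk Γ z a ^ n := by linarith
      _ ≤ 2 ^ n * kk Γ z a ^ n := mul_le_mul_of_nonneg_right h4 (pow_nonneg h0 _)
      _ = (2 * kk Γ z a) ^ n := (mul_pow _ _ _).symm
      _ ≤ _ := h5
  have hown : ∀ b : Bool, ∀ u ∈ (fun _ : Bool => Metric.ball (0:ℂ) T) b,
      1 ≤ ‖(2 * PR Γ n 0 a ((fun _ : Bool => psi_A1 a) b u)) * phf a n ((fun _ : Bool => psi_A1 a) b u)‖ := by
    intro _ u hu
    have hu' : ‖u‖ < T := by
      have : u ∈ Metric.ball (0:ℂ) T := hu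
      rwa [mem_ball_zero_iff] at this
    have hu1 : ‖u‖ < 1 := hu'.trans hT1
    have him := psi_im_pos a hu1
    set z : ℍ := ⟨psi_A1 a u, him⟩ with hz
    have hdist : dist z a < ρ := psi_dist a z rfl hu'
    have hc := hn0 n hn2 hMn Γ a hgood.1 hfin hcard hroot 0 (dvd_zero _) z hdist.le
    rw [pow_zero, mul_one] at hc
    have hN : 1 ≤ {γ : SL2 | γ ∈ Γ ∧ γ • a = a}.ncard := by
      rw [Nat.one_le_iff_ne_zero, Ne, Set.ncard_eq_zero hfin]
      intro h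
      have : (1 : SL2) ∈ {γ : SL2 | γ ∈ Γ ∧ γ • a = a} := ⟨Γ.one_mem, one_smul _ _⟩
      rw [h] at this
      exact this
    have hN' : (1 : ℝ) ≤ ‖(({γ : SL2 | γ ∈ Γ ∧ γ • a = a}.ncard : ℕ) : ℂ)‖ := by
      rw [Complex.norm_natCast]; exact_mod_cast hN
    show 1 ≤ ‖(2 * PR Γ n 0 a z) * phf a n z‖
    have hc' : ‖PR Γ n 0 a z * phf a n z - (({γ : SL2 | γ ∈ Γ ∧ γ • a = a}.ncard : ℕ) : ℂ)‖ ≤ 1/2 := hc
    have h1 : ‖(({γ : SL2 | γ ∈ Γ ∧ γ • a = a}.ncard : ℕ) : ℂ)‖ ≤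
        ‖PR Γ n 0 a z * phf a n z‖ + ‖PR Γ n 0 a z * phf a n z - (({γ : SL2 | γ ∈ Γ ∧ γ • a = a}.ncard : ℕ) : ℂ)‖ := by
      have h2 := norm_sub_norm_le (({γ : SL2 | γ ∈ Γ ∧ γ • a = a}.ncard : ℕ) : ℂ) (PR Γ n 0 a z * phf a n z)
      rw [norm_sub_rev] at h2
      linarith
    have h3 : ‖(2 * PR Γ n 0 a z) * phf a n z‖ = 2 * ‖PR Γ n 0 a z * phf a n z‖ := by
      rw [mul_assoc, norm_mul]; simp
    rw [h3]
    linarith
  have honto : ∀ b : Bool, ∀ q ∈ Dom (1 / 4) 0, q ≠ 0 → ∃ u ∈ (fun _ : Bool => Metric.ball (0:ℂ) T) b,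
      (fun (_ : Bool) (w : ℂ) => (((1/4)/T : ℝ) : ℂ) * w) b u = q := by
    intro _ q hq _
    refine ⟨((4 * T : ℝ) : ℂ) * q, ?_, ?_⟩
    · show ((4 * T : ℝ) : ℂ) * q ∈ Metric.ball (0:ℂ) T
      rw [mem_ball_zero_iff]
      exact hscale q hq
    · show (((1/4)/T : ℝ) : ℂ) * (((4 * T : ℝ) : ℂ) * q) = q
      push_cast; field_simp
  have hinner : ∀ z ∈ {z : ℍ | dist z a ≤ ρ / 20}, AnalyticAt ℂ (phf a n) z ∧ phf a n z ≠ 0 ∧
    ∃ b : Bool, ∃ u ∈ (fun _ : Bool => Metric.ball (0:ℂ) T) b, (fun _ : Bool => psi_A1 a) b u = z ∧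
    (fun _ : Bool => Metric.ball (0:ℂ) T) b ∈ 𝓝 u ∧
    AnalyticAt ℂ ((fun _ : Bool => psi_A1 a) b) u ∧
    AnalyticAt ℂ ((fun (_ : Bool) (w : ℂ) => (((1/4)/T : ℝ) : ℂ) * w) b) u ∧
    deriv ((fun _ : Bool => psi_A1 a) b) u ≠ 0 ∧
    Real.sqrt 0 ≤ ‖(fun (_ : Bool) (w : ℂ) => (((1/4)/T : ℝ) : ℂ) * w) b u‖ ∧
    ‖(fun (_ : Bool) (w : ℂ) => (((1/4)/T : ℝ) : ℂ) * w) b u‖ ≤ (1 / 4) / 16 ∧
    z.im * ‖deriv ((fun (_ : Bool) (w : ℂ) => (((1/4)/T : ℝ) : ℂ) * w) b) u‖ ≤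
      Real.exp 200 * ‖deriv ((fun _ : Bool => psi_A1 a) b) u‖ := by
    intro z hz
    have hz' : dist z a ≤ ρ / 20 := hz
    refine ⟨phf_analytic a n z, phf_ne a z n, true,
      ((z : ℂ) - (a : ℂ)) / ((z : ℂ) - (starRingEnd ℂ) (a : ℂ)), ?_⟩
    set u : ℂ := ((z : ℂ) - (a : ℂ)) / ((z : ℂ) - (starRingEnd ℂ) (a : ℂ)) with hu
    have hun : ‖u‖ = Real.tanh (dist z a / 2) := psi_inv_norm a z
    have hpu : psi_A1 a u = z := psi_inv a z
    have hub : ‖u‖ ≤ 1001 / 1000 * (ρ / 40) := by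
      rw [hun]
      have h1 := (tanh_small (x := dist z a / 2) (by positivity) (by linarith)).2
      linarith
    have huT : ‖u‖ < T := by linarith
    have hu1 : ‖u‖ < 1 := huT.trans hT1
    have hd := psi_hasDeriv a hu1
    have h1u := one_sub_ne0 hu1
    have h1un : 0 < ‖1 - u‖ := norm_pos_iff.mpr h1u
    have hder2 : deriv (fun w : ℂ => (((1/4)/T : ℝ) : ℂ) * w) u = (((1/4)/T : ℝ) : ℂ) := by
      have h1 : HasDerivAt (fun w : ℂ => (((1/4)/T : ℝ) : ℂ) * w) (((1/4)/T : ℝ) : ℂ) u := by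
        simpa using (hasDerivAt_id u).const_mul (((1/4)/T : ℝ) : ℂ)
      exact h1.deriv
    have hconj : ‖(a : ℂ) - (starRingEnd ℂ) (a : ℂ)‖ = 2 * a.im := by
      have h1 : (a : ℂ) - (starRingEnd ℂ) (a : ℂ) = ((2 * a.im : ℝ) : ℂ) * Complex.I := by
        apply Complex.ext <;> simp
        ring
      rw [h1, norm_mul, Complex.norm_I, mul_one, Complex.norm_real,
        Real.norm_of_nonneg (by have := a.im_pos; positivity)]
    refine ⟨?_, hpu, ?_, ?_, ?_, ?_, ?_, ?_, ?_⟩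
    · show u ∈ Metric.ball (0:ℂ) T
      rw [mem_ball_zero_iff]; exact huT
    · show Metric.ball (0:ℂ) T ∈ 𝓝 u
      exact Metric.isOpen_ball.mem_nhds (by rw [mem_ball_zero_iff]; exact huT)
    · show AnalyticAt ℂ (psi_A1 a) u
      apply DifferentiableOn.analyticAt (s := Metric.ball (0:ℂ) 1) _ (Metric.isOpen_ball.mem_nhds (by rw [mem_ball_zero_iff]; exact hu1))
      intro x hx
      rw [mem_ball_zero_iff] at hx
      exact (psi_hasDeriv a hx).differentiableAt.differentiableWithinAt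
    · show AnalyticAt ℂ (fun w : ℂ => (((1/4)/T : ℝ) : ℂ) * w) u
      fun_prop
    · show deriv (psi_A1 a) u ≠ 0
      rw [hd.deriv]
      exact div_ne_zero (sub_conj_ne a a) (pow_ne_zero _ h1u)
    · rw [Real.sqrt_zero]; exact norm_nonneg _
    · show ‖(((1/4)/T : ℝ) : ℂ) * u‖ ≤ (1/4)/16
      rw [norm_mul, Complex.norm_real, Real.norm_of_nonneg (by positivity), div_mul_eq_mul_div,
        div_le_iff₀ hT0]
      linarith
    · show z.im * ‖deriv (fun w : ℂ => (((1/4)/T : ℝ) : ℂ) * w) u‖ ≤ Real.exp 200 * ‖deriv (psi_A1 a) u‖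
      rw [hder2, hd.deriv, norm_div, norm_pow, hconj, Complex.norm_real, Real.norm_of_nonneg (by positivity)]
      have him : z.im = a.im * (1 - ‖u‖ ^ 2) / ‖1 - u‖ ^ 2 := by
        rw [← psi_im a hu1, hpu]; rfl
      have him2 : z.im ≤ a.im / ‖1 - u‖ ^ 2 := by
        rw [him]
        apply div_le_div_of_nonneg_right _ (by positivity)
        have := a.im_pos
        nlinarith [sq_nonneg ‖u‖]
      have hT3 : (1/4)/T ≤ 10 ^ 12 := by
        rw [div_le_iff₀ hT0]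
        have : (1:ℝ) / 10 ^ 11 ≤ ρ := hρ
        norm_num at this ⊢
        linarith
      have hexp : (10 : ℝ) ^ 12 ≤ 2 * Real.exp 200 := by
        have h1 : (2 : ℝ) ≤ Real.exp 1 := by
          have := Real.add_one_le_exp (1 : ℝ); linarith
        have h2 : (2 : ℝ) ^ 200 ≤ Real.exp 1 ^ 200 := pow_le_pow_left₀ (by norm_num) h1 200
        have h3 : Real.exp 1 ^ 200 = Real.exp 200 := by
          rw [← Real.exp_nat_mul]; norm_num
        rw [h3] at h2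
        have h4 : (10 : ℝ) ^ 12 ≤ 2 * 2 ^ 200 := by norm_num
        linarith
      have hpos : 0 ≤ a.im / ‖1 - u‖ ^ 2 := by
        have := a.im_pos
        positivity
      calc z.im * ((1/4)/T) ≤ (a.im / ‖1 - u‖ ^ 2) * 10 ^ 12 :=
            mul_le_mul him2 hT3 (by positivity) hpos
        _ ≤ (a.im / ‖1 - u‖ ^ 2) * (2 * Real.exp 200) := mul_le_mul_of_nonneg_left hexp hpos
        _ = Real.exp 200 * (2 * a.im / ‖1 - u‖ ^ 2) := by ring
  exact ⟨{ pt := fun _ => a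
           r := 0
           U := fun _ => Metric.ball 0 T
           ψ := fun _ => psi_A1 a
           π := fun _ w => (((1/4)/T : ℝ) : ℂ) * w
           φ := phf a n
           In := {z : ℍ | dist z a ≤ ρ / 20}
           P := fun z => 2 * PR Γ n 0 a z
           r_nonneg := le_rfl
           r_small := by norm_num
           P_form := hPform
           P_bd := hPbd
           chart := hchart
           own := hown
           onto := honto
           inner := hinner }, fun _ => rfl, rfl⟩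

end NF

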