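import Pool.Agent.Helper369.NF.Defs
import Pool.Agent.Helper369.NF.B0
import Pool.Agent.Helper369.NF.K1
import Pool.Agent.Helper369.NF.P3
import Pool.Agent.Helper369.NF.R1
import Pool.Agent.Helper369.NF.R2

open MeasureTheory Filter Topology Metric UpperHalfPlane

namespace NF

/-! The following statements are GIVEN (other jobs); do not prove them. -/

/-! TARGET: -/

theorem regular_forms (N0 M0 : ℕ) (hst : StabBound N0 M0) (ρ : ℝ) (hρ : 1 / 10 ^ 11 ≤ ρ)
    (hρ1 : ρ ≤ 1 / 10 ^ 5) : ∃ n0 : ℕ, ∀ n : ℕ, n0 ≤ n → M0 ∣ 4 * n →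
    ∀ (Γ : Subgroup SL2), PD Γ → -1 ∈ Γ → ∀ a : ℍ, Good Γ a ρ →
      ∃ Q : Fin 2 → ℂ → ℂ, (∀ l, IsForm Γ n (Q l)) ∧
        (∀ l, ∀ z : ℍ, z.im ^ (2 * n) * ‖Q l z‖ ≤ (kk Γ z a) ^ n) ∧
        ∃ z w : ℍ, (∀ g ∈ Sp Γ, X g z ≠ 0) ∧ (∀ g ∈ Sp Γ, X g w ≠ 0) ∧
          Q 0 z * Q 1 w ≠ Q 0 w * Q 1 z := by
  obtain ⟨hN0, hM0, hstab⟩ := id hst
  obtain ⟨C, hC, hport⟩ := kk_port N0 M0 hst
  have hρ0 : 0 < ρ := lt_of_lt_of_le (by norm_num) hρ
  have hρ5 : ρ ≤ 1 := hρ1.trans (by norm_num)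
  have hx : 1 < Real.exp ρ := by
    have := Real.add_one_lt_exp hρ0.ne'
    linarith
  set x := Real.exp ρ with hxdef
  have hu0 : 0 < (x - 1) / (x + 1) := div_pos (by linarith) (by linarith)
  have hu1 : (x - 1) / (x + 1) ≤ 1 := by
    rw [div_le_one (by linarith)]
    linarith
  set u := (x - 1) / (x + 1) with hu
  have ht0 : 0 < u ^ M0 := pow_pos hu0 _
  have ht1 : u ^ M0 ≤ 1 := pow_le_one₀ hu0.le hu1
  set t := u ^ M0 with ht
  obtain ⟨n0, hn0⟩ := PR_center ρ hρ0 hρ5 N0 M0 hM0 (t / 10) (by positivity)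
  refine ⟨max n0 1, fun n hn hdvd Γ hPD hneg a hgood => ?_⟩
  have hnn0 : n0 ≤ n := (le_max_left _ _).trans hn
  have hn1 : 1 ≤ n := (le_max_right _ _).trans hn
  obtain ⟨g1, g2, g3⟩ := hgood
  obtain ⟨s1, s2, s3⟩ := hstab Γ hPD a g2
  obtain ⟨hK, hkC⟩ := hport Γ hPD hneg a g3 ⟨a, by rw [dist_self]; positivity, by
    refine ⟨fun γ hγ => ?_, g2, g3⟩
    rcases g1 γ hγ with h | h
    · exact Or.inl h
    · right
      linarith⟩
  have hcen := hn0 n hnn0 hdvd Γ a g1 s1 s2 s3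
  have hprops := fun e : ℕ => PR_props Γ n e hn1 a hK
  have hkk0 : ∀ z : ℍ, 0 ≤ kk Γ z a := fun z => (kk_props Γ).2.2.1 z a
  -- displacement positivity
  have hXa : ∀ g ∈ Sp Γ, ∀ z : ℍ, dist z a ≤ ρ → X g z ≠ 0 := by
    intro g hg z hz hX0
    have h1 := g3 g hg
    have h2 := disp_tri g z a
    have h3 : disp g z = 0 := by
      unfold disp
      rw [hX0, norm_zero, zero_div]
    rw [h3] at h2
    have h4 : Real.sinh (dist z a) ≤ Real.sinh (1 / 10 ^ 5) :=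
      Real.sinh_le_sinh.mpr (hz.trans hρ1)
    have h5 : Real.sinh (1 / 10 ^ 5) ≤ 1 / 1000 := by
      rw [Real.sinh_eq]
      have e1 : Real.exp (1 / 10 ^ 5) ≤ 1 / (1 - 1 / 10 ^ 5) := by
        have := Real.one_sub_le_exp_neg (1 / 10 ^ 5)
        rw [Real.exp_neg] at this
        rw [one_div (1 - 1 / 10 ^ 5 : ℝ)]
        have h6 : (0:ℝ) < 1 - 1 / 10 ^ 5 := by norm_num
        exact le_inv_of_le_inv₀ h6 this
      have e2 : 1 - 1 / 10 ^ 5 ≤ Real.exp (-(1 / 10 ^ 5)) := Real.one_sub_le_exp_neg _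
      have e3 : (1:ℝ) / (1 - 1 / 10 ^ 5) ≤ 1 + 2 / 10 ^ 5 := by
        rw [div_le_iff₀ (by norm_num)]
        norm_num
      linarith
    linarith
  refine ⟨fun l => PR Γ n (l.val * M0) a, ?_, ?_, ?_⟩
  · intro l
    refine ⟨fun z hz _ => (hprops _).1 z hz, (hprops _).2.1, ?_⟩
    intro g hg
    refine ⟨C ^ n, fun z hz _ => ?_⟩
    have hzim : 0 < z.im := z.im_pos
    have h1 : ‖X g z‖ = disp g z * z.im := by
      unfold disp
      field_simp
    have hd0 : 0 ≤ disp g z := by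
      unfold disp
      positivity
    have h2 := (hprops (l.val * M0)).2.2 z
    have h3 : kk Γ z a ^ n ≤ C ^ n := pow_le_pow_left₀ (hkk0 z) (hkC z) n
    rw [norm_mul, norm_pow, h1, mul_pow]
    have h4 : disp g z ^ (2 * n) ≤ 1 := pow_le_one₀ hd0 (hz.trans (by norm_num))
    have h5 : 0 ≤ disp g z ^ (2 * n) := by positivity
    have h6 : 0 ≤ z.im ^ (2 * n) * ‖PR Γ n (l.val * M0) a z‖ := by positivity
    calc ‖PR Γ n (l.val * M0) a z‖ * (disp g z ^ (2 * n) * z.im ^ (2 * n))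
        = (z.im ^ (2 * n) * ‖PR Γ n (l.val * M0) a z‖) * disp g z ^ (2 * n) := by ring
      _ ≤ (z.im ^ (2 * n) * ‖PR Γ n (l.val * M0) a z‖) * 1 := by gcongr
      _ ≤ C ^ n := by linarith
  · intro l z
    exact (hprops _).2.2 z
  · -- independence
    have haim : 0 < a.im := a.im_pos
    have hwim : 0 < (⟨a.re, a.im * x⟩ : ℂ).im := by
      simp only
      positivity
    set w : ℍ := ⟨⟨a.re, a.im * x⟩, hwim⟩ with hw
    have hwre : w.re = a.re := rfl
    have hwi : w.im = a.im * x := rfl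
    have hdist : dist w a = ρ := by
      rw [UpperHalfPlane.dist_of_re_eq hwre, hwi, Real.log_mul haim.ne' (by positivity), hxdef,
        Real.log_exp, Real.dist_eq]
      have : Real.log a.im + ρ - Real.log a.im = ρ := by ring
      rw [this, abs_of_pos hρ0]
    refine ⟨a, w, fun g hg => hXa g hg a (by rw [dist_self]; exact hρ0.le),
      fun g hg => hXa g hg w hdist.le, ?_⟩
    intro heq
    simp only [Fin.val_zero, Fin.val_one, zero_mul, one_mul] at heq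
    set N : ℕ := {γ : SL2 | γ ∈ Γ ∧ γ • a = a}.ncard with hN
    have hNpos : 1 ≤ N := by
      have : 0 < N := (Set.ncard_pos s1).mpr ⟨1, Γ.one_mem, one_smul _ _⟩
      exact this
    have hNr : (1:ℝ) ≤ (N:ℝ) := by exact_mod_cast hNpos
    have c1 := hcen 0 (dvd_zero _) a (by rw [dist_self]; exact hρ0.le)
    have c2 := hcen M0 dvd_rfl a (by rw [dist_self]; exact hρ0.le)
    have c3 := hcen 0 (dvd_zero _) w hdist.le
    have c4 := hcen M0 dvd_rfl w hdist.le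
    rw [pow_zero, mul_one] at c1 c3
    rw [sub_self, zero_div, zero_pow hM0.ne', mul_zero, sub_zero] at c2
    have hwa : ((w : ℂ) - (a : ℂ)) / ((w : ℂ) - (starRingEnd ℂ) (a : ℂ)) = (u : ℂ) := by
      have e1 : (w : ℂ) - (a : ℂ) = ((a.im * (x - 1) : ℝ) : ℂ) * Complex.I := by
        apply Complex.ext
        · simp [hwre]
        · simp [hwi]
          ring
      have e2 : (w : ℂ) - (starRingEnd ℂ) (a : ℂ) = ((a.im * (x + 1) : ℝ) : ℂ) * Complex.I := by
        apply Complex.ext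
        · simp [hwre]
        · simp [hwi]
          ring
      rw [e1, e2, mul_div_mul_right _ _ Complex.I_ne_zero, ← Complex.ofReal_div,
        mul_div_mul_left _ _ haim.ne']
    rw [hwa] at c4
    set φa : ℂ := (((a : ℂ) - (starRingEnd ℂ) (a : ℂ)) / (2 * (Real.sqrt a.im : ℂ))) ^ (4 * n)
    set φw : ℂ := (((w : ℂ) - (starRingEnd ℂ) (a : ℂ)) / (2 * (Real.sqrt a.im : ℂ))) ^ (4 * n)
    set A := PR Γ n 0 a a * φa with hA
    set E := PR Γ n M0 a a * φa with hE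
    set B := PR Γ n 0 a w * φw with hB
    set D := PR Γ n M0 a w * φw with hD
    have hAD : A * D = B * E := by
      rw [hA, hD, hB, hE]
      linear_combination (φa * φw) * heq
    have nN : ‖(N : ℂ)‖ = N := Complex.norm_natCast N
    have bA : (N:ℝ) - t / 10 ≤ ‖A‖ := by
      have := norm_sub_norm_le (N : ℂ) A
      rw [norm_sub_rev] at this
      linarith
    have bB : ‖B‖ ≤ (N:ℝ) + t / 10 := by
      have := norm_sub_norm_le B (N : ℂ)
      linarith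
    have nNu : ‖(N : ℂ) * (u : ℂ) ^ M0‖ = N * t := by
      rw [norm_mul, nN, norm_pow, Complex.norm_real, Real.norm_of_nonneg hu0.le]
    have bD : (N:ℝ) * t - t / 10 ≤ ‖D‖ := by
      have := norm_sub_norm_le ((N : ℂ) * (u : ℂ) ^ M0) D
      rw [norm_sub_rev] at this
      linarith
    have hnorm : ‖A‖ * ‖D‖ = ‖B‖ * ‖E‖ := by
      rw [← norm_mul, hAD, norm_mul]
    have l1 : ((N:ℝ) - t / 10) * ((N:ℝ) * t - t / 10) ≤ ‖A‖ * ‖D‖ := by
      apply mul_le_mul bA bD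
      · nlinarith
      · exact norm_nonneg _
    have l2 : ‖B‖ * ‖E‖ ≤ ((N:ℝ) + t / 10) * (t / 10) := by
      apply mul_le_mul bB c2 (norm_nonneg _)
      positivity
    have l3 : ((N:ℝ) - t / 10) * ((N:ℝ) * t - t / 10) ≤ ((N:ℝ) + t / 10) * (t / 10) := by
      linarith
    have l4 : ((N:ℝ) - t / 10) * ((N:ℝ) - 1 / 10) ≤ ((N:ℝ) + t / 10) * (1 / 10) := by
      have e1 : ((N:ℝ) - t / 10) * ((N:ℝ) * t - t / 10) =
        (((N:ℝ) - t / 10) * ((N:ℝ) - 1 / 10)) * t := by ring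
      have e2 : ((N:ℝ) + t / 10) * (t / 10) = (((N:ℝ) + t / 10) * (1 / 10)) * t := by ring
      rw [e1, e2] at l3
      exact le_of_mul_le_mul_right l3 ht0
    nlinarith

end NF

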