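import Pool.Agent.Helper369.NF.Defs
import Pool.Agent.Helper369.NF.B0

open MeasureTheory Filter Topology Metric UpperHalfPlane

namespace NF

/-! The following statements are GIVEN (other jobs); do not prove them. -/

/-- conjugation moving `z` to `i` -/
noncomputable def TT (z : ℍ) (A : Matrix (Fin 2) (Fin 2) ℝ) : Matrix (Fin 2) (Fin 2) ℝ :=
  !![1 / z.im, -z.re / z.im; 0, 1] * A * !![z.im, z.re; 0, 1]

theorem QP (z : ℍ) : (!![z.im, z.re; 0, 1] : Matrix (Fin 2) (Fin 2) ℝ) *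
    !![1 / z.im, -z.re / z.im; 0, 1] = 1 := by
  have hz : z.im ≠ 0 := z.im_pos.ne'
  rw [Matrix.mul_fin_two, Matrix.one_fin_two]
  have e1 : z.im * (1 / z.im) + z.re * 0 = 1 := by rw [mul_one_div_cancel hz]; ring
  have e2 : z.im * (-z.re / z.im) + z.re * 1 = 0 := by rw [mul_div_cancel₀ _ hz]; ring
  rw [e1, e2]
  simp

theorem PQ (z : ℍ) : (!![1 / z.im, -z.re / z.im; 0, 1] : Matrix (Fin 2) (Fin 2) ℝ) *
    !![z.im, z.re; 0, 1] = 1 := by
  have hz : z.im ≠ 0 := z.im_pos.ne'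
  rw [Matrix.mul_fin_two, Matrix.one_fin_two]
  have e1 : 1 / z.im * z.im + -z.re / z.im * 0 = 1 := by rw [one_div_mul_cancel hz]; ring
  have e2 : 1 / z.im * z.re + -z.re / z.im * 1 = 0 := by ring
  rw [e1, e2]
  simp

theorem TT_mul (z : ℍ) (A B : Matrix (Fin 2) (Fin 2) ℝ) : TT z (A * B) = TT z A * TT z B := by
  unfold TT
  calc _ = !![1 / z.im, -z.re / z.im; 0, 1] * A * 1 * B * !![z.im, z.re; 0, 1] := by
        rw [Matrix.mul_one, Matrix.mul_assoc _ A B]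
    _ = _ := by
        rw [← QP z]
        simp only [Matrix.mul_assoc]

theorem TT_one (z : ℍ) : TT z 1 = 1 := by
  unfold TT
  rw [Matrix.mul_one, PQ]

/-- squared Frobenius norm -/
def fr (A : Matrix (Fin 2) (Fin 2) ℝ) : ℝ := A 0 0 ^ 2 + A 0 1 ^ 2 + A 1 0 ^ 2 + A 1 1 ^ 2

theorem fr_nonneg (A : Matrix (Fin 2) (Fin 2) ℝ) : 0 ≤ fr A := by
  unfold fr; positivity

theorem fr_mul_le (A B : Matrix (Fin 2) (Fin 2) ℝ) : fr (A * B) ≤ fr A * fr B := by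
  unfold fr
  simp only [Matrix.mul_apply, Fin.sum_univ_two]
  have h : ∀ a b c d : ℝ, (a * b + c * d) ^ 2 ≤ (a ^ 2 + c ^ 2) * (b ^ 2 + d ^ 2) := by
    intro a b c d
    nlinarith [sq_nonneg (a * d - c * b)]
  have h1 := h (A 0 0) (B 0 0) (A 0 1) (B 1 0)
  have h2 := h (A 0 0) (B 0 1) (A 0 1) (B 1 1)
  have h3 := h (A 1 0) (B 0 0) (A 1 1) (B 1 0)
  have h4 := h (A 1 0) (B 0 1) (A 1 1) (B 1 1)
  nlinarith

theorem fr_sub_le (A B : Matrix (Fin 2) (Fin 2) ℝ) : fr (A - B) ≤ 2 * fr A + 2 * fr B := by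
  unfold fr
  simp only [Matrix.sub_apply]
  nlinarith [sq_nonneg (A 0 0 + B 0 0), sq_nonneg (A 0 1 + B 0 1), sq_nonneg (A 1 0 + B 1 0),
    sq_nonneg (A 1 1 + B 1 1)]

theorem fr_eq_zero (A : Matrix (Fin 2) (Fin 2) ℝ) (h : fr A ≤ 0) : A = 0 := by
  unfold fr at h
  have h1 : A 0 0 = 0 := by nlinarith [sq_nonneg (A 0 0), sq_nonneg (A 0 1), sq_nonneg (A 1 0), sq_nonneg (A 1 1)]
  have h2 : A 0 1 = 0 := by nlinarith [sq_nonneg (A 0 0), sq_nonneg (A 0 1), sq_nonneg (A 1 0), sq_nonneg (A 1 1)]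
  have h3 : A 1 0 = 0 := by nlinarith [sq_nonneg (A 0 0), sq_nonneg (A 0 1), sq_nonneg (A 1 0), sq_nonneg (A 1 1)]
  have h4 : A 1 1 = 0 := by nlinarith [sq_nonneg (A 0 0), sq_nonneg (A 0 1), sq_nonneg (A 1 0), sq_nonneg (A 1 1)]
  ext i j
  fin_cases i <;> fin_cases j <;> simp [h1, h2, h3, h4]

theorem fr_one_add (U : Matrix (Fin 2) (Fin 2) ℝ) (h : fr (U - 1) < 1 / 64) : fr U ≤ 237 / 100 := by
  unfold fr at *
  simp only [Matrix.sub_apply, Matrix.one_apply_eq] at h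
  have h01 : (1 : Matrix (Fin 2) (Fin 2) ℝ) 0 1 = 0 := by simp
  have h10 : (1 : Matrix (Fin 2) (Fin 2) ℝ) 1 0 = 0 := by simp
  rw [h01, h10] at h
  set a := U 0 0
  set b := U 0 1
  set c := U 1 0
  set d := U 1 1
  have h1 : (a - 1) + (d - 1) ≤ 177 / 1000 := by
    by_contra hc
    push Not at hc
    nlinarith [sq_nonneg ((a - 1) - (d - 1)), sq_nonneg b, sq_nonneg c]
  nlinarith

theorem TT_form (z : ℍ) (A : Matrix (Fin 2) (Fin 2) ℝ) : TT z A =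
    !![A 0 0 - z.re * A 1 0, (A 0 1 + (A 0 0 - A 1 1) * z.re - A 1 0 * z.re ^ 2) / z.im;
      A 1 0 * z.im, A 1 1 + A 1 0 * z.re] := by
  have hz : z.im ≠ 0 := z.im_pos.ne'
  unfold TT
  conv_lhs => rw [Matrix.eta_fin_two A]
  rw [Matrix.mul_fin_two, Matrix.mul_fin_two]
  have e1 : (1 / z.im * A 0 0 + -z.re / z.im * A 1 0) * z.im +
      (1 / z.im * A 0 1 + -z.re / z.im * A 1 1) * 0 = A 0 0 - z.re * A 1 0 := by
    field_simp
    ring
  have e2 : (1 / z.im * A 0 0 + -z.re / z.im * A 1 0) * z.re +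
      (1 / z.im * A 0 1 + -z.re / z.im * A 1 1) * 1 =
      (A 0 1 + (A 0 0 - A 1 1) * z.re - A 1 0 * z.re ^ 2) / z.im := by
    field_simp
    ring
  have e3 : (0 * A 0 0 + 1 * A 1 0) * z.im + (0 * A 0 1 + 1 * A 1 1) * 0 = A 1 0 * z.im := by ring
  have e4 : (0 * A 0 0 + 1 * A 1 0) * z.re + (0 * A 0 1 + 1 * A 1 1) * 1 =
      A 1 1 + A 1 0 * z.re := by ring
  rw [e1, e2, e3, e4]

theorem TT_00 (z : ℍ) (A : Matrix (Fin 2) (Fin 2) ℝ) : TT z A 0 0 = A 0 0 - z.re * A 1 0 := by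
  rw [TT_form]; rfl

theorem TT_01 (z : ℍ) (A : Matrix (Fin 2) (Fin 2) ℝ) : TT z A 0 1 =
    (A 0 1 + (A 0 0 - A 1 1) * z.re - A 1 0 * z.re ^ 2) / z.im := by
  rw [TT_form]; rfl

theorem TT_10 (z : ℍ) (A : Matrix (Fin 2) (Fin 2) ℝ) : TT z A 1 0 = A 1 0 * z.im := by
  rw [TT_form]; rfl

theorem TT_11 (z : ℍ) (A : Matrix (Fin 2) (Fin 2) ℝ) : TT z A 1 1 = A 1 1 + A 1 0 * z.re := by
  rw [TT_form]; rfl

theorem disp_sq (g : SL2) (z : ℍ) : disp g z ^ 2 =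
    (TT z g.1 0 0 - TT z g.1 1 1) ^ 2 + (TT z g.1 0 1 + TT z g.1 1 0) ^ 2 := by
  have hz := z.im_ne_zero
  unfold disp
  rw [div_pow, Complex.sq_norm, Complex.normSq_apply, TT_00, TT_01, TT_10, TT_11]
  have hre : (X g z).re = g.1 0 1 + (g.1 0 0 - g.1 1 1) * z.re - g.1 1 0 * (z.re ^ 2 - z.im ^ 2) := by
    unfold X
    simp [sq]
  have him : (X g z).im = (g.1 0 0 - g.1 1 1) * z.im - 2 * g.1 1 0 * z.re * z.im := by
    unfold X
    simp [sq]
    ring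
  rw [hre, him]
  field_simp
  ring

theorem det_TT (g : SL2) (z : ℍ) :
    TT z g.1 0 0 * TT z g.1 1 1 - TT z g.1 0 1 * TT z g.1 1 0 = 1 := by
  have hz := z.im_ne_zero
  have hd : g.1 0 0 * g.1 1 1 - g.1 0 1 * g.1 1 0 = 1 := by
    have := g.2
    rwa [Matrix.det_fin_two] at this
  rw [TT_00, TT_01, TT_10, TT_11]
  field_simp
  linear_combination hd

theorem N_eq_G4 (g : SL2) (z : ℍ) : disp g z ^ 2 + 2 * (2 - tr g) = fr (TT z g.1 - 1) := by
  have hd := det_TT g z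
  have ht : tr g = TT z g.1 0 0 + TT z g.1 1 1 := by
    rw [TT_00, TT_11]
    unfold tr
    show g.1 0 0 + g.1 1 1 = _
    ring
  have h01 : (1 : Matrix (Fin 2) (Fin 2) ℝ) 0 1 = 0 := by simp
  have h10 : (1 : Matrix (Fin 2) (Fin 2) ℝ) 1 0 = 0 := by simp
  rw [disp_sq, ht]
  unfold fr
  simp only [Matrix.sub_apply, Matrix.one_apply_eq, h01, h10]
  linear_combination (-2) * hd

theorem fr_inv (g : SL2) (z : ℍ) : fr (TT z (g⁻¹).1) = fr (TT z g.1) := by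
  have h1 : (g⁻¹).1 = !![g.1 1 1, -g.1 0 1; -g.1 1 0, g.1 0 0] := by
    rw [Matrix.SpecialLinearGroup.coe_inv, Matrix.adjugate_fin_two]
  have hz := z.im_ne_zero
  unfold fr
  simp only [TT_00, TT_01, TT_10, TT_11, h1]
  simp
  field_simp
  ring

theorem comm_bound (g h : SL2) (z : ℍ) (h1 : fr (TT z g.1 - 1) < 1 / 64)
    (h2 : fr (TT z h.1 - 1) < 1 / 64) :
    fr (TT z (g * h * g⁻¹ * h⁻¹).1 - 1) ≤ 36 / 100 * fr (TT z g.1 - 1) := by
  have e1 : TT z (g * h * g⁻¹ * h⁻¹).1 - 1 =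
      ((TT z g.1 - 1) * (TT z h.1 - 1) - (TT z h.1 - 1) * (TT z g.1 - 1)) *
        (TT z (g⁻¹).1 * TT z (h⁻¹).1) := by
    have e2 : (g * h * g⁻¹ * h⁻¹).1 = g.1 * h.1 * ((g⁻¹).1 * (h⁻¹).1) := by
      rw [Matrix.SpecialLinearGroup.coe_mul, Matrix.SpecialLinearGroup.coe_mul,
        Matrix.SpecialLinearGroup.coe_mul, Matrix.mul_assoc]
    have e3 : h.1 * g.1 * ((g⁻¹).1 * (h⁻¹).1) = 1 := by
      have : (h * g * (g⁻¹ * h⁻¹)).1 = (1 : SL2).1 := by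
        rw [show h * g * (g⁻¹ * h⁻¹) = 1 by group]
      rw [Matrix.SpecialLinearGroup.coe_mul, Matrix.SpecialLinearGroup.coe_mul,
        Matrix.SpecialLinearGroup.coe_mul] at this
      exact this
    have e4 : TT z h.1 * TT z g.1 * (TT z (g⁻¹).1 * TT z (h⁻¹).1) = 1 := by
      rw [← TT_mul, ← TT_mul, ← TT_mul, e3, TT_one]
    rw [e2, TT_mul, TT_mul, TT_mul]
    have e5 : (TT z g.1 - 1) * (TT z h.1 - 1) - (TT z h.1 - 1) * (TT z g.1 - 1) =
        TT z g.1 * TT z h.1 - TT z h.1 * TT z g.1 := by noncomm_ring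
    rw [e5, Matrix.sub_mul, e4]
  rw [e1]
  have n1 := fr_nonneg (TT z g.1 - 1)
  have n2 := fr_nonneg (TT z h.1 - 1)
  have b1 := fr_one_add _ h1
  have b2 := fr_one_add _ h2
  have n3 := fr_nonneg (TT z g.1)
  have n4 := fr_nonneg (TT z h.1)
  set U := TT z g.1 - 1
  set V := TT z h.1 - 1
  have c1 : fr (U * V - V * U) ≤ 4 * (fr U * fr V) := by
    have := fr_sub_le (U * V) (V * U)
    have h3 := fr_mul_le U V
    have h4 := fr_mul_le V U
    nlinarith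
  have c2 : fr (TT z (g⁻¹).1 * TT z (h⁻¹).1) ≤ 237 / 100 * (237 / 100) := by
    refine (fr_mul_le _ _).trans ?_
    rw [fr_inv, fr_inv]
    exact mul_le_mul b1 b2 n4 (by norm_num)
  calc fr ((U * V - V * U) * (TT z (g⁻¹).1 * TT z (h⁻¹).1)) ≤ _ := fr_mul_le _ _
    _ ≤ (4 * (fr U * fr V)) * (237 / 100 * (237 / 100)) :=
        mul_le_mul c1 c2 (fr_nonneg _) (by positivity)
    _ ≤ 36 / 100 * fr U := by nlinarith [mul_nonneg n1 n2, mul_le_mul_of_nonneg_left h2.le n1]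

theorem par_vec (v1 v2 v3 w1 w2 w3 : ℝ) (hv : v1 ≠ 0 ∨ v2 ≠ 0 ∨ v3 ≠ 0)
    (h12 : v1 * w2 = v2 * w1) (h13 : v1 * w3 = v3 * w1) (h23 : v2 * w3 = v3 * w2) :
    ∃ s, w1 = s * v1 ∧ w2 = s * v2 ∧ w3 = s * v3 := by
  rcases hv with hv | hv | hv
  · refine ⟨w1 / v1, ?_, ?_, ?_⟩ <;> field_simp <;> linarith
  · refine ⟨w2 / v2, ?_, ?_, ?_⟩ <;> field_simp <;> linarith
  · refine ⟨w3 / v3, ?_, ?_, ?_⟩ <;> field_simp <;> linarith

theorem comm_trans (g0 g h : SL2) (hne : g0 ≠ 1) (hne' : g0 ≠ -1) (hg : g0 * g = g * g0)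
    (hh : g0 * h = h * g0) : g * h = h * g := by
  have ent : ∀ A B : SL2, A * B = B * A ↔
      (A.1 0 1 * B.1 1 0 = A.1 1 0 * B.1 0 1 ∧
        (A.1 0 0 - A.1 1 1) * B.1 0 1 = A.1 0 1 * (B.1 0 0 - B.1 1 1) ∧
        (A.1 0 0 - A.1 1 1) * B.1 1 0 = A.1 1 0 * (B.1 0 0 - B.1 1 1)) := by
    intro A B
    constructor
    · intro h
      have h' : A.1 * B.1 = B.1 * A.1 := by
        have := congrArg (fun M : SL2 => M.1) h
        simpa using this
      have h00 := congrFun (congrFun h' 0) 0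
      have h01 := congrFun (congrFun h' 0) 1
      have h10 := congrFun (congrFun h' 1) 0
      simp only [Matrix.mul_apply, Fin.sum_univ_two] at h00 h01 h10
      refine ⟨by linarith, by linarith, by linarith⟩
    · rintro ⟨h1, h2, h3⟩
      apply Subtype.ext
      show A.1 * B.1 = B.1 * A.1
      ext i j
      fin_cases i <;> fin_cases j <;> simp [Matrix.mul_apply, Fin.sum_univ_two] <;> linarith
  have hv : (g0.1 0 0 - g0.1 1 1) ≠ 0 ∨ g0.1 0 1 ≠ 0 ∨ g0.1 1 0 ≠ 0 := by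
    by_contra hcon
    push Not at hcon
    obtain ⟨h1, h2, h3⟩ := hcon
    have hd : g0.1 0 0 * g0.1 1 1 - g0.1 0 1 * g0.1 1 0 = 1 := by
      have := g0.2
      rwa [Matrix.det_fin_two] at this
    have h4 : g0.1 0 0 = g0.1 1 1 := by linarith
    rw [h2, h4] at hd
    have h5 : (g0.1 1 1 - 1) * (g0.1 1 1 + 1) = 0 := by linarith
    rcases mul_eq_zero.1 h5 with h6 | h6
    · apply hne
      apply Subtype.ext
      ext i j
      fin_cases i <;> fin_cases j <;> simp [h2, h3, h4] <;> linarith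
    · apply hne'
      apply Subtype.ext
      ext i j
      fin_cases i <;> fin_cases j <;> simp [h2, h3, h4] <;> linarith
  obtain ⟨a1, a2, a3⟩ := (ent g0 g).1 hg
  obtain ⟨b1, b2, b3⟩ := (ent g0 h).1 hh
  obtain ⟨s, s1, s2, s3⟩ := par_vec _ _ _ _ _ _ hv a2 a3 a1
  obtain ⟨t, t1, t2, t3⟩ := par_vec _ _ _ _ _ _ hv b2 b3 b1
  rw [ent, s1, s2, s3, t1, t2, t3]
  refine ⟨by ring, by ring, by ring⟩

/-! TARGET: -/

theorem zassenhaus (Γ : Subgroup SL2) (hΓ : PD Γ) (z : ℍ) (g h : SL2) (hg : g ∈ Γ) (hh : h ∈ Γ)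
    (h1 : disp g z ^ 2 + 2 * (2 - tr g) < 1 / 64) (h2 : disp h z ^ 2 + 2 * (2 - tr h) < 1 / 64) :
    g * h = h * g := by
  classical
  rw [N_eq_G4] at h1 h2
  by_cases hg1 : g = 1
  · rw [hg1, one_mul, mul_one]
  set U : Set SL2 := {k | k ∈ Γ ∧ fr (TT z k.1 - 1) < 1 / 64} with hU
  have hfin : U.Finite := by
    refine (hΓ (Metric.closedBall z 1) (isCompact_closedBall z 1)).subset ?_
    rintro k ⟨hk, hk2⟩
    refine ⟨hk, z, Metric.mem_closedBall_self zero_le_one, ?_⟩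
    rw [Metric.mem_closedBall, dist_comm]
    have h3 := fr_one_add _ hk2
    have h4 : disp k z ^ 2 = fr (TT z k.1) - 2 := by
      rw [disp_sq]
      unfold fr
      linear_combination (-2) * det_TT k z
    have h5 := disp_eq k z
    have h6 : dist z (k • z) / 2 ≤ Real.sinh (dist z (k • z) / 2) := by
      rw [Real.self_le_sinh_iff]
      positivity
    have h7 : 0 ≤ dist z (k • z) := dist_nonneg
    nlinarith
  have hfin' : (U \ {1}).Finite := hfin.subset Set.sdiff_subset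
  have hne : (U \ {1}).Nonempty := ⟨g, ⟨hg, h1⟩, hg1⟩
  obtain ⟨g0, hg0, hmin⟩ := Set.exists_min_image _ (fun k : SL2 => fr (TT z k.1 - 1)) hfin' hne
  have hg0U := hg0.1
  have hg01 : g0 ≠ 1 := hg0.2
  have hcomm : ∀ k ∈ U, g0 * k = k * g0 := by
    intro k hk
    by_contra hcon
    have hc1 : g0 * k * g0⁻¹ * k⁻¹ ≠ 1 := by
      intro h3
      apply hcon
      have h4 : g0 * k * g0⁻¹ * k⁻¹ * (k * g0) = g0 * k := by group
      rw [h3, one_mul] at h4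
      exact h4.symm
    have hb := comm_bound g0 k z hg0U.2 hk.2
    have hn := fr_nonneg (TT z g0.1 - 1)
    have hcU : g0 * k * g0⁻¹ * k⁻¹ ∈ U \ {1} := by
      refine ⟨⟨?_, ?_⟩, hc1⟩
      · exact Γ.mul_mem (Γ.mul_mem (Γ.mul_mem hg0U.1 hk.1) (Γ.inv_mem hg0U.1)) (Γ.inv_mem hk.1)
      · have := hg0U.2
        linarith
    have h3 : fr (TT z g0.1 - 1) ≤ fr (TT z (g0 * k * g0⁻¹ * k⁻¹).1 - 1) := hmin _ hcU
    have h4 : fr (TT z g0.1 - 1) ≤ 0 := by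
      linarith
    have h5 := fr_eq_zero _ h4
    have h6 : TT z g0.1 = TT z 1 := by
      rw [TT_one]
      exact sub_eq_zero.1 h5
    apply hg01
    apply Subtype.ext
    show g0.1 = 1
    have h7 : !![z.im, z.re; 0, 1] * TT z g0.1 * !![1 / z.im, -z.re / z.im; 0, 1] =
        !![z.im, z.re; 0, 1] * TT z 1 * !![1 / z.im, -z.re / z.im; 0, 1] := by rw [h6]
    unfold TT at h7
    have h8 : ∀ A : Matrix (Fin 2) (Fin 2) ℝ, !![z.im, z.re; 0, 1] *
        (!![1 / z.im, -z.re / z.im; 0, 1] * A * !![z.im, z.re; 0, 1]) *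
        !![1 / z.im, -z.re / z.im; 0, 1] = A := by
      intro A
      calc _ = (!![z.im, z.re; 0, 1] * !![1 / z.im, -z.re / z.im; 0, 1]) * A *
          (!![z.im, z.re; 0, 1] * !![1 / z.im, -z.re / z.im; 0, 1]) := by
            simp only [Matrix.mul_assoc]
        _ = A := by rw [QP, Matrix.one_mul, Matrix.mul_one]
    rw [h8, h8] at h7
    exact h7
  have hg0m : g0 ≠ -1 := by
    rintro rfl
    have h3 := hg0U.2
    have h4 : TT z (-1 : SL2).1 = -1 := by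
      have : ((-1 : SL2).1 : Matrix (Fin 2) (Fin 2) ℝ) = -1 := by simp
      rw [this]
      unfold TT
      rw [Matrix.mul_neg, Matrix.neg_mul, Matrix.mul_one, PQ]
    rw [h4] at h3
    unfold fr at h3
    simp at h3
    norm_num at h3
  exact comm_trans g0 g h hg01 hg0m (hcomm g ⟨hg, h1⟩) (hcomm h ⟨hh, h2⟩)

end NF

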