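import Pool.Agent.Helper369.NF.Defs
import Pool.Agent.Helper369.NF.G4

open MeasureTheory Filter Topology Metric UpperHalfPlane

namespace NF

/-! The following statements are GIVEN (other jobs); do not prove them. -/

/-! TARGET: -/

theorem sep_alg (a b c d p q r s : ℝ) (hg1 : a * d - b * c = 1) (hh1 : p * s - q * r = 1)
    (e1 : b * r = q * c) (e2 : q * (a - d) = b * (p - s)) (e3 : c * (p - s) = r * (a - d))
    (htg : 0 < a + d) (hth : 0 < p + s) (hns : ¬ (b = 0 ∧ a - d = 0 ∧ c = 0))
    (hn1 : (q + r) ^ 2 * 0 + ((q + r) ^ 2 + (p - s) ^ 2) = (b + c) ^ 2 + (a - d) ^ 2)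
    (hn2 : (q + 4 * r) ^ 2 + 4 * (p - s) ^ 2 = (b + 4 * c) ^ 2 + 4 * (a - d) ^ 2) :
    (p = a ∧ q = b ∧ r = c ∧ s = d) ∨ (p = d ∧ q = -b ∧ r = -c ∧ s = a) := by
  obtain ⟨β, hq, hps, hr⟩ : ∃ β : ℝ, q = β * b ∧ p - s = β * (a - d) ∧ r = β * c := by
    by_cases hb : b = 0
    · by_cases hc : c = 0
      · have had : a - d ≠ 0 := fun h => hns ⟨hb, h, hc⟩
        refine ⟨(p - s) / (a - d), ?_, ?_, ?_⟩
        · rw [hb] at e2 ⊢
          have : q = 0 := by
            rcases mul_eq_zero.mp (by linarith : q * (a - d) = 0) with h | h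
            · exact h
            · exact absurd h had
          rw [this]; ring
        · field_simp
        · rw [hc] at e3 ⊢
          have : r = 0 := by
            rcases mul_eq_zero.mp (by linarith : r * (a - d) = 0) with h | h
            · exact h
            · exact absurd h had
          rw [this]; ring
      · refine ⟨r / c, ?_, ?_, ?_⟩
        · field_simp
          linarith
        · field_simp
          linarith
        · field_simp
    · refine ⟨q / b, ?_, ?_, ?_⟩
      · field_simp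
      · field_simp
        linarith
      · field_simp
        linarith
  have hβ : β ^ 2 = 1 := by
    have k1 : (β ^ 2 - 1) * ((b + c) ^ 2 + (a - d) ^ 2) = 0 := by
      rw [hq, hr, hps] at hn1
      linear_combination hn1
    have k2 : (β ^ 2 - 1) * ((b + 4 * c) ^ 2 + 4 * (a - d) ^ 2) = 0 := by
      rw [hq, hr, hps] at hn2
      linear_combination hn2
    rcases mul_eq_zero.mp k1 with h | h
    · linarith
    · rcases mul_eq_zero.mp k2 with h' | h'
      · linarith
      · exfalso
        apply hns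
        have h3 : b + c = 0 := by nlinarith [sq_nonneg (b + c), sq_nonneg (a - d)]
        have h4 : a - d = 0 := by nlinarith [sq_nonneg (b + c), sq_nonneg (a - d)]
        have h5 : b + 4 * c = 0 := by nlinarith [sq_nonneg (b + 4 * c), sq_nonneg (a - d)]
        exact ⟨by linarith, h4, by linarith⟩
  have htr : (p + s) ^ 2 = (a + d) ^ 2 := by
    have h1 : (p + s) ^ 2 = (p - s) ^ 2 + 4 * (q * r) + 4 := by linear_combination (-4 : ℝ) * (-hh1)
    have h2 : (a + d) ^ 2 = (a - d) ^ 2 + 4 * (b * c) + 4 := by linear_combination (-4 : ℝ) * (-hg1)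
    rw [h1, h2, hps, hq, hr]
    linear_combination ((a - d) ^ 2 + 4 * (b * c)) * hβ
  have htr' : p + s = a + d := by
    nlinarith
  have hβ' : β = 1 ∨ β = -1 := by
    have : (β - 1) * (β + 1) = 0 := by linear_combination hβ
    rcases mul_eq_zero.mp this with h | h
    · left; linarith
    · right; linarith
  rcases hβ' with h | h
  · left
    rw [h] at hq hps hr
    refine ⟨by linarith, by linarith, by linarith, by linarith⟩
  · right
    rw [h] at hq hps hr
    refine ⟨by linarith, by linarith, by linarith, by linarith⟩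

theorem sep_normX (g : SL2) (t : ℝ) :
    ‖X g ((t : ℂ) * Complex.I)‖ ^ 2 =
      (g 0 1 + t ^ 2 * g 1 0) ^ 2 + t ^ 2 * (g 0 0 - g 1 1) ^ 2 := by
  rw [Complex.sq_norm, Complex.normSq_apply]
  have h1 : X g ((t : ℂ) * Complex.I) =
      ((g 0 1 + t ^ 2 * g 1 0 : ℝ) : ℂ) + ((t * (g 0 0 - g 1 1) : ℝ) : ℂ) * Complex.I := by
    unfold X
    push_cast
    linear_combination (-(g 1 0 : ℂ) * (t : ℂ) ^ 2) * Complex.I_sq
  rw [h1]
  simp only [Complex.add_re, Complex.add_im, Complex.mul_re, Complex.mul_im, Complex.ofReal_re,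
    Complex.ofReal_im, Complex.I_re, Complex.I_im]
  ring

theorem sep_disp_nonneg (g : SL2) (z : ℍ) : 0 ≤ disp g z :=
  div_nonneg (norm_nonneg _) z.im_pos.le

theorem sep (Γ : Subgroup SL2) (hΓ : PD Γ) (g h : SL2) (hg : g ∈ Sp Γ) (hh : h ∈ Sp Γ) (z : ℍ)
    (h1 : disp g z < 1 / 10) (h2 : disp h z < 1 / 10) : h = g ∨ h = g⁻¹ := by
  obtain ⟨hgΓ, hg1, hgt, -, hgm⟩ := hg
  obtain ⟨hhΓ, hh1, hht, -, hhm⟩ := hh
  have hcomm : g * h = h * g := by
    apply zassenhaus Γ hΓ z g h hgΓ hhΓ
    · have := sep_disp_nonneg g z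
      nlinarith
    · have := sep_disp_nonneg h z
      nlinarith
  have hneg : ∀ k : SL2, 2 - 1 / 10 ^ 6 < tr k → k ≠ -1 := by
    intro k hk h
    rw [h] at hk
    unfold tr at hk
    simp at hk
    norm_num at hk
  have heq : ∀ w : ℍ, disp g w = disp h w := by
    intro w
    exact le_antisymm (hgm h hhΓ hh1 (hneg h hht) hcomm.symm w)
      (hhm g hgΓ hg1 (hneg g hgt) hcomm w)
  have hX : ∀ t : ℝ, 0 < t → ‖X g ((t : ℂ) * Complex.I)‖ ^ 2 = ‖X h ((t : ℂ) * Complex.I)‖ ^ 2 := by
    intro t ht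
    have hw : 0 < ((t : ℂ) * Complex.I).im := by simpa using ht
    have h3 := heq ⟨(t : ℂ) * Complex.I, hw⟩
    unfold disp at h3
    have h4 : (UpperHalfPlane.mk ((t : ℂ) * Complex.I) hw).im ≠ 0 := ne_of_gt (UpperHalfPlane.im_pos _)
    have h5 : ‖X g ((t : ℂ) * Complex.I)‖ = ‖X h ((t : ℂ) * Complex.I)‖ := by
      have h6 := (div_left_inj' h4).mp h3
      exact h6
    rw [h5]
  have hx1 := hX 1 one_pos
  have hx2 := hX 2 two_pos
  rw [sep_normX, sep_normX] at hx1 hx2
  have hdg : g 0 0 * g 1 1 - g 0 1 * g 1 0 = 1 := by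
    have := g.det_coe
    rwa [Matrix.det_fin_two] at this
  have hdh : h 0 0 * h 1 1 - h 0 1 * h 1 0 = 1 := by
    have := h.det_coe
    rwa [Matrix.det_fin_two] at this
  have hc' : (g : Matrix (Fin 2) (Fin 2) ℝ) * (h : Matrix (Fin 2) (Fin 2) ℝ) =
      (h : Matrix (Fin 2) (Fin 2) ℝ) * (g : Matrix (Fin 2) (Fin 2) ℝ) := by
    have := congrArg (fun k : SL2 => (k : Matrix (Fin 2) (Fin 2) ℝ)) hcomm
    simpa using this
  have c00 := congrFun (congrFun hc' 0) 0
  have c01 := congrFun (congrFun hc' 0) 1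
  have c10 := congrFun (congrFun hc' 1) 0
  simp only [Matrix.mul_apply, Fin.sum_univ_two] at c00 c01 c10
  have htg : 0 < g 0 0 + g 1 1 := by unfold tr at hgt; norm_num at hgt; linarith
  have hth : 0 < h 0 0 + h 1 1 := by unfold tr at hht; norm_num at hht; linarith
  have hns : ¬ (g 0 1 = 0 ∧ g 0 0 - g 1 1 = 0 ∧ g 1 0 = 0) := by
    rintro ⟨k1, k2, k3⟩
    apply hg1
    have k4 : g 0 0 = 1 := by
      have k5 : g 1 1 = g 0 0 := by linarith
      rw [k1, k5] at hdg
      rw [k5] at htg
      nlinarith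
    have k5 : g 1 1 = 1 := by linarith
    ext i j
    fin_cases i <;> fin_cases j
    · simpa using k4
    · simpa using k1
    · simpa using k3
    · simpa using k5
  rcases sep_alg (g 0 0) (g 0 1) (g 1 0) (g 1 1) (h 0 0) (h 0 1) (h 1 0) (h 1 1) hdg hdh
    (by linarith) (by linarith) (by linarith) htg hth hns (by linarith) (by linarith) with
    ⟨k1, k2, k3, k4⟩ | ⟨k1, k2, k3, k4⟩
  · left
    ext i j
    fin_cases i <;> fin_cases j
    · simpa using k1
    · simpa using k2
    · simpa using k3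
    · simpa using k4
  · right
    ext i j
    rw [Matrix.SpecialLinearGroup.coe_inv, Matrix.adjugate_fin_two]
    fin_cases i <;> fin_cases j
    · simpa using k1
    · simpa using k2
    · simpa using k3
    · simpa using k4

end NF

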