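import Pool.Agent.Helper369.NF.Defs
import Pool.Agent.Helper369.NF.B0

open MeasureTheory Filter Topology Metric UpperHalfPlane

namespace NF

/-! The following statements are GIVEN (other jobs); do not prove them. -/

/-! TARGET: -/

/-- the closed strip -/
def sc_C (ℓ tp : ℝ) : Set ℂ := {ζ | tp ≤ ζ.im ∧ ℓ * (ζ.im + tp) ≤ Real.pi}

theorem sc_sub {ℓ tp : ℝ} (hℓ : 0 ≤ ℓ) (htp : 0 < tp) {ζ : ℂ} (h : ζ ∈ sc_C ℓ tp) :
    ζ ∈ St ℓ := by
  refine ⟨lt_of_lt_of_le htp h.1, ?_⟩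
  rcases hℓ.eq_or_lt with h0 | h0
  · rw [← h0, zero_mul]; exact Real.pi_pos
  · have h1 := h.2
    have h2 : 0 < ℓ * tp := by positivity
    linarith

theorem sc_add_int {ℓ tp : ℝ} {ζ : ℂ} (n : ℤ) (h : ζ ∈ sc_C ℓ tp) : ζ + n ∈ sc_C ℓ tp := by
  have : (ζ + n).im = ζ.im := by simp
  exact ⟨by rw [this]; exact h.1, by rw [this]; exact h.2⟩

theorem sc_per_int {ℓ tp : ℝ} {G : ℂ → ℂ} (hG : ∀ ζ ∈ sc_C ℓ tp, G (ζ + 1) = G ζ) (n : ℤ) :
    ∀ ζ ∈ sc_C ℓ tp, G (ζ + n) = G ζ := by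
  induction n using Int.induction_on with
  | zero => intro ζ _; simp
  | succ n ih =>
    intro ζ hζ
    have h1 := hG _ (sc_add_int (n : ℤ) hζ)
    rw [← ih ζ hζ, ← h1]
    congr 1
    push_cast
    ring
  | pred n ih =>
    intro ζ hζ
    have h1 := hG _ (sc_add_int (-(n : ℤ) - 1) hζ)
    rw [← ih ζ hζ, ← h1]
    congr 1
    push_cast
    ring

/-- the covering -/
noncomputable def sc_E (R t1 : ℝ) (ζ : ℂ) : ℂ :=
  R * Complex.exp (2 * Real.pi * Complex.I * ζ + 2 * Real.pi * t1)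

/-- a section -/
noncomputable def sc_L (R t1 : ℝ) (q : ℂ) : ℂ :=
  Complex.log (q * Complex.exp (-(2 * Real.pi * t1)) / R) / (2 * Real.pi * Complex.I)

theorem sc_E_ne {R t1 : ℝ} (hR : 0 < R) (ζ : ℂ) : sc_E R t1 ζ ≠ 0 := by
  unfold sc_E
  have : (R : ℂ) ≠ 0 := by exact_mod_cast hR.ne'
  exact mul_ne_zero this (Complex.exp_ne_zero _)

theorem sc_EL {R t1 : ℝ} (hR : 0 < R) {q : ℂ} (hq : q ≠ 0) : sc_E R t1 (sc_L R t1 q) = q := by
  unfold sc_E sc_L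
  have hR' : (R : ℂ) ≠ 0 := by exact_mod_cast hR.ne'
  have h1 : 2 * (Real.pi : ℂ) * Complex.I *
      (Complex.log (q * Complex.exp (-(2 * Real.pi * t1)) / R) / (2 * Real.pi * Complex.I)) =
      Complex.log (q * Complex.exp (-(2 * Real.pi * t1)) / R) :=
    mul_div_cancel₀ _ Complex.two_pi_I_ne_zero
  have h2 : q * Complex.exp (-(2 * Real.pi * t1)) / R ≠ 0 :=
    div_ne_zero (mul_ne_zero hq (Complex.exp_ne_zero _)) hR'
  rw [h1, Complex.exp_add, Complex.exp_log h2]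
  have h3 : Complex.exp (-(2 * Real.pi * t1)) * Complex.exp (2 * Real.pi * t1) = 1 := by
    rw [← Complex.exp_add]; simp
  calc (R : ℂ) * (q * Complex.exp (-(2 * Real.pi * t1)) / R * Complex.exp (2 * Real.pi * t1)) =
        q * (Complex.exp (-(2 * Real.pi * t1)) * Complex.exp (2 * Real.pi * t1)) := by
        field_simp
    _ = q := by rw [h3, mul_one]

theorem sc_norm_E {R t1 : ℝ} (hR : 0 < R) (ζ : ℂ) :
    ‖sc_E R t1 ζ‖ = R * Real.exp (-(2 * Real.pi * (ζ.im - t1))) := by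
  unfold sc_E
  rw [norm_mul, Complex.norm_exp, Complex.norm_real, Real.norm_of_nonneg hR.le]
  congr 2
  simp
  ring

theorem sc_E_inj {R t1 : ℝ} (hR : 0 < R) {ζ ζ' : ℂ} (h : sc_E R t1 ζ = sc_E R t1 ζ') :
    ∃ n : ℤ, ζ = ζ' + n := by
  unfold sc_E at h
  have hR' : (R : ℂ) ≠ 0 := by exact_mod_cast hR.ne'
  have h1 := mul_left_cancel₀ hR' h
  obtain ⟨n, hn⟩ := Complex.exp_eq_exp_iff_exists_int.1 h1
  refine ⟨n, ?_⟩
  have h2 : 2 * (Real.pi : ℂ) * Complex.I * ζ = 2 * (Real.pi : ℂ) * Complex.I * (ζ' + n) := by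
    linear_combination hn
  exact mul_left_cancel₀ Complex.two_pi_I_ne_zero h2

theorem sc_p0 {ℓ tp R t1 : ℝ} (hR : 0 < R) {G : ℂ → ℂ}
    (hG : ∀ ζ ∈ sc_C ℓ tp, G (ζ + 1) = G ζ) {ζ : ℂ} (hζ : ζ ∈ sc_C ℓ tp) :
    G (sc_L R t1 (sc_E R t1 ζ)) = G ζ := by
  obtain ⟨n, hn⟩ := sc_E_inj hR (sc_EL (t1 := t1) hR (sc_E_ne (t1 := t1) hR ζ))
  rw [hn]
  exact sc_per_int hG n ζ hζ

theorem sc_dom {ℓ R r t1 : ℝ} (hR : 0 < R) (hℓ : 0 ≤ ℓ)
    (hr : r = if ℓ = 0 then 0 else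
      R ^ 2 * Real.exp (-(2 * Real.pi * (Real.pi / ℓ - 2 * t1)))) {ζ : ℂ}
    (hq : sc_E R t1 ζ ∈ Dom R r) : t1 < ζ.im ∧ ℓ * (ζ.im + t1) < Real.pi := by
  have hpi := Real.pi_pos
  obtain ⟨h1, h2⟩ := hq
  rw [sc_norm_E hR] at h1 h2
  constructor
  · have h3 : Real.exp (-(2 * Real.pi * (ζ.im - t1))) < 1 := by
      by_contra hc
      push Not at hc
      nlinarith
    rw [Real.exp_lt_one_iff] at h3
    have h4 : 0 < 2 * Real.pi * (ζ.im - t1) := by linarith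
    have h5 : 0 < ζ.im - t1 := by
      by_contra hc
      push Not at hc
      nlinarith
    linarith
  · rcases hℓ.eq_or_lt with h0 | h0
    · rw [← h0, zero_mul]; exact hpi
    · rw [if_neg h0.ne'] at hr
      have hr0 : 0 < r := by rw [hr]; positivity
      rcases h2 with h2 | h2
      · exact absurd h2 hr0.ne'
      · rw [hr] at h2
        have h3 : Real.exp (-(2 * Real.pi * (Real.pi / ℓ - 2 * t1))) <
            Real.exp (-(2 * Real.pi * (ζ.im - t1))) := by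
          have h4 : R ^ 2 * Real.exp (-(2 * Real.pi * (Real.pi / ℓ - 2 * t1))) <
              R ^ 2 * Real.exp (-(2 * Real.pi * (ζ.im - t1))) := by
            calc _ < R * (R * Real.exp (-(2 * Real.pi * (ζ.im - t1)))) := h2
              _ = _ := by ring
          exact lt_of_mul_lt_mul_left h4 (by positivity)
        rw [Real.exp_lt_exp] at h3
        have h4 : ζ.im + t1 < Real.pi / ℓ := by
          have h5 : 2 * Real.pi * (ζ.im - t1) < 2 * Real.pi * (Real.pi / ℓ - 2 * t1) := by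
            linarith
          have h6 := lt_of_mul_lt_mul_left h5 (by positivity)
          linarith
        rw [lt_div_iff₀ h0] at h4
        linarith

theorem sc_sub' {ℓ tp : ℝ} (hℓ : 0 ≤ ℓ) {ζ : ℂ}
    (h : tp + 1 < ζ.im ∧ ℓ * (ζ.im + (tp + 1)) < Real.pi) : ζ ∈ sc_C ℓ tp := by
  refine ⟨by linarith [h.1], ?_⟩
  have h1 := h.2
  nlinarith

theorem sc_EE {ℓ R r tp : ℝ} (h0 : 0 < ℓ)
    (hr : r = if ℓ = 0 then 0 else
      R ^ 2 * Real.exp (-(2 * Real.pi * (Real.pi / ℓ - 2 * (tp + 1))))) (ζ : ℂ) :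
    sc_E R (tp + 1) ((Real.pi / ℓ : ℝ) * Complex.I - ζ) * sc_E R (tp + 1) ζ = (r : ℂ) := by
  rw [if_neg h0.ne'] at hr
  rw [hr]
  unfold sc_E
  have e1 : ((R ^ 2 * Real.exp (-(2 * Real.pi * (Real.pi / ℓ - 2 * (tp + 1)))) : ℝ) : ℂ) =
      (R : ℂ) * R * Complex.exp ((-(2 * Real.pi * (Real.pi / ℓ - 2 * (tp + 1))) : ℝ)) := by
    push_cast
    ring
  rw [e1]
  have e2 : ∀ u v : ℂ, (R : ℂ) * Complex.exp u * (R * Complex.exp v) =
      (R : ℂ) * R * Complex.exp (u + v) := by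
    intro u v
    rw [Complex.exp_add]; ring
  rw [e2]
  congr 2
  push_cast
  have hI : Complex.I * Complex.I = -1 := Complex.I_mul_I
  linear_combination (2 * (Real.pi : ℂ) * (Real.pi / ℓ)) * hI

theorem sc_diff {ℓ tp R r : ℝ} (hR : 0 < R) (hℓ : 0 ≤ ℓ)
    (hr : r = if ℓ = 0 then 0 else
      R ^ 2 * Real.exp (-(2 * Real.pi * (Real.pi / ℓ - 2 * (tp + 1))))) {G : ℂ → ℂ}
    (hd : ∀ ζ ∈ sc_C ℓ tp, DifferentiableAt ℂ G ζ)
    (hG : ∀ ζ ∈ sc_C ℓ tp, G (ζ + 1) = G ζ) {q0 : ℂ} (hq0 : q0 ≠ 0) (hq : q0 ∈ Dom R r) :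
    DifferentiableAt ℂ (fun q => G (sc_L R (tp + 1) q)) q0 := by
  set ζt : ℂ → ℂ := fun q => sc_L R (tp + 1) q0 + Complex.log (q / q0) /
    (2 * Real.pi * Complex.I) with hζt
  have hE : ∀ q, q ≠ 0 → sc_E R (tp + 1) (ζt q) = q := by
    intro q hqn
    have h1 : sc_E R (tp + 1) (ζt q) = sc_E R (tp + 1) (sc_L R (tp + 1) q0) *
        Complex.exp (2 * Real.pi * Complex.I * (Complex.log (q / q0) /
          (2 * Real.pi * Complex.I))) := by
      unfold sc_E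
      have e2 : ∀ u v : ℂ, (R : ℂ) * Complex.exp u * Complex.exp v =
          (R : ℂ) * Complex.exp (u + v) := by
        intro u v
        rw [Complex.exp_add]; ring
      rw [e2, hζt]
      congr 2
      ring
    rw [h1, sc_EL hR hq0, mul_div_cancel₀ _ Complex.two_pi_I_ne_zero,
      Complex.exp_log (div_ne_zero hqn hq0)]
    field_simp
  have hζ0 : ζt q0 = sc_L R (tp + 1) q0 := by
    rw [hζt]
    simp [div_self hq0]
  have hζd : DifferentiableAt ℂ ζt q0 := by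
    have h1 : DifferentiableAt ℂ (fun q : ℂ => q / q0) q0 := differentiableAt_id.div_const _
    have h2 : DifferentiableAt ℂ (fun q : ℂ => Complex.log (q / q0)) q0 := by
      refine h1.clog ?_
      rw [div_self hq0]
      exact Complex.one_mem_slitPlane
    exact (h2.div_const _).const_add _
  have hreg : (tp + 1) < (ζt q0).im ∧ ℓ * ((ζt q0).im + (tp + 1)) < Real.pi := by
    apply sc_dom hR hℓ hr
    rw [hE q0 hq0]
    exact hq
  have hGd : DifferentiableAt ℂ (fun q => G (ζt q)) q0 :=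
    (hd _ (sc_sub' hℓ hreg)).comp q0 hζd
  have hev : ∀ᶠ q in 𝓝 q0, q ≠ 0 ∧ (tp + 1) < (ζt q).im ∧
      ℓ * ((ζt q).im + (tp + 1)) < Real.pi := by
    have hc : ContinuousAt (fun q => (ζt q).im) q0 :=
      Complex.continuous_im.continuousAt.comp hζd.continuousAt
    have e1 : ∀ᶠ q in 𝓝 q0, q ≠ 0 := isOpen_ne.mem_nhds hq0
    have e2 : ∀ᶠ q in 𝓝 q0, (tp + 1) < (ζt q).im := hc.eventually_const_lt hreg.1
    have e3 : ∀ᶠ q in 𝓝 q0, ℓ * ((ζt q).im + (tp + 1)) < Real.pi :=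
      (ContinuousAt.mul continuousAt_const (hc.add continuousAt_const)).eventually_lt_const hreg.2
    filter_upwards [e1, e2, e3] with q a1 a2 a3
    exact ⟨a1, a2, a3⟩
  refine hGd.congr_of_eventuallyEq ?_
  filter_upwards [hev] with q hqe
  have h1 := sc_p0 (R := R) (t1 := tp + 1) hR hG (sc_sub' hℓ hqe.2)
  rw [hE q hqe.1] at h1
  exact h1

theorem sc_PL {ℓ tp β : ℝ} (hℓ : 0 ≤ ℓ) (h2 : 0 < ℓ → 2 * tp < Real.pi / ℓ) {G : ℂ → ℂ}
    (hd : ∀ ζ ∈ sc_C ℓ tp, DifferentiableAt ℂ G ζ) (hbd : ∃ C0, ∀ ζ ∈ sc_C ℓ tp, ‖G ζ‖ ≤ C0)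
    (hlow : ∀ ζ : ℂ, ζ.im = tp → ‖G ζ‖ ≤ β)
    (hup : 0 < ℓ → ∀ ζ : ℂ, ζ.im = Real.pi / ℓ - tp → ‖G ζ‖ ≤ β) :
    ∀ ζ ∈ sc_C ℓ tp, ‖G ζ‖ ≤ β := by
  obtain ⟨C0, hC0⟩ := hbd
  intro ζ hζ
  rcases hℓ.eq_or_lt with h0 | h0
  · -- half plane
    subst h0
    have hmem : ∀ z : ℂ, 0 ≤ z.re → (Complex.I * z + tp * Complex.I) ∈ sc_C 0 tp := by
      intro z hz
      refine ⟨?_, ?_⟩
      · simp; exact hz
      · rw [zero_mul]; exact Real.pi_pos.le
    set f : ℂ → ℂ := fun z => G (Complex.I * z + tp * Complex.I) with hf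
    have hfd : ∀ z : ℂ, 0 ≤ z.re → DifferentiableAt ℂ f z := by
      intro z hz
      have h3 : DifferentiableAt ℂ (fun z : ℂ => Complex.I * z + tp * Complex.I) z := by fun_prop
      exact (hd _ (hmem z hz)).comp z h3
    have hcl : closure {z : ℂ | 0 < z.re} ⊆ {z : ℂ | 0 ≤ z.re} :=
      closure_minimal (fun z (hz : 0 < z.re) => hz.le)
        (isClosed_le continuous_const Complex.continuous_re)
    have hdc : DiffContOnCl ℂ f {z | 0 < z.re} := by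
      apply DifferentiableOn.diffContOnCl
      intro z hz
      exact (hfd z (hcl hz)).differentiableWithinAt
    have hz0 : 0 ≤ ((ζ - tp * Complex.I) / Complex.I).re := by
      have : ((ζ - tp * Complex.I) / Complex.I).re = ζ.im - tp := by
        rw [Complex.div_I]; simp
      rw [this]
      linarith [hζ.1]
    have h4 : ‖f ((ζ - tp * Complex.I) / Complex.I)‖ ≤ β := by
      refine PhragmenLindelof.right_half_plane_of_bounded_on_real hdc ?_ ?_ ?_ hz0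
      · refine ⟨0, by norm_num, 0, ?_⟩
        refine Asymptotics.IsBigO.of_bound C0 ?_
        rw [Filter.eventually_inf_principal]
        refine Eventually.of_forall fun z hz => ?_
        have h5 := hC0 _ (hmem z (le_of_lt hz))
        simpa using h5
      · refine ⟨C0, ?_⟩
        rw [Filter.eventually_map]
        filter_upwards [eventually_ge_atTop (0 : ℝ)] with x hx
        exact hC0 _ (hmem x (by simpa using hx))
      · intro x
        apply hlow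
        simp [← mul_assoc, mul_comm]
    have h5 : f ((ζ - tp * Complex.I) / Complex.I) = G ζ := by
      rw [hf]
      simp only
      congr 1
      rw [mul_div_cancel₀ _ Complex.I_ne_zero]
      ring
    rwa [h5] at h4
  · have h3 := h2 h0
    have hmem : ∀ z : ℂ, tp ≤ z.im → z.im ≤ Real.pi / ℓ - tp → z ∈ sc_C ℓ tp := by
      intro z h4 h5
      refine ⟨h4, ?_⟩
      have h6 : z.im + tp ≤ Real.pi / ℓ := by linarith
      rw [le_div_iff₀ h0] at h6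
      linarith
    have hcl : closure (Complex.im ⁻¹' Set.Ioo tp (Real.pi / ℓ - tp)) ⊆
        Complex.im ⁻¹' Set.Icc tp (Real.pi / ℓ - tp) :=
      closure_minimal (Set.preimage_mono Set.Ioo_subset_Icc_self)
        (isClosed_Icc.preimage Complex.continuous_im)
    have hdc : DiffContOnCl ℂ G (Complex.im ⁻¹' Set.Ioo tp (Real.pi / ℓ - tp)) := by
      apply DifferentiableOn.diffContOnCl
      intro z hz
      have h4 := hcl hz
      exact (hd z (hmem z h4.1 h4.2)).differentiableWithinAt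
    refine PhragmenLindelof.horizontal_strip hdc ?_ hlow (hup h0) hζ.1 ?_
    · refine ⟨0, ?_, 0, ?_⟩
      · have : 0 < Real.pi / ℓ - tp - tp := by linarith
        have := Real.pi_pos
        positivity
      · refine Asymptotics.IsBigO.of_bound C0 ?_
        rw [Filter.eventually_inf_principal]
        refine Eventually.of_forall fun z hz => ?_
        have h5 := hC0 z (hmem z (le_of_lt hz.1) (le_of_lt hz.2))
        simpa using h5
    · have h4 := hζ.2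
      have h6 : ζ.im + tp ≤ Real.pi / ℓ := by
        rw [le_div_iff₀ h0]; linarith
      linarith

/-- the function on the annulus -/
noncomputable def sc_P (R t1 : ℝ) (G : ℂ → ℂ) : ℂ → ℂ :=
  Function.update (fun q => G (sc_L R t1 q)) 0
    (limUnder (𝓝[≠] (0 : ℂ)) (fun q => G (sc_L R t1 q)))

theorem sc_P_ne {R t1 : ℝ} {G : ℂ → ℂ} {q : ℂ} (hq : q ≠ 0) :
    sc_P R t1 G q = G (sc_L R t1 q) := Function.update_of_ne hq _ _

theorem sc_P_E {ℓ tp R t1 : ℝ} (hR : 0 < R) {G : ℂ → ℂ}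
    (hG : ∀ ζ ∈ sc_C ℓ tp, G (ζ + 1) = G ζ) {ζ : ℂ} (hζ : ζ ∈ sc_C ℓ tp) :
    sc_P R t1 G (sc_E R t1 ζ) = G ζ := by
  rw [sc_P_ne (sc_E_ne hR ζ), sc_p0 hR hG hζ]

theorem sc_ne {ℓ R r t : ℝ} (hR : 0 < R) (h0 : 0 < ℓ)
    (hr : r = if ℓ = 0 then 0 else
      R ^ 2 * Real.exp (-(2 * Real.pi * (Real.pi / ℓ - 2 * t)))) {q : ℂ} (hq : q ∈ Dom R r) :
    q ≠ 0 := by
  rw [if_neg h0.ne'] at hr
  have hr0 : 0 < r := by rw [hr]; positivity
  rintro rfl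
  rcases hq.2 with h | h
  · exact hr0.ne' h
  · rw [norm_zero, mul_zero] at h
    linarith

theorem sc_P_main {ℓ tp R r β : ℝ} (hR : 0 < R) (hℓ : 0 ≤ ℓ)
    (hr : r = if ℓ = 0 then 0 else
      R ^ 2 * Real.exp (-(2 * Real.pi * (Real.pi / ℓ - 2 * (tp + 1))))) {G : ℂ → ℂ}
    (hd : ∀ ζ ∈ sc_C ℓ tp, DifferentiableAt ℂ G ζ)
    (hG : ∀ ζ ∈ sc_C ℓ tp, G (ζ + 1) = G ζ) (hβ : ∀ ζ ∈ sc_C ℓ tp, ‖G ζ‖ ≤ β) :
    DifferentiableOn ℂ (sc_P R (tp + 1) G) (Dom R r) ∧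
      ∀ q ∈ Dom R r, ‖sc_P R (tp + 1) G q‖ ≤ β := by
  have hb0 : ∀ q ∈ Dom R r, q ≠ 0 → ‖G (sc_L R (tp + 1) q)‖ ≤ β := by
    intro q hq hq0
    have h1 : sc_L R (tp + 1) q ∈ sc_C ℓ tp := by
      apply sc_sub' hℓ
      apply sc_dom hR hℓ hr
      rw [sc_EL hR hq0]
      exact hq
    exact hβ _ h1
  rcases hℓ.eq_or_lt with h0 | h0
  · have hr0 : r = 0 := by rw [hr, if_pos h0.symm]
    have hDom : Dom R r = Metric.ball 0 R := by
      ext q
      unfold Dom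
      simp [hr0]
    have hdiff : DifferentiableOn ℂ (sc_P R (tp + 1) G) (Dom R r) := by
      rw [hDom]
      refine Complex.differentiableOn_update_limUnder_of_bddAbove (Metric.ball_mem_nhds 0 hR) ?_ ?_
      · intro q hq
        refine (sc_diff hR hℓ hr hd hG hq.2 ?_).differentiableWithinAt
        rw [hDom]; exact hq.1
      · refine ⟨β, ?_⟩
        rintro _ ⟨q, hq, rfl⟩
        exact hb0 q (by rw [hDom]; exact hq.1) hq.2
    refine ⟨hdiff, ?_⟩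
    intro q hq
    by_cases hq0 : q = 0
    · subst hq0
      have hc : ContinuousAt (sc_P R (tp + 1) G) 0 := by
        refine (hdiff.differentiableAt ?_).continuousAt
        rw [hDom]
        exact Metric.ball_mem_nhds 0 hR
      have ht : Tendsto (fun q => ‖sc_P R (tp + 1) G q‖) (𝓝[≠] (0 : ℂ))
          (𝓝 ‖sc_P R (tp + 1) G 0‖) := hc.norm.tendsto.mono_left nhdsWithin_le_nhds
      refine le_of_tendsto ht ?_
      rw [eventually_nhdsWithin_iff]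
      filter_upwards [Metric.ball_mem_nhds (0 : ℂ) hR] with q hq1 hq2
      rw [sc_P_ne hq2]
      exact hb0 q (by rw [hDom]; exact hq1) hq2
    · rw [sc_P_ne hq0]
      exact hb0 q hq hq0
  · have hne : ∀ q ∈ Dom R r, q ≠ 0 := fun q hq => sc_ne hR h0 hr hq
    refine ⟨?_, fun q hq => by rw [sc_P_ne (hne q hq)]; exact hb0 q hq (hne q hq)⟩
    have h1 : DifferentiableOn ℂ (fun q => G (sc_L R (tp + 1) q)) (Dom R r) := fun q hq =>
      (sc_diff hR hℓ hr hd hG (hne q hq) hq).differentiableWithinAt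
    exact h1.congr fun q hq => sc_P_ne (hne q hq)

theorem sc_mob_inv (g : SL2) (w : ℍ) : mob g (mob g⁻¹ w) = w := by
  have h1 := coe_smul' g⁻¹ w
  have h2 := coe_smul' g (g⁻¹ • w)
  rw [smul_inv_smul, h1] at h2
  exact h2.symm

theorem special_chart (g : SL2) (c : SChart g) (R r : ℝ) (hR : 0 < R)
    (hr : r = if c.ℓ = 0 then 0 else
      R ^ 2 * Real.exp (-(2 * Real.pi * (Real.pi / c.ℓ - 2 * (c.tp + 1)))))
    (H : ℂ → ℂ) (β : ℝ)
    (h1 : ∀ z : ℍ, disp g z < 1 / 15 → X g z ≠ 0 → DifferentiableAt ℂ H z)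
    (h2 : ∀ z : ℍ, disp g z < 1 / 15 → H (mob g z) = H z)
    (h3 : ∃ C : ℝ, ∀ z : ℍ, disp g z ≤ 1 / 20 → X g z ≠ 0 → ‖H z‖ ≤ C)
    (h4 : ∀ z : ℍ, disp g z = 1 / 20 → ‖H z‖ ≤ β) :
    ∃ p : Bool → ℂ → ℂ, (∀ b, DifferentiableOn ℂ (p b) (Dom R r)) ∧
      (∀ b, ∀ q ∈ Dom R r, ‖p b q‖ ≤ β) ∧
      (0 < r → ∀ q ∈ Dom R r, p true q = p false (r / q)) ∧
      ∀ b, ∀ ζ : ℂ, c.tp + 1 < ζ.im → c.ℓ * (ζ.im + (c.tp + 1)) < Real.pi →
        p b (R * Complex.exp (2 * Real.pi * Complex.I * ζ + 2 * Real.pi * (c.tp + 1))) = H (c.ψ b ζ) := by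
  have htp : 0 < c.tp := by linarith [c.tp_lo]
  have hpi := Real.pi_pos
  have hpi3 := Real.pi_gt_three
  have hsub : ∀ ζ ∈ sc_C c.ℓ c.tp, ζ ∈ St c.ℓ := fun ζ hζ => sc_sub c.ℓ_nonneg htp hζ
  have hℓtp : 0 < c.ℓ → 2 * c.tp < Real.pi / c.ℓ := by
    intro h0
    rw [lt_div_iff₀ h0]
    have h5 := c.ℓ_le
    have h6 := c.tp_hi
    nlinarith
  set G : Bool → ℂ → ℂ := fun b ζ => H (c.ψ b ζ) with hGdef
  have hdisp : ∀ b, ∀ ζ (hζ : ζ ∈ sc_C c.ℓ c.tp),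
      disp g ⟨c.ψ b ζ, c.im_pos b ζ (hsub ζ hζ)⟩ ≤ 1 / 20 := by
    intro b ζ hζ
    exact c.inside b ζ (hsub ζ hζ) hζ.1 hζ.2
  have hd : ∀ b, ∀ ζ ∈ sc_C c.ℓ c.tp, DifferentiableAt ℂ (G b) ζ := by
    intro b ζ hζ
    have h5 := h1 ⟨c.ψ b ζ, c.im_pos b ζ (hsub ζ hζ)⟩
      (lt_of_le_of_lt (hdisp b ζ hζ) (by norm_num)) (c.X_ne b ζ (hsub ζ hζ))
    exact DifferentiableAt.comp ζ h5 (c.diff b ζ (hsub ζ hζ))
  have hG : ∀ b, ∀ ζ ∈ sc_C c.ℓ c.tp, G b (ζ + 1) = G b ζ := by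
    intro b ζ hζ
    have hζ1 : ζ + 1 ∈ sc_C c.ℓ c.tp := by
      have := sc_add_int 1 hζ
      simpa using this
    obtain ⟨s, hs, hper⟩ := c.per b
    show H (c.ψ b (ζ + 1)) = H (c.ψ b ζ)
    rcases hs with rfl | rfl
    · rw [hper ζ (hsub ζ hζ)]
      exact h2 ⟨c.ψ b ζ, c.im_pos b ζ (hsub ζ hζ)⟩
        (lt_of_le_of_lt (hdisp b ζ hζ) (by norm_num))
    · have h5 := h2 ⟨c.ψ b (ζ + 1), c.im_pos b (ζ + 1) (hsub _ hζ1)⟩
        (lt_of_le_of_lt (hdisp b _ hζ1) (by norm_num))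
      have h6 : mob g (c.ψ b (ζ + 1)) = c.ψ b ζ := by
        rw [hper ζ (hsub ζ hζ)]
        exact sc_mob_inv g ⟨c.ψ b ζ, c.im_pos b ζ (hsub ζ hζ)⟩
      have h7 : H (mob g (c.ψ b (ζ + 1))) = H (c.ψ b (ζ + 1)) := h5
      rw [← h7, h6]
  have hbd : ∀ b, ∃ C0, ∀ ζ ∈ sc_C c.ℓ c.tp, ‖G b ζ‖ ≤ C0 := by
    intro b
    obtain ⟨C, hC⟩ := h3
    exact ⟨C, fun ζ hζ => hC ⟨c.ψ b ζ, c.im_pos b ζ (hsub ζ hζ)⟩ (hdisp b ζ hζ)
      (c.X_ne b ζ (hsub ζ hζ))⟩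
  have hmemlow : ∀ ζ : ℂ, ζ.im = c.tp → ζ ∈ sc_C c.ℓ c.tp := by
    intro ζ hζ
    refine ⟨hζ.ge, ?_⟩
    rw [hζ]
    rcases c.ℓ_nonneg.eq_or_lt with h0 | h0
    · rw [← h0, zero_mul]; exact hpi.le
    · have h5 := hℓtp h0
      rw [lt_div_iff₀ h0] at h5
      linarith
  have hlow : ∀ b, ∀ ζ : ℂ, ζ.im = c.tp → ‖G b ζ‖ ≤ β := by
    intro b ζ hζ
    have hm := hsub ζ (hmemlow ζ hζ)
    have h5 := c.level b ζ.re
    have h6 : (ζ.re : ℂ) + c.tp * Complex.I = ζ := by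
      rw [← hζ]; exact Complex.re_add_im ζ
    rw [h6] at h5
    exact h4 ⟨c.ψ b ζ, c.im_pos b ζ hm⟩ h5
  have hflip : 0 < c.ℓ → ∀ ζ ∈ St c.ℓ, ((Real.pi / c.ℓ : ℝ) * Complex.I - ζ) ∈ St c.ℓ := by
    intro h0 ζ hζ
    have him : ((Real.pi / c.ℓ : ℝ) * Complex.I - ζ).im = Real.pi / c.ℓ - ζ.im := by
      rw [Complex.sub_im, Complex.im_ofReal_mul, Complex.I_im, mul_one]
    refine ⟨?_, ?_⟩
    · rw [him]
      have := hζ.2
      have h5 : ζ.im < Real.pi / c.ℓ := by rw [lt_div_iff₀ h0]; linarith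
      linarith
    · rw [him, mul_sub, mul_div_cancel₀ _ h0.ne']
      have := mul_pos h0 hζ.1
      linarith
  have hup : ∀ b, 0 < c.ℓ → ∀ ζ : ℂ, ζ.im = Real.pi / c.ℓ - c.tp → ‖G b ζ‖ ≤ β := by
    intro b h0 ζ hζ
    have him : ((Real.pi / c.ℓ : ℝ) * Complex.I - ζ).im = c.tp := by
      rw [Complex.sub_im, Complex.im_ofReal_mul, Complex.I_im, mul_one, hζ]
      ring
    have h5 := hℓtp h0
    have hm : ζ ∈ St c.ℓ := by
      have := hflip h0 _ (hsub _ (hmemlow _ him))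
      simpa using this
    cases b
    · -- false
      have hm' := hflip h0 ζ hm
      have h6 := c.flip h0 _ hm'
      have h7 : (Real.pi / c.ℓ : ℝ) * Complex.I - ((Real.pi / c.ℓ : ℝ) * Complex.I - ζ) = ζ := by
        ring
      rw [h7] at h6
      show ‖H (c.ψ false ζ)‖ ≤ β
      rw [← h6]
      exact hlow true _ him
    · show ‖H (c.ψ true ζ)‖ ≤ β
      rw [c.flip h0 ζ hm]
      exact hlow false _ him
  have hβ : ∀ b, ∀ ζ ∈ sc_C c.ℓ c.tp, ‖G b ζ‖ ≤ β := fun b =>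
    sc_PL c.ℓ_nonneg hℓtp (hd b) (hbd b) (hlow b) (hup b)
  refine ⟨fun b => sc_P R (c.tp + 1) (G b), ?_, ?_, ?_, ?_⟩
  · intro b
    exact (sc_P_main hR c.ℓ_nonneg hr (hd b) (hG b) (hβ b)).1
  · intro b
    exact (sc_P_main hR c.ℓ_nonneg hr (hd b) (hG b) (hβ b)).2
  · intro hr0 q hq
    have h0 : 0 < c.ℓ := by
      rcases c.ℓ_nonneg.eq_or_lt with h | h
      · rw [if_pos h.symm] at hr
        linarith
      · exact h
    have hq0 : q ≠ 0 := sc_ne hR h0 hr hq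
    set ζ := sc_L R (c.tp + 1) q with hζ
    have hEζ : sc_E R (c.tp + 1) ζ = q := sc_EL hR hq0
    have hreg : (c.tp + 1) < ζ.im ∧ c.ℓ * (ζ.im + (c.tp + 1)) < Real.pi := by
      apply sc_dom hR c.ℓ_nonneg hr
      rw [hEζ]
      exact hq
    have hζC : ζ ∈ sc_C c.ℓ c.tp := sc_sub' c.ℓ_nonneg hreg
    set ζ' : ℂ := (Real.pi / c.ℓ : ℝ) * Complex.I - ζ with hζ'
    have him : ζ'.im = Real.pi / c.ℓ - ζ.im := by
      rw [hζ', Complex.sub_im, Complex.im_ofReal_mul, Complex.I_im, mul_one]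
    have hζ'C : ζ' ∈ sc_C c.ℓ c.tp := by
      apply sc_sub' c.ℓ_nonneg
      rw [him]
      have h5 := hreg.2
      have h6 : ζ.im + (c.tp + 1) < Real.pi / c.ℓ := by rw [lt_div_iff₀ h0]; linarith
      refine ⟨by linarith, ?_⟩
      have h7 : c.ℓ * (Real.pi / c.ℓ - ζ.im + (c.tp + 1)) =
          Real.pi - c.ℓ * (ζ.im - (c.tp + 1)) := by
        field_simp
        ring
      rw [h7]
      have := mul_pos h0 (sub_pos.2 hreg.1)
      linarith
    have hEE : sc_E R (c.tp + 1) ζ' = r / q := by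
      rw [eq_div_iff hq0]
      have hgoal : sc_E R (c.tp + 1) ζ' * sc_E R (c.tp + 1) ζ = (r : ℂ) := by
        exact sc_EE h0 hr ζ
      rw [← hgoal, hEζ]
    have e1 : sc_P R (c.tp + 1) (G true) q = G true ζ := by
      have := sc_P_E (t1 := c.tp + 1) hR (hG true) hζC
      rwa [hEζ] at this
    have e2 : sc_P R (c.tp + 1) (G false) (r / q) = G false ζ' := by
      have := sc_P_E (t1 := c.tp + 1) hR (hG false) hζ'C
      rwa [hEE] at this
    show sc_P R (c.tp + 1) (G true) q = sc_P R (c.tp + 1) (G false) (r / q)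
    rw [e1, e2]
    show H (c.ψ true ζ) = H (c.ψ false ζ')
    rw [c.flip h0 ζ (hsub ζ hζC)]
  · intro b ζ h5 h6
    have h7 := sc_P_E (t1 := c.tp + 1) hR (hG b) (sc_sub' c.ℓ_nonneg ⟨h5, h6⟩)
    unfold sc_E at h7
    push_cast at h7
    exact h7

end NF

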