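import Pool.Agent.Helper369.NF.Defs
import Pool.Agent.Helper369.NF.B0
import Pool.Agent.Helper369.NF.G6
import Pool.Agent.Helper369.NF.S3

open MeasureTheory Filter Topology Metric UpperHalfPlane

namespace NF

/-! The following statements are GIVEN (other jobs); do not prove them. -/

/-! TARGET: -/

theorem scf_cosh {d : ℝ} (h : Real.cosh (d / 2) ^ 2 ≤ 5000) : d ≤ 10 := by
  by_contra hd
  push Not at hd
  have h1 : Real.cosh 5 < Real.cosh (d / 2) := by
    rw [Real.cosh_lt_cosh, abs_of_pos (by norm_num), abs_of_pos (by linarith)]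
    linarith
  have h2 : (72 : ℝ) < Real.cosh 5 := by
    rw [Real.cosh_eq]
    have h3 : (2.718 : ℝ) < Real.exp 1 := by
      have := Real.exp_one_gt_d9
      linarith
    have h4 : Real.exp 5 = Real.exp 1 ^ 5 := by
      rw [← Real.exp_nat_mul]
      norm_num
    have h5 : (2.718 : ℝ) ^ 5 < Real.exp 1 ^ 5 := by
      gcongr
    have h6 := Real.exp_pos (-5)
    rw [h4]
    have h7 : (144 : ℝ) < 2.718 ^ 5 := by norm_num
    linarith
  nlinarith

theorem scf_disp_inv (g : SL2) (z : ℍ) : disp g⁻¹ z = disp g z := by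
  unfold disp
  rw [X_inv, norm_neg]

theorem special_chart_form (Γ : Subgroup SL2) (hΓ : PD Γ) (g : SL2) (hg : g ∈ Sp Γ) (c : SChart g) (n : ℕ)
    (hn : 1 ≤ n) (r : ℝ) (hr : r = if c.ℓ = 0 then 0 else
      (1 / 4) ^ 2 * Real.exp (-(2 * Real.pi * (Real.pi / c.ℓ - 2 * (c.tp + 1)))))
    (F : ℂ → ℂ) (hF : IsForm Γ n F) (β : ℝ) (hβ : 0 ≤ β)
    (h : ∀ z : ℍ, Away Γ z → (∃ b, ∃ γ ∈ Γ, dist z (γ • c.zb b) ≤ 10) → z.im ^ (2 * n) * ‖F z‖ ≤ β) :
    ∃ p : Bool → ℂ → ℂ, (∀ b, DifferentiableOn ℂ (p b) (Dom (1 / 4) r)) ∧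
      (∀ b, ∀ q ∈ Dom (1 / 4) r, ‖p b q‖ ≤ β) ∧
      (0 < r → ∀ q ∈ Dom (1 / 4) r, p true q = p false (r / q)) ∧
      ∀ b, ∀ ζ : ℂ, c.tp + 1 < ζ.im → c.ℓ * (ζ.im + (c.tp + 1)) < Real.pi →
        F (c.ψ b ζ) * X g (c.ψ b ζ) ^ (2 * n) =
          p b ((1 / 4) * Complex.exp (2 * Real.pi * Complex.I * ζ + 2 * Real.pi * (c.tp + 1))) := by
  have hg1 : g ∈ Γ := hg.1
  have hX : ∀ z : ℂ, DifferentiableAt ℂ (X g) z := by
    intro z
    have : X g = fun z : ℂ => (g 0 1 : ℂ) + ((g 0 0 : ℂ) - (g 1 1 : ℂ)) * z - (g 1 0 : ℂ) * z ^ 2 := by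
      funext z
      rfl
    rw [this]
    fun_prop
  obtain ⟨p, hp1, hp2, hp3, hp4⟩ := special_chart g c (1 / 4) r (by norm_num) hr
    (fun z => F z * X g z ^ (2 * n)) β
    (by
      intro z hz hXz
      apply DifferentiableAt.mul _ ((hX z).pow _)
      apply hF.diff z z.im_pos
      intro h' hh' h0
      have hd : disp h' z = 0 := by
        unfold disp
        rw [h0, norm_zero, zero_div]
      rcases sep Γ hΓ g h' hg hh' z (by linarith) (by rw [hd]; norm_num) with h1 | h1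
      · rw [h1] at h0
        exact hXz h0
      · rw [h1, X_inv] at h0
        exact hXz (neg_eq_zero.mp h0))
    (by
      intro z _
      have h1 := hF.aut g hg1 z
      have h2 := X_conj g g z z.im_pos
      rw [mul_inv_cancel_right] at h2
      change F (mob g z) * X g (mob g z) ^ (2 * n) = F z * X g z ^ (2 * n)
      rw [h1, ← h2]
      have e : 4 * n = 2 * (2 * n) := by ring
      rw [mul_pow, ← pow_mul, ← e]
      ring)
    (hF.crude g hg)
    (by
      intro z hz
      have hA : Away Γ z := by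
        intro h' hh'
        by_contra hlt
        push Not at hlt
        rcases sep Γ hΓ g h' hg hh' z (by rw [hz]; norm_num) (by linarith) with h1 | h1
        · rw [h1, hz] at hlt
          norm_num at hlt
        · rw [h1, scf_disp_inv, hz] at hlt
          norm_num at hlt
      obtain ⟨b, k, hbk⟩ := c.port z (by rw [hz]; norm_num)
      rw [hz] at hbk
      have hb := h z hA ⟨b, g ^ k, Γ.zpow_mem hg1 k, scf_cosh (by linarith)⟩
      have hn1 : ‖X g z‖ = 1 / 20 * z.im := by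
        unfold disp at hz
        rw [div_eq_iff z.im_pos.ne'] at hz
        exact hz
      change ‖F z * X g z ^ (2 * n)‖ ≤ β
      rw [norm_mul, norm_pow, hn1, mul_pow]
      have h20 : (1 / 20 : ℝ) ^ (2 * n) ≤ 1 := pow_le_one₀ (by norm_num) (by norm_num)
      calc ‖F z‖ * ((1 / 20) ^ (2 * n) * z.im ^ (2 * n))
          = (1 / 20) ^ (2 * n) * (z.im ^ (2 * n) * ‖F z‖) := by ring
        _ ≤ 1 * (z.im ^ (2 * n) * ‖F z‖) := by
            apply mul_le_mul_of_nonneg_right h20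
            have := z.im_pos
            positivity
        _ ≤ β := by rw [one_mul]; exact hb)
  refine ⟨p, hp1, hp2, hp3, ?_⟩
  intro b ζ h1 h2
  have h3 := hp4 b ζ h1 h2
  have e : (((1 / 4 : ℝ)) : ℂ) = 1 / 4 := by push_cast; rfl
  rw [e] at h3
  exact h3.symm

end NF

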