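import Pool.Agent.Helper369.NF.Defs
import Pool.Agent.Helper369.NF.B0

open MeasureTheory Filter Topology Metric UpperHalfPlane

namespace NF

/-! The following statements are GIVEN (other jobs); do not prove them. -/

/-! TARGET: -/

theorem tr_eq_trace (g : SL2) : tr g = Matrix.trace (g : Matrix (Fin 2) (Fin 2) ℝ) :=
  (Matrix.trace_fin_two _).symm

theorem tr_conj_aux (γ g : SL2) : tr (γ * g * γ⁻¹) = tr g := by
  rw [tr_eq_trace, tr_eq_trace, Matrix.SpecialLinearGroup.coe_mul, Matrix.trace_mul_comm,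
    ← Matrix.SpecialLinearGroup.coe_mul, ← mul_assoc, inv_mul_cancel, one_mul]

theorem tr_inv_aux (g : SL2) : tr g⁻¹ = tr g := by
  have h0 : (g⁻¹ : SL2) 0 0 = g 1 1 := by
    rw [Matrix.SpecialLinearGroup.SL2_inv_expl]; rfl
  have h1 : (g⁻¹ : SL2) 1 1 = g 0 0 := by
    rw [Matrix.SpecialLinearGroup.SL2_inv_expl]; rfl
  unfold tr
  rw [h0, h1, add_comm]

theorem disp_inv_aux (g : SL2) (z : ℍ) : disp g⁻¹ z = disp g z := by
  unfold disp
  rw [X_inv, norm_neg]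

theorem sp_conj (Γ : Subgroup SL2) (g : SL2) (hg : g ∈ Sp Γ) (γ : SL2) (hγ : γ ∈ Γ) :
    γ * g * γ⁻¹ ∈ Sp Γ ∧ g⁻¹ ∈ Sp Γ := by
  obtain ⟨h1, h2, h3, h4, h5⟩ := hg
  refine ⟨⟨Γ.mul_mem (Γ.mul_mem hγ h1) (Γ.inv_mem hγ), ?_, ?_, ?_, ?_⟩,
    ⟨Γ.inv_mem h1, ?_, ?_, ?_, ?_⟩⟩
  · intro h
    apply h2
    have : γ * g = γ := by
      rw [mul_inv_eq_one] at h; exact h
    exact mul_eq_left.1 this
  · rw [tr_conj_aux]; exact h3
  · rw [tr_conj_aux]; exact h4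
  · intro k hk hk1 hk2 hkg z
    have e1 : k = γ * (γ⁻¹ * k * γ) * γ⁻¹ := by group
    have e2 : z = γ • (γ⁻¹ • z) := by rw [smul_inv_smul]
    have hd1 : disp (γ * g * γ⁻¹) z = disp g (γ⁻¹ • z) := by
      conv_lhs => rw [e2]
      exact disp_conj γ g (γ⁻¹ • z)
    have hd2 : disp k z = disp (γ⁻¹ * k * γ) (γ⁻¹ • z) := by
      have := disp_conj γ (γ⁻¹ * k * γ) (γ⁻¹ • z)
      rw [← e1, ← e2] at this
      exact this
    rw [hd1, hd2]
    apply h5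
    · exact Γ.mul_mem (Γ.mul_mem (Γ.inv_mem hγ) hk) hγ
    · intro h
      apply hk1
      rw [e1, h]; group
    · intro h
      apply hk2
      rw [e1, h, mul_neg, mul_one, neg_mul, mul_inv_cancel]
    · have h6 : γ⁻¹ * (k * (γ * g * γ⁻¹)) * γ = γ⁻¹ * ((γ * g * γ⁻¹) * k) * γ := by rw [hkg]
      calc γ⁻¹ * k * γ * g = γ⁻¹ * (k * (γ * g * γ⁻¹)) * γ := by group
        _ = γ⁻¹ * ((γ * g * γ⁻¹) * k) * γ := h6
        _ = g * (γ⁻¹ * k * γ) := by group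
  · intro h
    exact h2 (inv_eq_one.1 h)
  · rw [tr_inv_aux]; exact h3
  · rw [tr_inv_aux]; exact h4
  · intro k hk hk1 hk2 hkg z
    rw [disp_inv_aux]
    apply h5 k hk hk1 hk2
    calc k * g = g * (g⁻¹ * k) * g := by group
      _ = g * (k * g⁻¹) * g := by rw [hkg]
      _ = g * k := by group

end NF

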