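import Pool.Agent.Helper369.NF.Defs
import Pool.Agent.Helper369.NF.B0

open MeasureTheory Filter Topology Metric UpperHalfPlane

namespace NF

/-! The following statements are GIVEN (other jobs); do not prove them. -/

/-! TARGET: -/

theorem conj_sum (Γ : Subgroup SL2) (g : SL2) (hg : g ∈ Γ) (c : SChart g)
    (hs : ∀ b, ∀ z : ℍ, Summable (fun γ : Γ => ((Real.cosh (dist z ((γ : SL2) • c.zb b) / 2)) ^ 4)⁻¹))
    (z : ℍ) :
    Summable (fun h : Conj Γ g => if 1 / 200 ≤ disp (h : SL2) z then (disp (h : SL2) z ^ 2)⁻¹ else 0) ∧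
    ∑' h : Conj Γ g, (if 1 / 200 ≤ disp (h : SL2) z then (disp (h : SL2) z ^ 2)⁻¹ else 0) ≤
      10 ^ 10 * (kk Γ z (c.zb false) + kk Γ z (c.zb true)) := by
  let f : Bool → Γ → ℝ := fun b γ => ((Real.cosh (dist z ((γ : SL2) • c.zb b) / 2)) ^ 4)⁻¹
  have hf0 : ∀ b γ, 0 ≤ f b γ := by
    intro b γ
    simp only [f]
    positivity
  have hfs : ∀ b, Summable (f b) := fun b => hs b z
  let F : Γ → ℝ := fun γ => 10 ^ 10 * (f false γ + f true γ)
  have hF0 : ∀ γ, 0 ≤ F γ := by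
    intro γ
    have h1 := hf0 false γ
    have h2 := hf0 true γ
    simp only [F]
    positivity
  have hFs : Summable F := ((hfs false).add (hfs true)).mul_left _
  have key : ∀ h : Conj Γ g, ∃ k : Γ, (k : SL2) * g * (k : SL2)⁻¹ = h ∧
      (if 1 / 200 ≤ disp (h : SL2) z then (disp (h : SL2) z ^ 2)⁻¹ else 0) ≤ F k := by
    rintro ⟨h, γ, hγ, rfl⟩
    by_cases hd : 1 / 200 ≤ disp (γ * g * γ⁻¹) z
    · have hd2 : disp g (γ⁻¹ • z) = disp (γ * g * γ⁻¹) z := by
        have := disp_conj γ g (γ⁻¹ • z)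
        rw [smul_inv_smul] at this
        exact this.symm
      obtain ⟨b, n, hn⟩ := c.port (γ⁻¹ • z) (by rw [hd2]; exact hd)
      refine ⟨⟨γ * g ^ n, Γ.mul_mem hγ (Γ.zpow_mem hg n)⟩, ?_, ?_⟩
      · simp only [mul_inv_rev]
        group
      · rw [if_pos hd]
        have hdist : dist (γ⁻¹ • z) (g ^ n • c.zb b) = dist z ((γ * g ^ n) • c.zb b) := by
          rw [← dist_smul γ, smul_inv_smul, mul_smul]
        rw [hdist, hd2] at hn
        set D := disp (γ * g * γ⁻¹) z with hD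
        set co := Real.cosh (dist z ((γ * g ^ n) • c.zb b) / 2) with hco
        have hco0 : 0 < co := Real.cosh_pos _
        have hD0 : 0 < D := by linarith
        have h1 : (D ^ 2)⁻¹ ≤ 10 ^ 10 * (co ^ 4)⁻¹ := by
          rw [inv_le_iff_one_le_mul₀ (by positivity), mul_assoc, ← div_eq_inv_mul, mul_div_assoc',
            le_div_iff₀ (by positivity), one_mul]
          have h2 : (co ^ 2) ^ 2 ≤ (10 ^ 5 * D) ^ 2 := by gcongr
          nlinarith
        have h3 : (co ^ 4)⁻¹ ≤ f false ⟨γ * g ^ n, Γ.mul_mem hγ (Γ.zpow_mem hg n)⟩ +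
            f true ⟨γ * g ^ n, Γ.mul_mem hγ (Γ.zpow_mem hg n)⟩ := by
          have h4 : (co ^ 4)⁻¹ = f b ⟨γ * g ^ n, Γ.mul_mem hγ (Γ.zpow_mem hg n)⟩ := rfl
          have h5 := hf0 false ⟨γ * g ^ n, Γ.mul_mem hγ (Γ.zpow_mem hg n)⟩
          have h6 := hf0 true ⟨γ * g ^ n, Γ.mul_mem hγ (Γ.zpow_mem hg n)⟩
          rw [h4]
          cases b
          · linarith
          · linarith
        refine h1.trans ?_
        exact mul_le_mul_of_nonneg_left h3 (by norm_num)
    · refine ⟨⟨γ, hγ⟩, rfl, ?_⟩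
      rw [if_neg hd]
      exact hF0 _
  choose k hk hle using key
  have hinj : Function.Injective k := by
    intro h h' heq
    apply Subtype.ext
    rw [← hk h, ← hk h', heq]
  have hs1 : Summable (fun h : Conj Γ g => F (k h)) := hFs.comp_injective hinj
  have h0 : ∀ h : Conj Γ g,
      0 ≤ (if 1 / 200 ≤ disp (h : SL2) z then (disp (h : SL2) z ^ 2)⁻¹ else 0) := by
    intro h
    split_ifs
    · positivity
    · exact le_rfl
  have hs2 : Summable (fun h : Conj Γ g =>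
      if 1 / 200 ≤ disp (h : SL2) z then (disp (h : SL2) z ^ 2)⁻¹ else 0) :=
    Summable.of_nonneg_of_le h0 hle hs1
  refine ⟨hs2, ?_⟩
  calc ∑' h : Conj Γ g, (if 1 / 200 ≤ disp (h : SL2) z then (disp (h : SL2) z ^ 2)⁻¹ else 0)
      ≤ ∑' h : Conj Γ g, F (k h) := hs2.tsum_le_tsum hle hs1
    _ ≤ ∑' γ : Γ, F γ := tsum_comp_le_tsum_of_inj hFs hF0 hinj
    _ = 10 ^ 10 * (kk Γ z (c.zb false) + kk Γ z (c.zb true)) := by
        simp only [F]
        rw [tsum_mul_left, (hfs false).tsum_add (hfs true)]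
        rfl

end NF

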