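import Pool.Agent.Helper369.NF.Defs
import Pool.Agent.Helper369.NF.B0
import Pool.Agent.Helper369.NF.G6
import Pool.Agent.Helper369.NF.G9
import Pool.Agent.Helper369.NF.P3
import Pool.Agent.Helper369.NF.S1

open MeasureTheory Filter Topology Metric UpperHalfPlane

namespace NF

/-! The following statements are GIVEN (other jobs); do not prove them. -/

theorem conj_sub (Γ : Subgroup SL2) (g : SL2) (hg : g ∈ Sp Γ) (h : SL2) (hh : h ∈ Conj Γ g) :
    h ∈ Sp Γ := by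
  obtain ⟨γ, hγ, rfl⟩ := hh
  exact (sp_conj Γ g hg γ hγ).1

theorem norm_X (h : SL2) (z : ℍ) : ‖X h z‖ = disp h z * z.im := by
  unfold disp
  rw [div_mul_cancel₀ _ (ne_of_gt z.im_pos)]

theorem disp_nonneg (h : SL2) (z : ℍ) : 0 ≤ disp h z := by
  unfold disp
  exact div_nonneg (norm_nonneg _) z.im_pos.le

theorem sp_ne_inv (Γ : Subgroup SL2) (g : SL2) (hg : g ∈ Sp Γ) : g⁻¹ ≠ g := by
  intro h
  obtain ⟨_, h1, h2, _⟩ := hg
  apply h1
  have e : ∀ i j, (g⁻¹ : SL2) i j = g i j := by intro i j; rw [h]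
  have e00 := e 0 0
  have e01 := e 0 1
  have e10 := e 1 0
  have e11 := e 1 1
  rw [Matrix.SpecialLinearGroup.SL2_inv_expl] at e00 e01 e10 e11
  simp at e00 e01 e10 e11
  have hb : g 0 1 = 0 := by linarith
  have hc : g 1 0 = 0 := by linarith
  have hdet : g 0 0 * g 1 1 - g 0 1 * g 1 0 = 1 := by
    have := g.det_coe
    rwa [Matrix.det_fin_two] at this
  unfold tr at h2
  rw [hb, ← e00] at hdet
  have ht : (2:ℝ) - 1 / 10 ^ 6 < 2 * g 1 1 := by
    have : g 0 0 = g 1 1 := by linarith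
    linarith
  have h11 : g 1 1 = 1 := by
    have : (g 1 1 - 1) * (g 1 1 + 1) = 0 := by linarith
    rcases mul_eq_zero.mp this with h | h
    · linarith
    · norm_num at ht
      linarith
  ext i j
  fin_cases i <;> fin_cases j <;> simp <;> linarith


theorem norm_term (h : SL2) (z : ℍ) (n : ℕ) :
    ‖((X h z) ^ (2 * n))⁻¹‖ = (z.im ^ (2 * n))⁻¹ * ((disp h z ^ 2)⁻¹) ^ n := by
  rw [norm_inv, norm_pow, norm_X, mul_pow, mul_inv, pow_mul (disp h z), inv_pow, mul_comm]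

theorem pow_sum_le {ι : Type} (t : ι → ℝ) (ht : ∀ i, 0 ≤ t i) (hs : Summable t) (n : ℕ)
    (hn : 1 ≤ n) : Summable (fun i => t i ^ n) ∧ ∑' i, t i ^ n ≤ (∑' i, t i) ^ n := by
  obtain ⟨m, rfl⟩ : ∃ m, n = m + 1 := ⟨n - 1, by omega⟩
  have hle : ∀ i, t i ^ (m + 1) ≤ t i * (∑' i, t i) ^ m := by
    intro i
    rw [pow_succ']
    exact mul_le_mul_of_nonneg_left (pow_le_pow_left₀ (ht i) (hs.le_tsum i (fun j _ => ht j)) m) (ht i)
  have hs2 : Summable (fun i => t i * (∑' i, t i) ^ m) := hs.mul_right _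
  have hs3 : Summable (fun i => t i ^ (m + 1)) :=
    Summable.of_nonneg_of_le (fun i => pow_nonneg (ht i) _) hle hs2
  refine ⟨hs3, ?_⟩
  calc ∑' i, t i ^ (m + 1) ≤ ∑' i, t i * (∑' i, t i) ^ m := hs3.tsum_le_tsum hle hs2
    _ = (∑' i, t i) ^ (m + 1) := by rw [tsum_mul_right, pow_succ']

theorem PS_part3 (Γ : Subgroup SL2) (g : SL2) (hg : g ∈ Sp Γ) (c : SChart g)
    (hs : ∀ b, ∀ z : ℍ, Summable (fun γ : Γ => ((Real.cosh (dist z ((γ : SL2) • c.zb b) / 2)) ^ 4)⁻¹))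
    (n : ℕ) (hn : 1 ≤ n) (z : ℍ) (hz : ∀ h ∈ Conj Γ g, 1 / 200 ≤ disp h z) :
      z.im ^ (2 * n) * ‖PS Γ n g z‖ ≤ (10 ^ 10 * (kk Γ z (c.zb false) + kk Γ z (c.zb true))) ^ n := by
  obtain ⟨hs1, hs2⟩ := conj_sum Γ g hg.1 c hs z
  have hcongr : (fun h : Conj Γ g => if 1 / 200 ≤ disp (h : SL2) z then (disp (h : SL2) z ^ 2)⁻¹ else 0)
      = fun h : Conj Γ g => (disp (h : SL2) z ^ 2)⁻¹ := by
    funext h
    rw [if_pos (hz h h.2)]
  rw [hcongr] at hs1 hs2
  obtain ⟨hp1, hp2⟩ := pow_sum_le _ (fun h : Conj Γ g => by positivity) hs1 n hn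
  have hsn : Summable (fun h : Conj Γ g => ‖((X (h : SL2) z) ^ (2 * n))⁻¹‖) := by
    have : (fun h : Conj Γ g => ‖((X (h : SL2) z) ^ (2 * n))⁻¹‖) =
        fun h : Conj Γ g => (z.im ^ (2 * n))⁻¹ * ((disp (h : SL2) z ^ 2)⁻¹) ^ n := by
      funext h
      exact norm_term _ _ _
    rw [this]
    exact hp1.mul_left _
  have h1 : ‖PS Γ n g z‖ ≤ (z.im ^ (2 * n))⁻¹ * ∑' h : Conj Γ g, ((disp (h : SL2) z ^ 2)⁻¹) ^ n := by
    unfold PS
    refine (norm_tsum_le_tsum_norm hsn).trans ?_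
    rw [← tsum_mul_left]
    apply le_of_eq
    congr 1
    funext h
    exact norm_term _ _ _
  have him : 0 < z.im ^ (2 * n) := pow_pos z.im_pos _
  calc z.im ^ (2 * n) * ‖PS Γ n g z‖
      ≤ z.im ^ (2 * n) * ((z.im ^ (2 * n))⁻¹ * ∑' h : Conj Γ g, ((disp (h : SL2) z ^ 2)⁻¹) ^ n) :=
        mul_le_mul_of_nonneg_left h1 him.le
    _ = ∑' h : Conj Γ g, ((disp (h : SL2) z ^ 2)⁻¹) ^ n := by
        rw [← mul_assoc, mul_inv_cancel₀ him.ne', one_mul]
    _ ≤ _ := hp2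
    _ ≤ _ := pow_le_pow_left₀ (tsum_nonneg (fun h => by positivity)) hs2 n

theorem PS_part2 (Γ : Subgroup SL2) (g : SL2) (n : ℕ) (γ : SL2) (hγ : γ ∈ Γ) (z : ℍ) :
    PS Γ n g (mob γ z) = dn γ z ^ (4 * n) * PS Γ n g z := by
  unfold PS
  rw [← tsum_mul_left]
  let e : Conj Γ g ≃ Conj Γ g :=
    { toFun := fun h => ⟨γ * h * γ⁻¹, by
        obtain ⟨h, δ, hδ, rfl⟩ := h
        exact ⟨γ * δ, Γ.mul_mem hγ hδ, by simp [mul_assoc]⟩⟩
      invFun := fun h => ⟨γ⁻¹ * h * γ, by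
        obtain ⟨h, δ, hδ, rfl⟩ := h
        exact ⟨γ⁻¹ * δ, Γ.mul_mem (Γ.inv_mem hγ) hδ, by simp [mul_assoc]⟩⟩
      left_inv := fun h => by ext1; simp [mul_assoc]
      right_inv := fun h => by ext1; simp [mul_assoc] }
  rw [← e.tsum_eq]
  congr 1
  funext h
  have hX := X_conj γ h z z.im_pos
  have hd : dn γ z ≠ 0 := dn_ne γ z z.im_pos
  have : X ((e h : SL2)) (mob γ z) = X h z / dn γ z ^ 2 := by
    rw [eq_div_iff (pow_ne_zero _ hd)]
    exact hX
  rw [this, div_pow, inv_div, ← pow_mul, div_eq_mul_inv]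
  congr 2
  ring

theorem PS_part4 (Γ : Subgroup SL2) (hΓ : PD Γ) (g : SL2) (hg : g ∈ Sp Γ) (c : SChart g)
    (hs : ∀ b, ∀ z : ℍ, Summable (fun γ : Γ => ((Real.cosh (dist z ((γ : SL2) • c.zb b) / 2)) ^ 4)⁻¹))
    (n : ℕ) (hn : 1 ≤ n) :
    (∃ μ : ℕ, 1 ≤ μ ∧ μ ≤ 2 ∧ ∀ z : ℍ, disp g z ≤ 1 / 20 → X g z ≠ 0 →
      ‖PS Γ n g z * X g z ^ (2 * n) - (μ : ℂ)‖ ≤
        (1 / 2) ^ (2 * n - 2) * (10 ^ 8 * (kk Γ z (c.zb false) + kk Γ z (c.zb true)))) := by
  classical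
  set F : Finset (Conj Γ g) := (({g, g⁻¹} : Finset SL2).subtype (fun h => h ∈ Conj Γ g)) with hF
  have hgC : g ∈ Conj Γ g := ⟨1, Γ.one_mem, by simp⟩
  refine ⟨F.card, ?_, ?_, ?_⟩
  · apply Finset.card_pos.mpr
    exact ⟨⟨g, hgC⟩, by simp [hF]⟩
  · rw [hF, Finset.card_subtype]
    exact (Finset.card_filter_le _ _).trans Finset.card_le_two
  · intro z hz hX
    obtain ⟨hs1, hs2⟩ := conj_sum Γ g hg.1 c hs z
    set D : Conj Γ g → ℝ := fun h => if 1 / 200 ≤ disp (h : SL2) z then (disp (h : SL2) z ^ 2)⁻¹ else 0 with hD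
    have hD0 : ∀ h, 0 ≤ D h := by
      intro h
      simp only [hD]
      split_ifs <;> positivity
    set T : Conj Γ g → ℂ := fun h => ((X (h : SL2) z) ^ (2 * n))⁻¹ * X g z ^ (2 * n) with hT
    have hTF : ∀ h ∈ F, T h = 1 := by
      intro h hh
      rw [hF, Finset.mem_subtype] at hh
      have hx : X g z ^ (2 * n) ≠ 0 := pow_ne_zero _ hX
      rcases Finset.mem_insert.mp hh with h1 | h1
      · simp only [hT]
        rw [h1, inv_mul_cancel₀ hx]
      · rw [Finset.mem_singleton] at h1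
        simp only [hT]
        rw [h1, X_inv, pow_mul, neg_sq, ← pow_mul, inv_mul_cancel₀ hx]
    have hTn : ∀ h ∉ F, ‖T h‖ ≤ (1 / 2) ^ (2 * n - 2) * (1 / 20) ^ 2 * D h := by
      intro h hh
      rw [hF, Finset.mem_subtype, Finset.mem_insert, Finset.mem_singleton] at hh
      push Not at hh
      have h10 : 1 / 10 ≤ disp (h : SL2) z := by
        by_contra hlt
        push Not at hlt
        rcases sep Γ hΓ g h hg (conj_sub Γ g hg h h.2) z (by linarith) hlt with h1 | h1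
        · exact hh.1 h1
        · exact hh.2 h1
      have hDh : D h = (disp (h : SL2) z ^ 2)⁻¹ := by
        simp only [hD]
        rw [if_pos (by linarith)]
      have hpos : 0 < disp (h : SL2) z := by linarith
      rw [hDh]
      have hnorm : ‖T h‖ = (disp g z / disp (h : SL2) z) ^ (2 * n) := by
        simp only [hT]
        rw [norm_mul, norm_term, norm_pow, norm_X]
        have him : (z.im) ≠ 0 := z.im_pos.ne'
        rw [div_pow, mul_pow, inv_pow, ← pow_mul]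
        field_simp
      rw [hnorm]
      have h2n : 2 * n = (2 * n - 2) + 2 := by omega
      have hr : disp g z / disp (h : SL2) z ≤ 1 / 2 := by
        rw [div_le_iff₀ hpos]
        linarith
      have hr0 : 0 ≤ disp g z / disp (h : SL2) z := div_nonneg (disp_nonneg _ _) hpos.le
      calc (disp g z / disp (h : SL2) z) ^ (2 * n)
          = (disp g z / disp (h : SL2) z) ^ (2 * n - 2) * (disp g z / disp (h : SL2) z) ^ 2 := by
            rw [← pow_add, ← h2n]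
        _ ≤ (1 / 2) ^ (2 * n - 2) * ((1 / 20) ^ 2 * (disp (h : SL2) z ^ 2)⁻¹) := by
            apply mul_le_mul (pow_le_pow_left₀ hr0 hr _) _ (by positivity) (by positivity)
            rw [div_pow, div_eq_mul_inv]
            exact mul_le_mul_of_nonneg_right (pow_le_pow_left₀ (disp_nonneg _ _) hz 2) (by positivity)
        _ = _ := by ring
    have hsT : Summable T := by
      rw [← (Finset.summable_compl_iff F)]
      refine Summable.of_norm_bounded (g := fun h : {x // x ∉ F} => (1 / 2) ^ (2 * n - 2) * (1 / 20) ^ 2 * D h) ?_ ?_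
      · exact (hs1.mul_left _).comp_injective Subtype.val_injective
      · intro h
        exact hTn h h.2
    have hsub : Summable (fun h : {x // x ∉ F} => (1 / 2) ^ (2 * n - 2) * (1 / 20) ^ 2 * D h) :=
      (hs1.mul_left _).comp_injective Subtype.val_injective
    have e1 : PS Γ n g z * X g z ^ (2 * n) = ∑' h, T h := by
      unfold PS
      rw [← tsum_mul_right]
    have e2 : ∑' h, T h = (F.card : ℂ) + ∑' h : {x // x ∉ F}, T h := by
      rw [← hsT.sum_add_tsum_subtype_compl F, Finset.sum_congr rfl hTF]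
      simp
    rw [e1, e2, add_sub_cancel_left]
    have hn1 : Summable (fun h : {x // x ∉ F} => ‖T h‖) :=
      Summable.of_nonneg_of_le (fun h => norm_nonneg _) (fun h => hTn h h.2) hsub
    calc ‖∑' h : {x // x ∉ F}, T h‖ ≤ ∑' h : {x // x ∉ F}, ‖T h‖ := norm_tsum_le_tsum_norm hn1
      _ ≤ ∑' h : {x // x ∉ F}, (1 / 2) ^ (2 * n - 2) * (1 / 20) ^ 2 * D h :=
          hn1.tsum_le_tsum (fun h => hTn h h.2) hsub
      _ = (1 / 2) ^ (2 * n - 2) * (1 / 20) ^ 2 * ∑' h : {x // x ∉ F}, D h := tsum_mul_left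
      _ ≤ (1 / 2) ^ (2 * n - 2) * (1 / 20) ^ 2 * ∑' h, D h := by
          apply mul_le_mul_of_nonneg_left _ (by positivity)
          have := hs1.sum_add_tsum_subtype_compl F
          have h0 : 0 ≤ ∑ h ∈ F, D h := Finset.sum_nonneg (fun h _ => hD0 h)
          linarith
      _ ≤ (1 / 2) ^ (2 * n - 2) * (1 / 20) ^ 2 * (10 ^ 10 * (kk Γ z (c.zb false) + kk Γ z (c.zb true))) :=
          mul_le_mul_of_nonneg_left hs2 (by positivity)
      _ ≤ _ := by
          have hk1 := (kk_props Γ).2.2.1 z (c.zb false)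
          have hk2 := (kk_props Γ).2.2.1 z (c.zb true)
          have hp : (0:ℝ) ≤ (1 / 2) ^ (2 * n - 2) := by positivity
          have hk : 0 ≤ (1 / 2 : ℝ) ^ (2 * n - 2) * (kk Γ z (c.zb false) + kk Γ z (c.zb true)) :=
            mul_nonneg hp (by linarith)
          nlinarith [hk]


theorem term_diff (h : SL2) (n : ℕ) (z : ℂ) (hz : X h z ≠ 0) :
    DifferentiableAt ℂ (fun w => ((X h w) ^ (2 * n))⁻¹) z := by
  have h1 : DifferentiableAt ℂ (fun w => X h w) z := by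
    unfold X
    fun_prop
  exact (h1.pow _).inv (pow_ne_zero _ hz)

theorem term_cont (h : SL2) : Continuous (fun w : ℂ => X h w) := by
  unfold X
  fun_prop

theorem disp_half (h : SL2) (z w : ℍ) (hz : 1 / 10 ≤ disp h z) (hd : dist w z < 1 / 100) :
    disp h z / 2 ≤ disp h w := by
  have h1 := disp_tri h w z
  have hd0 : 0 ≤ dist w z := dist_nonneg
  set δ := dist w z
  have hw := disp_nonneg h w
  have h2 : Real.cosh δ + Real.sinh δ = Real.exp δ := Real.cosh_add_sinh δ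
  have h3 : Real.exp δ ≤ 1 + 2 * δ := by
    have := Real.exp_bound_div_one_sub_of_interval hd0 (by linarith : δ < 1)
    refine this.trans ?_
    rw [div_le_iff₀ (by linarith)]
    nlinarith
  have h4 : Real.sinh δ ≤ 2 * δ := by
    have : 1 ≤ Real.cosh δ := Real.one_le_cosh δ
    linarith
  have h5 : disp h z ≤ disp h w * Real.exp δ + 2 * Real.sinh δ := by
    rw [← h2]
    linarith
  have h6 : disp h w * Real.exp δ ≤ disp h w * (1 + 2 * δ) := mul_le_mul_of_nonneg_left h3 hw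
  nlinarith

theorem PS_part1 (Γ : Subgroup SL2) (hΓ : PD Γ) (g : SL2) (hg : g ∈ Sp Γ) (c : SChart g)
    (hs : ∀ b, ∀ z : ℍ, Summable (fun γ : Γ => ((Real.cosh (dist z ((γ : SL2) • c.zb b) / 2)) ^ 4)⁻¹))
    (n : ℕ) (hn : 1 ≤ n) (z : ℂ) (hz : 0 < z.im) (hX : ∀ h ∈ Sp Γ, X h z ≠ 0) :
    DifferentiableAt ℂ (PS Γ n g) z := by
  classical
  set z0 : ℍ := ⟨z, hz⟩ with hz0
  have hzc : (z0 : ℂ) = z := rfl
  obtain ⟨hs1, _⟩ := conj_sum Γ g hg.1 c hs z0
  -- the exceptional finite set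
  obtain ⟨F, hF⟩ : ∃ F : Finset (Conj Γ g), ∀ h : Conj Γ g, h ∉ F → 1 / 10 ≤ disp (h : SL2) z0 := by
    by_cases hex : ∃ g0 : Conj Γ g, disp (g0 : SL2) z0 < 1 / 10
    · obtain ⟨g0, hg0⟩ := hex
      refine ⟨(({(g0 : SL2), (g0 : SL2)⁻¹} : Finset SL2).subtype (fun h => h ∈ Conj Γ g)), ?_⟩
      intro h hh
      by_contra hlt
      push Not at hlt
      apply hh
      rw [Finset.mem_subtype, Finset.mem_insert, Finset.mem_singleton]
      exact sep Γ hΓ g0 h (conj_sub Γ g hg _ g0.2) (conj_sub Γ g hg _ h.2) z0 hg0 hlt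
    · push Not at hex
      exact ⟨∅, fun h _ => hex h⟩
  -- the good neighbourhood in ℍ
  set V : Set ℍ := {w | dist w z0 < 1 / 100 ∧ z0.im / 2 < w.im ∧
    ∀ h ∈ F, X (h : SL2) w ≠ 0 ∧ ‖((X (h : SL2) w) ^ (2 * n))⁻¹‖ < ‖((X (h : SL2) z0) ^ (2 * n))⁻¹‖ + 1} with hV
  have hVn : V ∈ 𝓝 z0 := by
    have hcoe : Continuous (fun w : ℍ => (w : ℂ)) := UpperHalfPlane.continuous_coe
    have e1 : ∀ᶠ w in 𝓝 z0, dist w z0 < 1 / 100 :=
      Metric.ball_mem_nhds z0 (by norm_num)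
    have e2 : ∀ᶠ w in 𝓝 z0, z0.im / 2 < w.im := by
      have : Tendsto (fun w : ℍ => w.im) (𝓝 z0) (𝓝 z0.im) := UpperHalfPlane.continuous_im.tendsto z0
      exact this.eventually (lt_mem_nhds (by linarith [z0.im_pos]))
    have e3 : ∀ᶠ w : ℍ in 𝓝 z0, ∀ h ∈ F, X (h : SL2) (w : ℂ) ≠ 0 ∧ ‖((X (h : SL2) w) ^ (2 * n))⁻¹‖ < ‖((X (h : SL2) z0) ^ (2 * n))⁻¹‖ + 1 := by
      rw [Filter.eventually_all_finset]
      intro h _
      have hne : X (h : SL2) (z0 : ℂ) ≠ 0 := hX _ (conj_sub Γ g hg _ h.2)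
      have hc : ContinuousAt (fun w : ℍ => X (h : SL2) (w : ℂ)) z0 := ((term_cont h).comp hcoe).continuousAt
      refine (hc.eventually_ne hne).and ?_
      have hc2 : ContinuousAt (fun w : ℍ => ‖((X (h : SL2) w) ^ (2 * n))⁻¹‖) z0 :=
        ((hc.pow _).inv₀ (pow_ne_zero _ hne)).norm
      exact hc2.eventually (gt_mem_nhds (by linarith))
    filter_upwards [e1, e2, e3] with w h1 h2 h3
    exact ⟨h1, h2, h3⟩
  obtain ⟨W, hWV, hWo, hzW⟩ := _root_.mem_nhds_iff.mp hVn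
  set U : Set ℂ := (fun w : ℍ => (w : ℂ)) '' W with hU
  have hUo : IsOpen U := UpperHalfPlane.isOpenEmbedding_coe.isOpenMap W hWo
  have hzU : z ∈ U := ⟨z0, hzW, hzc⟩
  have hne0 : ∀ h : Conj Γ g, X (h : SL2) z ≠ 0 := fun h => hX _ (conj_sub Γ g hg _ h.2)
  -- the majorant
  set C : ℝ := (((z0.im / 4)) ^ (2 * n))⁻¹ * 100 ^ n with hC
  set u : Conj Γ g → ℝ := fun h =>
    C * (if 1 / 200 ≤ disp (h : SL2) z0 then (disp (h : SL2) z0 ^ 2)⁻¹ else 0) +
      (if h ∈ F then ‖((X (h : SL2) z0) ^ (2 * n))⁻¹‖ + 1 else 0) with hu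
  have hz0im : 0 < z0.im := z0.im_pos
  have hC0 : 0 ≤ C := by positivity
  have hsu : Summable u := by
    refine (hs1.mul_left C).add ?_
    exact summable_of_ne_finset_zero (s := F) (fun h hh => if_neg hh)
  have hdispw : ∀ h : Conj Γ g, h ∉ F → ∀ w ∈ V, disp (h : SL2) z0 / 2 ≤ disp (h : SL2) w := by
    intro h hh w hw
    exact disp_half h z0 w (hF h hh) hw.1
  have hbound : ∀ h : Conj Γ g, ∀ w ∈ U, ‖((X (h : SL2) w) ^ (2 * n))⁻¹‖ ≤ u h := by
    rintro h _ ⟨w, hw, rfl⟩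
    have hwV := hWV hw
    by_cases hh : h ∈ F
    · simp only [hu]
      rw [if_pos hh]
      have h1 := (hwV.2.2 h hh).2
      have h2 : 0 ≤ C * (if 1 / 200 ≤ disp (h : SL2) z0 then (disp (h : SL2) z0 ^ 2)⁻¹ else 0) := by
        apply mul_nonneg hC0
        split_ifs <;> positivity
      exact h1.le.trans (by linarith)
    · have h10 := hF h hh
      have hhalf := hdispw h hh w hwV
      simp only [hu]
      rw [if_neg hh, if_pos (by linarith), add_zero]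
      have hp : 0 < disp (h : SL2) z0 := by linarith
      have hpw : 0 < disp (h : SL2) w := by linarith
      rw [norm_inv, norm_pow, norm_X]
      have hw2 : disp (h : SL2) z0 * (z0.im / 4) ≤ disp (h : SL2) w * w.im := by
        calc disp (h : SL2) z0 * (z0.im / 4) = (disp (h : SL2) z0 / 2) * (z0.im / 2) := by ring
          _ ≤ disp (h : SL2) w * w.im := mul_le_mul hhalf hwV.2.1.le (by positivity) hpw.le
      have h3 : ((disp (h : SL2) w * w.im) ^ (2 * n))⁻¹ ≤ ((disp (h : SL2) z0 * (z0.im / 4)) ^ (2 * n))⁻¹ :=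
        inv_anti₀ (by positivity) (pow_le_pow_left₀ (by positivity) hw2 _)
      refine h3.trans ?_
      rw [mul_pow, mul_inv, hC]
      obtain ⟨m, rfl⟩ : ∃ m, n = m + 1 := ⟨n - 1, by omega⟩
      have h4 : (disp (h : SL2) z0 ^ (2 * (m + 1)))⁻¹ ≤ 100 ^ (m + 1) * (disp (h : SL2) z0 ^ 2)⁻¹ := by
        rw [pow_mul, pow_succ, mul_inv, ← inv_pow]
        apply mul_le_mul_of_nonneg_right _ (by positivity)
        have h5 : (disp (h : SL2) z0 ^ 2)⁻¹ ≤ 100 := by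
          rw [inv_le_comm₀ (by positivity) (by norm_num)]
          nlinarith
        calc ((disp (h : SL2) z0 ^ 2)⁻¹) ^ m ≤ 100 ^ m := pow_le_pow_left₀ (by positivity) h5 m
          _ ≤ 100 ^ (m + 1) := pow_le_pow_right₀ (by norm_num) (by omega)
      calc (disp (h : SL2) z0 ^ (2 * (m + 1)))⁻¹ * ((z0.im / 4) ^ (2 * (m + 1)))⁻¹
          ≤ (100 ^ (m + 1) * (disp (h : SL2) z0 ^ 2)⁻¹) * ((z0.im / 4) ^ (2 * (m + 1)))⁻¹ :=
            mul_le_mul_of_nonneg_right h4 (by positivity)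
        _ = _ := by ring
  have hdiff : ∀ h : Conj Γ g, DifferentiableOn ℂ (fun w => ((X (h : SL2) w) ^ (2 * n))⁻¹) U := by
    rintro h _ ⟨w, hw, rfl⟩
    have hwV := hWV hw
    apply (term_diff h n w _).differentiableWithinAt
    by_cases hh : h ∈ F
    · exact (hwV.2.2 h hh).1
    · have h10 := hF h hh
      have hhalf := hdispw h hh w hwV
      intro h0
      have : disp (h : SL2) w = 0 := by
        unfold disp
        rw [h0]
        simp
      linarith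
  have hfin := Complex.differentiableOn_tsum_of_summable_norm hsu hdiff hUo hbound
  exact hfin.differentiableAt (hUo.mem_nhds hzU)

/-! TARGET: -/

theorem PS_props (Γ : Subgroup SL2) (hΓ : PD Γ) (g : SL2) (hg : g ∈ Sp Γ) (c : SChart g)
    (hs : ∀ b, ∀ z : ℍ, Summable (fun γ : Γ => ((Real.cosh (dist z ((γ : SL2) • c.zb b) / 2)) ^ 4)⁻¹))
    (n : ℕ) (hn : 1 ≤ n) :
    (∀ z : ℂ, 0 < z.im → (∀ h ∈ Sp Γ, X h z ≠ 0) → DifferentiableAt ℂ (PS Γ n g) z) ∧
    (∀ γ ∈ Γ, ∀ z : ℍ, PS Γ n g (mob γ z) = dn γ z ^ (4 * n) * PS Γ n g z) ∧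
    (∀ z : ℍ, (∀ h ∈ Conj Γ g, 1 / 200 ≤ disp h z) →
      z.im ^ (2 * n) * ‖PS Γ n g z‖ ≤ (10 ^ 10 * (kk Γ z (c.zb false) + kk Γ z (c.zb true))) ^ n) ∧
    (∃ μ : ℕ, 1 ≤ μ ∧ μ ≤ 2 ∧ ∀ z : ℍ, disp g z ≤ 1 / 20 → X g z ≠ 0 →
      ‖PS Γ n g z * X g z ^ (2 * n) - (μ : ℂ)‖ ≤
        (1 / 2) ^ (2 * n - 2) * (10 ^ 8 * (kk Γ z (c.zb false) + kk Γ z (c.zb true)))) :=
  ⟨fun z hz hX => PS_part1 Γ hΓ g hg c hs n hn z hz hX,
    fun γ hγ z => PS_part2 Γ g n γ hγ z,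
    fun z hz => PS_part3 Γ g hg c hs n hn z hz,
    PS_part4 Γ hΓ g hg c hs n hn⟩

end NF

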