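import Pool.Agent.Helper369.NF.Defs
import Pool.Agent.Helper369.NF.B0
import Pool.Agent.Helper369.NF.G6
import Pool.Agent.Helper369.NF.G9
import Pool.Agent.Helper369.NF.P3
import Pool.Agent.Helper369.NF.S2

open MeasureTheory Filter Topology Metric UpperHalfPlane

namespace NF

/-! The following statements are GIVEN (other jobs); do not prove them. -/

/-! TARGET: -/

theorem PS_form (Γ : Subgroup SL2) (hΓ : PD Γ) (g : SL2) (hg : g ∈ Sp Γ) (c : SChart g) (n : ℕ) (hn : 1 ≤ n)
    (C : ℝ) (hs : ∀ b, KSum Γ (c.zb b)) (hC : ∀ b, ∀ z : ℍ, kk Γ z (c.zb b) ≤ C) :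
    IsForm Γ n (fun z => 2 * PS Γ n g z) := by
  obtain ⟨p1, p2, p3, μ, hμ1, hμ2, p4⟩ := PS_props Γ hΓ g hg c (fun b z => hs b z) n hn
  have hk0 : ∀ z p : ℍ, 0 ≤ kk Γ z p := (kk_props Γ).2.2.1
  have hC0 : 0 ≤ C := (hk0 (c.zb false) (c.zb false)).trans (hC false _)
  refine ⟨?_, ?_, ?_⟩
  · intro z hz hX
    exact (p1 z hz hX).const_mul _
  · intro γ hγ z
    show 2 * PS Γ n g (mob γ z) = dn γ z ^ (4 * n) * (2 * PS Γ n g z)
    rw [p2 γ hγ z]
    ring
  · intro g' hg'
    by_cases hcase : ∃ s, (s = g' ∨ s = g'⁻¹) ∧ s ∈ Conj Γ g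
    · obtain ⟨s, hsg, γ, hγ, hsγ⟩ := hcase
      refine ⟨2 * (2 + 10 ^ 8 * (C + C)), ?_⟩
      intro z hz hXz
      have hXs : X s z = X g' z ∨ X s z = - X g' z := by
        rcases hsg with h | h
        · left; rw [h]
        · right; rw [h, X_inv]
      have hXs2 : X g' z ^ (2 * n) = X s z ^ (2 * n) := by
        rcases hXs with h | h
        · rw [h]
        · rw [h, pow_mul, pow_mul, neg_sq]
      have hXs0 : X s z ≠ 0 := by
        rcases hXs with h | h
        · rw [h]; exact hXz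
        · rw [h]; exact neg_ne_zero.2 hXz
      have hds : disp s z = disp g' z := by
        unfold disp
        rcases hXs with h | h
        · rw [h]
        · rw [h, norm_neg]
      set z' : ℍ := γ⁻¹ • z with hz'
      have hzz' : γ • z' = z := by rw [hz', smul_inv_smul]
      have hmob : mob γ z' = (z : ℂ) := by
        rw [← coe_smul', hzz']
      have hdn : dn γ z' ≠ 0 := dn_ne γ z' z'.im_pos
      have hXc : X s z * dn γ z' ^ 2 = X g z' := by
        have := X_conj γ g z' z'.im_pos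
        rw [← hsγ, hmob] at this
        exact this
      have hXg0 : X g z' ≠ 0 := by
        rw [← hXc]
        exact mul_ne_zero hXs0 (pow_ne_zero _ hdn)
      have hdg : disp g z' ≤ 1 / 20 := by
        have := disp_conj γ g z'
        rw [← hsγ, hzz', hds] at this
        rw [← this]
        exact hz
      have h4 := p4 z' hdg hXg0
      have heq : PS Γ n g z * X g' z ^ (2 * n) = PS Γ n g z' * X g z' ^ (2 * n) := by
        rw [hXs2]
        have h5 := p2 γ hγ z'
        rw [hmob] at h5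
        rw [h5, ← hXc, mul_pow, ← pow_mul]
        have : 2 * (2 * n) = 4 * n := by ring
        rw [this]
        ring
      have hK : kk Γ z' (c.zb false) + kk Γ z' (c.zb true) ≤ C + C := add_le_add (hC _ _) (hC _ _)
      have hb : ‖PS Γ n g z' * X g z' ^ (2 * n)‖ ≤ 2 + 10 ^ 8 * (C + C) := by
        have h6 : ‖(μ : ℂ)‖ ≤ 2 := by
          rw [Complex.norm_natCast]
          exact_mod_cast hμ2
        have h7 : (1 / 2 : ℝ) ^ (2 * n - 2) * (10 ^ 8 * (kk Γ z' (c.zb false) + kk Γ z' (c.zb true))) ≤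
            1 * (10 ^ 8 * (C + C)) := by
          have h8 : (1 / 2 : ℝ) ^ (2 * n - 2) ≤ 1 := pow_le_one₀ (by norm_num) (by norm_num)
          have h9 := hk0 z' (c.zb false)
          have h10 := hk0 z' (c.zb true)
          gcongr
        calc ‖PS Γ n g z' * X g z' ^ (2 * n)‖
            = ‖(PS Γ n g z' * X g z' ^ (2 * n) - (μ : ℂ)) + (μ : ℂ)‖ := by ring_nf
          _ ≤ ‖PS Γ n g z' * X g z' ^ (2 * n) - (μ : ℂ)‖ + ‖(μ : ℂ)‖ := norm_add_le _ _
          _ ≤ _ := by linarith
      show ‖2 * PS Γ n g z * X g' z ^ (2 * n)‖ ≤ _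
      rw [mul_assoc, heq, norm_mul, Complex.norm_ofNat]
      linarith
    · refine ⟨2 * (10 ^ 10 * (C + C)) ^ n, ?_⟩
      intro z hz hXz
      have hfar : ∀ h ∈ Conj Γ g, 1 / 200 ≤ disp h z := by
        intro h hh
        by_contra hcon
        push Not at hcon
        have hhSp : h ∈ Sp Γ := by
          obtain ⟨γ, hγ, rfl⟩ := hh
          exact (sp_conj Γ g hg γ hγ).1
        have h5 := sep Γ hΓ g' h hg' hhSp z (by linarith) (by linarith)
        exact hcase ⟨h, h5, hh⟩
      have h3 := p3 z hfar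
      have hK : kk Γ z (c.zb false) + kk Γ z (c.zb true) ≤ C + C := add_le_add (hC _ _) (hC _ _)
      have hK0 : 0 ≤ kk Γ z (c.zb false) + kk Γ z (c.zb true) := add_nonneg (hk0 _ _) (hk0 _ _)
      have h6 : (10 ^ 10 * (kk Γ z (c.zb false) + kk Γ z (c.zb true))) ^ n ≤ (10 ^ 10 * (C + C)) ^ n := by
        gcongr
      have hXle : ‖X g' z‖ ≤ z.im := by
        have h7 : ‖X g' z‖ / z.im ≤ 1 / 20 := hz
        rw [div_le_iff₀ z.im_pos] at h7
        have := z.im_pos
        linarith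
      show ‖2 * PS Γ n g z * X g' z ^ (2 * n)‖ ≤ _
      rw [norm_mul, norm_mul, Complex.norm_ofNat, norm_pow]
      calc 2 * ‖PS Γ n g z‖ * ‖X g' z‖ ^ (2 * n) ≤ 2 * ‖PS Γ n g z‖ * z.im ^ (2 * n) := by gcongr
        _ = 2 * (z.im ^ (2 * n) * ‖PS Γ n g z‖) := by ring
        _ ≤ 2 * (10 ^ 10 * (C + C)) ^ n := by
          have := h3.trans h6
          linarith

end NF

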