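import Pool.Agent.Helper369.NF.Defs
import Pool.Agent.Helper369.NF.B0

open MeasureTheory Filter Topology Metric UpperHalfPlane

namespace NF

theorem elliptic_aux (g : SL2) (h : tr g ^ 2 < 4) : ∃ x0 y0 : ℝ, 0 < y0 ∧
    g 0 0 - g 1 1 = 2 * g 1 0 * x0 ∧ g 0 1 = -(g 1 0) * (x0 ^ 2 + y0 ^ 2) ∧
    Real.sqrt (4 - tr g ^ 2) = 2 * |g 1 0| * y0 := by
  have hdet : g 0 0 * g 1 1 - g 0 1 * g 1 0 = 1 := by
    have := g.det_coe
    rwa [Matrix.det_fin_two] at this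
  obtain ⟨a, ha⟩ : ∃ a, a = g 0 0 := ⟨_, rfl⟩
  obtain ⟨b, hb⟩ : ∃ b, b = g 0 1 := ⟨_, rfl⟩
  obtain ⟨c, hc⟩ : ∃ c, c = g 1 0 := ⟨_, rfl⟩
  obtain ⟨d, hd⟩ : ∃ d, d = g 1 1 := ⟨_, rfl⟩
  unfold tr at h ⊢
  rw [← ha, ← hb, ← hc, ← hd] at hdet
  rw [← ha, ← hd] at h
  rw [← ha, ← hb, ← hc, ← hd]
  have hc0 : c ≠ 0 := by
    rintro rfl
    have : a * d = 1 := by linarith
    nlinarith [sq_nonneg (a - d)]
  have hs : 0 < Real.sqrt (4 - (a + d) ^ 2) := Real.sqrt_pos.2 (by linarith)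
  have hs2 : Real.sqrt (4 - (a + d) ^ 2) ^ 2 = 4 - (a + d) ^ 2 := Real.sq_sqrt (by linarith)
  have hac : 0 < |c| := abs_pos.2 hc0
  refine ⟨(a - d) / (2 * c), Real.sqrt (4 - (a + d) ^ 2) / (2 * |c|), by positivity, ?_, ?_, ?_⟩
  · field_simp
  · rw [div_pow, div_pow, hs2, mul_pow, mul_pow, sq_abs]
    field_simp
    nlinarith
  · field_simp

/-- target (only this one; the statements above are GIVEN, do not prove) -/
theorem elliptic_point (g : SL2) (h : tr g ^ 2 < 4) : ∃ e : ℍ, g • e = e ∧ X g e = 0 ∧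
    ∀ z : ℍ, disp g z = Real.sqrt (4 - tr g ^ 2) * Real.sinh (dist z e) := by
  obtain ⟨x0, y0, hy0, h1, h2, h3⟩ := elliptic_aux g h
  obtain ⟨e, he⟩ : ∃ e : ℍ, (e : ℂ) = ⟨x0, y0⟩ := ⟨⟨⟨x0, y0⟩, hy0⟩, rfl⟩
  have he' : (e : ℂ) = (x0 : ℂ) + (y0 : ℂ) * Complex.I := by
    rw [he]
    exact Complex.mk_eq_add_mul_I x0 y0
  have hec : (starRingEnd ℂ) (e : ℂ) = (x0 : ℂ) - (y0 : ℂ) * Complex.I := by
    rw [he', map_add, map_mul, Complex.conj_ofReal, Complex.conj_ofReal, Complex.conj_I]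
    ring
  have heim : e.im = y0 := by
    show (e : ℂ).im = y0
    rw [he]
  have h1' : (g 0 0 : ℂ) - (g 1 1 : ℂ) = 2 * (g 1 0 : ℂ) * x0 := by exact_mod_cast h1
  have h2' : (g 0 1 : ℂ) = -(g 1 0 : ℂ) * ((x0 : ℂ) ^ 2 + (y0 : ℂ) ^ 2) := by exact_mod_cast h2
  have hX : ∀ z : ℂ, X g z = -(g 1 0 : ℂ) * ((z - e) * (z - (starRingEnd ℂ) (e : ℂ))) := by
    intro z
    unfold X
    rw [h1', h2', hec, he']
    have hI : Complex.I ^ 2 = -1 := Complex.I_sq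
    linear_combination (-(g 1 0 : ℂ)) * (y0 : ℂ) ^ 2 * hI
  have hXe : X g e = 0 := by
    rw [hX]
    ring
  refine ⟨e, ?_, hXe, ?_⟩
  · apply UpperHalfPlane.ext
    rw [coe_smul']
    unfold mob
    have hdn := dn_ne g (e : ℂ) e.im_pos
    rw [div_eq_iff hdn]
    unfold dn
    unfold X at hXe
    linear_combination hXe
  · intro z
    have hz := z.im_pos
    have e1 : Real.sinh (dist z e) = 2 * Real.sinh (dist z e / 2) * Real.cosh (dist z e / 2) := by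
      rw [← Real.sinh_two_mul]
      congr 1
      ring
    rw [e1, sinh_half_dist, cosh_half_dist, h3]
    unfold disp
    rw [hX, norm_mul, norm_mul, norm_neg, Complex.norm_real, Real.norm_eq_abs, dist_eq_norm, dist_eq_norm,
      heim]
    have hsq : Real.sqrt (z.im * y0) * Real.sqrt (z.im * y0) = z.im * y0 :=
      Real.mul_self_sqrt (by positivity)
    have hpos : 0 < Real.sqrt (z.im * y0) := Real.sqrt_pos.2 (by positivity)
    have e2 : 2 * |g 1 0| * y0 * (2 * (‖(z : ℂ) - e‖ / (2 * Real.sqrt (z.im * y0))) *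
        (‖(z : ℂ) - (starRingEnd ℂ) (e : ℂ)‖ / (2 * Real.sqrt (z.im * y0)))) =
        |g 1 0| * y0 * (‖(z : ℂ) - e‖ * ‖(z : ℂ) - (starRingEnd ℂ) (e : ℂ)‖) /
        (Real.sqrt (z.im * y0) * Real.sqrt (z.im * y0)) := by
      field_simp
    rw [e2, hsq]
    field_simp

end NF

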