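import Pool.Agent.Helper369.NF.Defs
import Pool.Agent.Helper369.NF.B0

open MeasureTheory Filter Topology Metric UpperHalfPlane

namespace NF

/-! The following statements are GIVEN (other jobs); do not prove them. -/

/-! TARGET: -/

theorem aux105_det (g : SL2) : g 0 0 * g 1 1 - g 0 1 * g 1 0 = 1 := by
  have := g.det_coe
  rw [Matrix.det_fin_two] at this
  exact this

theorem aux105_scalar (g : SL2) (h1 : g 0 1 = 0) (h2 : g 1 0 = 0) (h3 : g 0 0 = g 1 1) :
    g = 1 ∨ g = -1 := by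
  have hd := aux105_det g
  rw [h1, h2, ← h3] at hd
  have h4 : (g 0 0 - 1) * (g 0 0 + 1) = 0 := by nlinarith
  rcases mul_eq_zero.mp h4 with h | h
  · left
    ext i j
    fin_cases i <;> fin_cases j <;> simp
    · linarith
    · exact h1
    · exact h2
    · linarith
  · right
    ext i j
    fin_cases i <;> fin_cases j <;> simp
    · linarith
    · exact h1
    · exact h2
    · linarith

theorem aux105_X_of (g k : SL2) (β : ℝ) (h1 : g 0 1 = β * k 0 1) (h2 : g 1 0 = β * k 1 0)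
    (h3 : g 0 0 - g 1 1 = β * (k 0 0 - k 1 1)) (z : ℂ) : X g z = β * X k z := by
  unfold X
  have h3' : (g 0 0 : ℂ) - (g 1 1 : ℂ) = (β : ℂ) * ((k 0 0 : ℂ) - (k 1 1 : ℂ)) := by
    exact_mod_cast h3
  rw [h3', h1, h2]
  push_cast
  ring

theorem aux105_disp_of (g k : SL2) (β : ℝ) (h1 : g 0 1 = β * k 0 1) (h2 : g 1 0 = β * k 1 0)
    (h3 : g 0 0 - g 1 1 = β * (k 0 0 - k 1 1)) (z : ℍ) : disp g z = |β| * disp k z := by
  unfold disp
  rw [aux105_X_of g k β h1 h2 h3, norm_mul, Complex.norm_real, Real.norm_eq_abs, mul_div_assoc]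

theorem aux105_tr_of (g k : SL2) (β : ℝ) (h1 : g 0 1 = β * k 0 1) (h2 : g 1 0 = β * k 1 0)
    (h3 : g 0 0 - g 1 1 = β * (k 0 0 - k 1 1)) : tr g ^ 2 - 4 = β ^ 2 * (tr k ^ 2 - 4) := by
  have d1 := aux105_det g
  have d2 := aux105_det k
  have e1 : tr g ^ 2 - 4 = (g 0 0 - g 1 1) ^ 2 + 4 * (g 0 1 * g 1 0) := by
    unfold tr
    linear_combination 4 * d1
  have e2 : tr k ^ 2 - 4 = (k 0 0 - k 1 1) ^ 2 + 4 * (k 0 1 * k 1 0) := by
    unfold tr
    linear_combination 4 * d2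
  rw [e1, e2, h1, h2, h3]
  ring

theorem aux105_comm_iff (g k : SL2) : g * k = k * g ↔
    (g 0 1 * k 1 0 = k 0 1 * g 1 0 ∧ (g 0 0 - g 1 1) * k 0 1 = (k 0 0 - k 1 1) * g 0 1 ∧
      (g 0 0 - g 1 1) * k 1 0 = (k 0 0 - k 1 1) * g 1 0) := by
  constructor
  · intro h
    have h' : (g : Matrix (Fin 2) (Fin 2) ℝ) * (k : Matrix (Fin 2) (Fin 2) ℝ) =
        (k : Matrix (Fin 2) (Fin 2) ℝ) * (g : Matrix (Fin 2) (Fin 2) ℝ) := by
      rw [← Matrix.SpecialLinearGroup.coe_mul, h, Matrix.SpecialLinearGroup.coe_mul]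
    have h00 := congrFun (congrFun h' 0) 0
    have h01 := congrFun (congrFun h' 0) 1
    have h10 := congrFun (congrFun h' 1) 0
    simp only [Matrix.mul_apply, Fin.sum_univ_two] at h00 h01 h10
    refine ⟨by linarith, by linarith, by linarith⟩
  · rintro ⟨h1, h2, h3⟩
    ext i j
    fin_cases i <;> fin_cases j <;> simp [Matrix.mul_apply, Fin.sum_univ_two] <;> linarith

theorem aux105_comm (g k : SL2) (k1 : k ≠ 1) (k2 : k ≠ -1) (h : g * k = k * g) :
    ∃ β : ℝ, g 0 1 = β * k 0 1 ∧ g 1 0 = β * k 1 0 ∧ g 0 0 - g 1 1 = β * (k 0 0 - k 1 1) := by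
  rw [aux105_comm_iff] at h
  obtain ⟨h1, h2, h3⟩ := h
  by_cases hb : k 0 1 = 0
  · by_cases hc : k 1 0 = 0
    · have had : k 0 0 - k 1 1 ≠ 0 := by
        intro h0
        rcases aux105_scalar k hb hc (by linarith) with h | h
        · exact k1 h
        · exact k2 h
      refine ⟨(g 0 0 - g 1 1) / (k 0 0 - k 1 1), ?_, ?_, ?_⟩
      · field_simp; linarith
      · field_simp; linarith
      · field_simp
    · refine ⟨g 1 0 / k 1 0, ?_, ?_, ?_⟩
      · field_simp; linarith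
      · field_simp
      · field_simp; linarith
  · refine ⟨g 0 1 / k 0 1, ?_, ?_, ?_⟩
    · field_simp
    · field_simp; linarith
    · field_simp; linarith

theorem aux105_disp_neg (g : SL2) (z : ℍ) : disp (-g) z = disp g z := by
  unfold disp
  rw [X_neg, norm_neg]

theorem aux105_tr_neg (g : SL2) : tr (-g) = - tr g := by
  unfold tr
  simp
  ring

theorem aux105_point (k : SL2) (k1 : k ≠ 1) (k2 : k ≠ -1) : ∃ z0 : ℍ, 0 < disp k z0 := by
  have hi : ∀ t : ℝ, 0 < t → ∃ z : ℍ, (z : ℂ) = t * Complex.I := by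
    intro t ht
    refine ⟨⟨t * Complex.I, by simpa using ht⟩, rfl⟩
  obtain ⟨z1, hz1⟩ := hi 1 one_pos
  obtain ⟨z2, hz2⟩ := hi 2 two_pos
  by_contra hcon
  push Not at hcon
  have hX : ∀ z : ℍ, X k z = 0 := by
    intro z
    have h1 := hcon z
    unfold disp at h1
    have h2 : ‖X k z‖ / z.im ≤ 0 := h1
    have h3 : 0 < z.im := z.im_pos
    have h4 : ‖X k z‖ ≤ 0 := by
      by_contra h5
      push Not at h5
      exact absurd h2 (not_le.mpr (div_pos h5 h3))
    exact norm_le_zero_iff.mp h4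
  have e1 := hX z1
  have e2 := hX z2
  rw [hz1] at e1
  rw [hz2] at e2
  unfold X at e1 e2
  have r1 := congrArg Complex.re e1
  have i1 := congrArg Complex.im e1
  have r2 := congrArg Complex.re e2
  have i2 := congrArg Complex.im e2
  simp [pow_two] at r1 i1 r2 i2
  rcases aux105_scalar k (by linarith) (by linarith) (by linarith) with h | h
  · exact k1 h
  · exact k2 h

theorem min_elt (Γ : Subgroup SL2) (hΓ : PD Γ) (hneg : -1 ∈ Γ) (k : SL2) (hk : k ∈ Γ)
    (k1 : k ≠ 1) (k2 : k ≠ -1) (h1 : 2 - 1 / 10 ^ 6 < |tr k|) (h2 : tr k ^ 2 - 4 < (1 / 160) ^ 2) :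
    ∃ g ∈ Sp Γ, g * k = k * g ∧ ∀ z : ℍ, disp g z ≤ disp k z := by
  obtain ⟨z0, hz0⟩ := aux105_point k k1 k2
  set T : Set SL2 := {g | g ∈ Γ ∧ g ≠ 1 ∧ g ≠ -1 ∧ g * k = k * g ∧ disp g z0 ≤ disp k z0} with hT
  have hTfin : T.Finite := by
    refine (hΓ (closedBall z0 (dist z0 (k • z0))) (isCompact_closedBall _ _)).subset ?_
    rintro g ⟨hg, _, _, _, hd⟩
    refine ⟨hg, z0, mem_closedBall_self dist_nonneg, ?_⟩
    rw [disp_eq, disp_eq] at hd
    rw [mem_closedBall, dist_comm]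
    have h3 : Real.sinh (dist z0 (g • z0) / 2) ≤ Real.sinh (dist z0 (k • z0) / 2) := by linarith
    rw [Real.sinh_le_sinh] at h3
    linarith
  have hTne : T.Nonempty := ⟨k, hk, k1, k2, rfl, le_rfl⟩
  obtain ⟨g, hgT, hgmin⟩ := Set.exists_min_image T (fun g => disp g z0) hTfin hTne
  obtain ⟨hgΓ, g1, g2, hgk, hgd⟩ := hgT
  obtain ⟨β, b1, b2, b3⟩ := aux105_comm g k k1 k2 hgk
  have hdisp := aux105_disp_of g k β b1 b2 b3
  have htr := aux105_tr_of g k β b1 b2 b3
  have hβ1 : |β| ≤ 1 := by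
    rw [hdisp z0] at hgd
    by_contra h
    push Not at h
    nlinarith
  have hβ0 : β ≠ 0 := by
    rintro rfl
    rcases aux105_scalar g (by linarith) (by linarith) (by linarith) with h | h
    · exact g1 h
    · exact g2 h
  have hβsq : β ^ 2 ≤ 1 := by
    rw [← sq_abs]
    exact pow_le_one₀ (abs_nonneg _) hβ1
  have hβsq0 : 0 ≤ β ^ 2 := sq_nonneg β
  have hg0 : 0 < disp g z0 := by
    rw [hdisp z0]
    exact mul_pos (abs_pos.mpr hβ0) hz0
  have hgle : ∀ z : ℍ, disp g z ≤ disp k z := by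
    intro z
    rw [hdisp z]
    have h3 : 0 ≤ disp k z := by
      unfold disp
      exact div_nonneg (norm_nonneg _) z.im_pos.le
    nlinarith
  -- minimality
  have hmin : ∀ κ ∈ Γ, κ ≠ 1 → κ ≠ -1 → κ * g = g * κ → ∀ z : ℍ, disp g z ≤ disp κ z := by
    intro κ hκ κ1 κ2 hcomm z
    obtain ⟨β', c1, c2, c3⟩ := aux105_comm κ g g1 g2 hcomm
    have hdisp' := aux105_disp_of κ g β' c1 c2 c3
    have hβ' : 1 ≤ |β'| := by
      by_contra h
      push Not at h
      have h3 : disp κ z0 < disp g z0 := by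
        rw [hdisp' z0]
        nlinarith
      have h4 : κ ∈ T := by
        refine ⟨hκ, κ1, κ2, ?_, h3.le.trans hgd⟩
        rw [aux105_comm_iff]
        rw [c1, c2, c3, b1, b2, b3]
        refine ⟨by ring, by ring, by ring⟩
      exact absurd (hgmin κ h4) (not_le.mpr h3)
    rw [hdisp' z]
    have h3 : 0 ≤ disp g z := by
      unfold disp
      exact div_nonneg (norm_nonneg _) z.im_pos.le
    nlinarith
  have htrk : (2 - 1 / 10 ^ 6 : ℝ) ^ 2 < tr k ^ 2 := by
    rw [← sq_abs (tr k)]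
    exact pow_lt_pow_left₀ h1 (by norm_num) (by norm_num)
  have htrg : (2 - 1 / 10 ^ 6 : ℝ) ^ 2 < tr g ^ 2 := by
    rcases le_total 0 (tr k ^ 2 - 4) with h | h
    · have h3 : 0 ≤ tr g ^ 2 - 4 := by rw [htr]; positivity
      norm_num
      norm_num at h3
      linarith
    · have h3 : tr k ^ 2 - 4 ≤ β ^ 2 * (tr k ^ 2 - 4) := by nlinarith
      linarith
  have htrg2 : tr g ^ 2 - 4 < (1 / 160) ^ 2 := by
    rw [htr]
    rcases le_total 0 (tr k ^ 2 - 4) with h | h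
    · have h3 : β ^ 2 * (tr k ^ 2 - 4) ≤ tr k ^ 2 - 4 := by nlinarith
      linarith
    · have h3 : β ^ 2 * (tr k ^ 2 - 4) ≤ 0 := mul_nonpos_of_nonneg_of_nonpos hβsq0 h
      have : (0 : ℝ) < (1 / 160) ^ 2 := by norm_num
      linarith
  rcases le_total 0 (tr g) with ht | ht
  · refine ⟨g, ⟨hgΓ, g1, ?_, htrg2, hmin⟩, hgk, hgle⟩
    exact lt_of_pow_lt_pow_left₀ 2 ht htrg
  · refine ⟨-g, ⟨?_, ?_, ?_, ?_, ?_⟩, ?_, ?_⟩
    · have := Γ.mul_mem hneg hgΓ
      rwa [neg_one_mul] at this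
    · intro h
      exact g2 (neg_eq_iff_eq_neg.mp h)
    · rw [aux105_tr_neg]
      apply lt_of_pow_lt_pow_left₀ 2 (by linarith)
      rw [neg_sq]
      exact htrg
    · rw [aux105_tr_neg, neg_sq]
      exact htrg2
    · intro κ hκ κ1 κ2 hcomm z
      rw [aux105_disp_neg]
      apply hmin κ hκ κ1 κ2
      rw [mul_neg, neg_mul] at hcomm
      exact neg_injective hcomm
    · rw [neg_mul, mul_neg, hgk]
    · intro z
      rw [aux105_disp_neg]
      exact hgle z

end NF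

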