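import Pool.Agent.Helper369.NF.Defs
import Pool.Agent.Helper369.NF.B0
import Pool.Agent.Helper369.NF.B1
import Pool.Agent.Helper369.NF.G5

open MeasureTheory Filter Topology Metric UpperHalfPlane

namespace NF

/-! The following statements are GIVEN (other jobs); do not prove them. -/

/-! helper lemmas -/

theorem gp_sinh_le {x : ℝ} (h0 : 0 ≤ x) (h1 : x ≤ 1 / 1000) : Real.sinh x ≤ 1.001 * x := by
  have e1 : Real.exp x ≤ 1 / (1 - x) := Real.exp_bound_div_one_sub_of_interval h0 (by linarith)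
  have e2 : 1 - x ≤ Real.exp (-x) := by have := Real.add_one_le_exp (-x); linarith
  have e3 : 1 / (1 - x) ≤ 1 + x + 3 / 2 * x ^ 2 := by
    rw [div_le_iff₀ (by linarith)]
    have : 0 ≤ x ^ 2 * (1 / 2 - 3 / 2 * x) := mul_nonneg (sq_nonneg x) (by linarith)
    nlinarith
  rw [Real.sinh_eq]
  nlinarith

theorem gp_cosh_le (x : ℝ) (h0 : 0 ≤ x) : Real.cosh x ≤ 1 + Real.sinh x := by
  have h1 := Real.cosh_sq x
  have h2 := Real.cosh_pos x
  have h3 : 0 ≤ Real.sinh x := Real.sinh_nonneg_iff.2 h0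
  nlinarith

theorem gp_fix {g : SL2} {z : ℍ} (h : g • z = z) : disp g z = 0 := by
  rw [disp_eq, h, dist_self]; simp

theorem gp_fix' {g : SL2} {z : ℍ} (h : disp g z = 0) : g • z = z := by
  rw [disp_eq] at h
  have h1 : Real.sinh (dist z (g • z) / 2) = 0 := by linarith
  rw [Real.sinh_eq_zero] at h1
  have h2 : dist z (g • z) = 0 := by linarith
  exact (dist_eq_zero.1 h2).symm

theorem gp_one (z : ℍ) : disp 1 z = 0 := gp_fix (one_smul _ z)

theorem gp_neg_one (z : ℍ) : disp (-1) z = 0 := by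
  have h := gp_one z
  unfold disp at *
  rw [X_neg, norm_neg]; exact h

theorem gp_ne {g : SL2} {z : ℍ} (h : g • z ≠ z) : g ≠ 1 ∧ g ≠ -1 := by
  constructor
  · rintro rfl; exact h (gp_fix' (gp_one z))
  · rintro rfl; exact h (gp_fix' (gp_neg_one z))

theorem gp_disp_nonneg (g : SL2) (z : ℍ) : 0 ≤ disp g z := by
  unfold disp
  exact div_nonneg (norm_nonneg _) z.im_pos.le

theorem gp_min (Γ : Subgroup SL2) (hΓ : PD Γ) (hneg : -1 ∈ Γ) (k : SL2) (hk : k ∈ Γ)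
    (k1 : k ≠ 1) (k2 : k ≠ -1) (h1 : 2 - 1 / 10 ^ 6 < |tr k|) (z : ℍ) (h2 : disp k z < 1 / 160) :
    ∃ g ∈ Sp Γ, disp g z ≤ disp k z := by
  have h3 : tr k ^ 2 - 4 < (1 / 160) ^ 2 := by
    have := tr_sq_le k z
    have h4 := gp_disp_nonneg k z
    nlinarith
  obtain ⟨g, hg, -, hg2⟩ := min_elt Γ hΓ hneg k hk k1 k2 h1 h3
  exact ⟨g, hg, hg2 z⟩

theorem gp_disp_I (g : SL2) : disp g I ^ 2 = (g 0 1 + g 1 0) ^ 2 + (g 0 0 - g 1 1) ^ 2 := by
  have h : X g (I : ℍ) = ((g 0 1 + g 1 0 : ℝ) : ℂ) + ((g 0 0 - g 1 1 : ℝ) : ℂ) * Complex.I := by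
    unfold X
    rw [UpperHalfPlane.coe_I]
    push_cast
    linear_combination (-(g 1 0 : ℂ)) * Complex.I_sq
  unfold disp
  rw [h, UpperHalfPlane.I_im, div_one, ← Complex.normSq_eq_norm_sq, Complex.normSq_add_mul_I]

theorem gp_det (g : SL2) : g 0 0 * g 1 1 - g 0 1 * g 1 0 = 1 := by
  have := g.det_coe
  rwa [Matrix.det_fin_two] at this

theorem gp_mul (g h : SL2) (i j : Fin 2) : (g * h) i j = g i 0 * h 0 j + g i 1 * h 1 j := by
  rw [Matrix.SpecialLinearGroup.coe_mul, Matrix.mul_apply, Fin.sum_univ_two]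

theorem gp_inv00 (g : SL2) : g⁻¹ 0 0 = g 1 1 := by rw [Matrix.SpecialLinearGroup.SL2_inv_expl]; rfl
theorem gp_inv01 (g : SL2) : g⁻¹ 0 1 = - g 0 1 := by rw [Matrix.SpecialLinearGroup.SL2_inv_expl]; rfl
theorem gp_inv10 (g : SL2) : g⁻¹ 1 0 = - g 1 0 := by rw [Matrix.SpecialLinearGroup.SL2_inv_expl]; rfl
theorem gp_inv11 (g : SL2) : g⁻¹ 1 1 = g 0 0 := by rw [Matrix.SpecialLinearGroup.SL2_inv_expl]; rfl

theorem gp_comm_I (R A : SL2) (h : disp R I = 0) :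
    ∃ b2 : ℝ, 0 ≤ b2 ∧ b2 ≤ 1 ∧ tr (R * A * R⁻¹ * A⁻¹) = 2 + b2 * disp A I ^ 2 ∧
      disp (R * A * R⁻¹ * A⁻¹) I ^ 2 = b2 * disp A I ^ 2 * (disp A I ^ 2 + 4) := by
  have h1 := gp_disp_I R
  rw [h] at h1
  have h2 : R 1 0 = - R 0 1 := by nlinarith [sq_nonneg (R 0 1 + R 1 0), sq_nonneg (R 0 0 - R 1 1)]
  have h3 : R 1 1 = R 0 0 := by nlinarith [sq_nonneg (R 0 1 + R 1 0), sq_nonneg (R 0 0 - R 1 1)]
  have h4 := gp_det R
  rw [h2, h3] at h4
  have h5 := gp_det A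
  refine ⟨R 0 1 ^ 2, sq_nonneg _, by nlinarith [sq_nonneg (R 0 0)], ?_, ?_⟩
  · rw [gp_disp_I A]
    unfold tr
    simp only [gp_mul, gp_inv00, gp_inv01, gp_inv10, gp_inv11, h2, h3]
    generalize R 0 0 = a at *
    generalize R 0 1 = b at *
    generalize A 0 0 = p at *
    generalize A 0 1 = q at *
    generalize A 1 0 = r at *
    generalize A 1 1 = t at *
    linear_combination 2 * (p * t - q * r) * h4 + 2 * h5
  · rw [gp_disp_I A, gp_disp_I]
    simp only [gp_mul, gp_inv00, gp_inv01, gp_inv10, gp_inv11, h2, h3]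
    generalize R 0 0 = a at *
    generalize R 0 1 = b at *
    generalize A 0 0 = p at *
    generalize A 0 1 = q at *
    generalize A 1 0 = r at *
    generalize A 1 1 = t at *
    have e : (a * a - b * -b) * (p * t - q * r) = 1 := by rw [h4, h5, one_mul]
    linear_combination b ^ 2 * ((q + r) ^ 2 + (p - t) ^ 2) * (p ^ 2 + q ^ 2 + r ^ 2 + t ^ 2) * h4
      + 2 * b ^ 2 * ((q + r) ^ 2 + (p - t) ^ 2) * e + 2 * b ^ 2 * ((q + r) ^ 2 + (p - t) ^ 2) * h5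

theorem gp_tr_conj (h g : SL2) : tr (h * g * h⁻¹) = tr g := by
  have h4 := gp_det h
  unfold tr
  simp only [gp_mul, gp_inv00, gp_inv01, gp_inv10, gp_inv11]
  linear_combination (g 0 0 + g 1 1) * h4

theorem gp_comm (R A : SL2) (e : ℍ) (h : disp R e = 0) :
    ∃ b2 : ℝ, 0 ≤ b2 ∧ b2 ≤ 1 ∧ tr (R * A * R⁻¹ * A⁻¹) = 2 + b2 * disp A e ^ 2 ∧
      disp (R * A * R⁻¹ * A⁻¹) e ^ 2 = b2 * disp A e ^ 2 * (disp A e ^ 2 + 4) := by
  set c := e.toSL2R with hc
  have hcI : c • I = e := UpperHalfPlane.toSL2R_smul_I e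
  have hconj : ∀ g : SL2, disp (c⁻¹ * g * c) I = disp g e := by
    intro g
    have := disp_conj c (c⁻¹ * g * c) I
    rw [hcI] at this
    rw [← this]
    congr 1
    group
  have htr : ∀ g : SL2, tr (c⁻¹ * g * c) = tr g := by
    intro g
    have := gp_tr_conj c⁻¹ g
    rwa [inv_inv] at this
  have key := gp_comm_I (c⁻¹ * R * c) (c⁻¹ * A * c) (by rw [hconj]; exact h)
  have e1 : c⁻¹ * R * c * (c⁻¹ * A * c) * (c⁻¹ * R * c)⁻¹ * (c⁻¹ * A * c)⁻¹ =
      c⁻¹ * (R * A * R⁻¹ * A⁻¹) * c := by group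
  rw [e1, hconj, hconj, htr] at key
  exact key

/-! TARGET: -/

theorem good_point (Γ : Subgroup SL2) (hΓ : PD Γ) (hneg : -1 ∈ Γ) (z : ℍ)
    (hz : ∀ g ∈ Sp Γ, 1 / 80 ≤ disp g z) :
    (∃ e : ℍ, dist z e ≤ 1 / (4 * 10 ^ 6) ∧ Good Γ e (1 / 10 ^ 5)) ∨ Good Γ z (1 / 10 ^ 11) := by
  by_cases hG : Good Γ z (1 / 10 ^ 11)
  · exact Or.inr hG
  left
  have c3 : ∀ g ∈ Sp Γ, 1 / 100 ≤ disp g z := fun g hg => le_trans (by norm_num) (hz g hg)
  have c2 : ∀ γ ∈ Γ, γ • z = z → γ ≠ 1 → γ ≠ -1 → |tr γ| ≤ 2 - 1 / 10 ^ 6 := by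
    intro γ hγ hfix h1 h2
    by_contra hc
    push Not at hc
    obtain ⟨g, hg, hg2⟩ := gp_min Γ hΓ hneg γ hγ h1 h2 hc z (by rw [gp_fix hfix]; norm_num)
    have := hz g hg
    rw [gp_fix hfix] at hg2
    linarith
  have c1 : ∃ γ ∈ Γ, γ • z ≠ z ∧ dist z (γ • z) < 8 * (1 / 10 ^ 11) := by
    by_contra hc
    push Not at hc
    apply hG
    refine ⟨fun γ hγ => ?_, c2, c3⟩
    by_cases h : γ • z = z
    · exact Or.inl h
    · exact Or.inr (hc γ hγ h)
  obtain ⟨γ, hγ, hne, hd⟩ := c1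
  obtain ⟨n1, n2⟩ := gp_ne hne
  have hD : disp γ z ≤ 81 / 10 ^ 12 := by
    rw [disp_eq]
    have h0 : 0 ≤ dist z (γ • z) := dist_nonneg
    have := gp_sinh_le (x := dist z (γ • z) / 2) (by positivity) (by linarith)
    linarith
  have htr : |tr γ| ≤ 2 - 1 / 10 ^ 6 := by
    by_contra hc
    push Not at hc
    obtain ⟨g, hg, hg2⟩ := gp_min Γ hΓ hneg γ hγ n1 n2 hc z (by linarith)
    have := hz g hg
    linarith
  have htr2 : 2 / 10 ^ 6 ≤ 4 - tr γ ^ 2 := by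
    have h0 := abs_nonneg (tr γ)
    rw [← sq_abs]
    nlinarith
  obtain ⟨e, he, hXe, hde⟩ := elliptic_point γ (by linarith)
  have hs : 14 / 10 ^ 4 ≤ Real.sqrt (4 - tr γ ^ 2) := by
    apply Real.le_sqrt_of_sq_le
    linarith
  have hsh0 : 0 ≤ Real.sinh (dist z e) := Real.sinh_nonneg_iff.2 dist_nonneg
  have hsh : Real.sinh (dist z e) ≤ 1 / 10 ^ 7 := by
    have h1 := hde z
    have h2 := mul_le_mul_of_nonneg_right hs hsh0
    rw [← h1] at h2
    linarith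
  have hdist : dist z e ≤ 1 / 10 ^ 7 := (Real.self_le_sinh_iff.2 dist_nonneg).trans hsh
  have hch := gp_cosh_le (dist z e) dist_nonneg
  have c3' : ∀ g ∈ Sp Γ, 1 / 100 ≤ disp g e := by
    intro g hg
    have h1 := hz g hg
    have h2 := disp_tri g e z
    rw [dist_comm e z] at h2
    have h3 := gp_disp_nonneg g e
    by_contra hc
    push Not at hc
    have h4 : disp g e * Real.cosh (dist z e) ≤ 1 / 100 * (1 + 1 / 10 ^ 7) :=
      mul_le_mul hc.le (by linarith) (Real.cosh_pos _).le (by norm_num)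
    have h5 : (disp g e + 2) * Real.sinh (dist z e) ≤ 3 * (1 / 10 ^ 7) :=
      mul_le_mul (by linarith) hsh hsh0 (by norm_num)
    linarith
  refine ⟨e, by linarith, ?_, ?_, c3'⟩
  · intro γ' hγ'
    by_contra hc
    push Not at hc
    obtain ⟨hne', hd'⟩ := hc
    have hD0 := gp_disp_nonneg γ' e
    have hD' : disp γ' e ≤ 81 / 10 ^ 6 := by
      rw [disp_eq]
      have h0 : 0 ≤ dist e (γ' • e) := dist_nonneg
      have := gp_sinh_le (x := dist e (γ' • e) / 2) (by positivity) (by linarith)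
      linarith
    obtain ⟨b2, hb0, hb1, ht, hdk⟩ := gp_comm γ γ' e (gp_fix he)
    set k := γ * γ' * γ⁻¹ * γ'⁻¹ with hkdef
    have hk : k ∈ Γ := Γ.mul_mem (Γ.mul_mem (Γ.mul_mem hγ hγ') (Γ.inv_mem hγ)) (Γ.inv_mem hγ')
    have k1 : k ≠ 1 := by
      intro h
      have hcomm : γ * γ' = γ' * γ := by
        have h1 : γ * γ' * γ⁻¹ * γ'⁻¹ * (γ' * γ) = 1 * (γ' * γ) := by rw [← hkdef, h]
        have h2 : γ * γ' * γ⁻¹ * γ'⁻¹ * (γ' * γ) = γ * γ' := by group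
        rw [h2, one_mul] at h1
        exact h1
      have h3 : γ • (γ' • e) = γ' • e := by rw [← mul_smul, hcomm, mul_smul, he]
      have h4 := gp_fix h3
      rw [hde] at h4
      rcases mul_eq_zero.1 h4 with h5 | h5
      · linarith
      · rw [Real.sinh_eq_zero] at h5
        exact hne' (dist_eq_zero.1 h5)
    have hbD : 0 ≤ b2 * disp γ' e ^ 2 := mul_nonneg hb0 (sq_nonneg _)
    have hD2 : disp γ' e ^ 2 ≤ (81 / 10 ^ 6) ^ 2 := pow_le_pow_left₀ hD0 hD' 2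
    have hbD2 : b2 * disp γ' e ^ 2 ≤ 1 * (81 / 10 ^ 6) ^ 2 :=
      mul_le_mul hb1 hD2 (sq_nonneg _) zero_le_one
    have k2 : k ≠ -1 := by
      intro h
      have h1 : tr (-1 : SL2) = -2 := by
        unfold tr
        simp
        norm_num
      rw [h, h1] at ht
      linarith
    have hdk0 := gp_disp_nonneg k e
    have hdk1 : disp k e < 1 / 1000 := by
      by_contra hc
      push Not at hc
      have h1 : (1 / 1000 : ℝ) ^ 2 ≤ disp k e ^ 2 := pow_le_pow_left₀ (by norm_num) hc 2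
      have h2 : b2 * disp γ' e ^ 2 * (disp γ' e ^ 2 + 4) ≤ 1 * (81 / 10 ^ 6) ^ 2 * 5 :=
        mul_le_mul hbD2 (by linarith) (by positivity) (by norm_num)
      rw [hdk] at h1
      linarith
    obtain ⟨g, hg, hg2⟩ := gp_min Γ hΓ hneg k hk k1 k2 (by
      rw [ht, abs_of_nonneg (by linarith)]
      linarith) e (by linarith)
    have := c3' g hg
    linarith
  · intro γ' hγ' hfix h1 h2
    by_contra hc
    push Not at hc
    obtain ⟨g, hg, hg2⟩ := gp_min Γ hΓ hneg γ' hγ' h1 h2 hc e (by rw [gp_fix hfix]; norm_num)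
    have := c3' g hg
    rw [gp_fix hfix] at hg2
    linarith

end NF

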