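import Pool.Agent.Helper369.NF.Defs
import Pool.Agent.Helper369.NF.B0
import Pool.Agent.Helper369.NF.G6
import Pool.Agent.Helper369.NF.G7

open MeasureTheory Filter Topology Metric UpperHalfPlane

namespace NF

/-! The following statements are GIVEN (other jobs); do not prove them. -/

/-! TARGET: -/

theorem port_ok (Γ : Subgroup SL2) (hΓ : PD Γ) (hneg : -1 ∈ Γ) (g : SL2) (hg : g ∈ Sp Γ) (c : SChart g)
    (b : Bool) : disp g (c.zb b) = 1 / 20 ∧ (∀ h ∈ Sp Γ, 1 / 80 ≤ disp h (c.zb b)) ∧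
      ∃ a : ℍ, dist (c.zb b) a ≤ 1 / (4 * 10 ^ 6) ∧ Good Γ a (1 / 10 ^ 11) := by
  have h1 : disp g (c.zb b) = 1 / 20 := by
    have h := c.level b 0
    rw [Complex.ofReal_zero, zero_add, ← c.zb_eq b] at h
    unfold disp
    rw [← UpperHalfPlane.coe_im]
    exact h
  have hz : ∀ h ∈ Sp Γ, 1 / 80 ≤ disp h (c.zb b) := by
    intro h hh
    by_contra hcon
    push Not at hcon
    rcases sep Γ hΓ g h hg hh (c.zb b) (by rw [h1]; norm_num) (by linarith) with rfl | rfl
    · rw [h1] at hcon; norm_num at hcon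
    · have h2 : disp g⁻¹ (c.zb b) = 1 / 20 := by
        rw [← h1]
        unfold disp
        rw [X_inv, norm_neg]
      rw [h2] at hcon; norm_num at hcon
  refine ⟨h1, hz, ?_⟩
  rcases good_point Γ hΓ hneg (c.zb b) hz with ⟨e, he, hG⟩ | hG
  · refine ⟨e, he, ?_, hG.2.1, hG.2.2⟩
    intro γ hγ
    rcases hG.1 γ hγ with h | h
    · exact Or.inl h
    · right
      refine le_trans ?_ h
      norm_num
  · exact ⟨c.zb b, by rw [dist_self]; positivity, hG⟩

end NF

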