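import Pool.Agent.Helper369.NF.Defs
import Pool.Agent.Helper369.NF.A2c
import Pool.Agent.Helper369.NF.A2f
import Pool.Agent.Helper369.NF.A2p
import Pool.Agent.Helper369.NF.G9
import Pool.Agent.Helper369.NF.K1
import Pool.Agent.Helper369.NF.P3
import Pool.Agent.Helper369.NF.S2

open MeasureTheory Filter Topology Metric UpperHalfPlane

namespace NF

/-! The following statements are GIVEN (other jobs); do not prove them. -/

/-! auxiliary definitions and lemmas for `special_cell` -/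

noncomputable def scr {g : SL2} (c : SChart g) : ℝ := if c.ℓ = 0 then 0 else
      (1 / 4) ^ 2 * Real.exp (-(2 * Real.pi * (Real.pi / c.ℓ - 2 * (c.tp + 1))))

def scU {g : SL2} (c : SChart g) : Set ℂ :=
  {ζ | c.tp + 1 < ζ.im ∧ c.ℓ * (ζ.im + (c.tp + 1)) < Real.pi}

noncomputable def scp {g : SL2} (c : SChart g) (ζ : ℂ) : ℂ :=
  (1 / 4) * Complex.exp (2 * Real.pi * Complex.I * ζ + 2 * Real.pi * (c.tp + 1))

theorem sc_X_analytic (g : SL2) (z : ℂ) : AnalyticAt ℂ (X g) z := by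
  unfold X; fun_prop

theorem sc_X_cont (g : SL2) : Continuous (X g) := by
  unfold X; fun_prop

theorem scr_nonneg {g : SL2} (c : SChart g) : 0 ≤ scr c := by
  unfold scr; split_ifs <;> positivity

theorem scr_small {g : SL2} (c : SChart g) : 64 ^ 2 * scr c ≤ (1 / 4) ^ 2 := by
  unfold scr
  split_ifs with h
  · norm_num
  · have hl : 0 < c.ℓ := lt_of_le_of_ne c.ℓ_nonneg (Ne.symm h)
    have hπ := Real.pi_gt_three
    have h1 : 450 ≤ Real.pi / c.ℓ := by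
      rw [le_div_iff₀ hl]; nlinarith [c.ℓ_le]
    have h2 : 2 * (c.tp + 1) ≤ 52 := by linarith [c.tp_hi]
    obtain ⟨x, hx⟩ : ∃ x : ℝ, x = 2 * Real.pi * (Real.pi / c.ℓ - 2 * (c.tp + 1)) := ⟨_, rfl⟩
    have h3 : 2000 ≤ x := by rw [hx]; nlinarith
    rw [← hx]
    have h4 := Real.quadratic_le_exp_of_nonneg (show 0 ≤ x by linarith)
    have h5 : Real.exp (-x) * Real.exp x = 1 := by rw [← Real.exp_add]; simp
    have h6 : 4096 ≤ Real.exp x := by nlinarith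
    have h7 := Real.exp_pos (-x)
    nlinarith

theorem scp_norm {g : SL2} (c : SChart g) (ζ : ℂ) :
    ‖scp c ζ‖ = 1 / 4 * Real.exp (2 * Real.pi * (c.tp + 1 - ζ.im)) := by
  unfold scp
  rw [norm_mul, Complex.norm_exp]
  congr 1
  · norm_num
  · congr 1
    simp
    ring

theorem scp_hasDerivAt {g : SL2} (c : SChart g) (ζ : ℂ) :
    HasDerivAt (scp c) (scp c ζ * (2 * Real.pi * Complex.I)) ζ := by
  unfold scp
  have h1 : HasDerivAt (fun ζ : ℂ => 2 * Real.pi * Complex.I * ζ + 2 * Real.pi * (c.tp + 1))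
      (2 * Real.pi * Complex.I) ζ := by
    simpa using ((hasDerivAt_id ζ).const_mul (2 * Real.pi * Complex.I)).add_const
      (2 * (Real.pi : ℂ) * (c.tp + 1))
  have h2 := (h1.cexp).const_mul (1 / 4 : ℂ)
  rw [← mul_assoc] at h2
  exact h2

theorem scp_analytic {g : SL2} (c : SChart g) (ζ : ℂ) : AnalyticAt ℂ (scp c) ζ := by
  unfold scp; fun_prop

theorem sc_St {g : SL2} (c : SChart g) {ζ : ℂ} (h : ζ ∈ scU c) : ζ ∈ St c.ℓ := by
  have h1 : 0 < ζ.im := by linarith [c.tp_lo, h.1]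
  refine ⟨h1, lt_of_le_of_lt ?_ h.2⟩
  exact mul_le_mul_of_nonneg_left (by linarith [c.tp_lo]) c.ℓ_nonneg

theorem sc_U_open {g : SL2} (c : SChart g) : IsOpen (scU c) := by
  unfold scU
  apply IsOpen.inter
  · exact isOpen_lt continuous_const Complex.continuous_im
  · exact isOpen_lt (continuous_const.mul (Complex.continuous_im.add continuous_const))
      continuous_const

theorem sc_St_open (ℓ : ℝ) : IsOpen (St ℓ) := by
  unfold St
  apply IsOpen.inter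
  · exact isOpen_lt continuous_const Complex.continuous_im
  · exact isOpen_lt (continuous_const.mul Complex.continuous_im) continuous_const

theorem sc_inside {g : SL2} (c : SChart g) (b : Bool) {u : ℂ} (hu : u ∈ scU c) :
    ∃ z : ℍ, (z : ℂ) = c.ψ b u ∧ disp g z ≤ 1 / 20 ∧ X g z ≠ 0 := by
  have hSt := sc_St c hu
  refine ⟨⟨c.ψ b u, c.im_pos b u hSt⟩, rfl, ?_, c.X_ne b u hSt⟩
  apply c.inside b u hSt (by linarith [hu.1])
  refine le_trans ?_ hu.2.le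
  exact mul_le_mul_of_nonneg_left (by linarith) c.ℓ_nonneg

theorem sc_own (Γ : Subgroup SL2) (hΓ : PD Γ) (g : SL2) (hg : g ∈ Sp Γ) (c : SChart g) (n : ℕ)
    (hn : 1 ≤ n) (C : ℝ) (hs : ∀ b, KSum Γ (c.zb b)) (hC : ∀ b, ∀ z : ℍ, kk Γ z (c.zb b) ≤ C)
    (hnC : (1 / 2 : ℝ) ^ (2 * n - 2) * (10 ^ 8 * (2 * C)) ≤ 1 / 2) (b : Bool) (u : ℂ)
    (hu : u ∈ scU c) : 1 ≤ ‖(2 * PS Γ n g (c.ψ b u)) * X g (c.ψ b u) ^ (2 * n)‖ := by
  obtain ⟨μ, hμ1, hμ2, hμ⟩ := (PS_props Γ hΓ g hg c (fun b z => hs b z) n hn).2.2.2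
  obtain ⟨z, hz, hd, hX⟩ := sc_inside c b hu
  rw [← hz]
  have h1 := hμ z hd hX
  have h2 : (1 / 2 : ℝ) ^ (2 * n - 2) * (10 ^ 8 * (kk Γ z (c.zb false) + kk Γ z (c.zb true))) ≤
      (1 / 2 : ℝ) ^ (2 * n - 2) * (10 ^ 8 * (2 * C)) := by
    apply mul_le_mul_of_nonneg_left _ (by positivity)
    have := hC false z
    have := hC true z
    linarith
  have h3 : (μ : ℝ) ≤ ‖PS Γ n g z * X g z ^ (2 * n)‖ +
      ‖PS Γ n g z * X g z ^ (2 * n) - (μ : ℂ)‖ := by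
    have h4 : ‖(μ : ℂ)‖ = μ := by simp
    rw [← h4]
    have h5 : (μ : ℂ) = PS Γ n g z * X g z ^ (2 * n) - (PS Γ n g z * X g z ^ (2 * n) - (μ : ℂ)) := by
      ring
    nth_rw 1 [h5]
    exact norm_sub_le _ _
  have h6 : (1 : ℝ) ≤ μ := by exact_mod_cast hμ1
  rw [mul_assoc, norm_mul]
  have h7 : ‖(2 : ℂ)‖ = 2 := by simp
  rw [h7]
  linarith

theorem sc_P_bd (Γ : Subgroup SL2) (hΓ : PD Γ) (g : SL2) (hg : g ∈ Sp Γ) (c : SChart g) (n : ℕ)
    (hn : 1 ≤ n) (hs : ∀ b, KSum Γ (c.zb b)) (K1 : ℝ) (hK : 2 * 10 ^ 10 + 1 ≤ K1) (z : ℍ)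
    (hz : Away Γ z) : z.im ^ (2 * n) * ‖2 * PS Γ n g z‖ ≤
      (K1 * (kk Γ z (c.zb false) + kk Γ z (c.zb true))) ^ n := by
  have h1 := (PS_props Γ hΓ g hg c (fun b z => hs b z) n hn).2.2.1 z (by
    rintro h ⟨γ, hγ, rfl⟩
    exact hz _ (sp_conj Γ g hg γ hγ).1)
  obtain ⟨S, hS⟩ : ∃ S : ℝ, S = kk Γ z (c.zb false) + kk Γ z (c.zb true) := ⟨_, rfl⟩
  have hS0 : 0 ≤ S := by
    rw [hS]
    have := (kk_props Γ).2.2.1 z (c.zb false)
    have := (kk_props Γ).2.2.1 z (c.zb true)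
    linarith
  rw [← hS] at h1 ⊢
  have h2 : ‖(2 : ℂ) * PS Γ n g z‖ = 2 * ‖PS Γ n g z‖ := by rw [norm_mul]; simp
  rw [h2]
  have h3 : (2 : ℝ) ≤ 2 ^ n := by
    calc (2 : ℝ) = 2 ^ 1 := (pow_one 2).symm
      _ ≤ 2 ^ n := pow_le_pow_right₀ (by norm_num) hn
  have h4 : 0 ≤ (10 ^ 10 * S) ^ n := by positivity
  calc z.im ^ (2 * n) * (2 * ‖PS Γ n g z‖) = 2 * (z.im ^ (2 * n) * ‖PS Γ n g z‖) := by ring
    _ ≤ 2 * (10 ^ 10 * S) ^ n := mul_le_mul_of_nonneg_left h1 (by norm_num)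
    _ ≤ 2 ^ n * (10 ^ 10 * S) ^ n := mul_le_mul_of_nonneg_right h3 h4
    _ = (2 * (10 ^ 10 * S)) ^ n := (mul_pow _ _ _).symm
    _ ≤ (K1 * S) ^ n := by
        apply pow_le_pow_left₀ (by positivity)
        nlinarith

theorem sc_onto {g : SL2} (c : SChart g) (q : ℂ) (hq : q ∈ Dom (1 / 4) (scr c)) (hq0 : q ≠ 0) :
    ∃ u ∈ scU c, scp c u = q := by
  have hπ := Real.pi_pos
  have hπC : (Real.pi : ℂ) ≠ 0 := by exact_mod_cast hπ.ne'
  have h4q : (4 : ℂ) * q ≠ 0 := mul_ne_zero (by norm_num) hq0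
  have hqn : 0 < ‖q‖ := norm_pos_iff.mpr hq0
  obtain ⟨u, hu⟩ : ∃ u : ℂ, u = (Complex.log (4 * q) - 2 * Real.pi * (c.tp + 1)) /
    (2 * Real.pi * Complex.I) := ⟨_, rfl⟩
  have h1 : 2 * Real.pi * Complex.I * u + 2 * Real.pi * (c.tp + 1) = Complex.log (4 * q) := by
    rw [hu, mul_div_cancel₀ _ (by
      exact mul_ne_zero (mul_ne_zero two_ne_zero hπC) Complex.I_ne_zero)]
    ring
  have him : 2 * Real.pi * (c.tp + 1 - u.im) = Real.log (4 * ‖q‖) := by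
    have h2 := congrArg Complex.re h1
    rw [Complex.log_re, norm_mul] at h2
    have h3 : ‖(4 : ℂ)‖ = 4 := by simp
    rw [h3] at h2
    rw [← h2]
    simp
    ring
  refine ⟨u, ⟨?_, ?_⟩, ?_⟩
  · have h5 : Real.log (4 * ‖q‖) < 0 := Real.log_neg (by positivity) (by linarith [hq.1])
    by_contra hcon
    have h6 : 0 ≤ 2 * Real.pi * (c.tp + 1 - u.im) :=
      mul_nonneg (by positivity) (by linarith [not_lt.mp hcon])
    linarith
  · by_cases hl : c.ℓ = 0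
    · rw [hl, zero_mul]; exact hπ
    · have hlp : 0 < c.ℓ := lt_of_le_of_ne c.ℓ_nonneg (Ne.symm hl)
      have h5 := hq.2
      have h6 : scr c = (1 / 4) ^ 2 *
          Real.exp (-(2 * Real.pi * (Real.pi / c.ℓ - 2 * (c.tp + 1)))) := by
        unfold scr; rw [if_neg hl]
      have h7 : scr c ≠ 0 := by rw [h6]; positivity
      have h8 : scr c < 1 / 4 * ‖q‖ := h5.resolve_left h7
      rw [h6] at h8
      have h9 : Real.exp (-(2 * Real.pi * (Real.pi / c.ℓ - 2 * (c.tp + 1)))) < 4 * ‖q‖ := by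
        linarith
      have h10 := (Real.lt_log_iff_exp_lt (by positivity)).mpr h9
      rw [← him] at h10
      have h11 : 2 * Real.pi * (u.im + (c.tp + 1)) < 2 * Real.pi * (Real.pi / c.ℓ) := by
        linarith
      have h12 : u.im + (c.tp + 1) < Real.pi / c.ℓ := lt_of_mul_lt_mul_left h11 (by positivity)
      rw [lt_div_iff₀ hlp] at h12
      linarith
  · unfold scp
    rw [h1, Complex.exp_log h4q]
    ring

theorem sc_cover {g : SL2} (c : SChart g) (z : ℍ) (h1 : disp g z < 1 / 80) (h2 : X g z ≠ 0) :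
    ∃ b, ∃ u ∈ scU c, c.ψ b u = z ∧ c.tp + 2 ≤ u.im ∧ c.ℓ * u.im ≤ Real.pi / 2 := by
  obtain ⟨b, ζ, hζ, hψ, h3, h4⟩ := c.cover z h1 h2
  refine ⟨b, ζ, ⟨by linarith, ?_⟩, hψ, h3, h4⟩
  have h5 : c.ℓ * (c.tp + 1) ≤ 1 / 150 * 26 :=
    mul_le_mul c.ℓ_le (by linarith [c.tp_hi]) (by linarith [c.tp_lo]) (by norm_num)
  have := Real.pi_gt_three
  rw [mul_add]
  linarith

theorem sc_p_le {g : SL2} (c : SChart g) {u : ℂ} (h : c.tp + 2 ≤ u.im) :
    ‖scp c u‖ ≤ (1 / 4) / 16 := by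
  rw [scp_norm]
  have hπ := Real.pi_gt_three
  have h1 : 2 * Real.pi * (c.tp + 1 - u.im) ≤ -6 := by nlinarith
  have h2 : Real.exp (2 * Real.pi * (c.tp + 1 - u.im)) ≤ Real.exp (-6) := Real.exp_le_exp.mpr h1
  have h3 := Real.quadratic_le_exp_of_nonneg (show (0 : ℝ) ≤ 6 by norm_num)
  have h4 : Real.exp (-6) * Real.exp 6 = 1 := by rw [← Real.exp_add]; simp
  have h5 := Real.exp_pos (-6 : ℝ)
  nlinarith

theorem sc_sqrt_le {g : SL2} (c : SChart g) {u : ℂ} (h : c.ℓ * u.im ≤ Real.pi / 2) :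
    Real.sqrt (scr c) ≤ ‖scp c u‖ := by
  rw [Real.sqrt_le_left (norm_nonneg _)]
  by_cases hl : c.ℓ = 0
  · unfold scr
    rw [if_pos hl]
    positivity
  · have hlp : 0 < c.ℓ := lt_of_le_of_ne c.ℓ_nonneg (Ne.symm hl)
    unfold scr
    rw [if_neg hl, scp_norm, mul_pow, ← Real.exp_nat_mul]
    apply mul_le_mul_of_nonneg_left _ (by positivity)
    rw [Real.exp_le_exp]
    have h1 : 2 * u.im ≤ Real.pi / c.ℓ := by
      rw [le_div_iff₀ hlp]; linarith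
    have hπ := Real.pi_pos
    push_cast
    nlinarith

theorem sc_deriv {g : SL2} (c : SChart g) (b : Bool) {u : ℂ} (hu : u ∈ scU c)
    (h : c.ℓ * u.im ≤ Real.pi / 2) : deriv (c.ψ b) u ≠ 0 ∧
    (c.ψ b u).im * ‖deriv (scp c) u‖ ≤ Real.exp 200 * ‖deriv (c.ψ b) u‖ := by
  have hSt := sc_St c hu
  have hflow := c.flow b u hSt
  have hX := c.X_ne b u hSt
  have hlow := c.low b u hSt h
  have him := c.im_pos b u hSt
  have hκ := c.κ_pos
  have hκ2 := c.κ_le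
  have hπ3 := Real.pi_gt_three
  have hπ4 : Real.pi < 3.15 := Real.pi_lt_d2
  constructor
  · intro h0
    rw [h0, norm_zero, mul_zero] at hflow
    exact hX (norm_eq_zero.mp hflow)
  · rw [(scp_hasDerivAt c u).deriv, norm_mul, scp_norm]
    have h1 : ‖(2 * Real.pi * Complex.I : ℂ)‖ = 2 * Real.pi := by
      rw [norm_mul, norm_mul, Complex.norm_I, Complex.norm_real, Real.norm_eq_abs,
        abs_of_pos Real.pi_pos]
      simp
    rw [h1, le_div_iff₀ him, hflow] at *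
    -- exp (-(2 π u.im)) * im ≤ κ0 * ‖ψ'‖
    have h2 : Real.exp (-(2 * Real.pi * u.im)) * (c.ψ b u).im ≤ 2 * ‖deriv (c.ψ b) u‖ :=
      le_trans hlow (mul_le_mul_of_nonneg_right hκ2 (norm_nonneg _))
    have h3 : Real.exp (2 * Real.pi * (c.tp + 1 - u.im)) =
        Real.exp (2 * Real.pi * (c.tp + 1)) * Real.exp (-(2 * Real.pi * u.im)) := by
      rw [← Real.exp_add]; congr 1; ring
    rw [h3]
    have h4 : Real.exp (2 * Real.pi * (c.tp + 1)) ≤ Real.exp 164 := by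
      rw [Real.exp_le_exp]
      nlinarith [c.tp_hi, c.tp_lo]
    have h5 : 4 * Real.exp 164 ≤ Real.exp 200 := by
      have h6 : Real.exp 200 = Real.exp 36 * Real.exp 164 := by rw [← Real.exp_add]; norm_num
      rw [h6]
      have h7 := Real.add_one_le_exp (36 : ℝ)
      have h8 := Real.exp_pos (164 : ℝ)
      nlinarith
    have h6 : 0 < Real.exp (-(2 * Real.pi * u.im)) * (c.ψ b u).im := by positivity
    have h7 : 0 ≤ ‖deriv (c.ψ b) u‖ := norm_nonneg _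
    calc (c.ψ b u).im * (1 / 4 * (Real.exp (2 * Real.pi * (c.tp + 1)) *
          Real.exp (-(2 * Real.pi * u.im))) * (2 * Real.pi))
        = (Real.pi / 2 * Real.exp (2 * Real.pi * (c.tp + 1))) *
          (Real.exp (-(2 * Real.pi * u.im)) * (c.ψ b u).im) := by ring
      _ ≤ (2 * Real.exp 164) * (2 * ‖deriv (c.ψ b) u‖) := by
          apply mul_le_mul _ h2 h6.le (by positivity)
          apply mul_le_mul (by linarith) h4 (Real.exp_pos _).le (by norm_num)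
      _ = 4 * Real.exp 164 * ‖deriv (c.ψ b) u‖ := by ring
      _ ≤ _ := mul_le_mul_of_nonneg_right h5 h7

theorem sc_inner {g : SL2} (c : SChart g) (z : ℍ) (h1 : disp g z < 1 / 80) (h2 : X g z ≠ 0) :
    ∃ b, ∃ u ∈ scU c, c.ψ b u = z ∧ scU c ∈ 𝓝 u ∧
    AnalyticAt ℂ (c.ψ b) u ∧ AnalyticAt ℂ (scp c) u ∧ deriv (c.ψ b) u ≠ 0 ∧
    Real.sqrt (scr c) ≤ ‖scp c u‖ ∧ ‖scp c u‖ ≤ (1 / 4) / 16 ∧
    z.im * ‖deriv (scp c) u‖ ≤ Real.exp 200 * ‖deriv (c.ψ b) u‖ := by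
  obtain ⟨b, u, hu, hψ, h3, h4⟩ := sc_cover c z h1 h2
  have hd := sc_deriv c b hu h4
  refine ⟨b, u, hu, hψ, (sc_U_open c).mem_nhds hu, ?_, scp_analytic c u, hd.1, sc_sqrt_le c h4,
    sc_p_le c h3, ?_⟩
  · have hdo : DifferentiableOn ℂ (c.ψ b) (St c.ℓ) := fun ζ hζ =>
      (c.diff b ζ hζ).differentiableWithinAt
    exact hdo.analyticAt ((sc_St_open c.ℓ).mem_nhds (sc_St c hu))
  · have h5 := hd.2
    rw [hψ] at h5
    exact h5

/-- the other zero of `X g` is in the lower half plane -/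
theorem sc_X_ne {Γ : Subgroup SL2} {g : SL2} (hg : g ∈ Sp Γ) {e : ℂ} (he : 0 < e.im)
    (hX : X g e = 0) {w : ℂ} (hw : 0 < w.im) (hwe : w ≠ e) : X g w ≠ 0 := by
  have hdet : g 0 0 * g 1 1 - g 0 1 * g 1 0 = 1 := by
    have := g.det_coe
    rw [Matrix.det_fin_two] at this
    exact this
  have htr : 2 - 1 / 10 ^ 6 < g 0 0 + g 1 1 := hg.2.2.1
  have hc : g 1 0 ≠ 0 := by
    intro hc
    unfold X at hX
    rw [hc] at hX
    have him := congrArg Complex.im hX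
    have hre := congrArg Complex.re hX
    simp at him hre
    have h1 : g 0 0 - g 1 1 = 0 := by
      rcases him with h | h
      · exact h
      · exact absurd h he.ne'
    have h2 : g 0 1 = 0 := by
      rw [h1] at hre
      simpa using hre
    have h3 : g 1 1 = g 0 0 := by linarith
    rw [h3, h2, hc] at hdet
    have h4 : (g 0 0 - 1) * (g 0 0 + 1) = 0 := by linarith
    rcases mul_eq_zero.mp h4 with h5 | h5
    · apply hg.2.1
      ext i j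
      fin_cases i <;> fin_cases j
      · simp; linarith
      · simpa using h2
      · simpa using hc
      · simp; linarith
    · rw [h3] at htr
      norm_num at htr
      linarith
  intro hXw
  unfold X at hX hXw
  have h1 : (w - e) * (((g 0 0 : ℂ) - (g 1 1 : ℂ)) - (g 1 0 : ℂ) * (w + e)) = 0 := by
    linear_combination hXw - hX
  rcases mul_eq_zero.mp h1 with h2 | h2
  · exact hwe (sub_eq_zero.mp h2)
  · have h3 := congrArg Complex.im h2
    simp at h3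
    rcases h3 with h3 | h3
    · exact hc h3
    · linarith

theorem sc_cov {Γ : Subgroup SL2} {g : SL2} (hg : g ∈ Sp Γ) (c : SChart g) {e : ℂ} (he : 0 < e.im)
    (hX : X g e = 0) : ∀ᶠ w in 𝓝[≠] e, X g w ≠ 0 ∧ ∃ u ∈ scU c, c.ψ false u = w ∧
    Real.sqrt (scr c) ≤ ‖scp c u‖ ∧ ‖scp c u‖ ≤ (1 / 4) / 16 := by
  have hcont : ContinuousAt (fun w : ℂ => ‖X g w‖ / w.im) e :=
    ((sc_X_cont g).norm.continuousAt).div Complex.continuous_im.continuousAt he.ne'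
  have h0 : (fun w : ℂ => ‖X g w‖ / w.im) e = 0 := by simp [hX]
  have him : ∀ᶠ w in 𝓝 e, 0 < w.im := Complex.continuous_im.continuousAt.eventually (lt_mem_nhds he)
  have hsmall : ∀ δ : ℝ, 0 < δ → ∀ᶠ w in 𝓝 e, ‖X g w‖ / w.im < δ := by
    intro δ hδ
    have := hcont.eventually (gt_mem_nhds (show (fun w : ℂ => ‖X g w‖ / w.im) e < δ by rw [h0]; exact hδ))
    exact this
  -- all nearby points are covered
  have hcov : ∀ w : ℂ, 0 < w.im → w ≠ e → ‖X g w‖ / w.im < 1 / 80 →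
      ∃ b, ∃ u ∈ scU c, c.ψ b u = w ∧ c.tp + 2 ≤ u.im ∧ c.ℓ * u.im ≤ Real.pi / 2 := by
    intro w hw hwe hd
    exact sc_cover c ⟨w, hw⟩ hd (sc_X_ne hg he hX hw hwe)
  have hl : c.ℓ = 0 := by
    by_contra hl
    have hlp : 0 < c.ℓ := lt_of_le_of_ne c.ℓ_nonneg (Ne.symm hl)
    have hev : ∀ᶠ w in 𝓝[≠] e, 0 < w.im ∧ ‖X g w‖ / w.im < 1 / 80 ∧
        ‖X g w‖ / w.im < Real.exp (-(2 * Real.pi * (Real.pi / (2 * c.ℓ)))) ∧ w ≠ e := by
      have h1 := him.and ((hsmall (1 / 80) (by norm_num)).and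
        (hsmall (Real.exp (-(2 * Real.pi * (Real.pi / (2 * c.ℓ))))) (Real.exp_pos _)))
      filter_upwards [h1.filter_mono nhdsWithin_le_nhds, self_mem_nhdsWithin] with w hw hwe
      exact ⟨hw.1, hw.2.1, hw.2.2, hwe⟩
    obtain ⟨w, hw1, hw2, hw3, hw4⟩ := hev.exists
    obtain ⟨b, u, hu, hψ, h3, h4⟩ := hcov w hw1 hw4 hw2
    have h5 := c.low b u (sc_St c hu) h4
    rw [hψ] at h5
    have h6 : Real.exp (-(2 * Real.pi * (Real.pi / (2 * c.ℓ)))) ≤ Real.exp (-(2 * Real.pi * u.im)) := by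
      rw [Real.exp_le_exp]
      have h7 : u.im ≤ Real.pi / (2 * c.ℓ) := by
        rw [le_div_iff₀ (by positivity)]; linarith
      have := Real.pi_pos
      nlinarith
    linarith
  have h1 := him.and (hsmall (1 / 80) (by norm_num))
  filter_upwards [h1.filter_mono nhdsWithin_le_nhds, self_mem_nhdsWithin] with w hw hwe
  refine ⟨sc_X_ne hg he hX hw.1 hwe, ?_⟩
  obtain ⟨b, u, hu, hψ, h3, h4⟩ := hcov w hw.1 hwe hw.2
  refine ⟨u, hu, ?_, sc_sqrt_le c h4, sc_p_le c h3⟩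
  cases b
  · exact hψ
  · rw [← c.same hl]; exact hψ

/-! TARGET: -/

theorem special_cell (N0 M0 : ℕ) (hst : StabBound N0 M0) : ∃ n0 : ℕ, ∀ n : ℕ, n0 ≤ n → ∃ K : ℝ,
    ∀ K1 : ℝ, K ≤ K1 → ∀ (Γ : Subgroup SL2), PD Γ → -1 ∈ Γ → ∀ g ∈ Sp Γ, ∀ c : SChart g,
      ∃ cell : Cell Γ n K1, (∀ b, cell.pt b = c.zb b) ∧ cell.In = {z : ℍ | disp g z < 1 / 80 ∧ X g z ≠ 0} ∧
        ∀ e : ℂ, 0 < e.im → X g e = 0 → CovE Γ n K1 cell e := by
  obtain ⟨C, hC0, hC⟩ := kk_port N0 M0 hst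
  obtain ⟨k0, hk0⟩ := exists_pow_lt_of_lt_one (show (0 : ℝ) < 1 / (4 * 10 ^ 8 * C) by positivity)
    (show (1 / 2 : ℝ) < 1 by norm_num)
  refine ⟨k0 + 1, fun n hn => ⟨2 * 10 ^ 10 + 1, fun K1 hK1 Γ hΓ hneg g hg c => ?_⟩⟩
  have hn1 : 1 ≤ n := by omega
  have hnC : (1 / 2 : ℝ) ^ (2 * n - 2) * (10 ^ 8 * (2 * C)) ≤ 1 / 2 := by
    have h1 : (1 / 2 : ℝ) ^ (2 * n - 2) ≤ (1 / 2 : ℝ) ^ k0 :=
      pow_le_pow_of_le_one (by norm_num) (by norm_num) (by omega)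
    have h2 : (1 / 2 : ℝ) ^ (2 * n - 2) ≤ 1 / (4 * 10 ^ 8 * C) := le_trans h1 hk0.le
    calc (1 / 2 : ℝ) ^ (2 * n - 2) * (10 ^ 8 * (2 * C)) ≤ 1 / (4 * 10 ^ 8 * C) * (10 ^ 8 * (2 * C)) :=
          mul_le_mul_of_nonneg_right h2 (by positivity)
      _ = 1 / 2 := by field_simp; norm_num
  have hport : ∀ b, KSum Γ (c.zb b) ∧ ∀ z : ℍ, kk Γ z (c.zb b) ≤ C := by
    intro b
    obtain ⟨-, h2, h3⟩ := port_ok Γ hΓ hneg g hg c b
    exact hC Γ hΓ hneg (c.zb b) (fun h hh => by linarith [h2 h hh]) h3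
  have hs : ∀ b, KSum Γ (c.zb b) := fun b => (hport b).1
  have hCb : ∀ b, ∀ z : ℍ, kk Γ z (c.zb b) ≤ C := fun b => (hport b).2
  refine ⟨{
    pt := c.zb
    r := scr c
    U := fun _ => scU c
    ψ := c.ψ
    π := fun _ => scp c
    φ := fun z => X g z ^ (2 * n)
    In := {z : ℍ | disp g z < 1 / 80 ∧ X g z ≠ 0}
    P := fun z => 2 * PS Γ n g z
    r_nonneg := scr_nonneg c
    r_small := scr_small c
    P_form := PS_form Γ hΓ g hg c n hn1 C hs hCb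
    P_bd := fun z hz => sc_P_bd Γ hΓ g hg c n hn1 hs K1 hK1 z hz
    chart := ?_
    own := fun b u hu => sc_own Γ hΓ g hg c n hn1 C hs hCb hnC b u hu
    onto := fun b q hq hq0 => sc_onto c q hq hq0
    inner := ?_ }, fun b => rfl, rfl, ?_⟩
  · intro F hF β hβ h
    obtain ⟨p, hp1, hp2, hp3, hp4⟩ := special_chart_form Γ hΓ g hg c n hn1 (scr c) rfl F hF β hβ h
    refine ⟨p, hp1, fun b q hq => le_trans (hp2 b q hq) ?_, hp3, fun b u hu => hp4 b u hu.1 hu.2⟩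
    nlinarith
  · intro z hz
    refine ⟨(sc_X_analytic g z).pow _, pow_ne_zero _ hz.2, ?_⟩
    exact sc_inner c z hz.1 hz.2
  · intro e he hX
    refine ⟨(sc_X_analytic g e).pow _, ?_⟩
    filter_upwards [sc_cov hg c he hX] with w hw
    exact ⟨pow_ne_zero _ hw.1, hw.2⟩


end NF

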