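import Pool.Agent.Helper369.NF.Defs
import Pool.Agent.Helper369.NF.B0
import Pool.Agent.Helper369.NF.G6
import Pool.Agent.Helper369.NF.G9

open MeasureTheory Filter Topology Metric UpperHalfPlane

namespace NF

/-! The following statements are GIVEN (other jobs); do not prove them. -/

/-! TARGET: -/

theorem disp_zb {g : SL2} (cs : SChart g) (b : Bool) : disp g (cs.zb b) = 1 / 20 := by
  have h := cs.level b 0
  rw [Complex.ofReal_zero, zero_add, ← cs.zb_eq b] at h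
  exact h

theorem port_sep (Γ : Subgroup SL2) (hΓ : PD Γ) (s t : SL2) (hs : s ∈ Sp Γ) (ht : t ∈ Sp Γ)
    (cs : SChart s) (ct : SChart t) (h : ∀ γ ∈ Γ, t ≠ γ * s * γ⁻¹ ∧ t ≠ (γ * s * γ⁻¹)⁻¹)
    (b b' : Bool) (γ : SL2) (hγ : γ ∈ Γ) : 1 / 100 ≤ dist (γ • cs.zb b) (ct.zb b') := by
  by_contra hlt
  rw [not_le] at hlt
  set d : ℝ := dist (γ • cs.zb b) (ct.zb b') with hd
  have hd0 : 0 ≤ d := dist_nonneg
  have h1 : disp (γ * s * γ⁻¹) (γ • cs.zb b) = 1 / 20 := by rw [disp_conj, disp_zb]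
  have h2 := disp_tri (γ * s * γ⁻¹) (γ • cs.zb b) (ct.zb b')
  rw [h1, ← hd] at h2
  have e1 : Real.exp d ≤ 1.0101 := by
    have h3 := Real.abs_exp_sub_one_sub_id_le (x := d) (by rw [abs_of_nonneg hd0]; linarith)
    have h4 := (abs_le.1 h3).2
    nlinarith
  have e2 : 1 - d ≤ Real.exp (-d) := by
    have := Real.add_one_le_exp (-d)
    linarith
  have e3 : Real.exp (-d) ≤ 1 := Real.exp_le_one_iff.2 (by linarith)
  have c1 : Real.cosh d ≤ 1.0101 := by
    rw [Real.cosh_eq]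
    linarith
  have c2 : Real.sinh d ≤ 0.0101 := by
    rw [Real.sinh_eq]
    linarith
  have h5 : disp (γ * s * γ⁻¹) (ct.zb b') < 1 / 10 := by
    norm_num at h2 c1 c2 ⊢
    linarith
  have h6 : disp t (ct.zb b') < 1 / 10 := by
    rw [disp_zb]
    norm_num
  rcases sep Γ hΓ (γ * s * γ⁻¹) t (sp_conj Γ s hs γ hγ).1 ht (ct.zb b') h5 h6 with h7 | h7
  · exact (h γ hγ).1 h7
  · exact (h γ hγ).2 h7

end NF

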