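import Pool.Agent.Helper369.NF.Defs
import Pool.Agent.Helper369.NF.P2

open MeasureTheory Filter Topology Metric UpperHalfPlane

namespace NF

/-! The following statements are GIVEN (other jobs); do not prove them. -/

/-! TARGET: -/

theorem kk_term_le (γ : SL2) (z p a : ℍ) (hd : dist p a ≤ 1 / (4 * 10 ^ 6)) :
    ((Real.cosh (dist z (γ • p) / 2)) ^ 4)⁻¹ ≤ 3 * ((Real.cosh (dist z (γ • a) / 2)) ^ 4)⁻¹ := by
  have h1 : dist (γ • p) (γ • a) = dist p a := dist_smul γ p a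
  have h2 : dist z (γ • a) / 2 ≤ dist z (γ • p) / 2 + dist p a / 2 := by
    have := dist_triangle z (γ • p) (γ • a)
    rw [h1] at this
    linarith
  have h0 : 0 ≤ dist z (γ • a) / 2 := by positivity
  have hx : 0 ≤ dist z (γ • p) / 2 := by positivity
  have hp : 0 ≤ dist p a := dist_nonneg
  have h3 : Real.cosh (dist z (γ • a) / 2) ≤ Real.cosh (dist z (γ • p) / 2 + dist p a / 2) := by
    rw [Real.cosh_le_cosh, abs_of_nonneg h0, abs_of_nonneg (by linarith)]
    exact h2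
  have h4 : Real.cosh (dist z (γ • p) / 2 + dist p a / 2) ≤
      Real.cosh (dist z (γ • p) / 2) * Real.exp (dist p a / 2) := by
    rw [Real.cosh_add, ← Real.cosh_add_sinh (dist p a / 2)]
    have hs : Real.sinh (dist z (γ • p) / 2) ≤ Real.cosh (dist z (γ • p) / 2) :=
      (Real.sinh_lt_cosh _).le
    have hs2 : 0 ≤ Real.sinh (dist p a / 2) := Real.sinh_nonneg_iff.2 (by linarith)
    nlinarith
  have h5 := h3.trans h4
  have hc1 : 0 < Real.cosh (dist z (γ • a) / 2) := Real.cosh_pos _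
  have hc2 : 0 < Real.cosh (dist z (γ • p) / 2) := Real.cosh_pos _
  have h6 : Real.cosh (dist z (γ • a) / 2) ^ 4 ≤
      (Real.cosh (dist z (γ • p) / 2) * Real.exp (dist p a / 2)) ^ 4 :=
    pow_le_pow_left₀ hc1.le h5 4
  have h7 : Real.exp (dist p a / 2) ^ 4 ≤ 3 := by
    rw [← Real.exp_nat_mul]
    have : ((4 : ℕ) : ℝ) * (dist p a / 2) ≤ 1 := by
      push_cast
      have : (1 : ℝ) / (4 * 10 ^ 6) ≤ 1 / 2 := by norm_num
      linarith
    refine (Real.exp_le_exp.2 this).trans ?_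
    have := Real.exp_one_lt_d9
    linarith
  have h8 : Real.cosh (dist z (γ • a) / 2) ^ 4 ≤ 3 * Real.cosh (dist z (γ • p) / 2) ^ 4 := by
    rw [mul_pow] at h6
    have : 0 < Real.cosh (dist z (γ • p) / 2) ^ 4 := by positivity
    nlinarith
  rw [← div_eq_mul_inv, inv_eq_one_div, div_le_div_iff₀ (by positivity) (by positivity)]
  linarith

theorem good_row (N0 M0 : ℕ) (hst : StabBound N0 M0) (δ : ℝ) (hδ : 0 < δ) : ∃ C : ℝ, 0 < C ∧
    ∀ (Γ : Subgroup SL2), PD Γ → ∀ (J : Type) (p a : J → ℍ), (∀ j, dist (p j) (a j) ≤ 1 / (4 * 10 ^ 6)) →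
      (∀ j, Good Γ (a j) (1 / 10 ^ 11)) → (∀ i j, i ≠ j → ∀ γ ∈ Γ, δ ≤ dist (γ • a i) (a j)) →
      (∀ j, KSum Γ (p j)) ∧ ∀ z : ℍ, Summable (fun j => kk Γ z (p j)) ∧ ∑' j, kk Γ z (p j) ≤ C := by
  obtain ⟨hN0, hM0, hS⟩ := hst
  obtain ⟨C0, hC0, hrow⟩ := kk_row (min δ (8 / 10 ^ 11)) (lt_min hδ (by norm_num)) N0
  refine ⟨3 * C0, by positivity, ?_⟩
  intro Γ hPD J p a hpa hgood hsep
  have hall : ∀ z : ℍ, (∀ j, Summable (fun γ : Γ => ((Real.cosh (dist z ((γ : SL2) • a j) / 2)) ^ 4)⁻¹)) ∧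
      Summable (fun j => kk Γ z (a j)) ∧ ∑' j, kk Γ z (a j) ≤ C0 := by
    apply hrow Γ J a
    · intro j γ hγ
      rcases (hgood j).1 γ hγ with h | h
      · exact Or.inl h
      · right
        refine (min_le_right _ _).trans ?_
        refine le_trans (le_of_eq ?_) h
        norm_num
    · intro j
      have := hS Γ hPD (a j) (hgood j).2.1
      exact ⟨this.1, this.2.1⟩
    · intro i j hij γ hγ
      exact (min_le_left _ _).trans (hsep i j hij γ hγ)
  have hsum : ∀ j, KSum Γ (p j) := by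
    intro j z
    refine Summable.of_nonneg_of_le (fun γ => by positivity)
      (fun γ => kk_term_le (γ : SL2) z (p j) (a j) (hpa j)) ?_
    exact ((hall z).1 j).mul_left 3
  have hle : ∀ z j, kk Γ z (p j) ≤ 3 * kk Γ z (a j) := by
    intro z j
    unfold kk
    rw [← tsum_mul_left]
    exact Summable.tsum_le_tsum (fun γ => kk_term_le (γ : SL2) z (p j) (a j) (hpa j))
      (hsum j z) (((hall z).1 j).mul_left 3)
  have hnn : ∀ z j, 0 ≤ kk Γ z (p j) := by
    intro z j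
    exact tsum_nonneg (fun γ => by positivity)
  refine ⟨hsum, ?_⟩
  intro z
  have hs1 : Summable (fun j => 3 * kk Γ z (a j)) := (hall z).2.1.mul_left 3
  have hs2 : Summable (fun j => kk Γ z (p j)) :=
    Summable.of_nonneg_of_le (fun j => hnn z j) (fun j => hle z j) hs1
  refine ⟨hs2, ?_⟩
  calc ∑' j, kk Γ z (p j) ≤ ∑' j, 3 * kk Γ z (a j) :=
        Summable.tsum_le_tsum (fun j => hle z j) hs2 hs1
    _ = 3 * ∑' j, kk Γ z (a j) := tsum_mul_left
    _ ≤ 3 * C0 := by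
        have := (hall z).2.2
        linarith


end NF

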