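import Pool.Agent.Helper369.NF.Defs
import Pool.Agent.Helper369.NF.B0

open MeasureTheory Filter Topology Metric UpperHalfPlane

namespace NF

/-! The following statements are GIVEN (other jobs); do not prove them. -/

/-! TARGET: -/

theorem c1_mob_mul (a b : SL2) (w : ℂ) (hw : 0 < w.im) : mob (a * b) w = mob a (mob b w) := by
  have h1 := coe_smul' (a * b) ⟨w, hw⟩
  have h2 := coe_smul' a (b • (⟨w, hw⟩ : ℍ))
  have h3 := coe_smul' b ⟨w, hw⟩
  rw [mul_smul] at h1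
  rw [h3] at h2
  have h4 : mob (a * b) w = mob (a * b) ((⟨w, hw⟩ : ℍ) : ℂ) := rfl
  rw [h4, ← h1, h2]

theorem c1_normX (γ g : SL2) (z : ℂ) (hz : 0 < z.im) :
    ‖X (γ * g * γ⁻¹) (mob γ z)‖ = ‖X g z‖ / ‖dn γ z‖ ^ 2 := by
  have h1 := X_conj γ g z hz
  have h2 : ‖dn γ z‖ ≠ 0 := norm_ne_zero_iff.2 (dn_ne γ z hz)
  rw [← h1, norm_mul, norm_pow]
  field_simp

theorem c1_im_pos (γ : SL2) (z : ℂ) (hz : 0 < z.im) : 0 < (mob γ z).im := by
  rw [im_mob γ z hz]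
  have h2 : 0 < ‖dn γ z‖ := norm_pos_iff.2 (dn_ne γ z hz)
  positivity

theorem c1_ratio (γ g : SL2) (z : ℂ) (hz : 0 < z.im) :
    ‖X (γ * g * γ⁻¹) (mob γ z)‖ / (mob γ z).im = ‖X g z‖ / z.im := by
  have h2 : 0 < ‖dn γ z‖ := norm_pos_iff.2 (dn_ne γ z hz)
  rw [c1_normX γ g z hz, im_mob γ z hz]
  field_simp

theorem c1_deriv (γ : SL2) (z : ℂ) (hz : 0 < z.im) :
    HasDerivAt (mob γ) (1 / (dn γ z) ^ 2) z := by
  have hne := dn_ne γ z hz
  have hdet : (γ 0 0 : ℂ) * (γ 1 1 : ℂ) - (γ 0 1 : ℂ) * (γ 1 0 : ℂ) = 1 := by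
    have h := γ.det_coe
    rw [Matrix.det_fin_two] at h
    exact_mod_cast h
  have hid := hasDerivAt_id z
  have hn : HasDerivAt (fun w : ℂ => (γ 0 0 : ℂ) * w + (γ 0 1 : ℂ)) (γ 0 0 : ℂ) z := by
    have h1 := (hid.const_mul (γ 0 0 : ℂ)).add_const (γ 0 1 : ℂ)
    simpa using h1
  have hd : HasDerivAt (fun w : ℂ => dn γ w) (γ 1 0 : ℂ) z := by
    have h1 := (hid.const_mul (γ 1 0 : ℂ)).add_const (γ 1 1 : ℂ)
    simpa [dn] using h1
  have h := hn.fun_div hd hne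
  have e : ((γ 0 0 : ℂ) * dn γ z - ((γ 0 0 : ℂ) * z + (γ 0 1 : ℂ)) * (γ 1 0 : ℂ)) / dn γ z ^ 2
      = 1 / (dn γ z) ^ 2 := by
    congr 1
    unfold dn
    linear_combination hdet
  rw [e] at h
  exact h

theorem c1_disp_inv (g : SL2) (z : ℍ) : disp g⁻¹ z = disp g z := by
  unfold disp; rw [X_inv, norm_neg]

theorem chart_conj (g h : SL2) (c : SChart g) : Nonempty (SChart (h * g * h⁻¹)) := by
  have hSt : ∀ x : ℝ, ((x : ℂ) + c.tp * Complex.I) ∈ St c.ℓ := by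
    intro x
    have him : ((x : ℂ) + c.tp * Complex.I).im = c.tp := by simp
    have h1 := c.tp_lo
    have h2 := c.tp_hi
    have h3 := c.ℓ_nonneg
    have h4 := c.ℓ_le
    have h5 := Real.pi_gt_three
    refine ⟨?_, ?_⟩
    · rw [him]; linarith
    · rw [him]; nlinarith
  refine ⟨{
    ℓ := c.ℓ
    tp := c.tp
    κ0 := c.κ0
    ψ := fun b ζ => mob h (c.ψ b ζ)
    zb := fun b => h • c.zb b
    ℓ_nonneg := c.ℓ_nonneg
    ℓ_le := c.ℓ_le
    tp_lo := c.tp_lo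
    tp_hi := c.tp_hi
    κ_pos := c.κ_pos
    κ_le := c.κ_le
    diff := ?_
    im_pos := ?_
    X_ne := ?_
    per := ?_
    flow := ?_
    low := ?_
    inside := ?_
    level := ?_
    flip := ?_
    same := ?_
    zb_eq := ?_
    cover := ?_
    port := ?_ }⟩
  · intro b ζ hζ
    exact ((c1_deriv h _ (c.im_pos b ζ hζ)).differentiableAt).comp ζ (c.diff b ζ hζ)
  · intro b ζ hζ
    exact c1_im_pos h _ (c.im_pos b ζ hζ)
  · intro b ζ hζ h0
    have h1 := X_conj h g _ (c.im_pos b ζ hζ)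
    rw [h0, zero_mul] at h1
    exact c.X_ne b ζ hζ h1.symm
  · intro b
    obtain ⟨s, hs, hper⟩ := c.per b
    refine ⟨h * s * h⁻¹, ?_, ?_⟩
    · rcases hs with rfl | rfl
      · exact Or.inl rfl
      · right; group
    · intro ζ hζ
      show mob h (c.ψ b (ζ + 1)) = mob (h * s * h⁻¹) (mob h (c.ψ b ζ))
      have him := c.im_pos b ζ hζ
      rw [hper ζ hζ, ← c1_mob_mul h s _ him, ← c1_mob_mul (h * s * h⁻¹) h _ him]
      congr 1
      group
  · intro b ζ hζ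
    have him := c.im_pos b ζ hζ
    show ‖X (h * g * h⁻¹) (mob h (c.ψ b ζ))‖ = c.κ0 * ‖deriv (fun ζ => mob h (c.ψ b ζ)) ζ‖
    have hd : HasDerivAt (fun ζ => mob h (c.ψ b ζ)) (1 / (dn h (c.ψ b ζ)) ^ 2 * deriv (c.ψ b) ζ) ζ :=
      (c1_deriv h _ him).comp ζ (c.diff b ζ hζ).hasDerivAt
    rw [hd.deriv, c1_normX h g _ him, c.flow b ζ hζ, norm_mul, norm_div, norm_one, norm_pow]
    ring
  · intro b ζ hζ h1
    show _ ≤ ‖X (h * g * h⁻¹) (mob h (c.ψ b ζ))‖ / (mob h (c.ψ b ζ)).im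
    rw [c1_ratio h g _ (c.im_pos b ζ hζ)]
    exact c.low b ζ hζ h1
  · intro b ζ hζ h1 h2
    show ‖X (h * g * h⁻¹) (mob h (c.ψ b ζ))‖ / (mob h (c.ψ b ζ)).im ≤ _
    rw [c1_ratio h g _ (c.im_pos b ζ hζ)]
    exact c.inside b ζ hζ h1 h2
  · intro b x
    show ‖X (h * g * h⁻¹) (mob h (c.ψ b (x + c.tp * Complex.I)))‖ /
      (mob h (c.ψ b (x + c.tp * Complex.I))).im = _
    rw [c1_ratio h g _ (c.im_pos b _ (hSt x))]
    exact c.level b x
  · intro h0 ζ hζ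
    show mob h (c.ψ true ζ) = mob h (c.ψ false _)
    rw [c.flip h0 ζ hζ]
  · intro h0
    show (fun ζ => mob h (c.ψ true ζ)) = fun ζ => mob h (c.ψ false ζ)
    rw [c.same h0]
  · intro b
    show ((h • c.zb b : ℍ) : ℂ) = mob h (c.ψ b (c.tp * Complex.I))
    rw [coe_smul', c.zb_eq]
  · intro z hz hX
    obtain ⟨w, rfl⟩ : ∃ w : ℍ, h • w = z := ⟨h⁻¹ • z, smul_inv_smul h z⟩
    rw [disp_conj] at hz
    have hXw : X g w ≠ 0 := by
      intro h0
      have h1 := X_conj h g (w : ℂ) w.im_pos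
      rw [h0] at h1
      rcases mul_eq_zero.1 h1 with h2 | h2
      · apply hX
        rw [coe_smul']; exact h2
      · exact dn_ne h (w : ℂ) w.im_pos (pow_eq_zero_iff (by norm_num) |>.1 h2)
    obtain ⟨b, ζ, hζ, h1, h2, h3⟩ := c.cover w hz hXw
    refine ⟨b, ζ, hζ, ?_, h2, h3⟩
    show mob h (c.ψ b ζ) = ((h • w : ℍ) : ℂ)
    rw [h1, coe_smul']
  · intro z hz
    obtain ⟨w, rfl⟩ : ∃ w : ℍ, h • w = z := ⟨h⁻¹ • z, smul_inv_smul h z⟩
    rw [disp_conj] at hz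
    obtain ⟨b, n, hn⟩ := c.port w hz
    refine ⟨b, n, ?_⟩
    rw [disp_conj]
    show Real.cosh (dist (h • w) ((h * g * h⁻¹) ^ n • h • c.zb b) / 2) ^ 2 ≤ _
    have e : (h * g * h⁻¹) ^ n • h • c.zb b = h • g ^ n • c.zb b := by
      rw [conj_zpow, ← mul_smul, ← mul_smul]
      congr 1
      group
    rw [e, dist_smul]
    exact hn

theorem chart_inv (g : SL2) (c : SChart g) : Nonempty (SChart g⁻¹) := by
  refine ⟨{
    ℓ := c.ℓ
    tp := c.tp
    κ0 := c.κ0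
    ψ := c.ψ
    zb := c.zb
    ℓ_nonneg := c.ℓ_nonneg
    ℓ_le := c.ℓ_le
    tp_lo := c.tp_lo
    tp_hi := c.tp_hi
    κ_pos := c.κ_pos
    κ_le := c.κ_le
    diff := c.diff
    im_pos := c.im_pos
    X_ne := ?_
    per := ?_
    flow := ?_
    low := ?_
    inside := ?_
    level := ?_
    flip := c.flip
    same := c.same
    zb_eq := c.zb_eq
    cover := ?_
    port := ?_ }⟩
  · intro b ζ hζ
    rw [X_inv, neg_ne_zero]; exact c.X_ne b ζ hζ
  · intro b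
    obtain ⟨s, hs, hper⟩ := c.per b
    refine ⟨s, ?_, hper⟩
    rw [inv_inv]; exact hs.symm
  · intro b ζ hζ
    rw [X_inv, norm_neg]; exact c.flow b ζ hζ
  · intro b ζ hζ
    rw [X_inv, norm_neg]; exact c.low b ζ hζ
  · intro b ζ hζ
    rw [X_inv, norm_neg]; exact c.inside b ζ hζ
  · intro b x
    rw [X_inv, norm_neg]; exact c.level b x
  · intro z hz hX
    rw [c1_disp_inv] at hz
    rw [X_inv, neg_ne_zero] at hX
    exact c.cover z hz hX
  · intro z hz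
    rw [c1_disp_inv] at hz
    obtain ⟨b, n, hn⟩ := c.port z hz
    refine ⟨b, -n, ?_⟩
    rw [c1_disp_inv, inv_zpow', neg_neg]
    exact hn

end NF

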