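import Pool.Agent.Helper369.NF.Defs
import Pool.Agent.Helper369.NF.B0

open MeasureTheory Filter Topology Metric UpperHalfPlane

namespace NF

/-! The following statements are GIVEN (other jobs); do not prove them. -/

/-! TARGET: -/

theorem coe_zpow_smul (g : SL2) (hg : ∀ w : ℍ, ((g • w : ℍ) : ℂ) = w + 1) (n : ℤ) :
    ∀ w : ℍ, ((g ^ n • w : ℍ) : ℂ) = w + n := by
  have hinv : ∀ w : ℍ, ((g⁻¹ • w : ℍ) : ℂ) = w - 1 := by
    intro w
    have h := hg (g⁻¹ • w)
    rw [smul_inv_smul] at h
    rw [h]
    ring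
  induction n using Int.induction_on with
  | zero => intro w; simp
  | succ n ih =>
    intro w
    rw [zpow_add_one, mul_smul, ih, hg]
    push_cast
    ring
  | pred n ih =>
    intro w
    rw [zpow_sub_one, mul_smul, ih, hinv]
    push_cast
    ring

theorem chart_par (g : SL2) (h00 : g 0 0 = 1) (h01 : g 0 1 = 1) (h10 : g 1 0 = 0) (h11 : g 1 1 = 1) :
    Nonempty (SChart g) := by
  have hX : ∀ z : ℂ, X g z = 1 := by
    intro z
    unfold X
    rw [h00, h01, h10, h11]
    push_cast
    ring
  have hm : ∀ z : ℂ, mob g z = z + 1 := by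
    intro z
    unfold mob dn
    rw [h00, h01, h10, h11]
    push_cast
    ring
  have hd : ∀ z : ℍ, disp g z = 1 / z.im := by
    intro z
    unfold disp
    rw [hX, norm_one]
  have hg : ∀ w : ℍ, ((g • w : ℍ) : ℂ) = w + 1 := by
    intro w
    rw [coe_smul', hm]
  have h20 : 0 < ((20 : ℂ) * Complex.I).im := by simp
  refine ⟨{
    ℓ := 0
    tp := 20
    κ0 := 1
    ψ := fun _ ζ => ζ
    zb := fun _ => ⟨(20 : ℂ) * Complex.I, h20⟩
    ℓ_nonneg := le_rfl
    ℓ_le := by norm_num
    tp_lo := by norm_num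
    tp_hi := by norm_num
    κ_pos := one_pos
    κ_le := by norm_num
    diff := fun b ζ _ => differentiableAt_id
    im_pos := fun b ζ h => h.1
    X_ne := fun b ζ _ => by rw [hX]; exact one_ne_zero
    per := fun b => ⟨g, Or.inl rfl, fun ζ _ => (hm ζ).symm⟩
    flow := ?_
    low := ?_
    inside := ?_
    level := ?_
    flip := fun h => absurd h (lt_irrefl _)
    same := fun _ => rfl
    zb_eq := ?_
    cover := ?_
    port := ?_ }⟩
  · intro b ζ _
    rw [hX, norm_one, one_mul]
    have : deriv (fun ζ : ℂ => ζ) ζ = 1 := deriv_id ζ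
    rw [this, norm_one]
  · intro b ζ h _
    have ht : 0 < ζ.im := h.1
    rw [hX, norm_one, Real.exp_neg, ← one_div]
    apply one_div_le_one_div_of_le ht
    have h1 := Real.add_one_le_exp (2 * Real.pi * ζ.im)
    have h2 := Real.pi_gt_three
    nlinarith
  · intro b ζ _ h _
    rw [hX, norm_one]
    exact one_div_le_one_div_of_le (by norm_num) h
  · intro b x
    rw [hX, norm_one]
    simp
  · intro b
    push_cast
    rfl
  · intro z hz _
    rw [hd] at hz
    have ht : 0 < z.im := z.im_pos
    have h1 : 80 < z.im := by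
      rw [one_div_lt_one_div ht (by norm_num)] at hz
      exact hz
    refine ⟨true, (z : ℂ), ⟨ht, ?_⟩, rfl, ?_, ?_⟩
    · rw [zero_mul]; exact Real.pi_pos
    · change (20 : ℝ) + 2 ≤ z.im
      linarith
    · rw [zero_mul]
      have := Real.pi_pos
      positivity
  · intro z hz
    rw [hd] at hz ⊢
    have ht : 0 < z.im := z.im_pos
    have h1 : z.im ≤ 200 := by
      rw [one_div_le_one_div (by norm_num) ht] at hz
      exact hz
    refine ⟨true, round z.re, ?_⟩
    obtain ⟨w, hw⟩ : ∃ w : ℍ, w = g ^ (round z.re) • (⟨(20 : ℂ) * Complex.I, h20⟩ : ℍ) :=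
      ⟨_, rfl⟩
    have hwc : (w : ℂ) = (20 : ℂ) * Complex.I + (round z.re : ℤ) := by
      rw [hw, coe_zpow_smul g hg]
    have hwim : w.im = 20 := by
      have : w.im = (w : ℂ).im := rfl
      rw [this, hwc]
      simp
    have hwre : (w : ℂ).re = (round z.re : ℤ) := by
      rw [hwc]
      simp
    rw [← hw, UpperHalfPlane.cosh_half_dist, div_pow, mul_pow, Real.sq_sqrt (by
      rw [hwim]; positivity), hwim, Complex.dist_eq, ← Complex.normSq_eq_norm_sq,
      Complex.normSq_apply]
    simp only [Complex.sub_re, Complex.sub_im, Complex.conj_re, Complex.conj_im]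
    have hw2 : (w : ℂ).im = 20 := hwim
    rw [hwre, hw2]
    have hr := abs_sub_round z.re
    rw [abs_le] at hr
    have hzre : (z : ℂ).re = z.re := rfl
    have hzim : (z : ℂ).im = z.im := rfl
    rw [hzre, hzim, div_le_iff₀ (by positivity)]
    have h3 : (10 : ℝ) ^ 5 * (1 / z.im) * (2 ^ 2 * (z.im * 20)) = 8000000 := by
      have h4 : 1 / z.im * z.im = 1 := by
        rw [one_div, inv_mul_cancel₀ ht.ne']
      calc _ = (1 / z.im * z.im) * 8000000 := by ring
        _ = _ := by rw [h4, one_mul]
    rw [h3]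
    nlinarith [hr.1, hr.2]

end NF

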