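import Pool.Agent.Helper369.NF.Defs
import Pool.Agent.Helper369.NF.B0

open MeasureTheory Filter Topology Metric UpperHalfPlane

namespace NF

/-! The following statements are GIVEN (other jobs); do not prove them. -/

/-! auxiliary -/

/-- sign -/
noncomputable def sg (b : Bool) : ℝ := if b then -1 else 1

theorem sg_sq (b : Bool) : sg b * sg b = 1 := by
  cases b <;> simp [sg]

/-- the two charts -/
noncomputable def psi_C3 (ℓ : ℝ) (b : Bool) (ζ : ℂ) : ℂ :=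
  if b then Complex.exp (ℓ * ((Real.pi / ℓ : ℝ) * Complex.I - ζ)) else Complex.exp (ℓ * ζ)

theorem psi_props {ℓ : ℝ} (hℓ : 0 < ℓ) (b : Bool) (ζ : ℂ) :
    (psi_C3 ℓ b ζ).re = sg b * Real.exp (sg b * (ℓ * ζ.re)) * Real.cos (ℓ * ζ.im) ∧
    (psi_C3 ℓ b ζ).im = Real.exp (sg b * (ℓ * ζ.re)) * Real.sin (ℓ * ζ.im) ∧
    ‖psi_C3 ℓ b ζ‖ = Real.exp (sg b * (ℓ * ζ.re)) := by
  cases b
  · simp only [psi_C3, sg, Bool.false_eq_true, if_false]
    rw [Complex.exp_re, Complex.exp_im, Complex.norm_exp]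
    simp
  · simp only [psi_C3, sg, if_true]
    rw [Complex.exp_re, Complex.exp_im, Complex.norm_exp]
    have h1 : ((ℓ : ℂ) * ((Real.pi / ℓ : ℝ) * Complex.I - ζ)).re = -(ℓ * ζ.re) := by
      simp
    have h2 : ((ℓ : ℂ) * ((Real.pi / ℓ : ℝ) * Complex.I - ζ)).im = Real.pi - ℓ * ζ.im := by
      simp
      field_simp
    rw [h1, h2, Real.cos_pi_sub, Real.sin_pi_sub]
    refine ⟨?_, ?_, ?_⟩
    · ring_nf
    · ring_nf
    · ring_nf

theorem sinh_small_C3 {x : ℝ} (h0 : 0 ≤ x) (h1 : x ≤ 1 / 320) :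
    x ≤ Real.sinh x ∧ Real.sinh x ≤ 101 / 100 * x := by
  refine ⟨Real.self_le_sinh_iff.2 h0, ?_⟩
  have e1 := Real.abs_exp_sub_one_sub_id_le (x := x) (by rw [abs_of_nonneg h0]; linarith)
  have e2 := Real.abs_exp_sub_one_sub_id_le (x := -x) (by rw [abs_neg, abs_of_nonneg h0]; linarith)
  rw [abs_le] at e1 e2
  rw [Real.sinh_eq]
  nlinarith [e1.2, e2.1]

theorem theta_bounds {ℓ s : ℝ} (hℓ : 0 < ℓ) (hℓ2 : ℓ ≤ 1 / 160) (h1 : ℓ / 2 ≤ s)
    (h2 : s ≤ 101 / 100 * (ℓ / 2)) :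
    Real.sin (Real.arcsin (40 * s)) = 40 * s ∧ 20 * ℓ ≤ Real.arcsin (40 * s) ∧
      Real.arcsin (40 * s) ≤ 25 * ℓ := by
  have hs1 : 40 * s ≤ 13 / 100 := by linarith
  have hs0 : 0 < 40 * s := by linarith
  have hsin : Real.sin (Real.arcsin (40 * s)) = 40 * s :=
    Real.sin_arcsin (by linarith) (by linarith)
  set θ := Real.arcsin (40 * s) with hθ
  have hθ0 : 0 < θ := Real.arcsin_pos.2 hs0
  have hθ1 : θ ≤ Real.pi / 2 := Real.arcsin_le_pi_div_two _
  refine ⟨hsin, ?_, ?_⟩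
  · have : Real.sin θ ≤ θ := Real.sin_le hθ0.le
    rw [hsin] at this
    linarith
  · have hj : 2 / Real.pi * θ ≤ Real.sin θ := Real.mul_le_sin hθ0.le hθ1
    rw [hsin] at hj
    have hpi : Real.pi < 3.15 := Real.pi_lt_d2
    have hpi0 := Real.pi_pos
    have hθ2 : θ ≤ 21 / 100 := by
      have h3 : 2 * θ ≤ 40 * s * Real.pi := by
        rw [div_mul_eq_mul_div, div_le_iff₀ hpi0] at hj
        exact hj
      nlinarith
    have hc := Real.sin_gt_sub_cube hθ0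
    rw [hsin] at hc
    have : θ ^ 3 ≤ (21 / 100) ^ 2 * θ := by
      have : θ ^ 2 ≤ (21 / 100) ^ 2 := pow_le_pow_left₀ hθ0.le hθ2 2
      nlinarith
    nlinarith

theorem X_diag {g : SL2} {ℓ : ℝ} (h00 : g 0 0 = Real.exp (ℓ / 2))
    (h01 : g 0 1 = 0) (h10 : g 1 0 = 0) (h11 : g 1 1 = Real.exp (-(ℓ / 2))) (z : ℂ) :
    X g z = ((2 * Real.sinh (ℓ / 2) : ℝ) : ℂ) * z := by
  unfold X
  rw [h00, h01, h10, h11, Real.sinh_eq]
  push_cast
  ring

theorem mob_diag {g : SL2} {ℓ : ℝ} (h00 : g 0 0 = Real.exp (ℓ / 2))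
    (h01 : g 0 1 = 0) (h10 : g 1 0 = 0) (h11 : g 1 1 = Real.exp (-(ℓ / 2))) (z : ℂ) :
    mob g z = ((Real.exp ℓ : ℝ) : ℂ) * z := by
  unfold mob dn
  rw [h00, h01, h10, h11]
  have : Real.exp ℓ = Real.exp (ℓ / 2) / Real.exp (-(ℓ / 2)) := by
    rw [← Real.exp_sub]
    congr 1
    ring
  rw [this]
  have hne : ((Real.exp (-(ℓ / 2)) : ℝ) : ℂ) ≠ 0 := by
    exact_mod_cast (Real.exp_pos _).ne'
  push_cast at hne ⊢
  field_simp
  ring

theorem mob_diag_inv {g : SL2} {ℓ : ℝ} (h00 : g 0 0 = Real.exp (ℓ / 2))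
    (h01 : g 0 1 = 0) (h10 : g 1 0 = 0) (h11 : g 1 1 = Real.exp (-(ℓ / 2))) (z : ℂ) :
    mob g⁻¹ z = ((Real.exp (-ℓ) : ℝ) : ℂ) * z := by
  have e00 : (g⁻¹ : SL2) 0 0 = Real.exp (-ℓ / 2) := by
    rw [Matrix.SpecialLinearGroup.coe_inv, Matrix.adjugate_fin_two]
    simp only [Matrix.of_apply, Matrix.cons_val', Matrix.cons_val_zero, Matrix.cons_val_fin_one]
    rw [h11]
    congr 1
    ring
  have e01 : (g⁻¹ : SL2) 0 1 = 0 := by
    rw [Matrix.SpecialLinearGroup.coe_inv, Matrix.adjugate_fin_two]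
    simp [h01]
  have e10 : (g⁻¹ : SL2) 1 0 = 0 := by
    rw [Matrix.SpecialLinearGroup.coe_inv, Matrix.adjugate_fin_two]
    simp [h10]
  have e11 : (g⁻¹ : SL2) 1 1 = Real.exp (-(-ℓ / 2)) := by
    rw [Matrix.SpecialLinearGroup.coe_inv, Matrix.adjugate_fin_two]
    simp only [Matrix.of_apply, Matrix.cons_val', Matrix.cons_val_one, Matrix.cons_val_fin_one]
    rw [h00]
    congr 1
    ring
  exact mob_diag e00 e01 e10 e11 z

theorem zpow_diag {g : SL2} {ℓ : ℝ} (h00 : g 0 0 = Real.exp (ℓ / 2))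
    (h01 : g 0 1 = 0) (h10 : g 1 0 = 0) (h11 : g 1 1 = Real.exp (-(ℓ / 2))) (n : ℤ) (z : ℍ) :
    ((g ^ n • z : ℍ) : ℂ) = Complex.exp (ℓ * n) * z := by
  induction n using Int.induction_on generalizing z with
  | zero => simp
  | succ n ih =>
    rw [zpow_add_one, mul_smul, ih, coe_smul', mob_diag h00 h01 h10 h11, Complex.ofReal_exp,
      ← mul_assoc, ← Complex.exp_add]
    congr 2
    push_cast
    ring
  | pred n ih =>
    rw [zpow_sub_one, mul_smul, ih, coe_smul', mob_diag_inv h00 h01 h10 h11, Complex.ofReal_exp,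
      ← mul_assoc, ← Complex.exp_add]
    congr 2
    push_cast
    ring

theorem cosh_half_sq (z w : ℍ) : Real.cosh (dist z w / 2) ^ 2 =
    (((z : ℂ).re - (w : ℂ).re) ^ 2 + ((z : ℂ).im + (w : ℂ).im) ^ 2) / (4 * (z.im * w.im)) := by
  rw [UpperHalfPlane.cosh_half_dist, div_pow, mul_pow, Real.sq_sqrt (mul_pos z.im_pos w.im_pos).le,
    Complex.dist_eq, ← Complex.normSq_eq_norm_sq, Complex.normSq_apply]
  simp
  ring

theorem ratio_psi {g : SL2} {ℓ : ℝ} (hℓ : 0 < ℓ) (h00 : g 0 0 = Real.exp (ℓ / 2))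
    (h01 : g 0 1 = 0) (h10 : g 1 0 = 0) (h11 : g 1 1 = Real.exp (-(ℓ / 2))) (b : Bool) (ζ : ℂ) :
    ‖X g (psi_C3 ℓ b ζ)‖ / (psi_C3 ℓ b ζ).im = 2 * Real.sinh (ℓ / 2) / Real.sin (ℓ * ζ.im) := by
  obtain ⟨_, h2, h3⟩ := psi_props hℓ b ζ
  have hs : 0 < Real.sinh (ℓ / 2) := Real.sinh_pos_iff.2 (by linarith)
  rw [X_diag h00 h01 h10 h11, norm_mul, Complex.norm_real, Real.norm_eq_abs,
    abs_of_pos (by linarith), h2, h3, mul_comm (2 * Real.sinh (ℓ / 2)),
    mul_div_mul_left _ _ (Real.exp_pos _).ne']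

theorem exists_psi {ℓ : ℝ} (hℓ : 0 < ℓ) (z : ℍ) : ∃ b, ∃ ζ ∈ St ℓ, psi_C3 ℓ b ζ = z ∧
    ℓ * ζ.im ≤ Real.pi / 2 := by
  have hz : (z : ℂ) ≠ 0 := z.ne_zero
  have hzi : 0 < (z : ℂ).im := z.im_pos
  have ha0 : 0 < Complex.arg z := by
    refine lt_of_le_of_ne (Complex.arg_nonneg_iff.2 hzi.le) fun h => ?_
    have := (Complex.arg_eq_zero_iff.1 h.symm).2
    linarith
  have ha1 : Complex.arg z < Real.pi := Complex.arg_lt_pi_iff.2 (Or.inr hzi.ne')
  have hℓC : (ℓ : ℂ) ≠ 0 := by exact_mod_cast hℓ.ne'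
  have hlog : (Complex.log z / ℓ).im = Complex.arg z / ℓ := by
    rw [Complex.div_ofReal_im, Complex.log_im]
  rcases le_or_gt (Complex.arg z) (Real.pi / 2) with h | h
  · refine ⟨false, Complex.log z / ℓ, ⟨?_, ?_⟩, ?_, ?_⟩
    · rw [hlog]; positivity
    · rw [hlog, mul_div_cancel₀ _ hℓ.ne']; exact ha1
    · simp only [psi_C3, Bool.false_eq_true, if_false]
      rw [mul_div_cancel₀ _ hℓC, Complex.exp_log hz]
    · rw [hlog, mul_div_cancel₀ _ hℓ.ne']; exact h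
  · have him : ((Real.pi / ℓ : ℝ) * Complex.I - Complex.log z / ℓ).im =
        (Real.pi - Complex.arg z) / ℓ := by
      rw [Complex.sub_im, hlog]
      simp
      ring
    refine ⟨true, (Real.pi / ℓ : ℝ) * Complex.I - Complex.log z / ℓ, ⟨?_, ?_⟩, ?_, ?_⟩
    · rw [him]
      have : 0 < Real.pi - Complex.arg z := by linarith
      positivity
    · rw [him, mul_div_cancel₀ _ hℓ.ne']; linarith
    · simp only [psi_C3, if_true]
      rw [sub_sub_cancel, mul_div_cancel₀ _ hℓC, Complex.exp_log hz]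
    · rw [him, mul_div_cancel₀ _ hℓ.ne']; linarith

theorem cosh_small {y : ℝ} (hy : |y| ≤ 1) : Real.cosh y ≤ 1 + y ^ 2 := by
  have e1 := Real.abs_exp_sub_one_sub_id_le (x := y) hy
  have e2 := Real.abs_exp_sub_one_sub_id_le (x := -y) (by rwa [abs_neg])
  rw [abs_le] at e1 e2
  rw [Real.cosh_eq]
  nlinarith [e1.2, e2.2]

theorem port_calc {ℓ : ℝ} (hℓ : 0 < ℓ) (b : Bool) (ζ ω : ℂ) (z w : ℍ) (hz : psi_C3 ℓ b ζ = z)
    (hw : psi_C3 ℓ b ω = w) :
    Real.cosh (dist z w / 2) ^ 2 =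
      (Real.cosh (ℓ * (ζ.re - ω.re)) - Real.cos (ℓ * ζ.im + ℓ * ω.im)) /
        (2 * (Real.sin (ℓ * ζ.im) * Real.sin (ℓ * ω.im))) := by
  obtain ⟨z1, z2, _⟩ := psi_props hℓ b ζ
  obtain ⟨w1, w2, _⟩ := psi_props hℓ b ω
  rw [hz] at z1 z2
  rw [hw] at w1 w2
  have hzim : z.im = (z : ℂ).im := rfl
  have hwim : w.im = (w : ℂ).im := rfl
  rw [cosh_half_sq, hzim, hwim, z1, z2, w1, w2]
  set E1 := Real.exp (sg b * (ℓ * ζ.re)) with hE1
  set E2 := Real.exp (sg b * (ℓ * ω.re)) with hE2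
  have hE1p : 0 < E1 := Real.exp_pos _
  have hE2p : 0 < E2 := Real.exp_pos _
  have hch : 2 * (E1 * E2) * Real.cosh (ℓ * (ζ.re - ω.re)) = E1 ^ 2 + E2 ^ 2 := by
    have hc : Real.cosh (ℓ * (ζ.re - ω.re)) = Real.cosh (sg b * (ℓ * (ζ.re - ω.re))) := by
      cases b
      · simp [sg]
      · simp only [sg, if_true]
        rw [neg_one_mul, Real.cosh_neg]
    rw [hc, Real.cosh_eq]
    have f1 : E1 * E2 * Real.exp (sg b * (ℓ * (ζ.re - ω.re))) = E1 ^ 2 := by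
      rw [hE1, hE2, ← Real.exp_add, ← Real.exp_add, ← Real.exp_nat_mul]
      congr 1
      push_cast
      ring
    have f2 : E1 * E2 * Real.exp (-(sg b * (ℓ * (ζ.re - ω.re)))) = E2 ^ 2 := by
      rw [hE1, hE2, ← Real.exp_add, ← Real.exp_add, ← Real.exp_nat_mul]
      congr 1
      push_cast
      ring
    linarith
  have hnum : (sg b * E1 * Real.cos (ℓ * ζ.im) - sg b * E2 * Real.cos (ℓ * ω.im)) ^ 2 +
      (E1 * Real.sin (ℓ * ζ.im) + E2 * Real.sin (ℓ * ω.im)) ^ 2 =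
      2 * (E1 * E2) * (Real.cosh (ℓ * (ζ.re - ω.re)) - Real.cos (ℓ * ζ.im + ℓ * ω.im)) := by
    rw [mul_sub, hch, Real.cos_add]
    have s1 := Real.sin_sq_add_cos_sq (ℓ * ζ.im)
    have s2 := Real.sin_sq_add_cos_sq (ℓ * ω.im)
    have s3 := sg_sq b
    have e : (sg b * E1 * Real.cos (ℓ * ζ.im) - sg b * E2 * Real.cos (ℓ * ω.im)) ^ 2 =
      (sg b * sg b) * (E1 * Real.cos (ℓ * ζ.im) - E2 * Real.cos (ℓ * ω.im)) ^ 2 := by ring
    rw [e, s3]
    linear_combination E1 ^ 2 * s1 + E2 ^ 2 * s2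
  rw [hnum]
  have hden : 4 * (E1 * Real.sin (ℓ * ζ.im) * (E2 * Real.sin (ℓ * ω.im))) =
      (2 * (E1 * E2)) * (2 * (Real.sin (ℓ * ζ.im) * Real.sin (ℓ * ω.im))) := by ring
  rw [hden, mul_div_mul_left _ _ (by positivity)]

/-! TARGET: -/

theorem chart_hyp (g : SL2) (ℓ : ℝ) (hℓ : 0 < ℓ) (hℓ2 : ℓ ≤ 1 / 160) (h00 : g 0 0 = Real.exp (ℓ / 2))
    (h01 : g 0 1 = 0) (h10 : g 1 0 = 0) (h11 : g 1 1 = Real.exp (-(ℓ / 2))) :
    Nonempty (SChart g) := by
  obtain ⟨hs1, hs2⟩ := sinh_small_C3 (x := ℓ / 2) (by linarith) (by linarith)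
  have hrat := ratio_psi hℓ h00 h01 h10 h11
  set s := Real.sinh (ℓ / 2) with hs
  have hs0 : 0 < s := by linarith
  obtain ⟨hsin, hθ1, hθ2⟩ := theta_bounds hℓ hℓ2 hs1 hs2
  set θ := Real.arcsin (40 * s) with hθ
  have hθπ : θ ≤ Real.pi / 2 := Real.arcsin_le_pi_div_two _
  set tp := θ / ℓ with htp
  have hℓtp : ℓ * tp = θ := mul_div_cancel₀ _ hℓ.ne'
  have htp1 : 20 ≤ tp := by rw [htp, le_div_iff₀ hℓ]; exact hθ1
  have htp2 : tp ≤ 25 := by rw [htp, div_le_iff₀ hℓ]; exact hθ2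
  have hπ := Real.pi_pos
  have hπ3 : Real.pi < 3.15 := Real.pi_lt_d2
  have hθ0 : 0 < θ := by linarith
  have hsinpos : ∀ ζ ∈ St ℓ, 0 < Real.sin (ℓ * ζ.im) := fun ζ hζ =>
    Real.sin_pos_of_pos_of_lt_pi (mul_pos hℓ hζ.1) hζ.2
  have himpos : ∀ b, ∀ ζ ∈ St ℓ, 0 < (psi_C3 ℓ b ζ).im := by
    intro b ζ hζ
    rw [(psi_props hℓ b ζ).2.1]
    exact mul_pos (Real.exp_pos _) (hsinpos ζ hζ)
  have htpI : ∀ x : ℝ, ((x : ℂ) + tp * Complex.I).im = tp := by intro x; simp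
  have htpI' : ((tp : ℂ) * Complex.I).im = tp := by simp
  have hSt : (tp : ℂ) * Complex.I ∈ St ℓ := by
    refine ⟨by rw [htpI']; linarith, ?_⟩
    rw [htpI', hℓtp]; linarith
  have hderiv : ∀ b, ∀ ζ, HasDerivAt (psi_C3 ℓ b) (-(sg b : ℝ) * ℓ * psi_C3 ℓ b ζ * (-1)) ζ := by
    intro b ζ
    cases b
    · have h1 : HasDerivAt (fun ζ : ℂ => (ℓ : ℂ) * ζ) (ℓ : ℂ) ζ := by
        simpa using (hasDerivAt_id ζ).const_mul (ℓ : ℂ)
      have h2 := h1.cexp
      have : psi_C3 ℓ false = fun ζ => Complex.exp (ℓ * ζ) := by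
        funext ζ; simp [psi_C3]
      rw [this]
      have e : (-(sg false : ℝ) * ℓ * Complex.exp (ℓ * ζ) * (-1) : ℂ) =
          Complex.exp (ℓ * ζ) * ℓ := by
        simp only [sg, Bool.false_eq_true, if_false]
        push_cast
        ring
      exact e ▸ h2
    · have h1 : HasDerivAt (fun ζ : ℂ => (ℓ : ℂ) * ((Real.pi / ℓ : ℝ) * Complex.I - ζ))
          (-(ℓ : ℂ)) ζ := by
        have := ((hasDerivAt_id ζ).const_sub ((Real.pi / ℓ : ℝ) * Complex.I)).const_mul (ℓ : ℂ)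
        simpa using this
      have h2 := h1.cexp
      have : psi_C3 ℓ true = fun ζ => Complex.exp (ℓ * ((Real.pi / ℓ : ℝ) * Complex.I - ζ)) := by
        funext ζ; simp [psi_C3]
      rw [this]
      have e : (-(sg true : ℝ) * ℓ *
          Complex.exp (ℓ * ((Real.pi / ℓ : ℝ) * Complex.I - ζ)) * (-1) : ℂ) =
          Complex.exp (ℓ * ((Real.pi / ℓ : ℝ) * Complex.I - ζ)) * (-(ℓ : ℂ)) := by
        simp only [sg, if_true]
        push_cast
        ring
      exact e ▸ h2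
  have hdisp : ∀ b, ∀ ζ, ∀ z : ℍ, psi_C3 ℓ b ζ = z → disp g z = 2 * s / Real.sin (ℓ * ζ.im) := by
    intro b ζ z hz
    rw [← hrat b ζ, hz]
    rfl
  exact ⟨{
    ℓ := ℓ
    tp := tp
    κ0 := 2 * s / ℓ
    ψ := psi_C3 ℓ
    zb := fun b => ⟨psi_C3 ℓ b (tp * Complex.I), himpos b _ hSt⟩
    ℓ_nonneg := hℓ.le
    ℓ_le := by linarith
    tp_lo := by linarith
    tp_hi := htp2
    κ_pos := by positivity
    κ_le := by
      rw [div_le_iff₀ hℓ]
      linarith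
    diff := fun b ζ _ => (hderiv b ζ).differentiableAt
    im_pos := himpos
    X_ne := by
      intro b ζ _
      rw [X_diag h00 h01 h10 h11]
      have h1 : psi_C3 ℓ b ζ ≠ 0 := by
        rw [← norm_pos_iff, (psi_props hℓ b ζ).2.2]
        exact Real.exp_pos _
      have h2 : ((2 * Real.sinh (ℓ / 2) : ℝ) : ℂ) ≠ 0 := by
        rw [← hs]
        exact_mod_cast (by positivity : (0 : ℝ) < 2 * s).ne'
      exact mul_ne_zero h2 h1
    per := by
      intro b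
      have hℓC : (ℓ : ℂ) ≠ 0 := by exact_mod_cast hℓ.ne'
      cases b
      · refine ⟨g, Or.inl rfl, fun ζ _ => ?_⟩
        rw [mob_diag h00 h01 h10 h11, Complex.ofReal_exp]
        simp only [psi_C3, Bool.false_eq_true, if_false]
        rw [← Complex.exp_add]
        congr 1
        ring
      · refine ⟨g⁻¹, Or.inr rfl, fun ζ _ => ?_⟩
        rw [mob_diag_inv h00 h01 h10 h11, Complex.ofReal_exp]
        simp only [psi_C3, if_true]
        rw [← Complex.exp_add]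
        congr 1
        push_cast
        ring
    flow := by
      intro b ζ _
      rw [(hderiv b ζ).deriv, X_diag h00 h01 h10 h11, ← hs]
      simp only [norm_mul, norm_neg, norm_one, mul_one, Complex.norm_real, Real.norm_eq_abs]
      rw [abs_of_pos hs0, abs_of_pos hℓ]
      have h1 : |sg b| = 1 := by cases b <;> simp [sg]
      rw [h1]
      simp
      field_simp
    low := by
      intro b ζ hζ _
      rw [hrat b ζ, le_div_iff₀ (hsinpos ζ hζ)]
      have h1 : Real.sin (ℓ * ζ.im) ≤ ℓ * ζ.im := Real.sin_le (mul_pos hℓ hζ.1).le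
      have h2 : ζ.im ≤ Real.exp (2 * Real.pi * ζ.im) := by
        have h3 := Real.add_one_le_exp (2 * Real.pi * ζ.im)
        have h4 : ζ.im ≤ 2 * Real.pi * ζ.im := by
          have : 1 ≤ 2 * Real.pi := by linarith [Real.pi_gt_three]
          nlinarith [hζ.1]
        linarith
      have h5 : Real.exp (-(2 * Real.pi * ζ.im)) * ζ.im ≤ 1 := by
        rw [Real.exp_neg, inv_mul_le_iff₀ (Real.exp_pos _), mul_one]
        exact h2
      calc Real.exp (-(2 * Real.pi * ζ.im)) * Real.sin (ℓ * ζ.im)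
          ≤ Real.exp (-(2 * Real.pi * ζ.im)) * (ℓ * ζ.im) :=
            mul_le_mul_of_nonneg_left h1 (Real.exp_pos _).le
        _ = ℓ * (Real.exp (-(2 * Real.pi * ζ.im)) * ζ.im) := by ring
        _ ≤ ℓ * 1 := mul_le_mul_of_nonneg_left h5 hℓ.le
        _ ≤ 2 * s := by linarith
    inside := by
      intro b ζ hζ h1 h2
      rw [hrat b ζ, div_le_iff₀ (hsinpos ζ hζ)]
      have h3 : 40 * s ≤ Real.sin (ℓ * ζ.im) := by
        rw [← hsin]
        have h4 : θ ≤ ℓ * ζ.im := by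
          rw [← hℓtp]
          exact mul_le_mul_of_nonneg_left h1 hℓ.le
        have h5 : ℓ * ζ.im ≤ Real.pi - θ := by
          rw [← hℓtp]
          linarith
        rcases le_or_gt (ℓ * ζ.im) (Real.pi / 2) with h | h
        · exact Real.sin_le_sin_of_le_of_le_pi_div_two (by linarith) h h4
        · rw [← Real.sin_pi_sub (ℓ * ζ.im)]
          exact Real.sin_le_sin_of_le_of_le_pi_div_two (by linarith) (by linarith) (by linarith)
      linarith
    level := by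
      intro b x
      rw [hrat b, htpI, hℓtp, hsin]
      field_simp
      norm_num
    flip := by
      intro _ ζ _
      simp [psi_C3]
    same := fun h => absurd h hℓ.ne'
    zb_eq := fun b => rfl
    cover := by
      intro z hz _
      obtain ⟨b, ζ, hζ, hψ, hle⟩ := exists_psi hℓ z
      refine ⟨b, ζ, hζ, hψ, ?_, hle⟩
      rw [hdisp b ζ z hψ, div_lt_iff₀ (hsinpos ζ hζ)] at hz
      have h1 : Real.sin (ℓ * ζ.im) ≤ ℓ * ζ.im := Real.sin_le (mul_pos hℓ hζ.1).le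
      have h2 : ℓ * 80 < ℓ * ζ.im := by linarith
      have h3 : 80 < ζ.im := lt_of_mul_lt_mul_left h2 hℓ.le
      linarith
    port := by
      intro z hz
      obtain ⟨b, ζ, hζ, hψ, hle⟩ := exists_psi hℓ z
      have hsζ := hsinpos ζ hζ
      have hd := hdisp b ζ z hψ
      rw [hd] at hz
      have hj : 2 / Real.pi * (ℓ * ζ.im) ≤ Real.sin (ℓ * ζ.im) :=
        Real.mul_le_sin (mul_pos hℓ hζ.1).le hle
      have ht : ζ.im ≤ 320 := by
        rw [div_le_div_iff₀ (by norm_num) hsζ] at hz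
        have h1 : 2 * (ℓ * ζ.im) ≤ Real.sin (ℓ * ζ.im) * Real.pi := by
          rwa [div_mul_eq_mul_div, div_le_iff₀ hπ] at hj
        have h2 : Real.sin (ℓ * ζ.im) ≤ 202 * ℓ := by linarith
        have h3 : Real.sin (ℓ * ζ.im) * Real.pi ≤ 202 * ℓ * 3.15 :=
          mul_le_mul h2 hπ3.le hπ.le (by positivity)
        have h4 : ℓ * ζ.im ≤ ℓ * 320 := by linarith
        exact le_of_mul_le_mul_left h4 hℓ
      set n : ℤ := round ζ.re with hn
      have hxn : |ζ.re - n| ≤ 1 / 2 := abs_sub_round ζ.re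
      refine ⟨b, if b then -n else n, ?_⟩
      set w : ℍ := g ^ (if b then -n else n) • (⟨psi_C3 ℓ b (tp * Complex.I), himpos b _ hSt⟩ : ℍ)
        with hw
      have hwc : psi_C3 ℓ b ((n : ℝ) + tp * Complex.I) = w := by
        rw [hw, zpow_diag h00 h01 h10 h11]
        change _ = _ * psi_C3 ℓ b (tp * Complex.I)
        cases b
        · simp only [psi_C3, Bool.false_eq_true, if_false]
          rw [← Complex.exp_add]
          congr 1
          push_cast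
          ring
        · simp only [psi_C3, if_true]
          rw [← Complex.exp_add]
          congr 1
          push_cast
          ring
      rw [port_calc hℓ b ζ _ z w hψ hwc, hd]
      have hre : (((n : ℝ) : ℂ) + tp * Complex.I).re = n := by simp
      have him : (((n : ℝ) : ℂ) + tp * Complex.I).im = tp := by simp
      rw [hre, him, hℓtp, hsin]
      set y := ℓ * (ζ.re - n) with hy
      have hy1 : |y| ≤ ℓ / 2 := by
        rw [hy, abs_mul, abs_of_pos hℓ]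
        nlinarith
      have hcy := cosh_small (y := y) (by linarith)
      have hcc := Real.one_sub_sq_div_two_le_cos (x := ℓ * ζ.im + θ)
      have hy2 : y ^ 2 ≤ (ℓ / 2) ^ 2 := by
        rw [← sq_abs]
        exact pow_le_pow_left₀ (abs_nonneg _) hy1 2
      have hc : ℓ * ζ.im + θ ≤ 345 * ℓ := by nlinarith
      have hc0 : 0 ≤ ℓ * ζ.im + θ := add_nonneg (mul_pos hℓ hζ.1).le hθ0.le
      have hc2 : (ℓ * ζ.im + θ) ^ 2 ≤ (345 * ℓ) ^ 2 := pow_le_pow_left₀ hc0 hc 2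
      have hss : (ℓ / 2) ^ 2 ≤ s ^ 2 := pow_le_pow_left₀ (by linarith) hs1 2
      rw [div_le_iff₀ (by positivity)]
      have e : 10 ^ 5 * (2 * s / Real.sin (ℓ * ζ.im)) *
          (2 * (Real.sin (ℓ * ζ.im) * (40 * s))) = 16000000 * s ^ 2 := by
        field_simp
        ring
      rw [e]
      nlinarith }⟩

end NF

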