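import Pool.Agent.Helper369.NF.Defs
import Pool.Agent.Helper369.NF.B0

open MeasureTheory Filter Topology Metric UpperHalfPlane

namespace NF

/-! The following statements are GIVEN (other jobs); do not prove them. -/

/-! TARGET: -/

section ellaux

/-- Cayley transform -/
noncomputable def cay (W : ℂ) : ℂ := Complex.I * (1 + W) / (1 - W)

/-- the coordinate -/
noncomputable def psiE (th : ℝ) (ζ : ℂ) : ℂ := cay (Complex.exp (Complex.I * th * ζ))

theorem one_sub_ne {W : ℂ} (h : ‖W‖ < 1) : (1 - W) ≠ 0 := by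
  intro h1
  have h2 : W = 1 := (sub_eq_zero.mp h1).symm
  rw [h2, norm_one] at h
  exact lt_irrefl _ h

theorem cay_im {W : ℂ} (h : ‖W‖ < 1) : (cay W).im = (1 - ‖W‖ ^ 2) / ‖1 - W‖ ^ 2 := by
  have h1 := one_sub_ne h
  have h2 : Complex.normSq (1 - W) ≠ 0 := by
    rwa [Ne, Complex.normSq_eq_zero]
  unfold cay
  rw [Complex.div_im, Complex.sq_norm, Complex.sq_norm]
  rcases W with ⟨a, b⟩
  simp only [Complex.normSq_apply, Complex.sub_re, Complex.sub_im, Complex.one_re, Complex.one_im,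
    Complex.mul_re, Complex.mul_im, Complex.I_re, Complex.I_im, Complex.add_re, Complex.add_im] at h2 ⊢
  field_simp
  ring

theorem cay_im_pos {W : ℂ} (h : ‖W‖ < 1) : 0 < (cay W).im := by
  rw [cay_im h]
  have h1 : 0 < ‖1 - W‖ := norm_pos_iff.mpr (one_sub_ne h)
  have h2 := norm_nonneg W
  have h3 : 0 < 1 - ‖W‖ ^ 2 := by nlinarith
  positivity

theorem norm_W (th : ℝ) (ζ : ℂ) : ‖Complex.exp (Complex.I * th * ζ)‖ = Real.exp (-(th * ζ.im)) := by
  rw [Complex.norm_exp]
  congr 1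
  simp

theorem norm_W_lt {th : ℝ} (hth : 0 < th) {ζ : ℂ} (hζ : 0 < ζ.im) :
    ‖Complex.exp (Complex.I * th * ζ)‖ < 1 := by
  rw [norm_W, Real.exp_lt_one_iff]
  nlinarith [mul_pos hth hζ]

theorem cay_hasDeriv {W : ℂ} (h : ‖W‖ < 1) :
    HasDerivAt cay (2 * Complex.I / (1 - W) ^ 2) W := by
  have h0 := one_sub_ne h
  have h1 : HasDerivAt (fun W : ℂ => Complex.I * (1 + W)) Complex.I W := by
    simpa using ((hasDerivAt_id W).const_add 1).const_mul Complex.I
  have h2 : HasDerivAt (fun W : ℂ => 1 - W) (-1) W := by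
    simpa using (hasDerivAt_id W).const_sub 1
  have h3 := h1.div h2 h0
  convert! h3 using 1
  field_simp
  ring

theorem psiE_hasDeriv {th : ℝ} (hth : 0 < th) {ζ : ℂ} (hζ : 0 < ζ.im) :
    HasDerivAt (psiE th) (2 * Complex.I / (1 - Complex.exp (Complex.I * th * ζ)) ^ 2 *
      (Complex.exp (Complex.I * th * ζ) * (Complex.I * th))) ζ := by
  have hW : HasDerivAt (fun ζ : ℂ => Complex.exp (Complex.I * th * ζ))
      (Complex.exp (Complex.I * th * ζ) * (Complex.I * th)) ζ := by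
    have := ((hasDerivAt_id ζ).const_mul (Complex.I * (th : ℂ))).cexp
    simpa using this
  exact (cay_hasDeriv (norm_W_lt hth hζ)).comp ζ hW

theorem four_sinh {s x : ℝ} (hx : 0 < x) :
    4 * s * Real.exp (-x) / (1 - Real.exp (-x) ^ 2) = 2 * s / Real.sinh x := by
  have hs : 0 < Real.sinh x := Real.sinh_pos_iff.mpr hx
  have h1 : Real.exp (-x) < 1 := by rw [Real.exp_lt_one_iff]; linarith
  have h0 : 0 < Real.exp (-x) := Real.exp_pos _
  have h2 : 0 < 1 - Real.exp (-x) ^ 2 := by nlinarith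
  rw [div_eq_div_iff h2.ne' hs.ne', Real.sinh_eq]
  have h3 : Real.exp (-x) * Real.exp x = 1 := by rw [← Real.exp_add]; simp
  have : 4 * s * Real.exp (-x) * ((Real.exp x - Real.exp (-x)) / 2) =
      2 * s * (Real.exp (-x) * Real.exp x - Real.exp (-x) ^ 2) := by ring
  rw [this, h3]

theorem sinh_le_mul_exp {x : ℝ} : Real.sinh x ≤ x * Real.exp x := by
  rw [Real.sinh_eq]
  have h1 : Real.exp (-x) = Real.exp x * Real.exp (-(2 * x)) := by
    rw [← Real.exp_add]; congr 1; ring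
  have h2 := Real.add_one_le_exp (-(2 * x))
  have h3 := Real.exp_pos x
  nlinarith [mul_le_mul_of_nonneg_left h2 h3.le]

theorem exp_le_inv {x : ℝ} (h : x < 1) : Real.exp x ≤ 1 / (1 - x) := by
  rw [le_div_iff₀ (by linarith)]
  have h1 := Real.add_one_le_exp (-x)
  have h2 := Real.exp_pos x
  have h3 : Real.exp x * Real.exp (-x) = 1 := by rw [← Real.exp_add]; simp
  nlinarith [mul_le_mul_of_nonneg_left h1 h2.le]

theorem cay_surj (z : ℂ) (hz : 0 < z.im) (hne : z ≠ Complex.I) :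
    ∃ W : ℂ, W ≠ 0 ∧ ‖W‖ < 1 ∧ cay W = z := by
  have h1 : z + Complex.I ≠ 0 := by
    intro h
    have := congrArg Complex.im h
    simp at this
    linarith
  have h2 : z - Complex.I ≠ 0 := sub_ne_zero.mpr hne
  refine ⟨(z - Complex.I) / (z + Complex.I), div_ne_zero h2 h1, ?_, ?_⟩
  · rw [norm_div, div_lt_one (norm_pos_iff.mpr h1)]
    have h3 : ‖z - Complex.I‖ ^ 2 < ‖z + Complex.I‖ ^ 2 := by
      rw [Complex.sq_norm, Complex.sq_norm, Complex.normSq_apply, Complex.normSq_apply]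
      simp
      nlinarith
    exact lt_of_pow_lt_pow_left₀ 2 (norm_nonneg _) h3
  · unfold cay
    have h3 : 1 - (z - Complex.I) / (z + Complex.I) = 2 * Complex.I / (z + Complex.I) := by
      field_simp
      ring
    have h4 : 1 + (z - Complex.I) / (z + Complex.I) = 2 * z / (z + Complex.I) := by
      field_simp
      ring
    rw [h3, h4]
    have hI := Complex.I_ne_zero
    field_simp

theorem psiE_surj {th : ℝ} (hth : 0 < th) (z : ℂ) (hz : 0 < z.im) (hne : z ≠ Complex.I) :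
    ∃ ζ : ℂ, 0 < ζ.im ∧ psiE th ζ = z := by
  obtain ⟨W, hW0, hW1, hW⟩ := cay_surj z hz hne
  have hthC : (th : ℂ) ≠ 0 := by exact_mod_cast hth.ne'
  have hI := Complex.I_ne_zero
  set ζ : ℂ := Complex.log W / (Complex.I * th) with hζ
  have h1 : Complex.exp (Complex.I * th * ζ) = W := by
    rw [hζ, mul_div_cancel₀ _ (mul_ne_zero hI hthC), Complex.exp_log hW0]
  refine ⟨ζ, ?_, ?_⟩
  · have h2 := norm_W th ζ
    rw [h1] at h2
    rw [h2, Real.exp_lt_one_iff] at hW1
    by_contra h3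
    push Not at h3
    nlinarith
  · unfold psiE
    rw [h1, hW]

theorem half_cosh {W W' : ℂ} (h : ‖W‖ < 1) (h' : ‖W'‖ < 1) :
    ‖cay W - (starRingEnd ℂ) (cay W')‖ ^ 2 / (4 * ((cay W).im * (cay W').im)) =
      ‖1 - W * (starRingEnd ℂ) W'‖ ^ 2 / ((1 - ‖W‖ ^ 2) * (1 - ‖W'‖ ^ 2)) := by
  have h1 := one_sub_ne h
  have hc : ‖(starRingEnd ℂ) W'‖ < 1 := by rwa [Complex.norm_conj]
  have h2 := one_sub_ne hc
  have e1 : cay W - (starRingEnd ℂ) (cay W') =
      2 * Complex.I * (1 - W * (starRingEnd ℂ) W') / ((1 - W) * (1 - (starRingEnd ℂ) W')) := by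
    unfold cay
    rw [map_div₀, map_mul, map_add, map_sub, map_one, Complex.conj_I]
    field_simp
    ring
  have e2 : ‖1 - (starRingEnd ℂ) W'‖ = ‖1 - W'‖ := by
    rw [← Complex.norm_conj (1 - W'), map_sub, map_one]
  rw [e1, cay_im h, cay_im h', norm_div, norm_mul, norm_mul, norm_mul, e2, Complex.norm_I]
  have n1 : 0 < ‖1 - W‖ := norm_pos_iff.mpr h1
  have n2 : 0 < ‖1 - W'‖ := norm_pos_iff.mpr (one_sub_ne h')
  have n3 : 0 < 1 - ‖W‖ ^ 2 := by nlinarith [norm_nonneg W]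
  have n4 : 0 < 1 - ‖W'‖ ^ 2 := by nlinarith [norm_nonneg W']
  simp only [Complex.norm_ofNat]
  field_simp
  ring

end ellaux

set_option maxHeartbeats 4000000 in
theorem chart_ell (g : SL2) (φ : ℝ) (hφ : 0 < φ) (hφ2 : φ ≤ 1 / 500) (h00 : g 0 0 = Real.cos φ)
    (h01 : g 0 1 = - Real.sin φ) (h10 : g 1 0 = Real.sin φ) (h11 : g 1 1 = Real.cos φ) :
    Nonempty (SChart g) := by
  set th : ℝ := 2 * φ with hth
  have hth0 : 0 < th := by positivity
  have hth1 : th ≤ 1 / 250 := by rw [hth]; linarith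
  set sn : ℝ := Real.sin φ with hsn
  have hsn1 : sn ≤ φ := Real.sin_le hφ.le
  have hsn2 : 99 / 100 * φ ≤ sn := by
    have h1 := Real.sin_gt_sub_cube hφ
    have h2 : φ ^ 3 / 6 ≤ 1 / 100 * φ := by
      have : φ ^ 2 ≤ (1 / 500) ^ 2 := pow_le_pow_left₀ hφ.le hφ2 2
      nlinarith
    rw [hsn]
    linarith
  have hsn0 : 0 < sn := by nlinarith
  have hX : ∀ z : ℂ, X g z = -(sn : ℂ) * (1 + z ^ 2) := by
    intro z
    unfold X
    rw [h00, h01, h10, h11]
    push_cast
    ring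
  have hXc : ∀ W : ℂ, ‖W‖ < 1 → X g (cay W) = 4 * (sn : ℂ) * W / (1 - W) ^ 2 := by
    intro W hW
    have h1 := one_sub_ne hW
    rw [hX]
    unfold cay
    rw [div_pow, mul_pow, Complex.I_sq]
    field_simp
    ring
  have hratio : ∀ W : ℂ, ‖W‖ < 1 → ‖X g (cay W)‖ / (cay W).im = 4 * sn * ‖W‖ / (1 - ‖W‖ ^ 2) := by
    intro W hW
    have h1 : 0 < ‖1 - W‖ := norm_pos_iff.mpr (one_sub_ne hW)
    have h2 : 0 < 1 - ‖W‖ ^ 2 := by nlinarith [norm_nonneg W]
    rw [hXc W hW, cay_im hW, norm_div, norm_pow, norm_mul, norm_mul, Complex.norm_real,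
      Real.norm_eq_abs, abs_of_pos hsn0]
    simp only [Complex.norm_ofNat]
    field_simp
  have hdisp : ∀ ζ : ℂ, 0 < ζ.im → ‖X g (psiE th ζ)‖ / (psiE th ζ).im = 2 * sn / Real.sinh (th * ζ.im) := by
    intro ζ hζ
    unfold psiE
    rw [hratio _ (norm_W_lt hth0 hζ), norm_W, four_sinh (mul_pos hth0 hζ)]
  set tp : ℝ := Real.arsinh (40 * sn) / th with htp
  have hthtp : Real.sinh (th * tp) = 40 * sn := by
    rw [htp, mul_div_cancel₀ _ hth0.ne', Real.sinh_arsinh]
  have htp_lo : 15 ≤ tp := by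
    rw [htp, le_div_iff₀ hth0, ← Real.sinh_le_sinh, Real.sinh_arsinh]
    refine sinh_le_mul_exp.trans ?_
    have h1 : Real.exp (15 * th) ≤ 107 / 100 := by
      have h2 : 15 * th ≤ 6 / 100 := by linarith
      refine (exp_le_inv (by linarith)).trans ?_
      rw [div_le_iff₀ (by linarith)]
      linarith
    have h3 : 15 * th * Real.exp (15 * th) ≤ 15 * th * (107 / 100) :=
      mul_le_mul_of_nonneg_left h1 (by positivity)
    refine h3.trans ?_
    rw [hth]
    linarith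
  have htp_hi : tp ≤ 25 := by
    rw [htp, div_le_iff₀ hth0, ← Real.sinh_le_sinh, Real.sinh_arsinh]
    have h1 : 25 * th ≤ Real.sinh (25 * th) := Real.self_le_sinh_iff.mpr (by positivity)
    refine le_trans ?_ h1
    rw [hth]
    linarith
  have htp0 : 0 < tp := by linarith
  have hSt : ∀ ζ : ℂ, ζ ∈ St 0 ↔ 0 < ζ.im := by
    intro ζ
    unfold St
    simp only [Set.mem_ofPred_eq, zero_mul]
    exact ⟨fun h => h.1, fun h => ⟨h, Real.pi_pos⟩⟩
  have him : ∀ ζ : ℂ, 0 < ζ.im → 0 < (psiE th ζ).im := fun ζ hζ => cay_im_pos (norm_W_lt hth0 hζ)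
  have hinv00 : (g⁻¹ : SL2) 0 0 = Real.cos φ := by
    rw [Matrix.SpecialLinearGroup.SL2_inv_expl]; simp [h11]
  have hinv01 : (g⁻¹ : SL2) 0 1 = Real.sin φ := by
    rw [Matrix.SpecialLinearGroup.SL2_inv_expl]; simp [h01, hsn]
  have hinv10 : (g⁻¹ : SL2) 1 0 = - Real.sin φ := by
    rw [Matrix.SpecialLinearGroup.SL2_inv_expl]; simp [h10, hsn]
  have hinv11 : (g⁻¹ : SL2) 1 1 = Real.cos φ := by
    rw [Matrix.SpecialLinearGroup.SL2_inv_expl]; simp [h00]
  have hmob : ∀ W : ℂ, ‖W‖ < 1 → mob g⁻¹ (cay W) = cay (Complex.exp (Complex.I * th) * W) := by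
    intro W hW
    have h1 := one_sub_ne hW
    set u : ℂ := Complex.exp (Complex.I * φ) with hu
    have hu2 : Complex.exp (Complex.I * th) = u ^ 2 := by
      rw [hu, ← Complex.exp_nat_mul, hth]
      congr 1
      push_cast
      ring
    set v : ℂ := Complex.exp (-(Complex.I * φ)) with hv
    have huv : u * v = 1 := by rw [hu, hv, ← Complex.exp_add]; simp
    have hcos : (Real.cos φ : ℂ) = (u + v) / 2 := by
      rw [Complex.ofReal_cos, Complex.cos, hu, hv]
      congr 2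
      · congr 1; ring
      · congr 1; ring
    have hsin : (Real.sin φ : ℂ) = (v - u) * Complex.I / 2 := by
      rw [Complex.ofReal_sin, Complex.sin, hu, hv]
      congr 3
      · congr 1; ring
      · congr 1; ring
    have hun : ‖u‖ = 1 := by
      rw [hu, mul_comm, Complex.norm_exp_ofReal_mul_I]
    have hu0 : u ≠ 0 := by
      intro h; rw [h, norm_zero] at hun; exact zero_ne_one hun
    have hW2 : ‖u ^ 2 * W‖ < 1 := by rw [norm_mul, norm_pow, hun]; simpa using hW
    have h2 := one_sub_ne hW2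
    have hv' : v = u⁻¹ := eq_inv_of_mul_eq_one_right huv
    unfold mob dn
    rw [hinv00, hinv01, hinv10, hinv11]
    push_cast
    rw [← Complex.ofReal_cos, ← Complex.ofReal_sin, hcos, hsin, hu2, hv']
    unfold cay
    have hI2 : Complex.I ^ 2 = -1 := Complex.I_sq
    have e1 : (u + u⁻¹) / 2 * (Complex.I * (1 + W) / (1 - W)) + (u⁻¹ - u) * Complex.I / 2 =
        Complex.I * (1 + u ^ 2 * W) / (u * (1 - W)) := by
      field_simp
      ring
    have e2 : -((u⁻¹ - u) * Complex.I / 2) * (Complex.I * (1 + W) / (1 - W)) + (u + u⁻¹) / 2 =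
        (1 - u ^ 2 * W) / (u * (1 - W)) := by
      field_simp
      linear_combination (-(1 - u ^ 2) * (1 + W)) * hI2
    rw [e1, e2]
    field_simp
  have hper : ∀ ζ : ℂ, 0 < ζ.im → psiE th (ζ + 1) = mob g⁻¹ (psiE th ζ) := by
    intro ζ hζ
    unfold psiE
    rw [hmob _ (norm_W_lt hth0 hζ), ← Complex.exp_add]
    congr 2
    ring
  -- the points of the upper half plane
  set Ψ : (ζ : ℂ) → 0 < ζ.im → ℍ := fun ζ hζ => ⟨psiE th ζ, him ζ hζ⟩ with hΨ
  have hΨ1 : ∀ (ζ : ℂ) (hζ : 0 < ζ.im) (hζ' : 0 < (ζ + 1).im), g⁻¹ • Ψ ζ hζ = Ψ (ζ + 1) hζ' := by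
    intro ζ hζ hζ'
    apply UpperHalfPlane.coe_injective
    rw [coe_smul']
    exact (hper ζ hζ).symm
  have hΨn : ∀ (n : ℕ) (ζ : ℂ) (hζ : 0 < ζ.im) (hζ' : 0 < (ζ + n).im), (g⁻¹) ^ n • Ψ ζ hζ = Ψ (ζ + n) hζ' := by
    intro n
    induction n with
    | zero =>
      intro ζ hζ hζ'
      simp
    | succ n ih =>
      intro ζ hζ hζ'
      have h1 : 0 < (ζ + n).im := by simpa using hζ
      have h2 : 0 < (ζ + n + 1).im := by simpa using hζ
      rw [pow_succ', mul_smul, ih ζ hζ h1, hΨ1 (ζ + n) h1 h2]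
      congr 1
      push_cast
      ring
  have hΨz : ∀ (n : ℤ) (ζ : ℂ) (hζ : 0 < ζ.im) (hζ' : 0 < (ζ + n).im), (g⁻¹) ^ n • Ψ ζ hζ = Ψ (ζ + n) hζ' := by
    intro n ζ hζ hζ'
    obtain ⟨m, rfl | rfl⟩ := n.eq_nat_or_neg
    · rw [zpow_natCast]
      rw [hΨn m ζ hζ (by simpa using hζ)]
      congr 1
    · rw [zpow_neg, zpow_natCast, inv_smul_eq_iff]
      rw [hΨn m (ζ + ((-(m:ℤ) : ℤ) : ℂ)) hζ' (by simpa using hζ)]
      congr 1
      push_cast
      ring
  have htpI : (0:ℝ) < ((tp : ℂ) * Complex.I).im := by simpa using htp0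
  have hXne : ∀ z : ℂ, X g z ≠ 0 → z ≠ Complex.I := by
    intro z hz h
    apply hz
    rw [hX, h, Complex.I_sq]
    ring
  refine ⟨{
    ℓ := 0
    tp := tp
    κ0 := sn / φ
    ψ := fun _ => psiE th
    zb := fun _ => Ψ (tp * Complex.I) htpI
    ℓ_nonneg := le_rfl
    ℓ_le := by norm_num
    tp_lo := htp_lo
    tp_hi := htp_hi
    κ_pos := by positivity
    κ_le := by
      rw [div_le_iff₀ hφ]
      linarith
    diff := ?_
    im_pos := ?_
    X_ne := ?_
    per := ?_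
    flow := ?_
    low := ?_
    inside := ?_
    level := ?_
    flip := fun h => absurd h (lt_irrefl _)
    same := fun _ => rfl
    zb_eq := fun _ => rfl
    cover := ?_
    port := ?_ }⟩
  · intro _ ζ hζ
    exact (psiE_hasDeriv hth0 ((hSt ζ).mp hζ)).differentiableAt
  · intro _ ζ hζ
    exact him ζ ((hSt ζ).mp hζ)
  · intro _ ζ hζ
    have h1 := norm_W_lt hth0 ((hSt ζ).mp hζ)
    unfold psiE
    rw [hXc _ h1]
    apply div_ne_zero
    · apply mul_ne_zero
      · apply mul_ne_zero (by norm_num)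
        exact_mod_cast hsn0.ne'
      · exact Complex.exp_ne_zero _
    · exact pow_ne_zero _ (one_sub_ne h1)
  · intro _
    exact ⟨g⁻¹, Or.inr rfl, fun ζ hζ => hper ζ ((hSt ζ).mp hζ)⟩
  · intro _ ζ hζ
    have h0 := (hSt ζ).mp hζ
    have h1 := norm_W_lt hth0 h0
    rw [(psiE_hasDeriv hth0 h0).deriv]
    unfold psiE
    rw [hXc _ h1]
    have h2 : 0 < ‖1 - Complex.exp (Complex.I * th * ζ)‖ := norm_pos_iff.mpr (one_sub_ne h1)
    simp only [norm_div, norm_mul, norm_pow, Complex.norm_real, Real.norm_eq_abs, abs_of_pos hsn0,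
      abs_of_pos hth0, Complex.norm_I, Complex.norm_ofNat]
    rw [hth]
    field_simp
    ring
  · intro _ ζ hζ _
    have h0 := (hSt ζ).mp hζ
    rw [hdisp ζ h0]
    have hs : 0 < Real.sinh (th * ζ.im) := Real.sinh_pos_iff.mpr (mul_pos hth0 h0)
    rw [le_div_iff₀ hs]
    have h1 : Real.sinh (th * ζ.im) ≤ th * ζ.im * Real.exp (th * ζ.im) := sinh_le_mul_exp
    have h2 : Real.exp (-(2 * Real.pi * ζ.im)) * Real.sinh (th * ζ.im) ≤
        Real.exp (-(2 * Real.pi * ζ.im)) * (th * ζ.im * Real.exp (th * ζ.im)) :=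
      mul_le_mul_of_nonneg_left h1 (Real.exp_pos _).le
    refine h2.trans ?_
    have h3 : Real.exp (-(2 * Real.pi * ζ.im)) * (th * ζ.im * Real.exp (th * ζ.im)) =
        th * (ζ.im * Real.exp (-((2 * Real.pi - th) * ζ.im))) := by
      have : Real.exp (-((2 * Real.pi - th) * ζ.im)) = Real.exp (-(2 * Real.pi * ζ.im)) * Real.exp (th * ζ.im) := by
        rw [← Real.exp_add]; congr 1; ring
      rw [this]; ring
    rw [h3]
    have h4 : Real.exp (-((2 * Real.pi - th) * ζ.im)) ≤ Real.exp (-(5 * ζ.im)) := by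
      apply Real.exp_le_exp.mpr
      have := Real.pi_gt_three
      nlinarith
    have h5 : ζ.im * Real.exp (-(5 * ζ.im)) ≤ 1 / 5 := by
      have h6 := Real.add_one_le_exp (5 * ζ.im)
      have h7 : Real.exp (5 * ζ.im) * Real.exp (-(5 * ζ.im)) = 1 := by rw [← Real.exp_add]; simp
      have h8 := Real.exp_pos (-(5 * ζ.im))
      nlinarith [mul_le_mul_of_nonneg_right h6 h8.le]
    have h6 : ζ.im * Real.exp (-((2 * Real.pi - th) * ζ.im)) ≤ 1 / 5 :=
      (mul_le_mul_of_nonneg_left h4 h0.le).trans h5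
    calc th * (ζ.im * Real.exp (-((2 * Real.pi - th) * ζ.im))) ≤ th * (1 / 5) :=
          mul_le_mul_of_nonneg_left h6 hth0.le
      _ ≤ 2 * sn := by rw [hth]; linarith
  · intro _ ζ hζ htζ _
    have h0 := (hSt ζ).mp hζ
    rw [hdisp ζ h0]
    have h1 : Real.sinh (th * tp) ≤ Real.sinh (th * ζ.im) :=
      Real.sinh_le_sinh.mpr (mul_le_mul_of_nonneg_left htζ hth0.le)
    rw [hthtp] at h1
    rw [div_le_div_iff₀ (by linarith) (by norm_num)]
    linarith
  · intro _ x
    have h0 : 0 < ((x : ℂ) + tp * Complex.I).im := by simpa using htp0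
    rw [hdisp _ h0]
    have h1 : ((x : ℂ) + tp * Complex.I).im = tp := by simp
    rw [h1, hthtp]
    field_simp
    norm_num
  · intro z hz hXz
    obtain ⟨ζ, hζ, hζz⟩ := psiE_surj hth0 z z.im_pos (hXne z hXz)
    refine ⟨true, ζ, (hSt ζ).mpr hζ, hζz, ?_, ?_⟩
    · have h1 : disp g z = 2 * sn / Real.sinh (th * ζ.im) := by
        rw [← hdisp ζ hζ, hζz]
        rfl
      rw [h1] at hz
      have hs : 0 < Real.sinh (th * ζ.im) := Real.sinh_pos_iff.mpr (mul_pos hth0 hζ)
      rw [div_lt_div_iff₀ hs (by norm_num)] at hz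
      have h2 : Real.sinh (th * (tp + 2)) < Real.sinh (th * ζ.im) := by
        have h3 : th * (tp + 2) ≤ 54 * φ := by rw [hth]; nlinarith
        have h4 : Real.sinh (th * (tp + 2)) ≤ Real.sinh (54 * φ) := Real.sinh_le_sinh.mpr h3
        have h5 : Real.sinh (54 * φ) ≤ 54 * φ * Real.exp (54 * φ) := sinh_le_mul_exp
        have h6 : Real.exp (54 * φ) ≤ 2 := by
          refine (exp_le_inv (by linarith)).trans ?_
          rw [div_le_iff₀ (by linarith)]
          linarith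
        have h7 : 54 * φ * Real.exp (54 * φ) ≤ 54 * φ * 2 := mul_le_mul_of_nonneg_left h6 (by positivity)
        linarith
      have h3 := Real.sinh_lt_sinh.mp h2
      exact (lt_of_mul_lt_mul_left h3 hth0.le).le
    · have := Real.pi_pos
      rw [zero_mul]
      positivity
  · intro z hz
    have hXz : X g z ≠ 0 := by
      intro h
      unfold disp at hz
      rw [h, norm_zero, zero_div] at hz
      norm_num at hz
    obtain ⟨ζ, hζ, hζz⟩ := psiE_surj hth0 z z.im_pos (hXne z hXz)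
    have h1 : disp g z = 2 * sn / Real.sinh (th * ζ.im) := by
      rw [← hdisp ζ hζ, hζz]
      rfl
    have hs : 0 < Real.sinh (th * ζ.im) := Real.sinh_pos_iff.mpr (mul_pos hth0 hζ)
    have hself : th * ζ.im ≤ Real.sinh (th * ζ.im) := Real.self_le_sinh_iff.mpr (by positivity)
    have ht : ζ.im ≤ 200 := by
      have h2 := hz
      rw [h1, div_le_div_iff₀ (by norm_num) hs] at h2
      have h3 : th * ζ.im ≤ th * 200 := by rw [hth] at *; linarith
      exact le_of_mul_le_mul_left h3 hth0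
    set n : ℤ := round ζ.re with hn
    have hxn : |ζ.re - n| ≤ 1 / 2 := abs_sub_round ζ.re
    refine ⟨true, -n, ?_⟩
    have h2 : 0 < ((tp : ℂ) * Complex.I + n).im := by simpa using htp0
    have h3 : g ^ (-n) • Ψ (tp * Complex.I) htpI = Ψ (tp * Complex.I + n) h2 := by
      rw [← hΨz n _ htpI h2, inv_zpow', ]
    have hzΨ : z = Ψ ζ hζ := by
      apply UpperHalfPlane.coe_injective
      exact hζz.symm
    rw [h3, h1]
    set W : ℂ := Complex.exp (Complex.I * th * ζ) with hW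
    set W' : ℂ := Complex.exp (Complex.I * th * (tp * Complex.I + n)) with hW'
    have hWn : ‖W‖ < 1 := norm_W_lt hth0 hζ
    have hWn' : ‖W'‖ < 1 := norm_W_lt hth0 h2
    have hcosh : Real.cosh (dist z (Ψ (tp * Complex.I + n) h2) / 2) ^ 2 =
        ‖1 - W * (starRingEnd ℂ) W'‖ ^ 2 / ((1 - ‖W‖ ^ 2) * (1 - ‖W'‖ ^ 2)) := by
      rw [← half_cosh hWn hWn', UpperHalfPlane.cosh_half_dist, div_pow, mul_pow, Real.sq_sqrt
        (mul_pos z.im_pos (Ψ (tp * Complex.I + n) h2).im_pos).le, hzΨ, Complex.dist_eq]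
      norm_num
      rfl
    rw [hcosh, ← four_sinh (mul_pos hth0 hζ), ← norm_W th ζ, ← hW]
    have hp : 0 < 1 - ‖W‖ ^ 2 := by nlinarith [norm_nonneg W]
    have hp' : 0 < 1 - ‖W'‖ ^ 2 := by nlinarith [norm_nonneg W']
    -- numerator
    have hWW : W * (starRingEnd ℂ) W' = Complex.exp (Complex.I * th * (ζ - (starRingEnd ℂ) (tp * Complex.I + n))) := by
      rw [hW, hW', ← Complex.exp_conj, ← Complex.exp_add]
      congr 1
      simp only [map_mul, map_add, Complex.conj_I, Complex.conj_ofReal, map_intCast]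
      ring
    have hv : ‖Complex.I * th * (ζ - (starRingEnd ℂ) (tp * Complex.I + n))‖ ≤ th * (451 / 2) := by
      rw [norm_mul, norm_mul, Complex.norm_I, one_mul, Complex.norm_real, Real.norm_eq_abs, abs_of_pos hth0]
      apply mul_le_mul_of_nonneg_left _ hth0.le
      refine (Complex.norm_le_abs_re_add_abs_im _).trans ?_
      have e1 : (ζ - (starRingEnd ℂ) ((tp : ℂ) * Complex.I + n)).re = ζ.re - n := by simp
      have e2 : (ζ - (starRingEnd ℂ) ((tp : ℂ) * Complex.I + n)).im = ζ.im + tp := by simp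
      rw [e1, e2, abs_of_pos (by linarith : 0 < ζ.im + tp)]
      linarith
    have hnum : ‖1 - W * (starRingEnd ℂ) W'‖ ≤ 451 * th := by
      rw [hWW, norm_sub_rev]
      refine (Complex.norm_exp_sub_one_le (hv.trans (by linarith))).trans ?_
      linarith
    have hnum2 : ‖1 - W * (starRingEnd ℂ) W'‖ ^ 2 ≤ (451 * th) ^ 2 := pow_le_pow_left₀ (norm_nonneg _) hnum 2
    have hWlo : 1 / 5 ≤ ‖W‖ := by
      rw [hW, norm_W]
      have := Real.add_one_le_exp (-(th * ζ.im))
      nlinarith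
    have hp'lo : 25 * th ≤ 1 - ‖W'‖ ^ 2 := by
      have e0 : ((tp : ℂ) * Complex.I + n).im = tp := by simp
      rw [hW', norm_W, e0, ← Real.exp_nat_mul]
      set y : ℝ := 2 * (th * tp) with hy
      have e1 : Real.exp (((2:ℕ) : ℝ) * -(th * tp)) = Real.exp (-y) := by
        congr 1; rw [hy]; push_cast; ring
      rw [e1]
      have hy1 : 30 * th ≤ y := by rw [hy]; nlinarith
      have hy2 : y ≤ 1 / 5 := by rw [hy]; nlinarith
      have e2 := Real.add_one_le_exp y
      have e3 : Real.exp y * Real.exp (-y) = 1 := by rw [← Real.exp_add]; simp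
      have e4 := Real.exp_pos (-y)
      have e5 : (y + 1) * Real.exp (-y) ≤ 1 := by
        have e6 := mul_le_mul_of_nonneg_right e2 e4.le
        rw [e3] at e6
        exact e6
      nlinarith
    rw [div_le_iff₀ (mul_pos hp hp')]
    have e1 : 10 ^ 5 * (4 * sn * ‖W‖ / (1 - ‖W‖ ^ 2)) * ((1 - ‖W‖ ^ 2) * (1 - ‖W'‖ ^ 2)) =
        10 ^ 5 * (4 * sn * ‖W‖) * (1 - ‖W'‖ ^ 2) := by
      field_simp
    rw [e1]
    refine hnum2.trans ?_
    have e2 : 10 ^ 5 * (4 * (99 / 200 * th) * (1 / 5)) * (25 * th) ≤ 10 ^ 5 * (4 * sn * ‖W‖) * (1 - ‖W'‖ ^ 2) := by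
      apply mul_le_mul _ hp'lo (by positivity) (by positivity)
      apply mul_le_mul_of_nonneg_left _ (by positivity)
      apply mul_le_mul _ hWlo (by positivity) (by positivity)
      rw [hth]
      linarith
    refine le_trans ?_ e2
    nlinarith [sq_nonneg th]

end NF

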