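import Pool.Agent.Helper369.NF.Defs
import Pool.Agent.Helper369.NF.C1
import Pool.Agent.Helper369.NF.C2
import Pool.Agent.Helper369.NF.C3
import Pool.Agent.Helper369.NF.C4

open MeasureTheory Filter Topology Metric UpperHalfPlane

namespace NF

/-! The following statements are GIVEN (other jobs); do not prove them. -/

lemma C5_conj (g D : SL2) (hD : Nonempty (SChart D)) (p q r s : ℝ) (hdet : p * s - q * r = 1)
    (e00 : g 0 0 * p + g 0 1 * r = p * D 0 0 + q * D 1 0)
    (e01 : g 0 0 * q + g 0 1 * s = p * D 0 1 + q * D 1 1)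
    (e10 : g 1 0 * p + g 1 1 * r = r * D 0 0 + s * D 1 0)
    (e11 : g 1 0 * q + g 1 1 * s = r * D 0 1 + s * D 1 1) :
    Nonempty (SChart g) := by
  obtain ⟨c⟩ := hD
  let h : SL2 := ⟨!![p, q; r, s], by rw [Matrix.det_fin_two_of]; exact hdet⟩
  have hh : g = h * D * h⁻¹ := by
    rw [eq_mul_inv_iff_mul_eq]
    ext i j
    have h00 : h 0 0 = p := rfl
    have h01 : h 0 1 = q := rfl
    have h10 : h 1 0 = r := rfl
    have h11 : h 1 1 = s := rfl
    fin_cases i <;> fin_cases j <;>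
      simp only [Matrix.SpecialLinearGroup.coe_mul, Matrix.mul_apply, Fin.sum_univ_two,
        Fin.zero_eta, Fin.mk_one, h00, h01, h10, h11]
    · exact e00
    · exact e01
    · exact e10
    · exact e11
  rw [hh]
  exact chart_conj D h c

lemma C5_det (g : SL2) : g 0 0 * g 1 1 - g 0 1 * g 1 0 = 1 := by
  have := g.det_coe
  rwa [Matrix.det_fin_two] at this

lemma C5_inv (D : SL2) : D⁻¹ 0 0 = D 1 1 ∧ D⁻¹ 0 1 = - D 0 1 ∧ D⁻¹ 1 0 = - D 1 0 ∧
    D⁻¹ 1 1 = D 0 0 := by
  simp [Matrix.SpecialLinearGroup.coe_inv, Matrix.adjugate_fin_two]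

/-- parabolic charts -/
lemma C5_par (e : ℝ) (he : e = 1 ∨ e = -1) :
    ∃ D : SL2, Nonempty (SChart D) ∧ D 0 0 = 1 ∧ D 0 1 = e ∧ D 1 0 = 0 ∧ D 1 1 = 1 := by
  let D : SL2 := ⟨!![1, 1; 0, 1], by rw [Matrix.det_fin_two_of]; norm_num⟩
  have hD : Nonempty (SChart D) := chart_par D rfl rfl rfl rfl
  rcases he with rfl | rfl
  · exact ⟨D, hD, rfl, rfl, rfl, rfl⟩
  · obtain ⟨c⟩ := hD
    obtain ⟨i1, i2, i3, i4⟩ := C5_inv D
    have D00 : D 0 0 = 1 := rfl
    have D01 : D 0 1 = 1 := rfl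
    have D10 : D 1 0 = 0 := rfl
    have D11 : D 1 1 = 1 := rfl
    refine ⟨D⁻¹, chart_inv D c, ?_, ?_, ?_, ?_⟩
    · rw [i1, D11]
    · rw [i2, D01]
    · rw [i3, D10, neg_zero]
    · rw [i4, D00]

lemma C5_case_a (g : SL2) (hg : g ≠ 1) (ht : tr g = 2) : Nonempty (SChart g) := by
  have hdet := C5_det g
  unfold tr at ht
  set a := g 0 0 with ha
  set b := g 0 1 with hb
  set c := g 1 0 with hc
  set d := g 1 1 with hd
  have hd' : d = 2 - a := by linarith
  have hpb : (a - 1) ^ 2 + b * c = 0 := by rw [hd'] at hdet; linarith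
  by_cases hb0 : b = 0
  · have ha1 : a = 1 := by
      rw [hb0] at hpb
      have : (a - 1) ^ 2 = 0 := by linarith
      have := pow_eq_zero_iff (two_ne_zero) |>.1 this
      linarith
    have hd1 : d = 1 := by linarith
    have hc0 : c ≠ 0 := by
      intro hc0
      apply hg
      ext i j
      fin_cases i <;> fin_cases j <;> simp [← ha, ← hb, ← hc, ← hd, ha1, hb0, hc0, hd1]
    obtain ⟨e, he, hec⟩ : ∃ e : ℝ, (e = 1 ∨ e = -1) ∧ 0 < -(e * c) := by
      rcases lt_or_gt_of_ne hc0 with h | h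
      · exact ⟨1, Or.inl rfl, by linarith⟩
      · exact ⟨-1, Or.inr rfl, by linarith⟩
    have he2 : e * e = 1 := by rcases he with rfl | rfl <;> norm_num
    obtain ⟨s, hs0, hs⟩ : ∃ s : ℝ, 0 < s ∧ -(e * c) * s ^ 2 = 1 := by
      refine ⟨(Real.sqrt (-(e * c)))⁻¹, by positivity, ?_⟩
      rw [inv_pow, Real.sq_sqrt hec.le]
      exact mul_inv_cancel₀ hec.ne'
    obtain ⟨D, hD, D00, D01, D10, D11⟩ := C5_par e he
    refine C5_conj g D hD 0 s (e * c * s) 0 (by linarith) ?_ ?_ ?_ ?_ <;>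
      simp only [← ha, ← hb, ← hc, ← hd, D00, D01, D10, D11, ha1, hb0, hd1]
    · ring
    · ring
    · ring
    · linear_combination (-(c * s)) * he2
  · obtain ⟨e, he, heb⟩ : ∃ e : ℝ, (e = 1 ∨ e = -1) ∧ 0 < e * b := by
      rcases lt_or_gt_of_ne hb0 with h | h
      · exact ⟨-1, Or.inr rfl, by linarith⟩
      · exact ⟨1, Or.inl rfl, by linarith⟩
    have he2 : e * e = 1 := by rcases he with rfl | rfl <;> norm_num
    obtain ⟨s, hs0, hs⟩ : ∃ s : ℝ, 0 < s ∧ (e * b) * s ^ 2 = 1 := by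
      refine ⟨(Real.sqrt (e * b))⁻¹, by positivity, ?_⟩
      rw [inv_pow, Real.sq_sqrt heb.le]
      exact mul_inv_cancel₀ heb.ne'
    obtain ⟨D, hD, D00, D01, D10, D11⟩ := C5_par e he
    refine C5_conj g D hD (e * b * s) 0 (-(e * (a - 1) * s)) s (by linarith) ?_ ?_ ?_ ?_ <;>
      simp only [← ha, ← hb, ← hc, ← hd, D00, D01, D10, D11, hd']
    · ring
    · linear_combination (-(b * s)) * he2
    · linear_combination (e * s) * hpb
    · linear_combination ((a - 1) * s) * he2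

lemma C5_case_b (g : SL2) (h1 : 2 < tr g) (h2 : tr g ^ 2 - 4 < (1 / 160) ^ 2) :
    Nonempty (SChart g) := by
  have hdet := C5_det g
  set t := tr g with ht
  have ht' : g 0 0 + g 1 1 = t := rfl
  set a := g 0 0 with ha
  set b := g 0 1 with hb
  set c := g 1 0 with hc
  set d := g 1 1 with hd
  have h3 : 0 < t ^ 2 - 4 := by nlinarith
  set w := Real.sqrt (t ^ 2 - 4) with hw
  have hw0 : 0 < w := Real.sqrt_pos.2 h3
  have hw2 : w ^ 2 = t ^ 2 - 4 := Real.sq_sqrt h3.le
  have hw1 : w < 1 / 160 := by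
    rw [hw]
    calc Real.sqrt (t ^ 2 - 4) < Real.sqrt ((1 / 160) ^ 2) := Real.sqrt_lt_sqrt h3.le h2
      _ = 1 / 160 := Real.sqrt_sq (by norm_num)
  set l := (t + w) / 2 with hl
  set μ := (t - w) / 2 with hμ
  have hlμ : l * μ = 1 := by rw [hl, hμ]; linarith
  have hl1 : 1 < l := by rw [hl]; linarith
  have hl0 : 0 < l := by linarith
  have hμl : μ = l⁻¹ := by
    field_simp
    linarith
  have hsum : l + μ = t := by rw [hl, hμ]; ring
  have hdif : l - μ = w := by rw [hl, hμ]; ring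
  have hlog : 0 < Real.log l := Real.log_pos hl1
  set ℓ := 2 * Real.log l with hℓ
  have hℓ0 : 0 < ℓ := by positivity
  have hexp : Real.exp (ℓ / 2) = l := by
    rw [hℓ, mul_div_cancel_left₀ _ (two_ne_zero), Real.exp_log hl0]
  have hexp' : Real.exp (-(ℓ / 2)) = μ := by rw [Real.exp_neg, hexp, hμl]
  have hℓ1 : ℓ ≤ 1 / 160 := by
    have h4 : ℓ / 2 ≤ Real.sinh (ℓ / 2) := Real.self_le_sinh_iff.2 (by positivity)
    rw [Real.sinh_eq, hexp, hexp'] at h4
    linarith
  let D : SL2 := ⟨!![Real.exp (ℓ / 2), 0; 0, Real.exp (-(ℓ / 2))], by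
    rw [Matrix.det_fin_two_of, hexp, hexp', hlμ]; ring⟩
  have hD : Nonempty (SChart D) := chart_hyp D ℓ hℓ0 hℓ1 rfl rfl rfl rfl
  have D00 : D 0 0 = l := hexp
  have D01 : D 0 1 = 0 := rfl
  have D10 : D 1 0 = 0 := rfl
  have D11 : D 1 1 = μ := hexp'
  have hwne : l - μ ≠ 0 := by rw [hdif]; exact hw0.ne'
  have hd' : d = l + μ - a := by linarith
  by_cases hb0 : b = 0
  · rw [hb0, hd'] at hdet
    have h5 : (a - l) * (a - μ) = 0 := by
      have : a * (l + μ - a) = l * μ := by rw [hlμ]; linarith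
      linear_combination (-1) * this
    rcases mul_eq_zero.1 h5 with h6 | h6
    · have ha' : a = l := by linarith
      have hd'' : d = μ := by linarith
      refine C5_conj g D hD 1 0 (c / (l - μ)) 1 (by ring) ?_ ?_ ?_ ?_ <;>
        simp only [← ha, ← hb, ← hc, ← hd, D00, D01, D10, D11, ha', hb0, hd'']
      · ring
      · ring
      · field_simp
        ring
      · ring
    · have ha' : a = μ := by linarith
      have hd'' : d = l := by linarith
      refine C5_conj g D hD 0 1 (-1) (-(c / (l - μ))) (by ring) ?_ ?_ ?_ ?_ <;>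
        simp only [← ha, ← hb, ← hc, ← hd, D00, D01, D10, D11, ha', hb0, hd'']
      · ring
      · ring
      · ring
      · field_simp
        ring
  · have h7 : b * c = a * (l + μ - a) - l * μ := by
      rw [hd'] at hdet
      rw [hlμ]
      linarith
    refine C5_conj g D hD b (-(1 / (l - μ))) (l - a) (-((μ - a) / (b * (l - μ)))) ?_ ?_ ?_ ?_ ?_
    · field_simp
      ring
    all_goals simp only [← ha, ← hb, ← hc, ← hd, D00, D01, D10, D11, hd']
    · ring
    · field_simp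
      ring
    · linear_combination h7
    · field_simp
      linear_combination (-1) * h7

lemma C5_case_c (g : SL2) (h1 : 2 - 1 / 10 ^ 6 < tr g) (h2 : tr g < 2) :
    Nonempty (SChart g) := by
  have hdet := C5_det g
  set t := tr g with ht
  have ht' : g 0 0 + g 1 1 = t := rfl
  set a := g 0 0 with ha
  set b := g 0 1 with hb
  set c := g 1 0 with hc
  set d := g 1 1 with hd
  set φ := Real.arccos (t / 2) with hφ
  have hcos : Real.cos φ = t / 2 := Real.cos_arccos (by linarith) (by linarith)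
  have hφ0 : 0 < φ := Real.arccos_pos.2 (by linarith)
  have hφπ : φ ≤ Real.pi := Real.arccos_le_pi _
  have hφ1 : φ ≤ 1 / 500 := by
    by_contra h
    push Not at h
    have h3 : Real.cos φ < Real.cos (1 / 500) :=
      Real.cos_lt_cos_of_nonneg_of_le_pi (by norm_num) hφπ h
    have h4 := Real.cos_bound (x := 1 / 500) (by rw [abs_of_nonneg] <;> norm_num)
    rw [abs_of_nonneg (by norm_num : (0:ℝ) ≤ 1 / 500)] at h4
    have h5 := (abs_le.1 h4).2
    rw [hcos] at h3
    norm_num at h1 h5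
    linarith
  have hsin : 0 < Real.sin φ := by
    apply Real.sin_pos_of_pos_of_lt_pi hφ0
    linarith [Real.pi_gt_three]
  set C := Real.cos φ with hC
  set S := Real.sin φ with hS
  have hCS : S ^ 2 + C ^ 2 = 1 := Real.sin_sq_add_cos_sq φ
  have hd' : d = 2 * C - a := by linarith
  let D : SL2 := ⟨!![C, -S; S, C], by
    rw [Matrix.det_fin_two_of]; linarith⟩
  have hD : Nonempty (SChart D) := chart_ell D φ hφ0 hφ1 rfl rfl rfl rfl
  have hD' : Nonempty (SChart D⁻¹) := by
    obtain ⟨x⟩ := hD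
    exact chart_inv D x
  have D00 : D 0 0 = C := rfl
  have D01 : D 0 1 = -S := rfl
  have D10 : D 1 0 = S := rfl
  have D11 : D 1 1 = C := rfl
  obtain ⟨i1, i2, i3, i4⟩ := C5_inv D
  have E00 : D⁻¹ 0 0 = C := by rw [i1, D11]
  have E01 : D⁻¹ 0 1 = S := by rw [i2, D01, neg_neg]
  have E10 : D⁻¹ 1 0 = -S := by rw [i3, D10]
  have E11 : D⁻¹ 1 1 = C := by rw [i4, D00]
  have h7 : b * c = a * (2 * C - a) - (S ^ 2 + C ^ 2) := by
    rw [hd'] at hdet
    rw [hCS]
    linarith
  have hc0 : c ≠ 0 := by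
    intro hc0
    rw [hc0] at h7
    nlinarith [sq_nonneg (a - C)]
  rcases lt_or_gt_of_ne hc0 with h | h
  · obtain ⟨s, hs0, hs⟩ : ∃ s : ℝ, 0 < s ∧ s ^ 2 * (-c) = S := by
      refine ⟨Real.sqrt (S / (-c)), Real.sqrt_pos.2 (div_pos hsin (by linarith)), ?_⟩
      rw [Real.sq_sqrt (div_nonneg hsin.le (by linarith))]
      have : -c ≠ 0 := by simpa using hc0
      field_simp
    refine C5_conj g D⁻¹ hD' s (-(s * (a - C) / S)) 0 (-(s * c / S)) ?_ ?_ ?_ ?_ ?_
    · field_simp
      linarith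
    all_goals simp only [← ha, ← hb, ← hc, ← hd, E00, E01, E10, E11, hd']
    · field_simp
      ring
    · field_simp
      linear_combination (-1) * h7
    · field_simp
      ring
    · field_simp
      ring
  · obtain ⟨s, hs0, hs⟩ : ∃ s : ℝ, 0 < s ∧ s ^ 2 * c = S := by
      refine ⟨Real.sqrt (S / c), Real.sqrt_pos.2 (div_pos hsin h), ?_⟩
      rw [Real.sq_sqrt (div_nonneg hsin.le h.le)]
      field_simp
    refine C5_conj g D hD s (s * (a - C) / S) 0 (s * c / S) ?_ ?_ ?_ ?_ ?_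
    · field_simp
      linarith
    all_goals simp only [← ha, ← hb, ← hc, ← hd, D00, D01, D10, D11, hd']
    · field_simp
      ring
    · field_simp
      linear_combination h7
    · field_simp
      ring
    · field_simp
      ring

theorem exists_chart (g : SL2) (hg : g ≠ 1) (h1 : 2 - 1 / 10 ^ 6 < tr g)
    (h2 : tr g ^ 2 - 4 < (1 / 160) ^ 2) : Nonempty (SChart g) := by
  rcases lt_trichotomy (tr g) 2 with h | h | h
  · exact C5_case_c g h1 h
  · exact C5_case_a g hg h
  · exact C5_case_b g h h2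

end NF

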