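import Pool.Agent.Helper369.NF.Defs
import Pool.Agent.Helper369.NF.A2p
import Pool.Agent.Helper369.NF.C5

open MeasureTheory Filter Topology Metric UpperHalfPlane

namespace NF

/-! The following statements are GIVEN (other jobs); do not prove them. -/

/-! TARGET: -/

theorem good_start (Γ : Subgroup SL2) (hΓ : PD Γ) (hneg : -1 ∈ Γ) : ∃ z : ℍ, ∀ g ∈ Sp Γ, 1 / 80 ≤ disp g z := by
  by_cases h : ∃ g, g ∈ Sp Γ
  · obtain ⟨g, hg⟩ := h
    obtain ⟨c⟩ := exists_chart g hg.2.1 hg.2.2.1 hg.2.2.2.1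
    exact ⟨c.zb false, (port_ok Γ hΓ hneg g hg c false).2.1⟩
  · refine ⟨UpperHalfPlane.I, fun g hg => ?_⟩
    exact absurd ⟨g, hg⟩ h

end NF

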