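import Pool.Agent.Helper369.NF.Defs

open MeasureTheory Filter Topology Metric UpperHalfPlane

namespace NF

/-! The following statements are GIVEN (other jobs); do not prove them. -/

/-! TARGET: -/

def repRel (Γ : Subgroup SL2) (g h : SL2) : Prop :=
  ∃ γ ∈ Γ, h = γ * g * γ⁻¹ ∨ h = (γ * g * γ⁻¹)⁻¹

theorem repRel_refl (Γ : Subgroup SL2) (g : SL2) : repRel Γ g g :=
  ⟨1, Γ.one_mem, Or.inl (by group)⟩

theorem repRel_symm (Γ : Subgroup SL2) {g h : SL2} (hh : repRel Γ g h) : repRel Γ h g := by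
  obtain ⟨γ, hγ, h1 | h1⟩ := hh
  · exact ⟨γ⁻¹, Γ.inv_mem hγ, Or.inl (by rw [h1]; group)⟩
  · exact ⟨γ⁻¹, Γ.inv_mem hγ, Or.inr (by rw [h1]; group)⟩

theorem repRel_trans (Γ : Subgroup SL2) {g h k : SL2} (h1 : repRel Γ g h) (h2 : repRel Γ h k) :
    repRel Γ g k := by
  obtain ⟨γ, hγ, h1 | h1⟩ := h1 <;> obtain ⟨δ, hδ, h2 | h2⟩ := h2
  · exact ⟨δ * γ, Γ.mul_mem hδ hγ, Or.inl (by rw [h2, h1]; group)⟩
  · exact ⟨δ * γ, Γ.mul_mem hδ hγ, Or.inr (by rw [h2, h1]; group)⟩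
  · exact ⟨δ * γ, Γ.mul_mem hδ hγ, Or.inr (by rw [h2, h1]; group)⟩
  · exact ⟨δ * γ, Γ.mul_mem hδ hγ, Or.inl (by rw [h2, h1]; group)⟩

def repSetoid (Γ : Subgroup SL2) : Setoid (Sp Γ) where
  r g h := repRel Γ g.1 h.1
  iseqv := ⟨fun g => repRel_refl Γ g.1, fun h => repRel_symm Γ h, fun h1 h2 => repRel_trans Γ h1 h2⟩

theorem reps (Γ : Subgroup SL2) : ∃ T : Set SL2, T ⊆ Sp Γ ∧
    (∀ g ∈ Sp Γ, ∃ t ∈ T, ∃ γ ∈ Γ, g = γ * t * γ⁻¹ ∨ g = (γ * t * γ⁻¹)⁻¹) ∧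
    ∀ s ∈ T, ∀ t ∈ T, s ≠ t → ∀ γ ∈ Γ, t ≠ γ * s * γ⁻¹ ∧ t ≠ (γ * s * γ⁻¹)⁻¹ := by
  refine ⟨Set.range (fun q : Quotient (repSetoid Γ) => (q.out : SL2)), ?_, ?_, ?_⟩
  · rintro _ ⟨q, rfl⟩
    exact q.out.2
  · intro g hg
    refine ⟨((Quotient.mk (repSetoid Γ) ⟨g, hg⟩).out : SL2), ⟨_, rfl⟩, ?_⟩
    have h : repRel Γ ((Quotient.mk (repSetoid Γ) ⟨g, hg⟩).out : SL2) g :=
      Quotient.exact (s := repSetoid Γ) (Quotient.out_eq (Quotient.mk (repSetoid Γ) ⟨g, hg⟩))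
    exact h
  · rintro _ ⟨p, rfl⟩ _ ⟨q, rfl⟩ hne γ hγ
    have key : ¬ repRel Γ (p.out : SL2) (q.out : SL2) := by
      intro h
      apply hne
      have h2 : Quotient.mk (repSetoid Γ) p.out = Quotient.mk (repSetoid Γ) q.out :=
        Quotient.sound (s := repSetoid Γ) h
      rw [Quotient.out_eq, Quotient.out_eq] at h2
      rw [h2]
    exact ⟨fun h => key ⟨γ, hγ, Or.inl h⟩, fun h => key ⟨γ, hγ, Or.inr h⟩⟩

end NF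

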