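import Pool.Agent.Helper369.NF.Defs

open MeasureTheory Filter Topology Metric UpperHalfPlane

namespace NF

/-! The following statements are GIVEN (other jobs); do not prove them. -/

/-! TARGET: -/

theorem zorn_sep (Γ : Subgroup SL2) (A : Set ℍ) (δ : ℝ) (hδ : 0 < δ) : ∃ S : Set ℍ, S ⊆ A ∧
    (∀ a ∈ S, ∀ b ∈ S, a ≠ b → ∀ γ ∈ Γ, δ ≤ dist (γ • a) b) ∧
    ∀ z ∈ A, ∃ a ∈ S, ∃ γ ∈ Γ, dist (γ • z) a < δ := by
  have hinv : ∀ (γ : SL2) (a b : ℍ), dist (γ • a) b = dist (γ⁻¹ • b) a := by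
    intro γ a b
    calc dist (γ • a) b = dist (γ⁻¹ • (γ • a)) (γ⁻¹ • b) := (dist_smul _ _ _).symm
      _ = dist a (γ⁻¹ • b) := by rw [inv_smul_smul]
      _ = _ := dist_comm _ _
  obtain ⟨S, hS⟩ := zorn_subset {S : Set ℍ | S ⊆ A ∧
      ∀ a ∈ S, ∀ b ∈ S, a ≠ b → ∀ γ ∈ Γ, δ ≤ dist (γ • a) b} (by
    intro c hc hchain
    refine ⟨⋃₀ c, ⟨?_, ?_⟩, fun s hs => Set.subset_sUnion_of_mem hs⟩
    · exact Set.sUnion_subset fun s hs => (hc hs).1
    · rintro a ⟨s, hs, ha⟩ b ⟨t, ht, hb⟩ hab γ hγ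
      rcases hchain.total hs ht with h | h
      · exact (hc ht).2 a (h ha) b hb hab γ hγ
      · exact (hc hs).2 a ha b (h hb) hab γ hγ)
  refine ⟨S, hS.prop.1, hS.prop.2, ?_⟩
  intro z hz
  by_contra hcon
  push Not at hcon
  have hzS : z ∉ S := by
    intro h
    have := hcon z h 1 Γ.one_mem
    rw [one_smul, dist_self] at this
    linarith
  have hins : insert z S ∈ {S : Set ℍ | S ⊆ A ∧
      ∀ a ∈ S, ∀ b ∈ S, a ≠ b → ∀ γ ∈ Γ, δ ≤ dist (γ • a) b} := by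
    refine ⟨Set.insert_subset hz hS.prop.1, ?_⟩
    intro a ha b hb hab γ hγ
    rcases Set.mem_insert_iff.mp ha with rfl | ha'
    · rcases Set.mem_insert_iff.mp hb with rfl | hb'
      · exact absurd rfl hab
      · exact hcon b hb' γ hγ
    · rcases Set.mem_insert_iff.mp hb with rfl | hb'
      · rw [hinv]
        exact hcon a ha' γ⁻¹ (Γ.inv_mem hγ)
      · exact hS.prop.2 a ha' b hb' hab γ hγ
  have := hS.le_of_ge hins (Set.subset_insert z S)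
  exact hzS (this (Set.mem_insert z S))

end NF

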