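import Pool.Agent.Helper369.NF.Defs
import Pool.Agent.Helper369.NF.B0

open MeasureTheory Filter Topology Metric UpperHalfPlane

namespace NF

/-! The following statements are GIVEN (other jobs); do not prove them. -/

theorem sb_im_pos (a : ℍ) : 0 < (a : ℂ).im := by
  rw [UpperHalfPlane.coe_im]
  exact a.im_pos

theorem sb_fix {γ : SL2} {a : ℍ} (h : γ • a = a) :
    (γ 0 0 : ℂ) * a + (γ 0 1 : ℂ) = a * dn γ a := by
  have h1 := coe_smul' γ a
  rw [h] at h1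
  unfold mob at h1
  have h2 := dn_ne γ a (sb_im_pos a)
  rw [eq_div_iff h2] at h1
  exact h1.symm

theorem sb_mul {γ δ : SL2} {a : ℍ} (h : δ • a = a) :
    dn (γ * δ) a = dn γ a * dn δ a := by
  have h1 := sb_fix h
  have e : dn (γ * δ) a = (γ 1 0 : ℂ) * ((δ 0 0 : ℂ) * a + (δ 0 1 : ℂ)) + (γ 1 1 : ℂ) * dn δ a := by
    unfold dn
    simp only [Matrix.SpecialLinearGroup.coe_mul, Matrix.mul_apply, Fin.sum_univ_two]
    push_cast
    ring
  rw [e, h1]
  unfold dn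
  ring

theorem sb_one (a : ℍ) : dn 1 a = 1 := by
  unfold dn
  simp

theorem sb_neg_one (a : ℍ) : dn (-1) a = -1 := by
  unfold dn
  simp

theorem sb_tr {γ : SL2} {a : ℍ} (h : γ • a = a) : tr γ = 2 * (dn γ a).re := by
  have h1 := congrArg Complex.im (sb_fix h)
  have ha := sb_im_pos a
  unfold dn at h1 ⊢
  simp only [Complex.add_im, Complex.mul_im, Complex.add_re, Complex.mul_re, Complex.ofReal_re,
    Complex.ofReal_im] at h1 ⊢
  have h2 : γ 0 0 * (a : ℂ).im = (2 * γ 1 0 * (a : ℂ).re + γ 1 1) * (a : ℂ).im := by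
    linarith
  have h3 := mul_right_cancel₀ ha.ne' h2
  unfold tr
  linarith

theorem sb_inj {γ δ : SL2} {a : ℍ} (h : γ • a = a) (h' : δ • a = a) (he : dn γ a = dn δ a) :
    γ = δ := by
  have ha := sb_im_pos a
  have h1 := sb_fix h
  have h2 := sb_fix h'
  have key : ∀ p q p' q' : ℝ, (p : ℂ) * a + (q : ℂ) = (p' : ℂ) * a + (q' : ℂ) → p = p' ∧ q = q' := by
    intro p q p' q' hpq
    have i1 := congrArg Complex.im hpq
    have r1 := congrArg Complex.re hpq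
    simp only [Complex.add_im, Complex.mul_im, Complex.add_re, Complex.mul_re, Complex.ofReal_re,
      Complex.ofReal_im] at i1 r1
    have h3 : p = p' := by
      have : p * (a : ℂ).im = p' * (a : ℂ).im := by linarith
      exact mul_right_cancel₀ ha.ne' this
    refine ⟨h3, ?_⟩
    rw [h3] at r1
    linarith
  have k1 := key _ _ _ _ he
  have k2 := key _ _ _ _ (h1.trans ((by rw [he] : (a : ℂ) * dn γ a = a * dn δ a).trans h2.symm))
  apply Matrix.SpecialLinearGroup.ext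
  intro i j
  fin_cases i <;> fin_cases j
  · exact k2.1
  · exact k2.2
  · exact k1.1
  · exact k1.2

theorem sb_dvd (N : ℕ) : ∃ M : ℕ, 0 < M ∧ ∀ n, 0 < n → n ≤ N → n ∣ M :=
  ⟨Nat.factorial N, Nat.factorial_pos _, fun _ h1 h2 => Nat.dvd_factorial h1 h2⟩

theorem sb_cos {n : ℕ} (hn : 3 ≤ n) (h : |2 * Real.cos (2 * Real.pi / n)| ≤ 2 - 1 / 10 ^ 6) :
    n ≤ 7000 := by
  by_contra hcon
  have hn7 : (7000 : ℝ) < n := by exact_mod_cast (not_le.mp hcon)
  have h1 := (le_abs_self _).trans h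
  have h2 := Real.one_sub_sq_div_two_le_cos (x := 2 * Real.pi / n)
  have hn0 : (0 : ℝ) < n := by linarith
  have h3 : 2 * Real.pi / n < 1 / 1000 := by
    rw [div_lt_iff₀ hn0]
    have := Real.pi_lt_d2
    linarith
  have h4 : 0 < 2 * Real.pi / n := by positivity
  have h5 : (2 * Real.pi / n) ^ 2 < (1 / 1000) ^ 2 := by
    apply pow_lt_pow_left₀ h3 h4.le (by norm_num)
  norm_num at h1 h5
  linarith

/-- the stabiliser of `a` in `Γ` -/
noncomputable def sbH (Γ : Subgroup SL2) (a : ℍ) : Subgroup SL2 := Γ ⊓ MulAction.stabilizer SL2 a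

theorem sb_mem {Γ : Subgroup SL2} {a : ℍ} {γ : SL2} : γ ∈ sbH Γ a ↔ γ ∈ Γ ∧ γ • a = a := by
  unfold sbH
  rw [Subgroup.mem_inf, MulAction.mem_stabilizer_iff]

/-- the character of the stabiliser -/
noncomputable def sbU (Γ : Subgroup SL2) (a : ℍ) : sbH Γ a →* ℂ where
  toFun γ := dn (γ : SL2) a
  map_one' := by
    rw [Subgroup.coe_one]
    exact sb_one a
  map_mul' γ δ := by
    rw [Subgroup.coe_mul]
    exact sb_mul (sb_mem.1 δ.2).2

theorem sbU_inj (Γ : Subgroup SL2) (a : ℍ) : Function.Injective (sbU Γ a) := by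
  intro γ δ h
  apply Subtype.ext
  exact sb_inj (sb_mem.1 γ.2).2 (sb_mem.1 δ.2).2 h

theorem sb_card {Γ : Subgroup SL2} {a : ℍ} [Finite (sbH Γ a)]
    (htr : ∀ γ ∈ Γ, γ • a = a → γ ≠ 1 → γ ≠ -1 → |tr γ| ≤ 2 - 1 / 10 ^ 6) :
    Nat.card (sbH Γ a) ≤ 7000 := by
  rcases Nat.lt_or_ge (Nat.card (sbH Γ a)) 3 with h3 | h3
  · omega
  have hcyc : IsCyclic (sbH Γ a) := isCyclic_of_injective_ringHom (sbU Γ a) (sbU_inj Γ a)
  obtain ⟨g, hg⟩ := IsCyclic.exists_generator (α := sbH Γ a)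
  have hord : orderOf g = Nat.card (sbH Γ a) := orderOf_eq_card_of_forall_mem_zpowers hg
  set n := Nat.card (sbH Γ a) with hn
  have hord2 : orderOf (sbU Γ a g) = n := by
    rw [orderOf_injective (sbU Γ a) (sbU_inj Γ a) g, hord]
  have hprim : IsPrimitiveRoot (sbU Γ a g) n := by
    rw [← hord2]
    exact IsPrimitiveRoot.orderOf _
  have hn0 : n ≠ 0 := by omega
  have : NeZero n := ⟨hn0⟩
  have hexp := Complex.isPrimitiveRoot_exp n hn0
  obtain ⟨i, _, hi⟩ := hprim.eq_pow_of_pow_eq_one hexp.pow_eq_one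
  rw [← map_pow] at hi
  have hγ := sb_mem.1 (g ^ i).2
  set γ : SL2 := ((g ^ i : sbH Γ a) : SL2) with hγdef
  have hdn : dn γ a = Complex.exp (2 * Real.pi * Complex.I / n) := hi
  have hne : ∀ l : ℕ, 0 < l → l < n → (dn γ a) ^ l ≠ 1 := by
    intro l hl hln
    rw [hdn]
    exact hexp.pow_ne_one_of_pos_of_lt hl.ne' hln
  have h1 : γ ≠ 1 := by
    intro h
    apply hne 1 one_pos (by omega)
    rw [h, sb_one, one_pow]
  have h2 : γ ≠ -1 := by
    intro h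
    apply hne 2 two_pos (by omega)
    rw [h, sb_neg_one]
    norm_num
  have h4 := htr γ hγ.1 hγ.2 h1 h2
  rw [sb_tr hγ.2, hdn] at h4
  have h5 : (Complex.exp (2 * Real.pi * Complex.I / n)).re = Real.cos (2 * Real.pi / n) := by
    have : (2 * Real.pi * Complex.I / n : ℂ) = ((2 * Real.pi / n : ℝ) : ℂ) * Complex.I := by
      push_cast
      ring
    rw [this, Complex.exp_ofReal_mul_I_re]
  rw [h5] at h4
  exact sb_cos h3 h4

/-! TARGET: -/

theorem stab_bound : ∃ N0 M0 : ℕ, 0 < N0 ∧ 0 < M0 ∧ ∀ (Γ : Subgroup SL2), PD Γ → ∀ a : ℍ,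
    (∀ γ ∈ Γ, γ • a = a → γ ≠ 1 → γ ≠ -1 → |tr γ| ≤ 2 - 1 / 10 ^ 6) →
    {γ : SL2 | γ ∈ Γ ∧ γ • a = a}.Finite ∧ {γ : SL2 | γ ∈ Γ ∧ γ • a = a}.ncard ≤ N0 ∧
      ∀ γ ∈ Γ, γ • a = a → (dn γ a) ^ M0 = 1 := by
  obtain ⟨M0, hM0, hdvd⟩ := sb_dvd 7000
  refine ⟨7000, M0, by norm_num, hM0, ?_⟩
  intro Γ hPD a htr
  have hset : {γ : SL2 | γ ∈ Γ ∧ γ • a = a} = (sbH Γ a : Set SL2) := by
    ext γ
    exact sb_mem.symm
  have hfin : {γ : SL2 | γ ∈ Γ ∧ γ • a = a}.Finite := by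
    refine (hPD {a} isCompact_singleton).subset ?_
    rintro γ ⟨h1, h2⟩
    exact ⟨h1, a, rfl, h2⟩
  have hfinH : Finite (sbH Γ a) := by
    have : (sbH Γ a : Set SL2).Finite := by rw [← hset]; exact hfin
    exact this.to_subtype
  have hcard := sb_card htr
  refine ⟨hfin, ?_, ?_⟩
  · rw [hset]
    exact hcard
  · intro γ hγ hγa
    have hmem : γ ∈ sbH Γ a := sb_mem.2 ⟨hγ, hγa⟩
    obtain ⟨c, hc⟩ := hdvd (Nat.card (sbH Γ a)) Nat.card_pos hcard
    have h1 : (⟨γ, hmem⟩ : sbH Γ a) ^ Nat.card (sbH Γ a) = 1 := pow_card_eq_one'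
    have h2 : (sbU Γ a ⟨γ, hmem⟩) ^ Nat.card (sbH Γ a) = 1 := by
      rw [← map_pow, h1, map_one]
    have h3 : (sbU Γ a ⟨γ, hmem⟩) ^ M0 = 1 := by
      rw [hc, pow_mul, h2, one_pow]
    exact h3

end NF

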