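import Pool.Agent.Helper369.NF.Defs
import Pool.Agent.Helper369.NF.A1
import Pool.Agent.Helper369.NF.A1b
import Pool.Agent.Helper369.NF.A2
import Pool.Agent.Helper369.NF.A2p
import Pool.Agent.Helper369.NF.A3p
import Pool.Agent.Helper369.NF.A3r
import Pool.Agent.Helper369.NF.A3s
import Pool.Agent.Helper369.NF.A3t
import Pool.Agent.Helper369.NF.A3z
import Pool.Agent.Helper369.NF.B0
import Pool.Agent.Helper369.NF.C5
import Pool.Agent.Helper369.NF.G7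
import Pool.Agent.Helper369.NF.G8

open MeasureTheory Filter Topology Metric UpperHalfPlane

namespace NF

/-! The following statements are GIVEN (other jobs); do not prove them. -/

/-! TARGET: -/

theorem row_aux {α β : Type} (f : α ⊕ β → ℝ) (A B : ℝ) (h1 : Summable (fun i => f (Sum.inl i)))
    (h1' : ∑' i, f (Sum.inl i) ≤ A) (h2 : Summable (fun i => f (Sum.inr i)))
    (h2' : ∑' i, f (Sum.inr i) ≤ B) : Summable f ∧ ∑' i, f i ≤ A + B := by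
  refine ⟨Summable.sum f h1 h2, ?_⟩
  rw [Summable.tsum_sum (f := f) h1 h2]
  exact add_le_add h1' h2'

theorem row_two {α : Type} (f g : α → ℝ) (A B : ℝ) (h1 : Summable f)
    (h1' : ∑' i, f i ≤ A) (h2 : Summable g)
    (h2' : ∑' i, g i ≤ B) : Summable (fun i => f i + g i) ∧ ∑' i, (f i + g i) ≤ A + B := by
  refine ⟨h1.add h2, ?_⟩
  rw [h1.tsum_add h2]
  exact add_le_add h1' h2'

theorem good_mono (Γ : Subgroup SL2) (a : ℍ) (ρ ρ' : ℝ) (h : ρ' ≤ ρ) (hg : Good Γ a ρ) : Good Γ a ρ' := by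
  refine ⟨fun γ hγ => ?_, hg.2.1, hg.2.2⟩
  rcases hg.1 γ hγ with h1 | h1
  · exact Or.inl h1
  · right; linarith

theorem disp_pos (g : SL2) (z : ℍ) : X g z ≠ 0 ↔ disp g z ≠ 0 := by
  unfold disp
  have := z.im_pos
  constructor
  · intro h
    have : 0 < ‖X g z‖ := norm_pos_iff.mpr h
    positivity
  · intro h h0
    apply h
    rw [h0]; simp

theorem disp_inv (g : SL2) (z : ℍ) : disp g⁻¹ z = disp g z := by
  unfold disp
  rw [X_inv, norm_neg]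

theorem family_exists : ∃ (n : ℕ) (K1 B0 : ℝ), 1 ≤ n ∧ 1 ≤ K1 ∧ 1 ≤ B0 ∧
    ∀ (Γ : Subgroup SL2), PD Γ → -1 ∈ Γ → Nonempty (Family Γ n K1 B0) := by
  obtain ⟨N0, M0, hst⟩ := stab_bound
  have hst' : StabBound N0 M0 := hst
  have hM0 : 0 < M0 := hst.2.1
  obtain ⟨nA, hnA⟩ := regular_cell N0 M0 hst' (1 / 10 ^ 5) (by norm_num) (by norm_num)
  obtain ⟨nB, hnB⟩ := regular_cell N0 M0 hst' (1 / 10 ^ 11) (by norm_num) (by norm_num)
  obtain ⟨mA, hmA⟩ := regular_forms N0 M0 hst' (1 / 10 ^ 5) (by norm_num) (by norm_num)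
  obtain ⟨mB, hmB⟩ := regular_forms N0 M0 hst' (1 / 10 ^ 11) (by norm_num) (by norm_num)
  obtain ⟨nS, hnS⟩ := special_cell N0 M0 hst'
  obtain ⟨n, hn⟩ : ∃ n, n = M0 * (1 + nA + nB + mA + mB + nS) := ⟨_, rfl⟩
  have hle : 1 + nA + nB + mA + mB + nS ≤ n := by
    rw [hn]; exact Nat.le_mul_of_pos_left _ hM0
  have hdvd : M0 ∣ 4 * n := by
    rw [hn]; exact Dvd.dvd.mul_left (dvd_mul_right _ _) _
  obtain ⟨KA, hKA⟩ := hnA n (by omega) hdvd
  obtain ⟨KB, hKB⟩ := hnB n (by omega) hdvd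
  obtain ⟨KS, hKS⟩ := hnS n (by omega)
  have hQA := hmA n (by omega) hdvd
  have hQB := hmB n (by omega) hdvd
  obtain ⟨CA, hCA0, hCA⟩ := good_row N0 M0 hst' (1 / (4 * 10 ^ 6)) (by norm_num)
  obtain ⟨CB, hCB0, hCB⟩ := good_row N0 M0 hst' (5 / 10 ^ 13) (by norm_num)
  obtain ⟨CT, hCT0, hCT⟩ := good_row N0 M0 hst' (1 / 200) (by norm_num)
  obtain ⟨K1, hK1⟩ : ∃ K1, K1 = max 1 (max KA (max KB KS)) := ⟨_, rfl⟩
  have hK1A : KA ≤ K1 := by rw [hK1]; simp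
  have hK1B : KB ≤ K1 := by rw [hK1]; simp
  have hK1S : KS ≤ K1 := by rw [hK1]; simp
  have hK11 : 1 ≤ K1 := by rw [hK1]; simp
  refine ⟨n, K1, (CA + CA) + ((CB + CB) + (CT + CT)) + 1, by omega, hK11, by linarith, ?_⟩
  intro Γ hΓ hneg
  obtain ⟨SA, hSA1, hSA2, hSA3⟩ := zorn_sep Γ {e | Good Γ e (1 / 10 ^ 5)} (1 / (4 * 10 ^ 6)) (by norm_num)
  obtain ⟨SB, hSB1, hSB2, hSB3⟩ := zorn_sep Γ {e | Good Γ e (1 / 10 ^ 11)} (5 / 10 ^ 13) (by norm_num)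
  obtain ⟨T, hT1, hT2, hT3⟩ := reps Γ
  have hchart : ∀ t : T, Nonempty (SChart (t : SL2)) := fun t =>
    exists_chart t (hT1 t.2).2.1 (hT1 t.2).2.2.1 (hT1 t.2).2.2.2.1
  have ch : ∀ t : T, SChart (t : SL2) := fun t => (hchart t).some
  have hcA : ∀ a : SA, ∃ c : Cell Γ n K1, (∀ b, c.pt b = a) ∧ c.In = {z : ℍ | dist z a ≤ (1 / 10 ^ 5) / 20} :=
    fun a => hKA K1 hK1A Γ hΓ hneg a (hSA1 a.2)
  have hcB : ∀ a : SB, ∃ c : Cell Γ n K1, (∀ b, c.pt b = a) ∧ c.In = {z : ℍ | dist z a ≤ (1 / 10 ^ 11) / 20} :=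
    fun a => hKB K1 hK1B Γ hΓ hneg a (hSB1 a.2)
  have hcT : ∀ t : T, ∃ cell : Cell Γ n K1, (∀ b, cell.pt b = (ch t).zb b) ∧
      cell.In = {z : ℍ | disp (t : SL2) z < 1 / 80 ∧ X (t : SL2) z ≠ 0} ∧
        ∀ e : ℂ, 0 < e.im → X (t : SL2) e = 0 → CovE Γ n K1 cell e :=
    fun t => hKS K1 hK1S Γ hΓ hneg t (hT1 t.2) (ch t)
  choose cA hcA1 hcA2 using hcA
  choose cB hcB1 hcB2 using hcB
  choose cT hcT1 hcT2 hcT3 using hcT
  obtain ⟨cell, hcell⟩ : ∃ cell : SA ⊕ (SB ⊕ T) → Cell Γ n K1, cell = Sum.elim cA (Sum.elim cB cT) := ⟨_, rfl⟩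
  -- rows
  have rA := hCA Γ hΓ SA (fun a => (a : ℍ)) (fun a => (a : ℍ)) (fun a => by simp)
    (fun a => good_mono Γ a _ _ (by norm_num) (hSA1 a.2))
    (fun a b hab γ hγ => hSA2 a a.2 b b.2 (fun h => hab (Subtype.ext h)) γ hγ)
  have rB := hCB Γ hΓ SB (fun a => (a : ℍ)) (fun a => (a : ℍ)) (fun a => by simp)
    (fun a => hSB1 a.2)
    (fun a b hab γ hγ => hSB2 a a.2 b b.2 (fun h => hab (Subtype.ext h)) γ hγ)
  have rT : ∀ b : Bool, (∀ t : T, KSum Γ ((ch t).zb b)) ∧ ∀ z : ℍ,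
      Summable (fun t : T => kk Γ z ((ch t).zb b)) ∧ ∑' t : T, kk Γ z ((ch t).zb b) ≤ CT := by
    intro b
    have h1 : ∀ t : T, ∃ a : ℍ, dist ((ch t).zb b) a ≤ 1 / (4 * 10 ^ 6) ∧ Good Γ a (1 / 10 ^ 11) :=
      fun t => (port_ok Γ hΓ hneg t (hT1 t.2) (ch t) b).2.2
    choose at' hat1 hat2 using h1
    refine hCT Γ hΓ T (fun t => (ch t).zb b) at' hat1 hat2 ?_
    intro s t hst γ hγ
    have h2 := port_sep Γ hΓ s t (hT1 s.2) (hT1 t.2) (ch s) (ch t)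
      (hT3 s s.2 t t.2 (fun h => hst (Subtype.ext h))) b b γ hγ
    have h3 : dist (γ • (ch s).zb b) (γ • at' s) = dist ((ch s).zb b) (at' s) := dist_smul _ _ _
    have h4 := hat1 s
    have h5 := hat1 t
    have h6 := dist_triangle4 (γ • (ch s).zb b) (γ • at' s) (at' t) ((ch t).zb b)
    rw [h3, dist_comm (at' t)] at h6
    norm_num at h4 h5 ⊢
    linarith
  have kA : ∀ a b, KSum Γ ((cA a).pt b) := fun a b => by rw [hcA1]; exact rA.1 a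
  have kB : ∀ a b, KSum Γ ((cB a).pt b) := fun a b => by rw [hcB1]; exact rB.1 a
  have kT : ∀ a b, KSum Γ ((cT a).pt b) := fun a b => by rw [hcT1]; exact (rT b).1 a
  have hksum : ∀ j b, KSum Γ ((cell j).pt b) := by
    intro j b
    rw [hcell]
    rcases j with a | a | a
    · exact kA a b
    · exact kB a b
    · exact kT a b
  have hrow : ∀ z : ℍ, Summable (fun j => kk Γ z ((cell j).pt false) + kk Γ z ((cell j).pt true)) ∧
    ∑' j, (kk Γ z ((cell j).pt false) + kk Γ z ((cell j).pt true)) ≤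
      (CA + CA) + ((CB + CB) + (CT + CT)) + 1 := by
    intro z
    have h1 := row_two _ _ _ _ (rA.2 z).1 (rA.2 z).2 (rA.2 z).1 (rA.2 z).2
    have h2 := row_two _ _ _ _ (rB.2 z).1 (rB.2 z).2 (rB.2 z).1 (rB.2 z).2
    have h3 := row_two _ _ _ _ ((rT false).2 z).1 ((rT false).2 z).2 ((rT true).2 z).1 ((rT true).2 z).2
    have e1 : ∀ i : SA, kk Γ z ((cell (Sum.inl i)).pt false) + kk Γ z ((cell (Sum.inl i)).pt true) =
        kk Γ z (i : ℍ) + kk Γ z (i : ℍ) := by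
      intro i; rw [hcell]; simp only [Sum.elim_inl, hcA1]
    have e2 : ∀ i : SB, kk Γ z ((cell (Sum.inr (Sum.inl i))).pt false) + kk Γ z ((cell (Sum.inr (Sum.inl i))).pt true) =
        kk Γ z (i : ℍ) + kk Γ z (i : ℍ) := by
      intro i; rw [hcell]; simp only [Sum.elim_inl, Sum.elim_inr, hcB1]
    have e3 : ∀ i : T, kk Γ z ((cell (Sum.inr (Sum.inr i))).pt false) + kk Γ z ((cell (Sum.inr (Sum.inr i))).pt true) =
        kk Γ z ((ch i).zb false) + kk Γ z ((ch i).zb true) := by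
      intro i; rw [hcell]; simp only [Sum.elim_inr, hcT1]
    have h4 := row_aux (fun j : SB ⊕ T => kk Γ z ((cell (Sum.inr j)).pt false) + kk Γ z ((cell (Sum.inr j)).pt true))
      (CB + CB) (CT + CT) (by simpa only [e2] using h2.1) (by simpa only [e2] using h2.2)
      (by simpa only [e3] using h3.1) (by simpa only [e3] using h3.2)
    have h5 := row_aux (fun j => kk Γ z ((cell j).pt false) + kk Γ z ((cell j).pt true))
      (CA + CA) ((CB + CB) + (CT + CT)) (by simpa only [e1] using h1.1) (by simpa only [e1] using h1.2)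
      h4.1 h4.2
    exact ⟨h5.1, by linarith [h5.2]⟩
  have smul_coe : ∀ (γ : SL2) (z : ℍ), ((γ • z : ℍ) : ℂ) = mob γ z := coe_smul'
  -- transfer to representatives
  have hrep : ∀ g ∈ Sp Γ, ∃ t : T, ∃ γ ∈ Γ, g = γ * t * γ⁻¹ ∨ g = (γ * t * γ⁻¹)⁻¹ := by
    intro g hg
    obtain ⟨t, ht, γ, hγ, h⟩ := hT2 g hg
    exact ⟨⟨t, ht⟩, γ, hγ, h⟩
  have hcov : ∀ z : ℍ, (∀ g ∈ Sp Γ, X g z ≠ 0) → ∃ j, ∃ γ ∈ Γ, γ • z ∈ (cell j).In := by
    intro z hz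
    by_cases hd : ∃ g ∈ Sp Γ, disp g z < 1 / 80
    · obtain ⟨g, hg, hgz⟩ := hd
      obtain ⟨t, γ, hγ, h⟩ := hrep g hg
      have h1 : disp (t : SL2) (γ⁻¹ • z) = disp g z := by
        have h2 := disp_conj γ t (γ⁻¹ • z)
        rw [smul_inv_smul] at h2
        rcases h with h | h
        · rw [h, ← h2]
        · rw [h, disp_inv, ← h2]
      refine ⟨Sum.inr (Sum.inr t), γ⁻¹, Γ.inv_mem hγ, ?_⟩
      rw [hcell]
      show γ⁻¹ • z ∈ (cT t).In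
      rw [hcT2]
      refine ⟨by rw [h1]; exact hgz, ?_⟩
      rw [disp_pos, h1, ← disp_pos]
      exact hz g hg
    · push Not at hd
      rcases good_point Γ hΓ hneg z hd with ⟨e, he1, he2⟩ | h
      · obtain ⟨a, ha, γ, hγ, h1⟩ := hSA3 e he2
        refine ⟨Sum.inl ⟨a, ha⟩, γ, hγ, ?_⟩
        rw [hcell]
        show γ • z ∈ (cA ⟨a, ha⟩).In
        rw [hcA2]
        show dist (γ • z) a ≤ (1 / 10 ^ 5) / 20
        have h2 : dist (γ • z) (γ • e) = dist z e := dist_smul _ _ _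
        have h3 := dist_triangle (γ • z) (γ • e) a
        rw [h2] at h3
        norm_num at he1 h1 ⊢
        linarith
      · obtain ⟨a, ha, γ, hγ, h1⟩ := hSB3 z h
        refine ⟨Sum.inr (Sum.inl ⟨a, ha⟩), γ, hγ, ?_⟩
        rw [hcell]
        show γ • z ∈ (cB ⟨a, ha⟩).In
        rw [hcB2]
        show dist (γ • z) a ≤ (1 / 10 ^ 11) / 20
        norm_num at h1 ⊢
        linarith
  have hcovE : ∀ e : ℂ, 0 < e.im → (∃ g ∈ Sp Γ, X g e = 0) → ∃ j, ∃ γ ∈ Γ, CovE Γ n K1 (cell j) (mob γ e) := by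
    intro e he hg'
    obtain ⟨g, hg, hge⟩ := hg'
    obtain ⟨t, γ, hγ, h⟩ := hrep g hg
    have h1 : X (γ * t * γ⁻¹) e = 0 := by
      rcases h with h | h
      · rw [← h]; exact hge
      · have : γ * t * γ⁻¹ = g⁻¹ := by rw [h, inv_inv]
        rw [this, X_inv, hge, neg_zero]
    have h2 := X_conj γ⁻¹ (γ * t * γ⁻¹) e he
    rw [h1] at h2
    have h3 : γ⁻¹ * (γ * (t : SL2) * γ⁻¹) * γ⁻¹⁻¹ = t := by group
    rw [h3] at h2
    have h4 : X (t : SL2) (mob γ⁻¹ e) = 0 := by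
      rcases mul_eq_zero.mp h2 with h5 | h5
      · exact h5
      · exact absurd h5 (pow_ne_zero _ (dn_ne _ _ he))
    have h5 : 0 < (mob γ⁻¹ e).im := by
      rw [im_mob _ _ he]
      have := norm_pos_iff.mpr (dn_ne γ⁻¹ e he)
      positivity
    refine ⟨Sum.inr (Sum.inr t), γ⁻¹, Γ.inv_mem hγ, ?_⟩
    rw [hcell]
    exact hcT3 t _ h5 h4
  obtain ⟨z0, hz0⟩ := good_start Γ hΓ hneg
  have hbase : ∃ j0 : SA ⊕ (SB ⊕ T), ∃ Q : Fin 2 → ℂ → ℂ, (∀ l, IsForm Γ n (Q l)) ∧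
        (∀ l, ∀ z : ℍ, z.im ^ (2 * n) * ‖Q l z‖ ≤ (kk Γ z ((cell j0).pt false)) ^ n) ∧
        ∃ z w : ℍ, (∀ g ∈ Sp Γ, X g z ≠ 0) ∧ (∀ g ∈ Sp Γ, X g w ≠ 0) ∧
          Q 0 z * Q 1 w ≠ Q 0 w * Q 1 z := by
    rcases good_point Γ hΓ hneg z0 hz0 with ⟨e, he1, he2⟩ | h
    · obtain ⟨a, ha, γ, hγ, h1⟩ := hSA3 e he2
      refine ⟨Sum.inl ⟨a, ha⟩, ?_⟩
      have : (cell (Sum.inl ⟨a, ha⟩)).pt false = a := by
        rw [hcell]; exact hcA1 ⟨a, ha⟩ false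
      rw [this]
      exact hQA Γ hΓ hneg a (hSA1 ha)
    · obtain ⟨a, ha, γ, hγ, h1⟩ := hSB3 z0 h
      refine ⟨Sum.inr (Sum.inl ⟨a, ha⟩), ?_⟩
      have : (cell (Sum.inr (Sum.inl ⟨a, ha⟩))).pt false = a := by
        rw [hcell]; exact hcB1 ⟨a, ha⟩ false
      rw [this]
      exact hQB Γ hΓ hneg a (hSB1 ha)
  obtain ⟨j0, Q, hQ1, hQ2, hQ3⟩ := hbase
  exact ⟨{
    J := SA ⊕ (SB ⊕ T)
    cell := cell
    j0 := j0
    ksum := hksum
    row := hrow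
    cov := hcov
    covE := hcovE
    Q := Q
    Q_form := hQ1
    Q_bd := hQ2
    Q_ind := hQ3 }⟩

end NF


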