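import Pool.Agent.Helper369.NF.Defs
import Pool.Agent.Helper369.NF.P3

open MeasureTheory Filter Topology Metric UpperHalfPlane

namespace NF

/-! The following statements are GIVEN (other jobs); do not prove them. -/

/-! TARGET: -/

theorem bh_props (Γ : Subgroup SL2) (n : ℕ) (K1 B0 : ℝ) (Φ : Family Γ n K1 B0) :
    (∀ i j, 0 < bh (Φ.cell i) (Φ.cell j)) ∧ (∀ i j, bh (Φ.cell i) (Φ.cell j) = bh (Φ.cell j) (Φ.cell i)) ∧
    (∀ i, Summable (fun j => bh (Φ.cell i) (Φ.cell j)) ∧ ∑' j, bh (Φ.cell i) (Φ.cell j) ≤ 2 * B0) ∧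
    ∀ i j, bh (Φ.cell i) (Φ.cell j) ≤ 2 * B0 := by
  obtain ⟨hsymm, _, _, _, hpos⟩ := kk_props Γ
  have h1 : ∀ i j, 0 < bh (Φ.cell i) (Φ.cell j) := by
    intro i j
    unfold bh
    have e1 := (hpos ((Φ.cell i).pt false) ((Φ.cell j).pt false) (Φ.ksum j false _)).1
    have e2 := (hpos ((Φ.cell i).pt false) ((Φ.cell j).pt true) (Φ.ksum j true _)).1
    have e3 := (hpos ((Φ.cell i).pt true) ((Φ.cell j).pt false) (Φ.ksum j false _)).1
    have e4 := (hpos ((Φ.cell i).pt true) ((Φ.cell j).pt true) (Φ.ksum j true _)).1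
    linarith
  have h3 : ∀ i, Summable (fun j => bh (Φ.cell i) (Φ.cell j)) ∧
      ∑' j, bh (Φ.cell i) (Φ.cell j) ≤ 2 * B0 := by
    intro i
    obtain ⟨s1, t1⟩ := Φ.row ((Φ.cell i).pt false)
    obtain ⟨s2, t2⟩ := Φ.row ((Φ.cell i).pt true)
    refine ⟨s1.add s2, ?_⟩
    unfold bh
    rw [s1.tsum_add s2]
    linarith
  refine ⟨h1, ?_, h3, ?_⟩
  · intro i j
    unfold bh
    rw [hsymm ((Φ.cell i).pt false) ((Φ.cell j).pt false),
      hsymm ((Φ.cell i).pt false) ((Φ.cell j).pt true),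
      hsymm ((Φ.cell i).pt true) ((Φ.cell j).pt false),
      hsymm ((Φ.cell i).pt true) ((Φ.cell j).pt true)]
    ring
  · intro i j
    have := (h3 i).1.le_tsum j (fun k _ => (h1 i k).le)
    exact this.trans (h3 i).2

end NF

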