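import Pool.Agent.Helper369.NF.Defs
import Pool.Agent.Helper369.NF.B0

open MeasureTheory Filter Topology Metric UpperHalfPlane

namespace NF

/-! The following statements are GIVEN (other jobs); do not prove them. -/

lemma exists_local_inv' (f : ℂ → ℂ) (a : ℂ) (hf : AnalyticAt ℂ f a) (h : deriv f a ≠ 0) :
    ∃ σ : ℂ → ℂ, AnalyticAt ℂ σ (f a) ∧ σ (f a) = a ∧ (∀ᶠ w in 𝓝 (f a), f (σ w) = w) ∧
      HasDerivAt σ (deriv f a)⁻¹ (f a) := by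
  refine ⟨hf.hasStrictDerivAt.localInverse _ _ _ h, hf.analyticAt_localInverse h,
    HasStrictFDerivAt.localInverse_apply_image _, HasStrictDerivAt.eventually_right_inverse _ _, ?_⟩
  exact (HasStrictDerivAt.to_localInverse hf.hasStrictDerivAt h).hasDerivAt

lemma mob_analytic' (γ : SL2) (z : ℂ) (hz : 0 < z.im) : AnalyticAt ℂ (mob γ) z := by
  have h1 : AnalyticAt ℂ (fun w : ℂ => ((γ 0 0 : ℂ) * w + (γ 0 1 : ℂ))) z := by fun_prop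
  have h2 : AnalyticAt ℂ (dn γ) z := by unfold dn; fun_prop
  exact h1.div h2 (dn_ne γ z hz)

lemma mob_deriv' (γ : SL2) (z : ℂ) (hz : 0 < z.im) : HasDerivAt (mob γ) (1 / (dn γ z) ^ 2) z := by
  have hd := dn_ne γ z hz
  have h1 : HasDerivAt (fun w : ℂ => ((γ 0 0 : ℂ) * w + (γ 0 1 : ℂ))) (γ 0 0 : ℂ) z := by
    simpa using ((hasDerivAt_id z).const_mul (γ 0 0 : ℂ)).add_const (γ 0 1 : ℂ)
  have h2 : HasDerivAt (dn γ) (γ 1 0 : ℂ) z := by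
    have h := ((hasDerivAt_id z).const_mul (γ 1 0 : ℂ)).add_const (γ 1 1 : ℂ)
    rw [mul_one] at h
    exact h
  have h3 := h1.div h2 hd
  have hdet : (γ 0 0 : ℂ) * (γ 1 1 : ℂ) - (γ 0 1 : ℂ) * (γ 1 0 : ℂ) = 1 := by
    have := γ.det_coe
    rw [Matrix.det_fin_two] at this
    exact_mod_cast this
  have e : ((γ 0 0 : ℂ) * dn γ z - ((γ 0 0 : ℂ) * z + (γ 0 1 : ℂ)) * (γ 1 0 : ℂ)) / dn γ z ^ 2
      = 1 / (dn γ z) ^ 2 := by
    congr 1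
    unfold dn
    linear_combination hdet
  rw [e] at h3
  exact h3

theorem cover_transport (Γ : Subgroup SL2) (n : ℕ) (K1 : ℝ) (c : Cell Γ n K1) (z : ℍ) (γ : SL2) (hγ : γ ∈ Γ)
    (hz : γ • z ∈ c.In) : ∃ b : Bool, ∃ κ φ : ℂ → ℂ, AnalyticAt ℂ κ (z : ℂ) ∧ AnalyticAt ℂ φ (z : ℂ) ∧
      φ (z : ℂ) ≠ 0 ∧
      (∀ᶠ w in 𝓝 (z : ℂ), ∀ (F : ℂ → ℂ) (p : Bool → ℂ → ℂ), IsForm Γ n F →
        (∀ b, ∀ u ∈ c.U b, F (c.ψ b u) * c.φ (c.ψ b u) = p b (c.π b u)) → F w * φ w = p b (κ w)) ∧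
      Real.sqrt c.r ≤ ‖κ (z : ℂ)‖ ∧ ‖κ (z : ℂ)‖ ≤ (1 / 4) / 16 ∧
      z.im * ‖deriv κ (z : ℂ)‖ ≤ Real.exp 200 := by
  obtain ⟨hφ, hφ0, b, u, hu, hψu, hUn, hψ, hπ, hdψ, hr1, hr2, hbd⟩ := c.inner _ hz
  have hzim : 0 < (z : ℂ).im := z.im_pos
  have hsm : ((γ • z : ℍ) : ℂ) = mob γ z := coe_smul' γ z
  have hdn : dn γ (z : ℂ) ≠ 0 := dn_ne γ z hzim
  obtain ⟨σ, hσa, hσu, hσr, hσd⟩ := exists_local_inv' (c.ψ b) u hψ hdψ
  have hm : AnalyticAt ℂ (mob γ) (z : ℂ) := mob_analytic' γ z hzim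
  have hmz : mob γ (z : ℂ) = c.ψ b u := by rw [← hsm, hψu]
  rw [hsm] at hφ hφ0
  have hσm : AnalyticAt ℂ (fun w => σ (mob γ w)) (z : ℂ) := by
    have : AnalyticAt ℂ σ (mob γ (z : ℂ)) := by rw [hmz]; exact hσa
    exact this.comp hm
  have hσmz : σ (mob γ (z : ℂ)) = u := by rw [hmz, hσu]
  have hκ : AnalyticAt ℂ (fun w => c.π b (σ (mob γ w))) (z : ℂ) := by
    have : AnalyticAt ℂ (c.π b) (σ (mob γ (z : ℂ))) := by rw [hσmz]; exact hπ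
    exact AnalyticAt.comp (g := c.π b) (f := fun w => σ (mob γ w)) this hσm
  have hdna : AnalyticAt ℂ (dn γ) (z : ℂ) := by unfold dn; fun_prop
  refine ⟨b, fun w => c.π b (σ (mob γ w)), fun w => c.φ (mob γ w) * dn γ w ^ (4 * n), hκ, ?_, ?_, ?_, ?_, ?_, ?_⟩
  · have h1 : AnalyticAt ℂ (fun w => c.φ (mob γ w)) (z : ℂ) := AnalyticAt.comp (g := c.φ) (f := mob γ) hφ hm
    exact h1.mul (hdna.pow _)
  · exact mul_ne_zero hφ0 (pow_ne_zero _ hdn)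
  · have e1 : ∀ᶠ w in 𝓝 (z : ℂ), 0 < w.im :=
      (Complex.continuous_im.tendsto _).eventually (lt_mem_nhds hzim)
    have e2 : ∀ᶠ w in 𝓝 (z : ℂ), c.ψ b (σ (mob γ w)) = mob γ w := by
      have : Tendsto (mob γ) (𝓝 (z : ℂ)) (𝓝 (c.ψ b u)) := by
        rw [← hmz]; exact hm.continuousAt
      exact this.eventually hσr
    have e3 : ∀ᶠ w in 𝓝 (z : ℂ), σ (mob γ w) ∈ c.U b := by
      have h : Tendsto (fun w => σ (mob γ w)) (𝓝 (z : ℂ)) (𝓝 u) := by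
        have := hσm.continuousAt.tendsto
        simp only [hσmz] at this
        exact this
      exact h.eventually hUn
    filter_upwards [e1, e2, e3] with w hw1 hw2 hw3 F p hF hp
    have h4 := hF.aut γ hγ (⟨w, hw1⟩ : ℍ)
    have h4' : F (mob γ w) = dn γ w ^ (4 * n) * F w := h4
    have h5 := hp b _ hw3
    rw [hw2, h4'] at h5
    rw [← h5]; ring
  · show _ ≤ ‖c.π b (σ (mob γ (z : ℂ)))‖
    rw [hσmz]; exact hr1
  · show ‖c.π b (σ (mob γ (z : ℂ)))‖ ≤ _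
    rw [hσmz]; exact hr2
  · have hd1 : HasDerivAt (mob γ) (1 / (dn γ z) ^ 2) (z : ℂ) := mob_deriv' γ z hzim
    have hσd' : HasDerivAt σ (deriv (c.ψ b) u)⁻¹ (mob γ (z : ℂ)) := by rw [hmz]; exact hσd
    have hd2 : HasDerivAt (fun w => σ (mob γ w)) ((deriv (c.ψ b) u)⁻¹ * (1 / (dn γ z) ^ 2)) (z : ℂ) :=
      HasDerivAt.comp (h₂ := σ) (h := mob γ) (z : ℂ) hσd' hd1
    have hπd : HasDerivAt (c.π b) (deriv (c.π b) u) (σ (mob γ (z : ℂ))) := by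
      rw [hσmz]; exact hπ.differentiableAt.hasDerivAt
    have hd3 : HasDerivAt (fun w => c.π b (σ (mob γ w)))
        (deriv (c.π b) u * ((deriv (c.ψ b) u)⁻¹ * (1 / (dn γ z) ^ 2))) (z : ℂ) :=
      HasDerivAt.comp (h₂ := c.π b) (h := fun w => σ (mob γ w)) (z : ℂ) hπd hd2
    rw [hd3.deriv]
    have him : (γ • z : ℍ).im = z.im / ‖dn γ z‖ ^ 2 := by
      have h1 := im_mob γ z hzim
      rw [← hsm] at h1
      exact h1
    rw [him] at hbd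
    have hdn' : 0 < ‖dn γ (z : ℂ)‖ := norm_pos_iff.mpr hdn
    have hψ' : 0 < ‖deriv (c.ψ b) u‖ := norm_pos_iff.mpr hdψ
    rw [norm_mul, norm_mul, norm_inv, norm_div, norm_one, norm_pow]
    have e : z.im * (‖deriv (c.π b) u‖ * (‖deriv (c.ψ b) u‖⁻¹ * (1 / ‖dn γ ↑z‖ ^ 2)))
        = (z.im / ‖dn γ z‖ ^ 2 * ‖deriv (c.π b) u‖) / ‖deriv (c.ψ b) u‖ := by
      field_simp
    rw [e, div_le_iff₀ hψ']
    exact hbd

end NF

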