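import Pool.Agent.Helper369.NF.Defs
import Pool.Agent.Helper369.NF.B0

open MeasureTheory Filter Topology Metric UpperHalfPlane

namespace NF

/-! The following statements are GIVEN (other jobs); do not prove them. -/

/-! TARGET: -/

theorem mob_inj (γ : SL2) (w e : ℂ) (hw : dn γ w ≠ 0) (he : dn γ e ≠ 0) (h : mob γ w = mob γ e) : w = e := by
  have hdet : ((γ 0 0 : ℝ) : ℂ) * (γ 1 1 : ℝ) - ((γ 0 1 : ℝ) : ℂ) * (γ 1 0 : ℝ) = 1 := by
    have h1 : (γ 0 0 : ℝ) * γ 1 1 - γ 0 1 * γ 1 0 = 1 := by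
      have := γ.det_coe
      rwa [Matrix.det_fin_two] at this
    exact_mod_cast congrArg (fun x : ℝ => (x : ℂ)) h1
  unfold mob at h
  rw [div_eq_div_iff hw he] at h
  unfold dn at h
  linear_combination h - (w - e) * hdet

theorem coverE_transport (Γ : Subgroup SL2) (n : ℕ) (K1 : ℝ) (c : Cell Γ n K1) (e : ℂ) (he : 0 < e.im)
    (γ : SL2) (hγ : γ ∈ Γ) (h : CovE Γ n K1 c (mob γ e)) : ∃ κ φ : ℂ → ℂ, AnalyticAt ℂ φ e ∧
      ∀ᶠ w in 𝓝[≠] e, φ w ≠ 0 ∧ Real.sqrt c.r ≤ ‖κ w‖ ∧ ‖κ w‖ ≤ (1 / 4) / 16 ∧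
        ∀ (F : ℂ → ℂ) (p : Bool → ℂ → ℂ), IsForm Γ n F →
          (∀ b, ∀ u ∈ c.U b, F (c.ψ b u) * c.φ (c.ψ b u) = p b (c.π b u)) → F w * φ w = p false (κ w) := by
  classical
  obtain ⟨hφ, hev⟩ := h
  have hde : dn γ e ≠ 0 := dn_ne γ e he
  have hdnA : AnalyticAt ℂ (dn γ) e := by
    unfold dn
    fun_prop
  have hmobA : AnalyticAt ℂ (mob γ) e := by
    have : AnalyticAt ℂ (fun z : ℂ => ((γ 0 0 : ℂ) * z + (γ 0 1 : ℂ)) / dn γ z) e :=
      AnalyticAt.div (by fun_prop) hdnA hde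
    exact this
  have hφA : AnalyticAt ℂ (fun w => c.φ (mob γ w) * dn γ w ^ (4 * n)) e := by
    have h1 : AnalyticAt ℂ (fun w => c.φ (mob γ w)) e := AnalyticAt.comp' hφ hmobA
    exact h1.mul (hdnA.pow _)
  have himev : ∀ᶠ w in 𝓝[≠] e, 0 < w.im := by
    apply Filter.Eventually.filter_mono nhdsWithin_le_nhds
    exact (isOpen_lt continuous_const Complex.continuous_im).mem_nhds he
  have htend : Tendsto (mob γ) (𝓝[≠] e) (𝓝[≠] (mob γ e)) := by
    rw [tendsto_nhdsWithin_iff]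
    refine ⟨hmobA.continuousAt.tendsto.mono_left nhdsWithin_le_nhds, ?_⟩
    filter_upwards [himev, self_mem_nhdsWithin] with w hw hne heq
    exact hne (mob_inj γ w e (dn_ne γ w hw) hde heq)
  have hev' := htend.eventually hev
  refine ⟨fun w => if hx : ∃ u ∈ c.U false, c.ψ false u = mob γ w ∧ Real.sqrt c.r ≤ ‖c.π false u‖ ∧
      ‖c.π false u‖ ≤ (1 / 4) / 16 then c.π false (Classical.choose hx) else 0,
    fun w => c.φ (mob γ w) * dn γ w ^ (4 * n), hφA, ?_⟩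
  filter_upwards [hev', himev] with w hw hwim
  obtain ⟨hw1, hw2⟩ := hw
  have hspec := Classical.choose_spec hw2
  have hκ : (if hx : ∃ u ∈ c.U false, c.ψ false u = mob γ w ∧ Real.sqrt c.r ≤ ‖c.π false u‖ ∧
      ‖c.π false u‖ ≤ (1 / 4) / 16 then c.π false (Classical.choose hx) else 0) =
      c.π false (Classical.choose hw2) := dif_pos hw2
  simp only [hκ]
  obtain ⟨hu, hψ, hr1, hr2⟩ := hspec
  refine ⟨mul_ne_zero hw1 (pow_ne_zero _ (dn_ne γ w hwim)), hr1, hr2, ?_⟩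
  intro F p hF hp
  have h1 := hp false _ hu
  have h2 := hF.aut γ hγ ⟨w, hwim⟩
  have h3 : F (mob γ w) = dn γ w ^ (4 * n) * F w := h2
  rw [hψ, h3] at h1
  rw [← h1]
  ring

end NF

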