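import Pool.Agent.Helper369.NF.Defs

open MeasureTheory Filter Topology Metric UpperHalfPlane

namespace NF

/-! TARGET: -/

theorem cell_low (Γ : Subgroup SL2) (n : ℕ) (K1 : ℝ) (c : Cell Γ n K1) (p : Bool → ℂ → ℂ)
    (hp : ∀ b, DifferentiableOn ℂ (p b) (Dom (1 / 4) c.r))
    (h : ∀ b, ∀ u ∈ c.U b, c.P (c.ψ b u) * c.φ (c.ψ b u) = p b (c.π b u)) :
    ∀ b, ∀ q ∈ Dom (1 / 4) c.r, 1 ≤ ‖p b q‖ := by
  have key : ∀ b, ∀ q ∈ Dom (1 / 4) c.r, q ≠ 0 → 1 ≤ ‖p b q‖ := by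
    intro b q hq hq0
    obtain ⟨u, hu, hu2⟩ := c.onto b q hq hq0
    have h1 := c.own b u hu
    rw [h b u hu, hu2] at h1
    exact h1
  intro b q hq
  by_cases hq0 : q = 0
  · subst hq0
    have hr : c.r = 0 := by
      rcases hq.2 with h1 | h1
      · exact h1
      · simp at h1
        exact absurd h1 (not_lt.mpr c.r_nonneg)
    have hD : Dom (1 / 4) c.r = Metric.ball (0 : ℂ) (1 / 4) := by
      ext z
      simp [Dom, hr]
    have hn : Dom (1 / 4) c.r ∈ 𝓝 (0 : ℂ) := by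
      rw [hD]
      exact Metric.ball_mem_nhds _ (by norm_num)
    have hc : ContinuousAt (p b) 0 := (hp b).continuousOn.continuousAt hn
    have ht : Tendsto (fun z => ‖p b z‖) (𝓝[≠] (0 : ℂ)) (𝓝 ‖p b 0‖) :=
      (hc.norm).tendsto.mono_left nhdsWithin_le_nhds
    refine ge_of_tendsto ht ?_
    have h2 : ∀ᶠ z in 𝓝[≠] (0 : ℂ), z ∈ Dom (1 / 4) c.r := mem_nhdsWithin_of_mem_nhds hn
    filter_upwards [h2, self_mem_nhdsWithin] with z hz hz0
    exact key b z hz hz0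
  · exact key b q hq hq0

end NF


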