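import Pool.Agent.Helper369.NF.Defs
import Pool.Agent.Helper369.NF.P3

open MeasureTheory Filter Topology Metric UpperHalfPlane

namespace NF

/-! The following statements are GIVEN (other jobs); do not prove them. -/

/-! TARGET: -/

theorem form_near (Γ : Subgroup SL2) (n : ℕ) (K1 : ℝ) (hK1 : 1 ≤ K1) (c d : Cell Γ n K1)
    (hs : ∀ b, KSum Γ (d.pt b)) (F : ℂ → ℂ)
    (hF : ∀ z : ℍ, Away Γ z → z.im ^ (2 * n) * ‖F z‖ ≤ (K1 * (kk Γ z (d.pt false) + kk Γ z (d.pt true))) ^ n)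
    (z : ℍ) (hz : Away Γ z) (h : ∃ b, ∃ γ ∈ Γ, dist z (γ • c.pt b) ≤ 10) :
    z.im ^ (2 * n) * ‖F z‖ ≤ (K1 * Real.exp 20 * bh c d) ^ n := by
  obtain ⟨b, γ, hγ, hd⟩ := h
  obtain ⟨-, k2, k3, k4, -⟩ := kk_props Γ
  have hdist : dist (c.pt b) (γ⁻¹ • z) ≤ 10 := by
    have h1 : dist (γ • c.pt b) (γ • γ⁻¹ • z) = dist (c.pt b) (γ⁻¹ • z) := dist_smul _ _ _
    rw [smul_inv_smul] at h1
    rw [← h1, dist_comm]
    exact hd
  have hk : ∀ b', kk Γ z (d.pt b') ≤ Real.exp 20 * kk Γ (c.pt b) (d.pt b') := by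
    intro b'
    rw [← k2 z (d.pt b') γ⁻¹ (Γ.inv_mem hγ)]
    refine ((k4 (c.pt b) (γ⁻¹ • z) (d.pt b') (hs b' (c.pt b))).2).trans ?_
    refine mul_le_mul_of_nonneg_right (Real.exp_le_exp.2 (by linarith)) (k3 _ _)
  refine (hF z hz).trans (pow_le_pow_left₀ ?_ ?_ n)
  · exact mul_nonneg (by linarith) (add_nonneg (k3 _ _) (k3 _ _))
  · rw [mul_assoc]
    refine mul_le_mul_of_nonneg_left ?_ (by linarith)
    have h1 := hk false
    have h2 := hk true
    have hb : kk Γ (c.pt b) (d.pt false) + kk Γ (c.pt b) (d.pt true) ≤ bh c d := by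
      unfold bh
      have n1 := k3 (c.pt false) (d.pt false)
      have n2 := k3 (c.pt false) (d.pt true)
      have n3 := k3 (c.pt true) (d.pt false)
      have n4 := k3 (c.pt true) (d.pt true)
      cases b <;> linarith
    have h3 := mul_le_mul_of_nonneg_left hb (Real.exp_pos 20).le
    linarith

end NF

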