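import Pool.Agent.Helper369.NF.Defs
import Pool.Agent.Helper369.NF.B0
import Pool.Agent.Helper369.NF.G6

open MeasureTheory Filter Topology Metric UpperHalfPlane

namespace NF

/-! The following statements are GIVEN (other jobs); do not prove them. -/

/-! TARGET: -/

theorem quad_zero (g : SL2) (hg1 : g ≠ 1) (hg2 : g ≠ -1) (z : ℂ) (hz : 0 < z.im)
    (h : X g z = 0) : g 1 0 ≠ 0 ∧ g 0 0 - g 1 1 = 2 * g 1 0 * z.re ∧
      g 0 1 + g 1 0 * (z.re ^ 2 + z.im ^ 2) = 0 := by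
  have hre := congrArg Complex.re h
  have him := congrArg Complex.im h
  unfold X at hre him
  simp only [Complex.add_re, Complex.sub_re, Complex.mul_re, Complex.sub_im, Complex.add_im,
    Complex.mul_im, Complex.ofReal_re, Complex.ofReal_im, pow_two, Complex.zero_re,
    Complex.zero_im] at hre him
  have h1 : z.im * ((g 0 0 - g 1 1) - 2 * g 1 0 * z.re) = 0 := by linarith
  have h2 : (g 0 0 - g 1 1) - 2 * g 1 0 * z.re = 0 := (mul_eq_zero.1 h1).resolve_left hz.ne'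
  have h3 : g 0 0 - g 1 1 = 2 * g 1 0 * z.re := by linarith
  have h4 : g 0 1 + g 1 0 * (z.re ^ 2 + z.im ^ 2) = 0 := by
    have e : (g 0 0 - g 1 1) * z.re = 2 * g 1 0 * z.re * z.re := by rw [h3]
    linarith
  refine ⟨?_, h3, h4⟩
  intro hc
  rw [hc] at h3 h4
  have hb : g 0 1 = 0 := by linarith
  have had : g 0 0 = g 1 1 := by linarith
  have hdet : g 0 0 * g 1 1 - g 0 1 * g 1 0 = 1 := by
    have := g.det_coe
    rw [Matrix.det_fin_two] at this
    exact this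
  rw [hb, hc, ← had] at hdet
  have hsq : (g 0 0 - 1) * (g 0 0 + 1) = 0 := by linarith
  rcases mul_eq_zero.1 hsq with h5 | h5
  · apply hg1
    ext i j
    fin_cases i <;> fin_cases j
    · show g 0 0 = _
      simp
      linarith
    · show g 0 1 = _
      simp [hb]
    · show g 1 0 = _
      simp [hc]
    · show g 1 1 = _
      simp
      linarith
  · apply hg2
    ext i j
    fin_cases i <;> fin_cases j
    · show g 0 0 = _
      simp
      linarith
    · show g 0 1 = _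
      simp [hb]
    · show g 1 0 = _
      simp [hc]
    · show g 1 1 = _
      simp
      linarith

theorem zero_unique (g : SL2) (hg1 : g ≠ 1) (hg2 : g ≠ -1) (z w : ℂ) (hz : 0 < z.im)
    (hw : 0 < w.im) (h : X g z = 0) (h' : X g w = 0) : z = w := by
  obtain ⟨hc, a1, a2⟩ := quad_zero g hg1 hg2 z hz h
  obtain ⟨-, b1, b2⟩ := quad_zero g hg1 hg2 w hw h'
  have hre : z.re = w.re := by
    have h1 : 2 * g 1 0 * z.re = 2 * g 1 0 * w.re := by rw [← a1, ← b1]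
    exact mul_left_cancel₀ (mul_ne_zero two_ne_zero hc) h1
  have him : z.im = w.im := by
    have h1 : g 1 0 * (z.re ^ 2 + z.im ^ 2) = g 1 0 * (w.re ^ 2 + w.im ^ 2) := by linarith
    have h2 := mul_left_cancel₀ hc h1
    rw [hre] at h2
    have h3 : z.im ^ 2 = w.im ^ 2 := by linarith
    exact (sq_eq_sq₀ hz.le hw.le).1 h3
  exact Complex.ext hre him

theorem sinh_small_G10 {x : ℝ} (hx : x < 1 / 100) : Real.sinh x < 1 / 20 := by
  have h1 : Real.sinh x < Real.sinh (1 / 100) := Real.sinh_lt_sinh.2 hx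
  have h2 : Real.sinh (1 / 100) < 1 / 20 := by
    rw [Real.sinh_eq]
    have h3 : (1 : ℝ) - 1 / 100 ≤ Real.exp (-(1 / 100)) := by
      have := Real.add_one_le_exp (-(1 / 100 : ℝ))
      linarith
    have h4 : Real.exp (1 / 100) ≤ 1 / (1 - 1 / 100) := by
      rw [le_div_iff₀ (by norm_num)]
      have h5 : Real.exp (1 / 100) * Real.exp (-(1 / 100)) = 1 := by
        rw [← Real.exp_add]; norm_num
      calc Real.exp (1 / 100) * (1 - 1 / 100) ≤ Real.exp (1 / 100) * Real.exp (-(1 / 100)) :=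
            mul_le_mul_of_nonneg_left h3 (Real.exp_pos _).le
        _ = 1 := h5
    have h6 : (1 : ℝ) / (1 - 1 / 100) < 1.02 := by norm_num
    linarith
  linarith

theorem sp_ne_neg_one {Γ : Subgroup SL2} {g : SL2} (hg : g ∈ Sp Γ) : g ≠ -1 := by
  rintro rfl
  have h := hg.2.2.1
  unfold tr at h
  simp at h
  norm_num at h

theorem disp_small {g : SL2} {e z : ℍ} (h : X g e = 0) (hd : dist e z < 1 / 100) :
    disp g z < 1 / 10 := by
  have h0 : disp g e = 0 := by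
    unfold disp
    rw [h]
    simp
  have h1 := disp_tri g e z
  rw [h0] at h1
  have h2 := sinh_small_G10 hd
  linarith

theorem E_unique (Γ : Subgroup SL2) (hΓ : PD Γ) (z0 e1 e2 : ℍ) (h1 : dist e1 z0 < 1 / 100)
    (h2 : dist e2 z0 < 1 / 100) (g1 g2 : SL2) (hg1 : g1 ∈ Sp Γ) (hg2 : g2 ∈ Sp Γ)
    (hX1 : X g1 e1 = 0) (hX2 : X g2 e2 = 0) : (e1 : ℂ) = e2 := by
  have hX : X g1 e2 = 0 := by
    rcases sep Γ hΓ g1 g2 hg1 hg2 z0 (disp_small hX1 h1) (disp_small hX2 h2) with rfl | rfl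
    · exact hX2
    · rw [X_inv] at hX2
      exact neg_eq_zero.1 hX2
  exact zero_unique g1 hg1.2.1 (sp_ne_neg_one hg1) e1 e2 e1.im_pos e2.im_pos hX1 hX

theorem E_disc (Γ : Subgroup SL2) (hΓ : PD Γ) (z : ℂ) (hz : 0 < z.im) :
    ∀ᶠ w in 𝓝[≠] z, w ∉ {e : ℂ | 0 < e.im ∧ ∃ g ∈ Sp Γ, X g e = 0} := by
  let z0 : ℍ := ⟨z, hz⟩
  let N : Set ℂ := (fun w : ℍ => (w : ℂ)) '' Metric.ball z0 (1 / 100)
  have hN : N ∈ 𝓝 z := by
    apply IsOpen.mem_nhds
    · exact UpperHalfPlane.isOpenEmbedding_coe.isOpenMap _ Metric.isOpen_ball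
    · exact ⟨z0, Metric.mem_ball_self (by norm_num), rfl⟩
  by_cases h : ∃ e0 : ℍ, dist e0 z0 < 1 / 100 ∧ (e0 : ℂ) ≠ z ∧ ∃ g ∈ Sp Γ, X g e0 = 0
  · obtain ⟨e0, hd0, hne, g0, hg0, hX0⟩ := h
    have h1 : ∀ᶠ w in 𝓝 z, w ∈ N ∧ w ≠ (e0 : ℂ) :=
      Filter.Eventually.and hN (isOpen_ne.mem_nhds (Ne.symm hne))
    refine (h1.filter_mono nhdsWithin_le_nhds).mono ?_
    rintro w ⟨⟨w', hw', rfl⟩, hw2⟩ ⟨_, g, hg, hX⟩
    exact hw2 (E_unique Γ hΓ z0 w' e0 hw' hd0 g g0 hg hg0 hX hX0)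
  · have h1 : ∀ᶠ w in 𝓝[≠] z, w ∈ N ∧ w ≠ z := by
      refine Filter.Eventually.and (mem_nhdsWithin_of_mem_nhds hN) ?_
      exact self_mem_nhdsWithin
    refine h1.mono ?_
    rintro w ⟨⟨w', hw', rfl⟩, hw2⟩ ⟨_, g, hg, hX⟩
    exact h ⟨w', hw', hw2, g, hg, hX⟩

theorem E_count (Γ : Subgroup SL2) (hΓ : PD Γ) :
    {e : ℂ | 0 < e.im ∧ ∃ g ∈ Sp Γ, X g e = 0}.Countable := by
  set E : Set ℂ := {e : ℂ | 0 < e.im ∧ ∃ g ∈ Sp Γ, X g e = 0} with hE
  have hd : DiscreteTopology E := by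
    rw [discreteTopology_subtype_iff]
    intro x hx
    rw [Filter.inf_principal_eq_bot]
    exact E_disc Γ hΓ x hx.1
  have hc : Countable E := countable_of_Lindelof_of_discrete
  exact Set.countable_coe_iff.1 hc

end NF

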