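import Pool.Agent.Helper369.NF.Defs
import Pool.Agent.Helper369.NF.A4a
import Pool.Agent.Helper369.NF.A4b
import Pool.Agent.Helper369.NF.A4c
import Pool.Agent.Helper369.NF.A4l
import Pool.Agent.Helper369.NF.A4n
import Pool.Agent.Helper369.NF.B0
import Pool.Agent.Helper369.NF.G10
import Pool.Agent.Helper369.NF.P3

open MeasureTheory Filter Topology Metric UpperHalfPlane

namespace NF

/-! The following statements are GIVEN (other jobs); do not prove them. -/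

/-! TARGET: -/

theorem psys_of_family (Γ : Subgroup SL2) (hΓ : PD Γ) (hneg : -1 ∈ Γ) (n : ℕ) (K1 B0 : ℝ) (hn : 1 ≤ n)
    (hK1 : 1 ≤ K1) (hB0 : 1 ≤ B0) (Φ : Family Γ n K1 B0) : Nonempty (PSys Γ) := by
  classical
  obtain ⟨bpos, bsymm, brow, ble⟩ := bh_props Γ n K1 B0 Φ
  have hK0 : 0 < K1 := by linarith
  have hB1 : (0 : ℝ) < 4 * B0 := by linarith
  have hKE : 0 < K1 * Real.exp 20 := mul_pos hK0 (Real.exp_pos _)
  -- charts of P
  have hp : ∀ i k, ∃ p : Bool → ℂ → ℂ, (∀ b, DifferentiableOn ℂ (p b) (Dom (1 / 4) (Φ.cell i).r)) ∧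
      (∀ b, ∀ q ∈ Dom (1 / 4) (Φ.cell i).r,
        ‖p b q‖ ≤ K1 * (K1 * Real.exp 20 * bh (Φ.cell i) (Φ.cell k)) ^ n) ∧
      (0 < (Φ.cell i).r → ∀ q ∈ Dom (1 / 4) (Φ.cell i).r, p true q = p false ((Φ.cell i).r / q)) ∧
      ∀ b, ∀ u ∈ (Φ.cell i).U b,
        (Φ.cell k).P ((Φ.cell i).ψ b u) * (Φ.cell i).φ ((Φ.cell i).ψ b u) = p b ((Φ.cell i).π b u) := by
    intro i k
    apply (Φ.cell i).chart ((Φ.cell k).P) (Φ.cell k).P_form
    · exact pow_nonneg (mul_nonneg hKE.le (bpos i k).le) n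
    · intro z hz h
      exact form_near Γ n K1 hK1 (Φ.cell i) (Φ.cell k) (Φ.ksum k) _ (Φ.cell k).P_bd z hz h
  have hs : ∀ (l : Fin 2) i, ∃ p : Bool → ℂ → ℂ,
      (∀ b, DifferentiableOn ℂ (p b) (Dom (1 / 4) (Φ.cell i).r)) ∧
      (∀ b, ∀ q ∈ Dom (1 / 4) (Φ.cell i).r,
        ‖p b q‖ ≤ K1 * (K1 * Real.exp 20 * bh (Φ.cell i) (Φ.cell Φ.j0)) ^ n) ∧
      (0 < (Φ.cell i).r → ∀ q ∈ Dom (1 / 4) (Φ.cell i).r, p true q = p false ((Φ.cell i).r / q)) ∧
      ∀ b, ∀ u ∈ (Φ.cell i).U b,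
        Φ.Q l ((Φ.cell i).ψ b u) * (Φ.cell i).φ ((Φ.cell i).ψ b u) = p b ((Φ.cell i).π b u) := by
    intro l i
    apply (Φ.cell i).chart (Φ.Q l) (Φ.Q_form l)
    · exact pow_nonneg (mul_nonneg hKE.le (bpos i Φ.j0).le) n
    · intro z hz h
      refine form_near Γ n K1 hK1 (Φ.cell i) (Φ.cell Φ.j0) (Φ.ksum Φ.j0) _ ?_ z hz h
      intro w _
      refine (Φ.Q_bd l w).trans ?_
      have h1 := (kk_props Γ).2.2.1 w ((Φ.cell Φ.j0).pt false)
      have h2 := (kk_props Γ).2.2.1 w ((Φ.cell Φ.j0).pt true)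
      apply pow_le_pow_left₀ h1
      nlinarith
  choose p p1 p2 p3 p4 using hp
  choose s s1 s2 s3 s4 using hs
  -- the matrix
  let M : Φ.J → Φ.J → ℝ := fun i j => if i = j then 1 else bh (Φ.cell i) (Φ.cell j) / (4 * B0)
  have hM_ne : ∀ i j, i ≠ j → M i j = bh (Φ.cell i) (Φ.cell j) / (4 * B0) := by
    intro i j h
    simp only [M, if_neg h]
  have hM_self : ∀ i, M i i = 1 := by
    intro i
    simp only [M, if_true]
  have hq0 : ∀ i j, 0 < bh (Φ.cell i) (Φ.cell j) / (4 * B0) := fun i j => div_pos (bpos i j) hB1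
  have hq1 : ∀ i j, bh (Φ.cell i) (Φ.cell j) / (4 * B0) ≤ 1 := by
    intro i j
    rw [div_le_one hB1]
    linarith [ble i j]
  have hqM : ∀ i j, bh (Φ.cell i) (Φ.cell j) / (4 * B0) ≤ M i j := by
    intro i j
    by_cases h : i = j
    · subst h
      rw [hM_self]
      exact hq1 i i
    · rw [hM_ne i j h]
  have hbound : ∀ i k, K1 * (K1 * Real.exp 20 * bh (Φ.cell i) (Φ.cell k)) ^ n ≤
      (K1 * (K1 * Real.exp 20 * (4 * B0)) ^ n) * M i k := by
    intro i k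
    have e1 : K1 * Real.exp 20 * bh (Φ.cell i) (Φ.cell k) =
        (K1 * Real.exp 20 * (4 * B0)) * (bh (Φ.cell i) (Φ.cell k) / (4 * B0)) := by
      field_simp
    rw [e1, mul_pow, ← mul_assoc]
    apply mul_le_mul_of_nonneg_left
    · refine le_trans ?_ (hqM i k)
      exact pow_le_of_le_one (hq0 i k).le (hq1 i k) (by omega)
    · exact mul_nonneg hK0.le (pow_nonneg (mul_nonneg hKE.le hB1.le) n)
  refine ⟨{
    m := 2 * n
    J := Φ.J
    j0 := Φ.j0
    E := {e : ℂ | 0 < e.im ∧ ∃ g ∈ Sp Γ, X g e = 0}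
    P := fun j => (Φ.cell j).P
    Q := Φ.Q
    M := M
    r := fun j => (Φ.cell j).r
    R := 1 / 4
    K := K1 * (K1 * Real.exp 20 * (4 * B0)) ^ n
    C0 := Real.exp 200
    p := fun i b k => p i k b
    s := fun l i b => s l i b
    E_count := E_count Γ hΓ
    E_disc := E_disc Γ hΓ
    P_diff := ?_
    Q_diff := ?_
    P_aut := ?_
    Q_aut := ?_
    Q_ind := ?_
    M_pos := ?_
    M_le := ?_
    M_symm := ?_
    M_self := hM_self
    M_row := ?_
    R_pos := by norm_num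
    R_le := by norm_num
    r_nonneg := fun j => (Φ.cell j).r_nonneg
    r_small := fun j => (Φ.cell j).r_small
    p_diff := fun i b k => p1 i k b
    p_bd := fun i b k q hq => (p2 i k b q hq).trans (hbound i k)
    p_low := ?_
    p_flip := fun i k h q hq => p3 i k h q hq
    s_diff := fun l i b => s1 l i b
    s_bd := fun l i b q hq => (s2 l i b q hq).trans (hbound i Φ.j0)
    cover := ?_
    coverE := ?_ }⟩
  · intro j z hz hE
    exact (Φ.cell j).P_form.diff z hz (fun h hh h0 => hE ⟨hz, h, hh, h0⟩)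
  · intro j z hz hE
    exact (Φ.Q_form j).diff z hz (fun h hh h0 => hE ⟨hz, h, hh, h0⟩)
  · intro j g hg z
    have h1 := (Φ.cell j).P_form.aut g hg z
    have h2 := coe_smul' g z
    have h3 := denom_eq g z
    show (Φ.cell j).P ((g • z : ℍ) : ℂ) = (denom g z) ^ (2 * (2 * n)) * (Φ.cell j).P (z : ℂ)
    rw [h2, h3, h1]
    congr 2
    ring
  · intro j g hg z
    have h1 := (Φ.Q_form j).aut g hg z
    have h2 := coe_smul' g z
    have h3 := denom_eq g z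
    show Φ.Q j ((g • z : ℍ) : ℂ) = (denom g z) ^ (2 * (2 * n)) * Φ.Q j (z : ℂ)
    rw [h2, h3, h1]
    congr 2
    ring
  · obtain ⟨z, w, hz, hw, h⟩ := Φ.Q_ind
    refine ⟨z, w, z.im_pos, w.im_pos, ?_, ?_, h⟩
    · rintro ⟨_, g, hg, h0⟩
      exact hz g hg h0
    · rintro ⟨_, g, hg, h0⟩
      exact hw g hg h0
  · intro i j
    exact lt_of_lt_of_le (hq0 i j) (hqM i j)
  · intro i j
    by_cases h : i = j
    · subst h
      rw [hM_self]
    · rw [hM_ne i j h]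
      exact hq1 i j
  · intro i j
    by_cases h : i = j
    · subst h
      rfl
    · rw [hM_ne i j h, hM_ne j i (Ne.symm h), bsymm i j]
  · intro t i hi
    have e1 : ∑ j ∈ t, M i j = (∑ j ∈ t, bh (Φ.cell i) (Φ.cell j)) / (4 * B0) := by
      rw [Finset.sum_div]
      apply Finset.sum_congr rfl
      intro j hj
      apply hM_ne
      rintro rfl
      exact hi hj
    rw [e1, div_le_iff₀ hB1]
    have h1 := (brow i).1.sum_le_tsum t (fun j _ => (bpos i j).le)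
    linarith [(brow i).2]
  · intro i b q hq
    exact cell_low Γ n K1 (Φ.cell i) (p i i) (p1 i i) (p4 i i) b q hq
  · intro z hz hE
    obtain ⟨j, γ, hγ, hin⟩ := Φ.cov ⟨z, hz⟩ (fun g hg h0 => hE ⟨hz, g, hg, h0⟩)
    obtain ⟨b, κ, φ, h1, h2, h3, h4, h5, h6, h7⟩ := cover_transport Γ n K1 (Φ.cell j) ⟨z, hz⟩ γ hγ hin
    refine ⟨j, b, κ, φ, h1, h2, h3, ?_, h5, h6, h7⟩
    filter_upwards [h4] with w hw
    refine ⟨fun k => hw _ (p j k) (Φ.cell k).P_form (p4 j k), fun l => hw _ (s l j) (Φ.Q_form l) (s4 l j)⟩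
  · intro e hE he
    obtain ⟨j, γ, hγ, hin⟩ := Φ.covE e he hE.2
    obtain ⟨κ, φ, h1, h2⟩ := coverE_transport Γ n K1 (Φ.cell j) e he γ hγ hin
    refine ⟨j, false, κ, φ, h1, ?_⟩
    filter_upwards [h2] with w hw
    obtain ⟨w1, w2, w3, hw⟩ := hw
    refine ⟨w1, w2, w3, fun k => hw _ (p j k) (Φ.cell k).P_form (p4 j k),
      fun l => hw _ (s l j) (Φ.Q_form l) (s4 l j)⟩

end NF

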