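import Pool.Agent.Helper369.NF.Defs

open MeasureTheory Metric

namespace NF

/-- target: derivative bound for bounded holomorphic functions on the annulus (Cauchy/Laurent) -/
theorem deriv_annulus (R : ℝ) (hR : 0 < R) : ∃ C : ℝ, 0 < C ∧ ∀ r : ℝ, 0 ≤ r → 16 ^ 2 * r ≤ R ^ 2 →
    ∀ (h : ℂ → ℂ) (B : ℝ), DifferentiableOn ℂ h (Dom R r) → (∀ q ∈ Dom R r, ‖h q‖ ≤ B) →
      ∀ q : ℂ, Real.sqrt r ≤ ‖q‖ → ‖q‖ ≤ R / 4 → ‖deriv h q‖ ≤ C * B := by
  refine ⟨16 / R, by positivity, ?_⟩
  intro r hr hr16 h B hd hB q hq1 hq2
  rcases hr.eq_or_lt with hr0 | hrpos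
  · -- r = 0
    subst hr0
    have hsub : closedBall q (R / 2) ⊆ Dom R 0 := by
      intro w hw
      have h1 : ‖w - q‖ ≤ R / 2 := by rwa [mem_closedBall, dist_eq_norm] at hw
      refine ⟨?_, Or.inl rfl⟩
      calc ‖w‖ = ‖(w - q) + q‖ := by ring_nf
        _ ≤ ‖w - q‖ + ‖q‖ := norm_add_le _ _
        _ < R := by linarith
    have hB0 : 0 ≤ B := (norm_nonneg _).trans (hB q (hsub (mem_closedBall_self (by linarith))))
    have hcl : DiffContOnCl ℂ h (ball q (R / 2)) := by
      apply DifferentiableOn.diffContOnCl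
      rw [closure_ball q (by positivity)]
      exact hd.mono hsub
    have h1 := Complex.norm_deriv_le_of_forall_mem_sphere_norm_le (by positivity : 0 < R / 2) hcl
      (C := B) (fun z hz => hB z (hsub (sphere_subset_closedBall hz)))
    refine h1.trans ?_
    have : B / (R / 2) = 2 / R * B := by field_simp
    rw [this]
    apply mul_le_mul_of_nonneg_right _ hB0
    gcongr
    norm_num
  · -- r > 0
    set s := Real.sqrt r with hs
    have hs2 : s * s = r := Real.mul_self_sqrt hr
    have hspos : 0 < s := Real.sqrt_pos.2 hrpos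
    have hsR : 16 * s ≤ R := by
      have : (16 * s) ^ 2 ≤ R ^ 2 := by nlinarith
      exact le_of_sq_le_sq this hR.le
    have hopen : IsOpen (Dom R r) := by
      have : Dom R r = {q : ℂ | ‖q‖ < R} ∩ {q : ℂ | r < R * ‖q‖} := by
        ext w
        simp only [Dom, Set.mem_setOf_eq, Set.mem_inter_iff]
        constructor
        · rintro ⟨h1, h2 | h2⟩
          · exact absurd h2 hrpos.ne'
          · exact ⟨h1, h2⟩
        · rintro ⟨h1, h2⟩
          exact ⟨h1, Or.inr h2⟩
      rw [this]
      exact (isOpen_lt continuous_norm continuous_const).inter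
        (isOpen_lt continuous_const (continuous_const.mul continuous_norm))
    have hqD : q ∈ Dom R r := by
      refine ⟨by linarith, Or.inr ?_⟩
      nlinarith
    have hB0 : 0 ≤ B := (norm_nonneg _).trans (hB q hqD)
    have hnhds : Dom R r ∈ nhds q := hopen.mem_nhds hqD
    have hg1 : DifferentiableOn ℂ (dslope h q) (Dom R r) :=
      (Complex.differentiableOn_dslope hnhds).2 hd
    have hg2 : DifferentiableOn ℂ (dslope (dslope h q) q) (Dom R r) :=
      (Complex.differentiableOn_dslope hnhds).2 hg1
    set g := dslope (dslope h q) q with hgdef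
    set ρ := 2 * r / R with hρ
    have hρpos : 0 < ρ := by positivity
    have hρs : 8 * ρ ≤ s := by
      rw [hρ]
      rw [show 8 * (2 * r / R) = 16 * r / R by ring, div_le_iff₀ hR]
      nlinarith
    have hρR : ρ ≤ R / 2 := by linarith
    have hann : closedBall (0 : ℂ) (R / 2) \ ball 0 ρ ⊆ Dom R r := by
      intro w hw
      have h1 : ‖w‖ ≤ R / 2 := by simpa using hw.1
      have h2 : ρ ≤ ‖w‖ := by simpa using hw.2
      refine ⟨by linarith, Or.inr ?_⟩
      have : R * ρ = 2 * r := by rw [hρ]; field_simp
      nlinarith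
    have hcirc : (∮ z in C(0, R / 2), g z) = ∮ z in C(0, ρ), g z := by
      refine Complex.circleIntegral_eq_of_differentiable_on_annulus_off_countable hρpos hρR
        Set.countable_empty (hg2.continuousOn.mono hann) ?_
      intro z hz
      have hz' : z ∈ Dom R r := hann ⟨ball_subset_closedBall hz.1.1, fun hh =>
        hz.1.2 (ball_subset_closedBall hh)⟩
      exact (hg2 z hz').differentiableAt (hopen.mem_nhds hz')
    have hsph2 : sphere (0 : ℂ) (R / 2) ⊆ Dom R r := by
      intro w hw
      apply hann
      have h1 : ‖w‖ = R / 2 := by simpa using hw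
      constructor
      · simp [h1]
      · simp [h1, hρR]
    have hsph1 : sphere (0 : ℂ) ρ ⊆ Dom R r := by
      intro w hw
      apply hann
      have h1 : ‖w‖ = ρ := by simpa using hw
      constructor
      · simp [h1, hρR]
      · simp [h1]
    -- general decomposition on a circle not containing q
    have hdec : ∀ t : ℝ, 0 < t → sphere (0 : ℂ) t ⊆ Dom R r → t ≠ ‖q‖ →
        (∮ z in C(0, t), (z - q) ^ (-2 : ℤ) * h z) =
          (∮ z in C(0, t), g z) + deriv h q * ∮ z in C(0, t), (z - q)⁻¹ := by
      intro t ht hsub htq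
      have hne : ∀ z ∈ sphere (0 : ℂ) t, z - q ≠ 0 := by
        intro z hz hzq
        have : z = q := sub_eq_zero.1 hzq
        subst this
        apply htq
        simpa using hz.symm
      have hci1 : CircleIntegrable g 0 t :=
        (hg2.continuousOn.mono hsub).circleIntegrable ht.le
      have hc1 : ContinuousOn (fun z : ℂ => (z - q)⁻¹) (sphere 0 t) :=
        (continuousOn_id.sub continuousOn_const).inv₀ hne
      have hc2 : ContinuousOn (fun z : ℂ => (z - q) ^ (-2 : ℤ)) (sphere 0 t) :=
        (continuousOn_id.sub continuousOn_const).zpow₀ _ (fun z hz => Or.inl (hne z hz))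
      have hci2 : CircleIntegrable (fun z : ℂ => h q * (z - q) ^ (-2 : ℤ)) 0 t :=
        (continuousOn_const.mul hc2).circleIntegrable ht.le
      have hci3 : CircleIntegrable (fun z : ℂ => deriv h q * (z - q)⁻¹) 0 t :=
        (continuousOn_const.mul hc1).circleIntegrable ht.le
      have hci4 : CircleIntegrable
          (fun z : ℂ => h q * (z - q) ^ (-2 : ℤ) + deriv h q * (z - q)⁻¹) 0 t := hci2.add hci3
      have h0 : (∮ z in C(0, t), (z - q) ^ (-2 : ℤ)) = 0 :=
        circleIntegral.integral_sub_zpow_of_ne (by norm_num) 0 q t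
      have heq : (∮ z in C(0, t), (z - q) ^ (-2 : ℤ) * h z) =
          ∮ z in C(0, t), (g z + (h q * (z - q) ^ (-2 : ℤ) + deriv h q * (z - q)⁻¹)) := by
        apply circleIntegral.integral_congr ht.le
        intro z hz
        have hz0 := hne z hz
        have hzq : z ≠ q := sub_ne_zero.1 hz0
        have e1 : g z = (z - q)⁻¹ * ((z - q)⁻¹ * (h z - h q) - deriv h q) := by
          rw [hgdef, dslope_of_ne _ hzq, slope_def_field, dslope_same, dslope_of_ne _ hzq,
            slope_def_field]
          field_simp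
        simp only
        rw [e1, zpow_neg, zpow_ofNat]
        field_simp
        ring
      rw [heq, circleIntegral.integral_add hci1 hci4,
        circleIntegral.integral_add hci2 hci3, circleIntegral.integral_const_mul,
        circleIntegral.integral_const_mul, h0]
      ring
    have hqout : R / 2 ≠ ‖q‖ := by intro hh; linarith
    have hqin : ρ ≠ ‖q‖ := by intro hh; linarith
    have hd2 := hdec (R / 2) (by positivity) hsph2 hqout
    have hd1 := hdec ρ hρpos hsph1 hqin
    have hI2 : (∮ z in C(0, R / 2), (z - q)⁻¹) = 2 * Real.pi * Complex.I := by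
      apply circleIntegral.integral_sub_inv_of_mem_ball
      simp; linarith
    have hI1 : (∮ z in C(0, ρ), (z - q)⁻¹) = 0 := by
      have hne : ∀ z ∈ closedBall (0 : ℂ) ρ, z - q ≠ 0 := by
        intro z hz hzq
        have : z = q := sub_eq_zero.1 hzq
        subst this
        have : ‖z‖ ≤ ρ := by simpa using hz
        linarith
      refine Complex.circleIntegral_eq_zero_of_differentiable_on_off_countable hρpos.le
        Set.countable_empty ((continuousOn_id.sub continuousOn_const).inv₀ hne) ?_
      intro z hz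
      exact ((differentiableAt_id.sub_const q).inv (hne z (ball_subset_closedBall hz.1)))
    rw [hI2] at hd2
    rw [hI1, mul_zero, add_zero] at hd1
    have hkey : deriv h q * (2 * Real.pi * Complex.I) =
        (∮ z in C(0, R / 2), (z - q) ^ (-2 : ℤ) * h z) -
          ∮ z in C(0, ρ), (z - q) ^ (-2 : ℤ) * h z := by
      rw [hd2, hd1, hcirc]; ring
    have hb2 : ‖∮ z in C(0, R / 2), (z - q) ^ (-2 : ℤ) * h z‖ ≤
        2 * Real.pi * (R / 2) * (((R / 4) ^ 2)⁻¹ * B) := by
      apply circleIntegral.norm_integral_le_of_norm_le_const (by positivity)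
      intro z hz
      have hz1 : ‖z‖ = R / 2 := by simpa using hz
      have hzq : R / 4 ≤ ‖z - q‖ := by
        have := norm_sub_norm_le z q
        linarith
      rw [norm_mul, norm_zpow, zpow_neg, zpow_ofNat]
      apply mul_le_mul _ (hB z (hsph2 hz)) (norm_nonneg _) (by positivity)
      gcongr
    have hb1 : ‖∮ z in C(0, ρ), (z - q) ^ (-2 : ℤ) * h z‖ ≤
        2 * Real.pi * ρ * (((s / 2) ^ 2)⁻¹ * B) := by
      apply circleIntegral.norm_integral_le_of_norm_le_const hρpos.le
      intro z hz
      have hz1 : ‖z‖ = ρ := by simpa using hz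
      have hzq : s / 2 ≤ ‖z - q‖ := by
        have := norm_sub_norm_le q z
        rw [norm_sub_rev] at this
        linarith
      rw [norm_mul, norm_zpow, zpow_neg, zpow_ofNat]
      apply mul_le_mul _ (hB z (hsph1 hz)) (norm_nonneg _) (by positivity)
      gcongr
    have hn : ‖deriv h q‖ * (2 * Real.pi) =
        ‖deriv h q * (2 * Real.pi * Complex.I)‖ := by
      rw [norm_mul, norm_mul, norm_mul]
      simp [abs_of_pos Real.pi_pos]
    have htot : ‖deriv h q‖ * (2 * Real.pi) ≤ 2 * Real.pi * (R / 2) * (((R / 4) ^ 2)⁻¹ * B) +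
        2 * Real.pi * ρ * (((s / 2) ^ 2)⁻¹ * B) := by
      rw [hn, hkey]
      exact (norm_sub_le _ _).trans (add_le_add hb2 hb1)
    have e2 : 2 * Real.pi * (R / 2) * (((R / 4) ^ 2)⁻¹ * B) = (8 / R * B) * (2 * Real.pi) := by
      field_simp
      ring
    have e1 : 2 * Real.pi * ρ * (((s / 2) ^ 2)⁻¹ * B) = (8 / R * B) * (2 * Real.pi) := by
      rw [hρ, ← hs2]
      field_simp
      ring
    rw [e1, e2, ← add_mul] at htot
    have := le_of_mul_le_mul_right htot (by positivity)
    refine this.trans (le_of_eq ?_)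
    ring

end NF

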