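import Pool.Agent.Helper369.NF.Defs

open Filter Topology Metric

namespace NF

namespace LHAux

theorem dslope_bound {F : ℂ → ℂ} {z0 : ℂ} {ρ B : ℝ} (hρ : 0 < ρ) (hB : 0 ≤ B)
    (hd : DifferentiableOn ℂ F (ball z0 ρ)) (hb : ∀ z ∈ ball z0 ρ, ‖F z‖ ≤ B) :
    DifferentiableOn ℂ (dslope F z0) (ball z0 ρ) ∧
      ∀ z ∈ ball z0 ρ, ‖dslope F z0 z‖ ≤ (2 * B + 1) / ρ := by
  refine ⟨(Complex.differentiableOn_dslope (ball_mem_nhds z0 hρ)).2 hd, fun z hz => ?_⟩
  refine Complex.norm_dslope_le_div_of_mapsTo_ball hd ?_ hz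
  intro y hy
  rw [mem_closedBall, dist_eq_norm]
  calc ‖F y - F z0‖ ≤ ‖F y‖ + ‖F z0‖ := norm_sub_le _ _
    _ ≤ B + B := add_le_add (hb y hy) (hb z0 (mem_ball_self hρ))
    _ ≤ 2 * B + 1 := by linarith

theorem slope_bound {F : ℂ → ℂ} {z0 : ℂ} {ρ B : ℝ} (hρ : 0 < ρ) (hB : 0 ≤ B)
    (hd : DifferentiableOn ℂ F (ball z0 ρ)) (hb : ∀ z ∈ ball z0 ρ, ‖F z‖ ≤ B) {z : ℂ}
    (hz : z ∈ ball z0 ρ) (hne : z ≠ z0) :
    ‖slope F z0 z - deriv F z0‖ ≤ (2 * ((2 * B + 1) / ρ) + 1) / ρ * ‖z - z0‖ := by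
  obtain ⟨h1, h2⟩ := dslope_bound hρ hB hd hb
  obtain ⟨-, h4⟩ := dslope_bound hρ (by positivity) h1 h2
  have h5 := h4 z hz
  rw [dslope_of_ne _ hne, slope_def_module, norm_smul, norm_inv, dslope_of_ne _ hne,
    dslope_same] at h5
  have h6 : 0 < ‖z - z0‖ := norm_pos_iff.2 (sub_ne_zero.2 hne)
  rwa [inv_mul_le_iff₀ h6, mul_comm] at h5

end LHAux

/-- target: pointwise limits along an arbitrary filter of uniformly bounded holomorphic functions -/
theorem limit_holo {ι : Type} (l : Filter ι) [l.NeBot] (F : ι → ℂ → ℂ) (G : ℂ → ℂ) (z0 : ℂ) (ρ B : ℝ)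
    (hρ : 0 < ρ) (hd : ∀ᶠ n in l, DifferentiableOn ℂ (F n) (ball z0 ρ))
    (hb : ∀ᶠ n in l, ∀ z ∈ ball z0 ρ, ‖F n z‖ ≤ B)
    (hG : ∀ z ∈ ball z0 ρ, Tendsto (fun n => F n z) l (𝓝 (G z))) :
    DifferentiableAt ℂ G z0 ∧ Tendsto (fun n => deriv (F n) z0) l (𝓝 (deriv G z0)) := by
  have hB : 0 ≤ B := by
    obtain ⟨n, hn⟩ := hb.exists
    exact (norm_nonneg _).trans (hn z0 (mem_ball_self hρ))
  set K : ℝ := (2 * ((2 * B + 1) / ρ) + 1) / ρ with hK
  have hK0 : 0 < K := by positivity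
  have hs : ∀ z ∈ ball z0 ρ, z ≠ z0 →
      ∀ᶠ n in l, ‖slope (F n) z0 z - deriv (F n) z0‖ ≤ K * ‖z - z0‖ := by
    intro z hz hne
    filter_upwards [hd, hb] with n hn1 hn2
    exact LHAux.slope_bound hρ hB hn1 hn2 hz hne
  have hlim : ∀ z ∈ ball z0 ρ, Tendsto (fun n => slope (F n) z0 z) l (𝓝 (slope G z0 z)) := by
    intro z hz
    simp only [slope_def_module]
    exact ((hG z hz).sub (hG z0 (mem_ball_self hρ))).const_smul _
  -- the derivatives converge
  have hcauchy : Cauchy (Filter.map (fun n => deriv (F n) z0) l) := by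
    rw [Metric.cauchy_iff]
    refine ⟨inferInstance, fun ε hε => ?_⟩
    obtain ⟨t, ht0, htρ, htε⟩ : ∃ t : ℝ, 0 < t ∧ t < ρ ∧ K * t < ε / 4 := by
      refine ⟨min (ρ / 2) (ε / (8 * K)), by positivity, ?_, ?_⟩
      · exact (min_le_left _ _).trans_lt (by linarith)
      · calc K * min (ρ / 2) (ε / (8 * K)) ≤ K * (ε / (8 * K)) :=
              mul_le_mul_of_nonneg_left (min_le_right _ _) hK0.le
          _ = ε / 8 := by field_simp
          _ < ε / 4 := by linarith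
    have hz : z0 + (t : ℂ) ∈ ball z0 ρ := by
      rw [mem_ball, dist_eq_norm, add_sub_cancel_left, Complex.norm_real, Real.norm_eq_abs,
        abs_of_pos ht0]
      exact htρ
    have hne : z0 + (t : ℂ) ≠ z0 := by
      intro h
      have : (t : ℂ) = 0 := by simpa using h
      rw [Complex.ofReal_eq_zero] at this
      linarith
    have hnorm : ‖z0 + (t : ℂ) - z0‖ = t := by
      rw [add_sub_cancel_left, Complex.norm_real, Real.norm_eq_abs, abs_of_pos ht0]
    have e1 := hs _ hz hne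
    rw [hnorm] at e1
    have e2 : ∀ᶠ n in l, dist (slope (F n) z0 (z0 + t)) (slope G z0 (z0 + t)) < ε / 4 :=
      (Metric.tendsto_nhds.1 (hlim _ hz)) _ (by positivity)
    refine ⟨ball (slope G z0 (z0 + t)) (ε / 2), ?_, ?_⟩
    · rw [Filter.mem_map]
      filter_upwards [e1, e2] with n hn1 hn2
      show dist (deriv (F n) z0) (slope G z0 (z0 + t)) < ε / 2
      calc dist (deriv (F n) z0) (slope G z0 (z0 + t)) ≤
            dist (deriv (F n) z0) (slope (F n) z0 (z0 + t)) +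
              dist (slope (F n) z0 (z0 + t)) (slope G z0 (z0 + t)) := dist_triangle _ _ _
        _ < ε / 4 + ε / 4 := by
            refine add_lt_add_of_le_of_lt ?_ hn2
            rw [dist_comm, dist_eq_norm]
            exact hn1.trans htε.le
        _ = ε / 2 := by ring
    · intro x hx y hy
      calc dist x y ≤ dist x (slope G z0 (z0 + t)) + dist y (slope G z0 (z0 + t)) :=
            dist_triangle_right _ _ _
        _ < ε / 2 + ε / 2 := add_lt_add hx hy
        _ = ε := by ring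
  obtain ⟨D, hD⟩ := CompleteSpace.complete hcauchy
  have hD' : Tendsto (fun n => deriv (F n) z0) l (𝓝 D) := hD
  have hbound : ∀ z ∈ ball z0 ρ, z ≠ z0 → ‖slope G z0 z - D‖ ≤ K * ‖z - z0‖ := by
    intro z hz hne
    exact le_of_tendsto ((hlim z hz).sub hD').norm (hs z hz hne)
  have hder : HasDerivAt G D z0 := by
    rw [hasDerivAt_iff_tendsto_slope, tendsto_iff_norm_sub_tendsto_zero]
    have h1 : Tendsto (fun z : ℂ => K * ‖z - z0‖) (𝓝[≠] z0) (𝓝 0) := by
      have hc : Continuous fun z : ℂ => K * ‖z - z0‖ := by fun_prop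
      have := hc.tendsto z0
      simp only [sub_self, norm_zero, mul_zero] at this
      exact this.mono_left nhdsWithin_le_nhds
    refine squeeze_zero' (Eventually.of_forall fun _ => norm_nonneg _) ?_ h1
    filter_upwards [self_mem_nhdsWithin, nhdsWithin_le_nhds (ball_mem_nhds z0 hρ)] with z hz1 hz2
    exact hbound z hz2 hz1
  refine ⟨hder.differentiableAt, ?_⟩
  rw [hder.deriv]
  exact hD'

end NF

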