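import Pool.Agent.Helper369.NF.Defs

open Filter Topology

namespace NF


theorem ev_notin {E : Set ℂ} (hEd : ∀ z : ℂ, 0 < z.im → ∀ᶠ w in 𝓝[≠] z, w ∉ E) {z : ℂ}
    (hz : 0 < z.im) (hzE : z ∉ E) : ∀ᶠ w in 𝓝 z, 0 < w.im ∧ w ∉ E := by
  have h1 : ∀ᶠ w in 𝓝 z, 0 < w.im :=
    (isOpen_lt continuous_const Complex.continuous_im).mem_nhds hz
  have h2 := eventually_nhdsWithin_iff.1 (hEd z hz)
  filter_upwards [h1, h2] with w hw1 hw2
  refine ⟨hw1, ?_⟩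
  by_cases h : w = z
  · rw [h]; exact hzE
  · exact hw2 h

theorem im_ev {z : ℂ} (hz : 0 < z.im) : ∀ᶠ w in 𝓝[≠] z, 0 < w.im :=
  eventually_nhdsWithin_of_eventually_nhds
    ((isOpen_lt continuous_const Complex.continuous_im).mem_nhds hz)

theorem analytic_of {E : Set ℂ} (hEd : ∀ z : ℂ, 0 < z.im → ∀ᶠ w in 𝓝[≠] z, w ∉ E) {F : ℂ → ℂ}
    (hF : ∀ z, 0 < z.im → z ∉ E → DifferentiableAt ℂ F z) {z : ℂ}
    (hz : 0 < z.im) (hzE : z ∉ E) : AnalyticAt ℂ F z := by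
  rw [Complex.analyticAt_iff_eventually_differentiableAt]
  filter_upwards [ev_notin hEd hz hzE] with w hw
  exact hF w hw.1 hw.2

theorem mero_of {E : Set ℂ} (hEd : ∀ z : ℂ, 0 < z.im → ∀ᶠ w in 𝓝[≠] z, w ∉ E) {F : ℂ → ℂ}
    (hF : ∀ z, 0 < z.im → z ∉ E → DifferentiableAt ℂ F z)
    (hE : ∀ e ∈ E, 0 < e.im → ∃ φ : ℂ → ℂ, AnalyticAt ℂ φ e ∧ (∀ᶠ w in 𝓝[≠] e, φ w ≠ 0) ∧
      (∃ K : ℝ, ∀ᶠ w in 𝓝[≠] e, ‖F w * φ w‖ ≤ K)) {z : ℂ}
    (hz : 0 < z.im) : MeromorphicAt F z := by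
  by_cases hzE : z ∈ E
  · obtain ⟨φ, hφ, hφ0, K, hK⟩ := hE z hzE hz
    have hφd : ∀ᶠ w in 𝓝[≠] z, DifferentiableAt ℂ φ w :=
      eventually_nhdsWithin_of_eventually_nhds
        (Complex.analyticAt_iff_eventually_differentiableAt.1 hφ)
    have hall : ∀ᶠ w in 𝓝[≠] z, DifferentiableAt ℂ (fun w => F w * φ w) w ∧
        ‖F w * φ w‖ ≤ K := by
      filter_upwards [hEd z hz, im_ev hz, hK, hφd] with w h1 h2 h3 h4
      exact ⟨(hF w h2 h1).mul h4, h3⟩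
    have hs := eventually_nhdsWithin_iff.1 hall
    set s : Set ℂ := {w | w ∈ ({z}ᶜ : Set ℂ) → DifferentiableAt ℂ (fun w => F w * φ w) w ∧
        ‖F w * φ w‖ ≤ K} with hsdef
    have hs' : s ∈ 𝓝 z := hs
    have key := Complex.differentiableOn_update_limUnder_of_bddAbove (f := fun w => F w * φ w) hs'
      (by
        intro w hw
        exact (hw.1 hw.2).1.differentiableWithinAt)
      (by
        refine ⟨K, ?_⟩
        rintro _ ⟨w, hw, rfl⟩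
        exact (hw.1 hw.2).2)
    have hg := (key.analyticAt hs').meromorphicAt
    have hq := hg.div hφ.meromorphicAt
    refine hq.congr ?_
    filter_upwards [hφ0, self_mem_nhdsWithin] with w h1 h2
    simp only [Pi.div_apply]
    rw [Function.update_of_ne h2]
    field_simp
  · exact (analytic_of hEd hF hz hzE).meromorphicAt

theorem halfplane_conn : IsConnected {z : ℂ | 0 < z.im} :=
  ⟨⟨Complex.I, by simp⟩, (convex_halfSpace_im_gt 0).isPreconnected⟩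

/-- zeros of `G` are isolated -/
theorem zeros_isolated {G : ℂ → ℂ} (hG : MeromorphicOn G {z : ℂ | 0 < z.im}) {z1 : ℂ}
    (hz1 : 0 < z1.im) (h1 : ¬ ∀ᶠ w in 𝓝[≠] z1, G w = 0) {z : ℂ} (hz : 0 < z.im) :
    ∀ᶠ w in 𝓝[≠] z, G w ≠ 0 := by
  have h2 : meromorphicOrderAt G z1 ≠ ⊤ := by
    rw [Ne, meromorphicOrderAt_eq_top_iff]
    exact h1
  have h3 := hG.meromorphicOrderAt_ne_top_of_isPreconnected halfplane_conn.isPreconnected
    (show z1 ∈ {z : ℂ | 0 < z.im} from hz1) (show z ∈ {z : ℂ | 0 < z.im} from hz) h2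
  exact (meromorphicOrderAt_ne_top_iff_eventually_ne_zero (hG z hz)).1 h3

open UpperHalfPlane in
theorem tendsto_coe_ne (z : ℍ) : Tendsto (fun w : ℍ => (w : ℂ)) (𝓝[≠] z) (𝓝[≠] (z : ℂ)) := by
  refine ContinuousWithinAt.tendsto_nhdsWithin continuous_coe.continuousWithinAt ?_
  intro w hw h
  exact hw (UpperHalfPlane.ext h)

open UpperHalfPlane in
theorem tendsto_smul_ne (g : Matrix.SpecialLinearGroup (Fin 2) ℝ) (z : ℍ) :
    Tendsto (fun w : ℍ => g • w) (𝓝[≠] z) (𝓝[≠] (g • z)) := by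
  refine ContinuousWithinAt.tendsto_nhdsWithin (continuous_const_smul g).continuousWithinAt ?_
  intro w hw h
  exact hw (MulAction.injective g h)

open UpperHalfPlane in
/-- target: `f = F / G` for two weight `2m` forms with bounded Wronskian.  The forms may have poles at the
points of the relatively discrete countable set `E`. -/
theorem pair_fn (Γ : Subgroup (Matrix.SpecialLinearGroup (Fin 2) ℝ)) (m : ℕ) (E : Set ℂ)
    (hEc : E.Countable) (hEd : ∀ z : ℂ, 0 < z.im → ∀ᶠ w in 𝓝[≠] z, w ∉ E)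
    (F G : ℂ → ℂ)
    (hF : ∀ z, 0 < z.im → z ∉ E → DifferentiableAt ℂ F z)
    (hG : ∀ z, 0 < z.im → z ∉ E → DifferentiableAt ℂ G z)
    (hFa : ∀ g ∈ Γ, ∀ z : ℍ, (z : ℂ) ∉ E → ((g • z : ℍ) : ℂ) ∉ E →
      F ((g • z : ℍ) : ℂ) = (denom g z) ^ (2 * m) * F (z : ℂ))
    (hGa : ∀ g ∈ Γ, ∀ z : ℍ, (z : ℂ) ∉ E → ((g • z : ℍ) : ℂ) ∉ E →
      G ((g • z : ℍ) : ℂ) = (denom g z) ^ (2 * m) * G (z : ℂ))
    (C : ℝ)
    (hWb : ∀ z : ℂ, 0 < z.im → z ∉ E →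
      z.im * ‖deriv F z * G z - F z * deriv G z‖ ≤ C * (‖F z‖ ^ 2 + ‖G z‖ ^ 2))
    (hW : ∃ z : ℂ, 0 < z.im ∧ z ∉ E ∧ deriv F z * G z - F z * deriv G z ≠ 0)
    (hE : ∀ e ∈ E, 0 < e.im → ∃ φ : ℂ → ℂ, AnalyticAt ℂ φ e ∧ (∀ᶠ w in 𝓝[≠] e, φ w ≠ 0) ∧
      (∃ K : ℝ, ∀ᶠ w in 𝓝[≠] e, ‖F w * φ w‖ ≤ K ∧ ‖G w * φ w‖ ≤ K)) :
    ∃ f : ℂ → ℂ, MeromorphicOn f {z : ℂ | 0 < z.im} ∧
      (∃ z w : UpperHalfPlane, AnalyticAt ℂ f (z : ℂ) ∧ AnalyticAt ℂ f (w : ℂ) ∧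
        f (z : ℂ) ≠ f (w : ℂ)) ∧
      (∀ g ∈ Γ, ∀ z : UpperHalfPlane, AnalyticAt ℂ f (z : ℂ) →
        AnalyticAt ℂ f ((g • z : UpperHalfPlane) : ℂ) →
        f ((g • z : UpperHalfPlane) : ℂ) = f (z : ℂ)) ∧
      ∃ M : ℝ, ∀ z : UpperHalfPlane, AnalyticAt ℂ f (z : ℂ) →
        z.im * ‖deriv f (z : ℂ)‖ / (1 + ‖f (z : ℂ)‖ ^ 2) ≤ M := by
  have hFm : ∀ z : ℂ, 0 < z.im → MeromorphicAt F z := fun z hz =>
    mero_of hEd hF (fun e he hez => by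
      obtain ⟨φ, h1, h2, K, hK⟩ := hE e he hez
      exact ⟨φ, h1, h2, K, hK.mono fun w hw => hw.1⟩) hz
  have hGm : ∀ z : ℂ, 0 < z.im → MeromorphicAt G z := fun z hz =>
    mero_of hEd hG (fun e he hez => by
      obtain ⟨φ, h1, h2, K, hK⟩ := hE e he hez
      exact ⟨φ, h1, h2, K, hK.mono fun w hw => hw.2⟩) hz
  obtain ⟨z1, hz1, hz1E, hz1W⟩ := hW
  have hFa1 := analytic_of hEd hF hz1 hz1E
  have hGa1 := analytic_of hEd hG hz1 hz1E
  have hGn1 : ¬ ∀ᶠ w in 𝓝[≠] z1, G w = 0 := by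
    intro h
    have h0 : ∀ᶠ w in 𝓝 z1, G w = 0 := hGa1.frequently_zero_iff_eventually_zero.1 h.frequently
    have h1 : G =ᶠ[𝓝 z1] fun _ => (0 : ℂ) := h0
    apply hz1W
    rw [h1.deriv_eq, h1.eq_of_nhds]
    simp
  have hGne : ∀ z : ℂ, 0 < z.im → ∀ᶠ w in 𝓝[≠] z, G w ≠ 0 := fun z hz =>
    zeros_isolated (fun z hz => hGm z hz) hz1 hGn1 hz
  -- derivative of the quotient
  have hder : ∀ w : ℂ, 0 < w.im → w ∉ E → G w ≠ 0 →
      HasDerivAt (fun z => F z / G z) ((deriv F w * G w - F w * deriv G w) / G w ^ 2) w := by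
    intro w h1 h2 h3
    exact (hF w h1 h2).hasDerivAt.div (hG w h1 h2).hasDerivAt h3
  have hana : ∀ w : ℂ, 0 < w.im → w ∉ E → G w ≠ 0 → AnalyticAt ℂ (fun z => F z / G z) w := by
    intro w h1 h2 h3
    exact (analytic_of hEd hF h1 h2).div (analytic_of hEd hG h1 h2) h3
  have hbd : ∀ w : ℂ, 0 < w.im → w ∉ E → G w ≠ 0 →
      w.im * ‖deriv (fun z => F z / G z) w‖ / (1 + ‖F w / G w‖ ^ 2) ≤ C := by
    intro w h1 h2 h3
    rw [(hder w h1 h2 h3).deriv]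
    have h4 := hWb w h1 h2
    have h5 : 0 < ‖G w‖ := norm_pos_iff.2 h3
    rw [norm_div, norm_div, norm_pow]
    rw [div_le_iff₀ (by positivity)]
    have e1 : w.im * (‖deriv F w * G w - F w * deriv G w‖ / ‖G w‖ ^ 2) =
        (w.im * ‖deriv F w * G w - F w * deriv G w‖) / ‖G w‖ ^ 2 := by ring
    rw [e1, div_le_iff₀ (by positivity)]
    refine h4.trans (le_of_eq ?_)
    field_simp
    ring
  refine ⟨fun z => F z / G z, fun z hz => (hFm z hz).div (hGm z hz), ?_, ?_, C, ?_⟩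
  · -- nonconstant
    have hc : ∀ᶠ w in 𝓝 z1, deriv F w * G w - F w * deriv G w ≠ 0 := by
      have : ContinuousAt (fun w => deriv F w * G w - F w * deriv G w) z1 :=
        ((hFa1.deriv.continuousAt).mul hGa1.continuousAt).sub
          (hFa1.continuousAt.mul hGa1.deriv.continuousAt)
      exact this.eventually_ne hz1W
    obtain ⟨z2, ⟨⟨hz2W, hz2i, hz2E⟩, hz2G⟩⟩ := (((eventually_nhdsWithin_of_eventually_nhds
      (hc.and (ev_notin hEd hz1 hz1E))).and (hGne z1 hz1)).exists)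
    have hd2 := hder z2 hz2i hz2E hz2G
    have hne2 : (deriv F z2 * G z2 - F z2 * deriv G z2) / G z2 ^ 2 ≠ 0 :=
      div_ne_zero hz2W (pow_ne_zero _ hz2G)
    have hev := hd2.eventually_ne (c := F z2 / G z2) hne2
    obtain ⟨z3, ⟨⟨hz3a, hz3i, hz3E⟩, hz3G⟩⟩ := ((hev.and (eventually_nhdsWithin_of_eventually_nhds
      (ev_notin hEd hz2i hz2E))).and (hGne z2 hz2i)).exists
    exact ⟨⟨z3, hz3i⟩, ⟨z2, hz2i⟩, hana z3 hz3i hz3E hz3G, hana z2 hz2i hz2E hz2G, hz3a⟩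
  · -- invariance
    intro g hg z hfz hfgz
    have t1 : Tendsto (fun w : ℍ => F (w : ℂ) / G (w : ℂ)) (𝓝[≠] z) (𝓝 (F (z : ℂ) / G (z : ℂ))) :=
      (hfz.continuousAt.tendsto.mono_left nhdsWithin_le_nhds).comp (tendsto_coe_ne z)
    have t2 : Tendsto (fun w : ℍ => F ((g • w : ℍ) : ℂ) / G ((g • w : ℍ) : ℂ)) (𝓝[≠] z)
        (𝓝 (F ((g • z : ℍ) : ℂ) / G ((g • z : ℍ) : ℂ))) :=
      (hfgz.continuousAt.tendsto.mono_left nhdsWithin_le_nhds).comp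
        ((tendsto_coe_ne (g • z)).comp (tendsto_smul_ne g z))
    have e1 : ∀ᶠ w : ℍ in 𝓝[≠] z, (w : ℂ) ∉ E := (tendsto_coe_ne z).eventually (hEd _ z.2)
    have e2 : ∀ᶠ w : ℍ in 𝓝[≠] z, ((g • w : ℍ) : ℂ) ∉ E :=
      ((tendsto_coe_ne (g • z)).comp (tendsto_smul_ne g z)).eventually (hEd _ (g • z).2)
    have e3 : ∀ᶠ w : ℍ in 𝓝[≠] z, F ((g • w : ℍ) : ℂ) / G ((g • w : ℍ) : ℂ) =
        F (w : ℂ) / G (w : ℂ) := by
      filter_upwards [e1, e2] with w h1 h2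
      rw [hFa g hg w h1 h2, hGa g hg w h1 h2]
      have hd : denom g w ^ (2 * m) ≠ 0 := pow_ne_zero _ (denom_ne_zero _ w)
      exact mul_div_mul_left _ _ hd
    exact tendsto_nhds_unique (t2.congr' e3) t1
  · -- bound
    intro z hfz
    have hcont : ContinuousAt (fun w : ℂ => w.im * ‖deriv (fun z => F z / G z) w‖ /
        (1 + ‖F w / G w‖ ^ 2)) (z : ℂ) := by
      have c1 := hfz.continuousAt
      have c2 := hfz.deriv.continuousAt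
      refine ContinuousAt.div (Complex.continuous_im.continuousAt.mul c2.norm)
        (continuousAt_const.add (c1.norm.pow 2)) ?_
      positivity
    have hle : ∀ᶠ w in 𝓝[≠] (z : ℂ), w.im * ‖deriv (fun z => F z / G z) w‖ /
        (1 + ‖F w / G w‖ ^ 2) ≤ C := by
      filter_upwards [hEd _ z.2, im_ev z.2, hGne _ z.2] with w h1 h2 h3
      exact hbd w h2 h1 h3
    exact le_of_tendsto (hcont.tendsto.mono_left nhdsWithin_le_nhds) hle


end NF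

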