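import Pool.Agent.Helper369.NF.Defs
import Pool.Agent.Helper369.NF.J8a

open Filter Topology

namespace NF

/-- the complement of a countable set in the upper half plane is preconnected -/
theorem uhp_diff_preconn (E : Set ℂ) (hEc : E.Countable) :
    IsPreconnected {z : ℂ | 0 < z.im ∧ z ∉ E} := by
  set g : ℂ → ℂ := fun w => ⟨w.re, Real.exp w.im⟩ with hg
  have hgc : Continuous g := by
    have : g = fun w => (w.re : ℂ) + (Real.exp w.im : ℂ) * Complex.I := by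
      funext w
      apply Complex.ext <;> simp [hg, Complex.exp_ofReal_re]
    rw [this]
    fun_prop
  have hgi : Function.Injective g := by
    intro a b hab
    have h1 := congrArg Complex.re hab
    have h2 := congrArg Complex.im hab
    simp only [hg] at h1 h2
    exact Complex.ext h1 (Real.exp_injective h2)
  have hc : (g ⁻¹' E).Countable := hEc.preimage hgi
  have hr : 1 < Module.rank ℝ ℂ := by
    rw [Complex.rank_real_complex]; norm_num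
  have hp : IsPathConnected (g ⁻¹' E)ᶜ := hc.isPathConnected_compl_of_one_lt_rank hr
  have hi : IsPreconnected (g '' (g ⁻¹' E)ᶜ) :=
    hp.isConnected.isPreconnected.image _ hgc.continuousOn
  convert hi using 1
  ext z
  constructor
  · rintro ⟨hz, hzE⟩
    refine ⟨⟨z.re, Real.log z.im⟩, ?_, ?_⟩
    · simp only [Set.mem_compl_iff, Set.mem_preimage, hg]
      rw [Real.exp_log hz]
      exact hzE
    · simp only [hg]
      rw [Real.exp_log hz]
  · rintro ⟨w, hw, rfl⟩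
    exact ⟨by simp only [hg]; exact Real.exp_pos _, hw⟩

/-- vanishing Wronskian on an open preconnected set -/
theorem ratio_const (U : Set ℂ) (hU : IsOpen U) (hUc : IsPreconnected U) (f g : ℂ → ℂ)
    (hf : ∀ z ∈ U, DifferentiableAt ℂ f z) (hg : ∀ z ∈ U, DifferentiableAt ℂ g z)
    (hW : ∀ z ∈ U, deriv f z * g z - f z * deriv g z = 0) (z0 : ℂ) (hz0 : z0 ∈ U)
    (hgz : g z0 ≠ 0) : ∃ c : ℂ, ∀ z ∈ U, f z = c * g z := by
  have hfa : AnalyticOnNhd ℂ f U :=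
    (DifferentiableOn.analyticOnNhd (fun z hz => (hf z hz).differentiableWithinAt) hU)
  have hga : AnalyticOnNhd ℂ g U :=
    (DifferentiableOn.analyticOnNhd (fun z hz => (hg z hz).differentiableWithinAt) hU)
  -- a small ball
  have hne : ∀ᶠ z in 𝓝 z0, g z ≠ 0 := (hg z0 hz0).continuousAt.eventually_ne hgz
  obtain ⟨r, hr, hball⟩ := Metric.eventually_nhds_iff_ball.mp (hne.and (hU.mem_nhds hz0))
  refine ⟨f z0 / g z0, ?_⟩
  have hcont : ∀ z ∈ Metric.ball z0 r, f z = f z0 / g z0 * g z := by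
    intro z hz
    have hd : ∀ y ∈ Metric.ball z0 r, HasDerivAt (fun y => f y / g y) 0 y := by
      intro y hy
      have h1 := (hf y (hball y hy).2).hasDerivAt
      have h2 := (hg y (hball y hy).2).hasDerivAt
      have h3 := h1.div h2 (hball y hy).1
      rw [hW y (hball y hy).2, zero_div] at h3
      exact h3
    have hq : f z / g z = f z0 / g z0 := by
      apply Metric.isOpen_ball.is_const_of_deriv_eq_zero (𝕜 := ℂ)
        (f := fun y => f y / g y) (convex_ball z0 r).isPreconnected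
        (fun y hy => (hd y hy).differentiableAt.differentiableWithinAt) _ hz
        (Metric.mem_ball_self hr)
      intro y hy
      simpa using (hd y hy).deriv
    rw [← hq, div_mul_cancel₀ _ (hball z hz).1]
  have hev : f =ᶠ[𝓝 z0] fun z => f z0 / g z0 * g z := by
    filter_upwards [Metric.ball_mem_nhds z0 hr] with z hz using hcont z hz
  have hga' : AnalyticOnNhd ℂ (fun z => f z0 / g z0 * g z) U :=
    fun z hz => analyticAt_const.mul (hga z hz)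
  exact hfa.eqOn_of_preconnected_of_eventuallyEq hga' hUc hz0 hev

open UpperHalfPlane in
/-- target: from a pair of weight `2m` forms without common zeros and with bounded Wronskian (relative to
`|F 0|^2 + |F 1|^2`) to a nonconstant normal automorphic function.  The forms may have poles at the points of
the relatively discrete countable set `E`. -/
theorem final_fn (Γ : Subgroup (Matrix.SpecialLinearGroup (Fin 2) ℝ)) (m : ℕ) (E : Set ℂ)
    (hEc : E.Countable) (hEd : ∀ z : ℂ, 0 < z.im → ∀ᶠ w in 𝓝[≠] z, w ∉ E)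
    (F Q : Fin 2 → ℂ → ℂ)
    (hF : ∀ i z, 0 < z.im → z ∉ E → DifferentiableAt ℂ (F i) z)
    (hQ : ∀ i z, 0 < z.im → z ∉ E → DifferentiableAt ℂ (Q i) z)
    (hFa : ∀ i, ∀ g ∈ Γ, ∀ z : ℍ, (z : ℂ) ∉ E → ((g • z : ℍ) : ℂ) ∉ E →
      F i ((g • z : ℍ) : ℂ) = (denom g z) ^ (2 * m) * F i (z : ℂ))
    (hQa : ∀ i, ∀ g ∈ Γ, ∀ z : ℍ, (z : ℂ) ∉ E → ((g • z : ℍ) : ℂ) ∉ E →
      Q i ((g • z : ℍ) : ℂ) = (denom g z) ^ (2 * m) * Q i (z : ℂ))
    (hne : ∀ z : ℂ, 0 < z.im → z ∉ E → F 0 z ≠ 0 ∨ F 1 z ≠ 0)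
    (C : ℝ)
    (hW : ∀ z : ℂ, 0 < z.im → z ∉ E →
      z.im * ‖deriv (F 0) z * F 1 z - F 0 z * deriv (F 1) z‖ ≤ C * (‖F 0 z‖ ^ 2 + ‖F 1 z‖ ^ 2))
    (hWQ : ∀ i l, ∀ z : ℂ, 0 < z.im → z ∉ E →
      z.im * ‖deriv (F i) z * Q l z - F i z * deriv (Q l) z‖ ≤ C * (‖F 0 z‖ ^ 2 + ‖F 1 z‖ ^ 2))
    (hQi : ∃ z w : ℂ, 0 < z.im ∧ 0 < w.im ∧ z ∉ E ∧ w ∉ E ∧ Q 0 z * Q 1 w ≠ Q 0 w * Q 1 z)
    (hE : ∀ e ∈ E, 0 < e.im → ∃ φ : ℂ → ℂ, AnalyticAt ℂ φ e ∧ (∀ᶠ w in 𝓝[≠] e, φ w ≠ 0) ∧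
      (∃ K : ℝ, ∀ᶠ w in 𝓝[≠] e, (∀ i, ‖F i w * φ w‖ ≤ K) ∧ ∀ l, ‖Q l w * φ w‖ ≤ K)) :
    ∃ f : ℂ → ℂ, MeromorphicOn f {z : ℂ | 0 < z.im} ∧
      (∃ z w : UpperHalfPlane, AnalyticAt ℂ f (z : ℂ) ∧ AnalyticAt ℂ f (w : ℂ) ∧
        f (z : ℂ) ≠ f (w : ℂ)) ∧
      (∀ g ∈ Γ, ∀ z : UpperHalfPlane, AnalyticAt ℂ f (z : ℂ) →
        AnalyticAt ℂ f ((g • z : UpperHalfPlane) : ℂ) →
        f ((g • z : UpperHalfPlane) : ℂ) = f (z : ℂ)) ∧
      ∃ M : ℝ, ∀ z : UpperHalfPlane, AnalyticAt ℂ f (z : ℂ) →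
        z.im * ‖deriv f (z : ℂ)‖ / (1 + ‖f (z : ℂ)‖ ^ 2) ≤ M := by
  have hUo : IsOpen {z : ℂ | 0 < z.im ∧ z ∉ E} := by
    rw [isOpen_iff_mem_nhds]
    rintro z ⟨hz, hzE⟩
    have h1 : ∀ᶠ w in 𝓝 z, w ∉ E := by
      have := hEd z hz
      rw [eventually_nhdsWithin_iff] at this
      filter_upwards [this] with w hw
      by_cases hwz : w = z
      · rw [hwz]; exact hzE
      · exact hw hwz
    have h2 : ∀ᶠ w : ℂ in 𝓝 z, 0 < w.im :=
      (isOpen_lt continuous_const Complex.continuous_im).mem_nhds hz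
    exact h2.and h1
  have hUc := uhp_diff_preconn E hEc
  have hC : 0 ≤ C := by
    obtain ⟨z, w, hz, -, hzE, -, -⟩ := hQi
    have h1 := hW z hz hzE
    have h2 : 0 < ‖F 0 z‖ ^ 2 + ‖F 1 z‖ ^ 2 := by
      rcases hne z hz hzE with h | h
      · have := norm_pos_iff.mpr h
        positivity
      · have := norm_pos_iff.mpr h
        positivity
    have h3 : 0 ≤ C * (‖F 0 z‖ ^ 2 + ‖F 1 z‖ ^ 2) := le_trans (by positivity) h1
    exact nonneg_of_mul_nonneg_left h3 h2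
  by_cases hA : ∃ z : ℂ, 0 < z.im ∧ z ∉ E ∧ deriv (F 0) z * F 1 z - F 0 z * deriv (F 1) z ≠ 0
  · apply pair_fn Γ m E hEc hEd (F 0) (F 1) (hF 0) (hF 1) (hFa 0) (hFa 1) C hW hA
    intro e he hei
    obtain ⟨φ, h1, h2, K, h3⟩ := hE e he hei
    refine ⟨φ, h1, h2, K, ?_⟩
    filter_upwards [h3] with w hw using ⟨hw.1 0, hw.1 1⟩
  · push Not at hA
    have hA' : ∀ z ∈ {z : ℂ | 0 < z.im ∧ z ∉ E}, deriv (F 0) z * F 1 z - F 0 z * deriv (F 1) z = 0 :=
      fun z hz => hA z hz.1 hz.2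
    have hi : ∃ (i : Fin 2) (c : ℝ), 0 ≤ c ∧ ∀ z ∈ {z : ℂ | 0 < z.im ∧ z ∉ E}, F i z ≠ 0 ∧
        ‖F 0 z‖ ^ 2 + ‖F 1 z‖ ^ 2 ≤ (1 + c) * ‖F i z‖ ^ 2 := by
      by_cases h1 : ∀ z ∈ {z : ℂ | 0 < z.im ∧ z ∉ E}, F 1 z = 0
      · refine ⟨0, 0, le_refl _, fun z hz => ⟨?_, ?_⟩⟩
        · rcases hne z hz.1 hz.2 with h | h
          · exact h
          · exact absurd (h1 z hz) h
        · rw [h1 z hz]; simp
      · push Not at h1
        obtain ⟨z0, hz0, hz0'⟩ := h1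
        obtain ⟨c, hc⟩ := ratio_const _ hUo hUc (F 0) (F 1) (fun z hz => hF 0 z hz.1 hz.2)
          (fun z hz => hF 1 z hz.1 hz.2) hA' z0 hz0 hz0'
        refine ⟨1, ‖c‖ ^ 2, by positivity, fun z hz => ⟨?_, ?_⟩⟩
        · intro h0
          have := hc z hz
          rw [h0, mul_zero] at this
          rcases hne z hz.1 hz.2 with h | h
          · exact h this
          · exact h h0
        · rw [hc z hz, norm_mul]
          nlinarith
    obtain ⟨i, c, hc0, hi⟩ := hi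
    have hl : ∃ l : Fin 2, ∃ z : ℂ, 0 < z.im ∧ z ∉ E ∧
        deriv (F i) z * Q l z - F i z * deriv (Q l) z ≠ 0 := by
      by_contra hcon
      push Not at hcon
      obtain ⟨z, w, hz, hw, hzE, hwE, hne'⟩ := hQi
      have hq : ∀ l : Fin 2, ∃ c : ℂ, ∀ z ∈ {z : ℂ | 0 < z.im ∧ z ∉ E}, Q l z = c * F i z := by
        intro l
        apply ratio_const _ hUo hUc (Q l) (F i) (fun z hz => hQ l z hz.1 hz.2)
          (fun z hz => hF i z hz.1 hz.2) _ z ⟨hz, hzE⟩ (hi z ⟨hz, hzE⟩).1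
        intro y hy
        have := hcon l y hy.1 hy.2
        linear_combination (-1 : ℂ) * this
      obtain ⟨c0, h0⟩ := hq 0
      obtain ⟨c1, h1⟩ := hq 1
      apply hne'
      rw [h0 z ⟨hz, hzE⟩, h1 w ⟨hw, hwE⟩, h0 w ⟨hw, hwE⟩, h1 z ⟨hz, hzE⟩]
      ring
    obtain ⟨l, hl⟩ := hl
    apply pair_fn Γ m E hEc hEd (F i) (Q l) (hF i) (hQ l) (hFa i) (hQa l) (C * (1 + c)) _ hl
    · intro e he hei
      obtain ⟨φ, h1, h2, K, h3⟩ := hE e he hei
      refine ⟨φ, h1, h2, K, ?_⟩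
      filter_upwards [h3] with w hw using ⟨hw.1 i, hw.2 l⟩
    · intro z hz hzE
      have h1 := hWQ i l z hz hzE
      have h2 := (hi z ⟨hz, hzE⟩).2
      calc z.im * ‖deriv (F i) z * Q l z - F i z * deriv (Q l) z‖
          ≤ C * (‖F 0 z‖ ^ 2 + ‖F 1 z‖ ^ 2) := h1
        _ ≤ C * ((1 + c) * ‖F i z‖ ^ 2) := by gcongr
        _ ≤ C * ((1 + c) * (‖F i z‖ ^ 2 + ‖Q l z‖ ^ 2)) := by
            gcongr
            have : 0 ≤ ‖Q l z‖ ^ 2 := by positivity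
            linarith
        _ = C * (1 + c) * (‖F i z‖ ^ 2 + ‖Q l z‖ ^ 2) := by ring

end NF

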