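import Pool.Agent.Helper369.NF.Defs
import Pool.Agent.Helper369.NF.J4
import Pool.Agent.Helper369.NF.J7
import Pool.Agent.Helper369.NF.J8b

open MeasureTheory Filter Topology Metric

namespace NF

theorem Dom_open' (R r : ℝ) : IsOpen (Dom R r) := by
  unfold Dom
  rcases eq_or_ne r 0 with h | h
  · have : {q : ℂ | ‖q‖ < R ∧ (r = 0 ∨ r < R * ‖q‖)} = {q : ℂ | ‖q‖ < R} := by
      ext q; simp [h]
    rw [this]
    exact isOpen_lt continuous_norm continuous_const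
  · have : {q : ℂ | ‖q‖ < R ∧ (r = 0 ∨ r < R * ‖q‖)} = {q : ℂ | ‖q‖ < R} ∩ {q | r < R * ‖q‖} := by
      ext q; simp [h]
    rw [this]
    exact (isOpen_lt continuous_norm continuous_const).inter
      (isOpen_lt continuous_const (continuous_const.mul continuous_norm))

theorem mem_Dom_half' (R r : ℝ) (hR : 0 < R) (hr : 0 ≤ r) (hs : 64 ^ 2 * r ≤ R ^ 2) (q : ℂ)
    (h1 : Real.sqrt r ≤ ‖q‖) (h2 : ‖q‖ ≤ R / 16) : q ∈ Dom (R / 2) r := by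
  refine ⟨by linarith, ?_⟩
  rcases eq_or_lt_of_le hr with h | h
  · left; exact h.symm
  · right
    have hs0 : 0 < Real.sqrt r := Real.sqrt_pos.mpr h
    have hsq : Real.sqrt r * Real.sqrt r = r := Real.mul_self_sqrt hr
    have h3 : Real.sqrt r ≤ R / 64 := by
      rw [Real.sqrt_le_iff]
      refine ⟨by positivity, ?_⟩
      nlinarith
    nlinarith

theorem Dom_half_sub' (R r : ℝ) (hR : 0 < R) (q : ℂ) (h : q ∈ Dom (R / 2) r) : q ∈ Dom R r := by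
  obtain ⟨h1, h2⟩ := h
  refine ⟨by linarith, ?_⟩
  rcases h2 with h2 | h2
  · left; exact h2
  · right
    have := norm_nonneg q
    nlinarith

theorem wron' (f0 f1 φ g0 g1 κ : ℂ → ℂ) (z : ℂ)
    (hf0 : DifferentiableAt ℂ f0 z) (hf1 : DifferentiableAt ℂ f1 z) (hφ : DifferentiableAt ℂ φ z)
    (hκ : DifferentiableAt ℂ κ z) (hg0 : DifferentiableAt ℂ g0 (κ z))
    (hg1 : DifferentiableAt ℂ g1 (κ z))
    (h0 : ∀ᶠ w in 𝓝 z, f0 w * φ w = g0 (κ w)) (h1 : ∀ᶠ w in 𝓝 z, f1 w * φ w = g1 (κ w)) :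
    (deriv f0 z * f1 z - f0 z * deriv f1 z) * φ z ^ 2 =
      deriv κ z * (deriv g0 (κ z) * g1 (κ z) - g0 (κ z) * deriv g1 (κ z)) := by
  have key : ∀ f g : ℂ → ℂ, DifferentiableAt ℂ f z → DifferentiableAt ℂ g (κ z) →
      (∀ᶠ w in 𝓝 z, f w * φ w = g (κ w)) →
      deriv f z * φ z + f z * deriv φ z = deriv g (κ z) * deriv κ z := by
    intro f g hf hg h
    have a1 : HasDerivAt (fun w => f w * φ w) (deriv f z * φ z + f z * deriv φ z) z :=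
      hf.hasDerivAt.mul hφ.hasDerivAt
    have a2 : HasDerivAt (fun w => g (κ w)) (deriv g (κ z) * deriv κ z) z :=
      hg.hasDerivAt.comp z hκ.hasDerivAt
    have a3 : HasDerivAt (fun w => f w * φ w) (deriv g (κ z) * deriv κ z) z :=
      a2.congr_of_eventuallyEq h
    exact a1.unique a3
  have e0 := key f0 g0 hf0 hg0 h0
  have e1 := key f1 g1 hf1 hg1 h1
  have v0 : f0 z * φ z = g0 (κ z) := h0.self_of_nhds
  have v1 : f1 z * φ z = g1 (κ z) := h1.self_of_nhds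
  rw [← v0, ← v1]
  linear_combination (f1 z * φ z) * e0 - (f0 z * φ z) * e1

/-- local name for the finite level data -/
def GoodN {Γ : Subgroup (Matrix.SpecialLinearGroup (Fin 2) ℝ)} (S : PSys Γ) (K' c' : ℝ)
    (I : Finset S.J) (kk : ℝ) (c : Fin 2 → S.J → ℂ) (τ : S.J → ℝ) : Prop :=
  τ S.j0 = 0 ∧
      (∀ i ∈ I, ∀ j ∈ I, |τ i - τ j| ≤ - Real.log (S.M i j)) ∧
      ∀ i ∈ I, ∀ b : Bool,
        (∀ q ∈ Dom (S.R / 2) (S.r i), ∀ l, ‖∑ k ∈ I, c l k * S.p i b k q‖ ≤ K' * Real.exp (τ i)) ∧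
        (∀ q : ℂ, Real.sqrt (S.r i) ≤ ‖q‖ → ‖q‖ ≤ S.R / 16 →
          (∀ l, ‖deriv (fun q => ∑ k ∈ I, c l k * S.p i b k q) q‖ ≤ K' * Real.exp (τ i)) ∧
          c' * Real.exp (2 * τ i) ≤ ‖∑ k ∈ I, c 0 k * S.p i b k q‖ ^ 2 +
            ‖∑ k ∈ I, c 1 k * S.p i b k q‖ ^ 2 + kk)

def FNN {Γ : Subgroup (Matrix.SpecialLinearGroup (Fin 2) ℝ)} (S : PSys Γ)
    (I : Finset S.J) (c : Fin 2 → S.J → ℂ) (i : Fin 2) (z : ℂ) : ℂ :=
  ∑ k ∈ I, c i k * S.P k z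

section
variable {Γ : Subgroup (Matrix.SpecialLinearGroup (Fin 2) ℝ)} (S : PSys Γ)

theorem FNN_mul (I : Finset S.J) (c : Fin 2 → S.J → ℂ) (i : Fin 2) (j : S.J) (b : Bool)
    (w φw q : ℂ) (h : ∀ k, S.P k w * φw = S.p j b k q) :
    FNN S I c i w * φw = ∑ k ∈ I, c i k * S.p j b k q := by
  unfold FNN
  rw [Finset.sum_mul]
  refine Finset.sum_congr rfl fun k _ => ?_
  rw [← h k]; ring

theorem exp_tau_bds {K' c' : ℝ} {I : Finset S.J} {kk : ℝ} {c : Fin 2 → S.J → ℂ} {τ : S.J → ℝ}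
    (hG : GoodN S K' c' I kk c τ) (hj0 : S.j0 ∈ I) {j : S.J} (hj : j ∈ I) :
    S.M j S.j0 ≤ Real.exp (τ j) ∧ Real.exp (τ j) ≤ 1 / S.M j S.j0 := by
  obtain ⟨h0, h1, -⟩ := hG
  have h2 := h1 j hj S.j0 hj0
  rw [h0, sub_zero, abs_le] at h2
  have hM := S.M_pos j S.j0
  constructor
  · calc S.M j S.j0 = Real.exp (Real.log (S.M j S.j0)) := (Real.exp_log hM).symm
      _ ≤ _ := Real.exp_le_exp.mpr (by linarith)
  · calc Real.exp (τ j) ≤ Real.exp (-Real.log (S.M j S.j0)) := Real.exp_le_exp.mpr h2.2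
      _ = _ := by rw [Real.exp_neg, Real.exp_log hM, one_div]

theorem L1 {K' c' : ℝ} (hK' : 0 < K') {I : Finset S.J} {kk : ℝ} {c : Fin 2 → S.J → ℂ}
    {τ : S.J → ℝ}
    (hG : GoodN S K' c' I kk c τ) (hj0 : S.j0 ∈ I) {j : S.J} (hj : j ∈ I) (b : Bool) (i : Fin 2)
    (w φw q : ℂ) (h : ∀ k, S.P k w * φw = S.p j b k q) (hq : q ∈ Dom (S.R / 2) (S.r j)) :
    ‖FNN S I c i w * φw‖ ≤ K' * (1 / S.M j S.j0) := by
  rw [FNN_mul S I c i j b w φw q h]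
  refine ((hG.2.2 j hj b).1 q hq i).trans ?_
  exact mul_le_mul_of_nonneg_left (exp_tau_bds S hG hj0 hj).2 hK'.le

theorem L2 {K' c' : ℝ} (hc' : 0 < c') {I : Finset S.J} {kk : ℝ} {c : Fin 2 → S.J → ℂ}
    {τ : S.J → ℝ}
    (hG : GoodN S K' c' I kk c τ) (hj0 : S.j0 ∈ I) {j : S.J} (hj : j ∈ I) (b : Bool)
    (w φw q : ℂ) (h : ∀ k, S.P k w * φw = S.p j b k q)
    (hq1 : Real.sqrt (S.r j) ≤ ‖q‖) (hq2 : ‖q‖ ≤ S.R / 16) :
    c' * Real.exp (τ j) ^ 2 ≤ (‖FNN S I c 0 w‖ ^ 2 + ‖FNN S I c 1 w‖ ^ 2) * ‖φw‖ ^ 2 + kk ∧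
    c' * S.M j S.j0 ^ 2 ≤ (‖FNN S I c 0 w‖ ^ 2 + ‖FNN S I c 1 w‖ ^ 2) * ‖φw‖ ^ 2 + kk := by
  have h1 := ((hG.2.2 j hj b).2 q hq1 hq2).2
  rw [← FNN_mul S I c 0 j b w φw q h, ← FNN_mul S I c 1 j b w φw q h, norm_mul, norm_mul,
    mul_pow, mul_pow, ← add_mul] at h1
  have h2 : Real.exp (2 * τ j) = Real.exp (τ j) ^ 2 := by
    rw [two_mul, Real.exp_add]; ring
  rw [h2] at h1
  refine ⟨h1, le_trans ?_ h1⟩
  have := (exp_tau_bds S hG hj0 hj).1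
  have hM := S.M_pos j S.j0
  exact mul_le_mul_of_nonneg_left (pow_le_pow_left₀ hM.le this 2) hc'.le

theorem sum_diffAt (I : Finset S.J) (c : S.J → ℂ) (j : S.J) (b : Bool) (q : ℂ)
    (hq : q ∈ Dom S.R (S.r j)) :
    DifferentiableAt ℂ (fun q => ∑ k ∈ I, c k * S.p j b k q) q := by
  refine DifferentiableAt.fun_sum fun k _ => ?_
  refine DifferentiableAt.const_mul ?_ _
  exact (S.p_diff j b k).differentiableAt ((Dom_open' _ _).mem_nhds hq)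

theorem L3 {K' c' : ℝ} (hK' : 0 < K') (hc' : 0 < c') {I : Finset S.J} {kk : ℝ}
    {c : Fin 2 → S.J → ℂ} {τ : S.J → ℝ}
    (hG : GoodN S K' c' I kk c τ) (hj0 : S.j0 ∈ I) {j : S.J} (hj : j ∈ I) (b : Bool)
    (z : ℂ) (hz : 0 < z.im) (φ κ : ℂ → ℂ) (hκa : DifferentiableAt ℂ κ z)
    (hφa : DifferentiableAt ℂ φ z)
    (hF : ∀ i, DifferentiableAt ℂ (FNN S I c i) z)
    (h : ∀ᶠ w in 𝓝 z, ∀ k, S.P k w * φ w = S.p j b k (κ w))
    (hq1 : Real.sqrt (S.r j) ≤ ‖κ z‖) (hq2 : ‖κ z‖ ≤ S.R / 16)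
    (hC0 : z.im * ‖deriv κ z‖ ≤ S.C0) :
    (z.im * ‖deriv (FNN S I c 0) z * FNN S I c 1 z - FNN S I c 0 z * deriv (FNN S I c 1) z‖) *
      ‖φ z‖ ^ 2 ≤
      2 * S.C0 * K' ^ 2 / c' * ((‖FNN S I c 0 z‖ ^ 2 + ‖FNN S I c 1 z‖ ^ 2) * ‖φ z‖ ^ 2 + kk) := by
  have hqm : κ z ∈ Dom (S.R / 2) (S.r j) :=
    mem_Dom_half' _ _ S.R_pos (S.r_nonneg j) (S.r_small j) _ hq1 hq2
  have hqm' := Dom_half_sub' _ _ S.R_pos _ hqm
  have hw := wron' (FNN S I c 0) (FNN S I c 1) φ (fun q => ∑ k ∈ I, c 0 k * S.p j b k q)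
    (fun q => ∑ k ∈ I, c 1 k * S.p j b k q) κ z (hF 0) (hF 1) hφa hκa
    (sum_diffAt S I (c 0) j b _ hqm') (sum_diffAt S I (c 1) j b _ hqm')
    (h.mono fun w hw => FNN_mul S I c 0 j b w (φ w) (κ w) hw)
    (h.mono fun w hw => FNN_mul S I c 1 j b w (φ w) (κ w) hw)
  have hL2 := (L2 S hc' hG hj0 hj b z (φ z) (κ z) h.self_of_nhds hq1 hq2).1
  obtain ⟨hb1, hb2⟩ := hG.2.2 j hj b
  have g0 := hb1 (κ z) hqm 0
  have g1 := hb1 (κ z) hqm 1
  have d0 := (hb2 (κ z) hq1 hq2).1 0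
  have d1 := (hb2 (κ z) hq1 hq2).1 1
  set G0 := ∑ k ∈ I, c 0 k * S.p j b k (κ z)
  set G1 := ∑ k ∈ I, c 1 k * S.p j b k (κ z)
  set D0 := deriv (fun q => ∑ k ∈ I, c 0 k * S.p j b k q) (κ z)
  set D1 := deriv (fun q => ∑ k ∈ I, c 1 k * S.p j b k q) (κ z)
  set t := Real.exp (τ j)
  have ht : 0 < t := Real.exp_pos _
  have hn := congrArg norm hw
  rw [norm_mul, norm_mul, norm_pow] at hn
  have hC0' : 0 ≤ S.C0 := le_trans (by positivity) hC0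
  have hX : ‖D0 * G1 - G0 * D1‖ ≤ 2 * (K' * t) ^ 2 := by
    calc ‖D0 * G1 - G0 * D1‖ ≤ ‖D0 * G1‖ + ‖G0 * D1‖ := norm_sub_le _ _
      _ = ‖D0‖ * ‖G1‖ + ‖G0‖ * ‖D1‖ := by rw [norm_mul, norm_mul]
      _ ≤ (K' * t) * (K' * t) + (K' * t) * (K' * t) := by
          gcongr
      _ = _ := by ring
  calc _ = (z.im * ‖deriv κ z‖) * ‖D0 * G1 - G0 * D1‖ := by
          rw [mul_assoc, hn]; ring
    _ ≤ S.C0 * (2 * (K' * t) ^ 2) := by
          gcongr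
    _ = 2 * S.C0 * K' ^ 2 / c' * (c' * t ^ 2) := by
          field_simp
    _ ≤ _ := by
          gcongr

theorem L4 {K' c' C4 : ℝ} (hK' : 0 < K') (hc' : 0 < c') (hC4 : 0 < C4)
    (hda : ∀ r : ℝ, 0 ≤ r → 16 ^ 2 * r ≤ S.R ^ 2 →
    ∀ (h : ℂ → ℂ) (B : ℝ), DifferentiableOn ℂ h (Dom S.R r) → (∀ q ∈ Dom S.R r, ‖h q‖ ≤ B) →
      ∀ q : ℂ, Real.sqrt r ≤ ‖q‖ → ‖q‖ ≤ S.R / 4 → ‖deriv h q‖ ≤ C4 * B)
    {I : Finset S.J} {kk : ℝ}
    {c : Fin 2 → S.J → ℂ} {τ : S.J → ℝ}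
    (hG : GoodN S K' c' I kk c τ) (hj0 : S.j0 ∈ I) {j : S.J} (hj : j ∈ I) (b : Bool)
    (z : ℂ) (hz : 0 < z.im) (φ κ : ℂ → ℂ) (hκa : DifferentiableAt ℂ κ z)
    (hφa : DifferentiableAt ℂ φ z)
    (hF : ∀ i, DifferentiableAt ℂ (FNN S I c i) z)
    (i l : Fin 2) (hQd : DifferentiableAt ℂ (S.Q l) z)
    (h : ∀ᶠ w in 𝓝 z, ∀ k, S.P k w * φ w = S.p j b k (κ w))
    (hQ : ∀ᶠ w in 𝓝 z, S.Q l w * φ w = S.s l j b (κ w))
    (hq1 : Real.sqrt (S.r j) ≤ ‖κ z‖) (hq2 : ‖κ z‖ ≤ S.R / 16)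
    (hC0 : z.im * ‖deriv κ z‖ ≤ S.C0) :
    (z.im * ‖deriv (FNN S I c i) z * S.Q l z - FNN S I c i z * deriv (S.Q l) z‖) *
      ‖φ z‖ ^ 2 ≤
      S.C0 * K' * S.K * (1 + C4) / c' *
        ((‖FNN S I c 0 z‖ ^ 2 + ‖FNN S I c 1 z‖ ^ 2) * ‖φ z‖ ^ 2 + kk) := by
  have hqm : κ z ∈ Dom (S.R / 2) (S.r j) :=
    mem_Dom_half' _ _ S.R_pos (S.r_nonneg j) (S.r_small j) _ hq1 hq2
  have hqm' := Dom_half_sub' _ _ S.R_pos _ hqm
  have hw := wron' (FNN S I c i) (S.Q l) φ (fun q => ∑ k ∈ I, c i k * S.p j b k q)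
    (S.s l j b) κ z (hF i) hQd hφa hκa
    (sum_diffAt S I (c i) j b _ hqm')
    ((S.s_diff l j b).differentiableAt ((Dom_open' _ _).mem_nhds hqm'))
    (h.mono fun w hw => FNN_mul S I c i j b w (φ w) (κ w) hw) hQ
  have hL2 := (L2 S hc' hG hj0 hj b z (φ z) (κ z) h.self_of_nhds hq1 hq2).1
  obtain ⟨hb1, hb2⟩ := hG.2.2 j hj b
  have g0 := hb1 (κ z) hqm i
  have d0 := (hb2 (κ z) hq1 hq2).1 i
  have g1 := S.s_bd l j b (κ z) hqm'
  have d1 := hda (S.r j) (S.r_nonneg j) (by nlinarith [S.r_small j, S.r_nonneg j]) (S.s l j b)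
    (S.K * S.M j S.j0) (S.s_diff l j b) (S.s_bd l j b) (κ z) hq1 (by
      have := S.R_pos
      linarith)
  have hMt := (exp_tau_bds S hG hj0 hj).1
  have hM := S.M_pos j S.j0
  have hK0 : 0 ≤ S.K := by
    by_contra hneg
    push Not at hneg
    have := norm_nonneg (S.s l j b (κ z))
    nlinarith
  set G0 := ∑ k ∈ I, c i k * S.p j b k (κ z)
  set G1 := S.s l j b (κ z)
  set D0 := deriv (fun q => ∑ k ∈ I, c i k * S.p j b k q) (κ z)
  set D1 := deriv (S.s l j b) (κ z)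
  set t := Real.exp (τ j)
  have ht : 0 < t := Real.exp_pos _
  have g1' : ‖G1‖ ≤ S.K * t := g1.trans (mul_le_mul_of_nonneg_left hMt hK0)
  have d1' : ‖D1‖ ≤ C4 * (S.K * t) :=
    d1.trans (mul_le_mul_of_nonneg_left (mul_le_mul_of_nonneg_left hMt hK0) hC4.le)
  have hn := congrArg norm hw
  rw [norm_mul, norm_mul, norm_pow] at hn
  have hC0' : 0 ≤ S.C0 := le_trans (by positivity) hC0
  have hX : ‖D0 * G1 - G0 * D1‖ ≤ K' * S.K * (1 + C4) * t ^ 2 := by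
    calc ‖D0 * G1 - G0 * D1‖ ≤ ‖D0 * G1‖ + ‖G0 * D1‖ := norm_sub_le _ _
      _ = ‖D0‖ * ‖G1‖ + ‖G0‖ * ‖D1‖ := by rw [norm_mul, norm_mul]
      _ ≤ (K' * t) * (S.K * t) + (K' * t) * (C4 * (S.K * t)) := by
          gcongr
      _ = _ := by ring
  calc _ = (z.im * ‖deriv κ z‖) * ‖D0 * G1 - G0 * D1‖ := by
          rw [mul_assoc, hn]; ring
    _ ≤ S.C0 * (K' * S.K * (1 + C4) * t ^ 2) := by
          gcongr
    _ = S.C0 * K' * S.K * (1 + C4) / c' * (c' * t ^ 2) := by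
          field_simp
    _ ≤ _ := by
          gcongr

theorem exists_lim' {ι : Type} (U : Ultrafilter ι) (f : ι → ℂ) (B : ℝ)
    (h : ∀ᶠ n in (U : Filter ι), ‖f n‖ ≤ B) : ∃ x, Tendsto f (U : Filter ι) (𝓝 x) := by
  have hc : IsCompact (closedBall (0:ℂ) B) := isCompact_closedBall _ _
  obtain ⟨x, -, hx⟩ := hc.ultrafilter_le_nhds (U.map f) (by
    rw [Ultrafilter.coe_map, le_principal_iff, mem_map]
    filter_upwards [h] with n hn
    simpa using hn)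
  exact ⟨x, hx⟩

end


theorem FNN_diff {Γ : Subgroup (Matrix.SpecialLinearGroup (Fin 2) ℝ)} (S : PSys Γ)
    (I : Finset S.J) (c : Fin 2 → S.J → ℂ) (i : Fin 2) (z : ℂ) (hz : 0 < z.im) (hE : z ∉ S.E) :
    DifferentiableAt ℂ (FNN S I c i) z := by
  unfold FNN
  refine DifferentiableAt.fun_sum fun k _ => ?_
  exact (S.P_diff k z hz hE).const_mul _

/-- target -/
theorem main_of_psys {Γ : Subgroup (Matrix.SpecialLinearGroup (Fin 2) ℝ)} (S : PSys Γ)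
    (hS : FiniteLevel S) :
    ∃ f : ℂ → ℂ, MeromorphicOn f {z : ℂ | 0 < z.im} ∧
      (∃ z w : UpperHalfPlane, AnalyticAt ℂ f (z : ℂ) ∧ AnalyticAt ℂ f (w : ℂ) ∧
        f (z : ℂ) ≠ f (w : ℂ)) ∧
      (∀ g ∈ Γ, ∀ z : UpperHalfPlane, AnalyticAt ℂ f (z : ℂ) →
        AnalyticAt ℂ f ((g • z : UpperHalfPlane) : ℂ) →
        f ((g • z : UpperHalfPlane) : ℂ) = f (z : ℂ)) ∧
      ∃ M : ℝ, ∀ z : UpperHalfPlane, AnalyticAt ℂ f (z : ℂ) →
        z.im * ‖deriv f (z : ℂ)‖ / (1 + ‖f (z : ℂ)‖ ^ 2) ≤ M := by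
  classical
  obtain ⟨K', c', hK', hc', hfin⟩ := hS
  have key : ∀ N : Finset S.J × ℕ, ∃ (c : Fin 2 → S.J → ℂ) (τ : S.J → ℝ),
      GoodN S K' c' (insert S.j0 N.1) (1 / ((N.2 : ℝ) + 1)) c τ := fun N =>
    hfin (insert S.j0 N.1) (Finset.mem_insert_self _ _) (1 / ((N.2 : ℝ) + 1)) (by positivity)
  choose c τ hG using key
  obtain ⟨C4, hC4, hda⟩ := deriv_annulus S.R S.R_pos
  let U : Ultrafilter (Finset S.J × ℕ) := Ultrafilter.of atTop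
  have hU : (U : Filter (Finset S.J × ℕ)) ≤ atTop := Ultrafilter.of_le _
  have hkk : Tendsto (fun N : Finset S.J × ℕ => 1 / ((N.2 : ℝ) + 1))
      (U : Filter (Finset S.J × ℕ)) (𝓝 0) := by
    have h1 : Tendsto (fun N : Finset S.J × ℕ => N.2) atTop atTop := by
      rw [← prod_atTop_atTop_eq]; exact tendsto_snd
    exact ((tendsto_one_div_add_atTop_nhds_zero_nat (𝕜 := ℝ)).comp h1).mono_left hU
  have hmem : ∀ j : S.J, ∀ᶠ N in (U : Filter (Finset S.J × ℕ)), j ∈ insert S.j0 N.1 := by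
    intro j
    refine hU ?_
    filter_upwards [eventually_ge_atTop (({j}, 0) : Finset S.J × ℕ)] with N hN
    have : ({j} : Finset S.J) ⊆ N.1 := hN.1
    exact Finset.mem_insert_of_mem (this (Finset.mem_singleton_self j))
  have hj0 : ∀ N : Finset S.J × ℕ, S.j0 ∈ insert S.j0 N.1 := fun N => Finset.mem_insert_self _ _
  let FN : (Finset S.J × ℕ) → Fin 2 → ℂ → ℂ := fun N i z => FNN S (insert S.j0 N.1) (c N) i z
  have hV : ∀ z : ℂ, 0 < z.im → z ∉ S.E → ∀ᶠ w in 𝓝 z, 0 < w.im ∧ w ∉ S.E := by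
    intro z hz hzE
    have h1 : ∀ᶠ w : ℂ in 𝓝 z, 0 < w.im :=
      (isOpen_lt continuous_const Complex.continuous_im).mem_nhds hz
    have h2 : ∀ᶠ w in 𝓝 z, w ∉ S.E := by
      have := S.E_disc z hz
      rw [eventually_nhdsWithin_iff] at this
      filter_upwards [this] with w hw
      by_cases h : w = z
      · rw [h]; exact hzE
      · exact hw h
    exact h1.and h2
  have hbd : ∀ z : ℂ, 0 < z.im → z ∉ S.E → ∃ ρ > 0, ∃ B : ℝ,
      (∀ w ∈ ball z ρ, 0 < w.im ∧ w ∉ S.E) ∧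
      ∀ᶠ N in (U : Filter (Finset S.J × ℕ)), ∀ w ∈ ball z ρ, ∀ i, ‖FN N i w‖ ≤ B := by
    intro z hz hzE
    obtain ⟨j, b, κ, φ, hκ, hφ, hφ0, hid, hq1, hq2, hC0⟩ := S.cover z hz hzE
    have hqm : κ z ∈ Dom (S.R / 2) (S.r j) :=
      mem_Dom_half' _ _ S.R_pos (S.r_nonneg j) (S.r_small j) _ hq1 hq2
    have e1 : ∀ᶠ w in 𝓝 z, κ w ∈ Dom (S.R / 2) (S.r j) :=
      hκ.continuousAt.eventually_mem ((Dom_open' _ _).mem_nhds hqm)
    have e2 : ∀ᶠ w in 𝓝 z, ‖φ z‖ / 2 < ‖φ w‖ := by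
      have : Tendsto (fun w => ‖φ w‖) (𝓝 z) (𝓝 ‖φ z‖) := hφ.continuousAt.norm
      exact this.eventually_const_lt (by have := norm_pos_iff.mpr hφ0; linarith)
    obtain ⟨ρ, hρ, hball⟩ := Metric.eventually_nhds_iff_ball.mp (((hV z hz hzE).and hid).and (e1.and e2))
    refine ⟨ρ, hρ, K' * (1 / S.M j S.j0) / (‖φ z‖ / 2), fun w hw => (hball w hw).1.1, ?_⟩
    filter_upwards [hmem j] with N hN w hw i
    obtain ⟨⟨-, h1, -⟩, h2, h3⟩ := hball w hw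
    have h4 := L1 S hK' (hG N) (hj0 N) hN b i w (φ w) (κ w) h1 h2
    have hφp := norm_pos_iff.mpr hφ0
    rw [le_div_iff₀ (by positivity)]
    refine le_trans ?_ h4
    rw [norm_mul]
    exact mul_le_mul_of_nonneg_left h3.le (norm_nonneg _)
  let F : Fin 2 → ℂ → ℂ := fun i z => limUnder (U : Filter (Finset S.J × ℕ)) (fun N => FN N i z)
  have hlim : ∀ z : ℂ, 0 < z.im → z ∉ S.E → ∀ i,
      Tendsto (fun N => FN N i z) (U : Filter (Finset S.J × ℕ)) (𝓝 (F i z)) := by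
    intro z hz hzE i
    obtain ⟨ρ, hρ, B, -, hB⟩ := hbd z hz hzE
    exact tendsto_nhds_limUnder (exists_lim' U _ B (hB.mono fun N hN => hN z (mem_ball_self hρ) i))
  have hhol : ∀ z : ℂ, 0 < z.im → z ∉ S.E → ∀ i, DifferentiableAt ℂ (F i) z ∧
      Tendsto (fun N => deriv (FN N i) z) (U : Filter (Finset S.J × ℕ)) (𝓝 (deriv (F i) z)) := by
    intro z hz hzE i
    obtain ⟨ρ, hρ, B, hVb, hB⟩ := hbd z hz hzE
    refine limit_holo (U : Filter (Finset S.J × ℕ)) (fun N => FN N i) (F i) z ρ B hρ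
      (Eventually.of_forall fun N w hw => ?_) (hB.mono fun N hN w hw => hN w hw i)
      (fun w hw => hlim w (hVb w hw).1 (hVb w hw).2 i)
    exact (FNN_diff S _ (c N) i w (hVb w hw).1 (hVb w hw).2).differentiableWithinAt
  -- the limit of the norm square expression
  have hsq : ∀ z : ℂ, 0 < z.im → z ∉ S.E → ∀ x : ℝ,
      Tendsto (fun N => (‖FN N 0 z‖ ^ 2 + ‖FN N 1 z‖ ^ 2) * x + 1 / ((N.2 : ℝ) + 1))
        (U : Filter (Finset S.J × ℕ)) (𝓝 ((‖F 0 z‖ ^ 2 + ‖F 1 z‖ ^ 2) * x + 0)) := by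
    intro z hz hzE x
    exact ((((hlim z hz hzE 0).norm.pow 2).add ((hlim z hz hzE 1).norm.pow 2)).mul_const x).add hkk
  set CC : ℝ := (2 * S.C0 * K' ^ 2 / c') + (S.C0 * K' * S.K * (1 + C4) / c') with hCC
  have hC0' : ∀ z : ℂ, 0 < z.im → z ∉ S.E → 0 ≤ S.C0 ∧ 0 ≤ S.K := by
    intro z hz hzE
    obtain ⟨j, b, κ, φ, hκ, hφ, hφ0, hid, hq1, hq2, hC0⟩ := S.cover z hz hzE
    have hqm : κ z ∈ Dom (S.R / 2) (S.r j) :=
      mem_Dom_half' _ _ S.R_pos (S.r_nonneg j) (S.r_small j) _ hq1 hq2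
    have hqm' := Dom_half_sub' _ _ S.R_pos _ hqm
    have h1 : 0 ≤ S.C0 := le_trans (by positivity) hC0
    refine ⟨h1, ?_⟩
    have g1 := S.s_bd 0 j b (κ z) hqm'
    have hM := S.M_pos j S.j0
    by_contra hneg
    push Not at hneg
    have := norm_nonneg (S.s 0 j b (κ z))
    nlinarith
  refine final_fn Γ S.m S.E S.E_count S.E_disc F S.Q (fun i z hz hE => (hhol z hz hE i).1)
    (fun l z hz hE => S.Q_diff l z hz hE) ?_ (fun l g hg z _ _ => S.Q_aut l g hg z) ?_ CC ?_ ?_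
    S.Q_ind ?_
  · -- automorphy
    intro i g hg z hz hgz
    have h1 := hlim (z : ℂ) z.im_pos hz i
    have h2 := hlim ((g • z : UpperHalfPlane) : ℂ) (g • z).im_pos hgz i
    have h3 : (fun N => FN N i ((g • z : UpperHalfPlane) : ℂ)) =
        fun N => (UpperHalfPlane.denom g z) ^ (2 * S.m) * FN N i (z : ℂ) := by
      funext N
      simp only [FN, FNN, Finset.mul_sum]
      refine Finset.sum_congr rfl fun k _ => ?_
      rw [S.P_aut k g hg z]; ring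
    rw [h3] at h2
    exact tendsto_nhds_unique h2 (h1.const_mul _)
  · -- nonvanishing
    intro z hz hzE
    obtain ⟨j, b, κ, φ, hκ, hφ, hφ0, hid, hq1, hq2, hC0⟩ := S.cover z hz hzE
    have hle : c' * S.M j S.j0 ^ 2 ≤ (‖F 0 z‖ ^ 2 + ‖F 1 z‖ ^ 2) * ‖φ z‖ ^ 2 + 0 := by
      refine ge_of_tendsto (hsq z hz hzE _) ?_
      filter_upwards [hmem j] with N hN
      exact (L2 S hc' (hG N) (hj0 N) hN b z (φ z) (κ z) (hid.self_of_nhds).1 hq1 hq2).2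
    have hM := S.M_pos j S.j0
    by_contra hcon
    push Not at hcon
    rw [hcon.1, hcon.2] at hle
    simp at hle
    nlinarith [mul_pos hc' (pow_pos hM 2)]
  · -- Wronskian
    intro z hz hzE
    obtain ⟨j, b, κ, φ, hκ, hφ, hφ0, hid, hq1, hq2, hC0⟩ := S.cover z hz hzE
    have hφp : 0 < ‖φ z‖ ^ 2 := pow_pos (norm_pos_iff.mpr hφ0) 2
    have hle : (z.im * ‖deriv (F 0) z * F 1 z - F 0 z * deriv (F 1) z‖) * ‖φ z‖ ^ 2 ≤
        2 * S.C0 * K' ^ 2 / c' * ((‖F 0 z‖ ^ 2 + ‖F 1 z‖ ^ 2) * ‖φ z‖ ^ 2 + 0) := by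
      refine le_of_tendsto_of_tendsto
        (f := fun N => (z.im * ‖deriv (FN N 0) z * FN N 1 z - FN N 0 z * deriv (FN N 1) z‖) * ‖φ z‖ ^ 2)
        (((((((hhol z hz hzE 0).2.mul (hlim z hz hzE 1)).sub
        ((hlim z hz hzE 0).mul (hhol z hz hzE 1).2)).norm).const_mul _).mul_const _))
        ((hsq z hz hzE _).const_mul _) ?_
      filter_upwards [hmem j] with N hN
      exact L3 S hK' hc' (hG N) (hj0 N) hN b z hz φ κ hκ.differentiableAt hφ.differentiableAt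
        (fun i => FNN_diff S _ (c N) i z hz hzE) (hid.mono fun w hw => hw.1) hq1 hq2 hC0
    obtain ⟨hc0, hk0⟩ := hC0' z hz hzE
    have hle2 : z.im * ‖deriv (F 0) z * F 1 z - F 0 z * deriv (F 1) z‖ ≤
        2 * S.C0 * K' ^ 2 / c' * (‖F 0 z‖ ^ 2 + ‖F 1 z‖ ^ 2) := by
      refine le_of_mul_le_mul_right ?_ hφp
      rw [add_zero] at hle
      linarith
    refine hle2.trans ?_
    refine mul_le_mul_of_nonneg_right ?_ (by positivity)
    rw [hCC]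
    have : 0 ≤ S.C0 * K' * S.K * (1 + C4) / c' := by positivity
    linarith
  · -- Wronskian with Q
    intro i l z hz hzE
    obtain ⟨j, b, κ, φ, hκ, hφ, hφ0, hid, hq1, hq2, hC0⟩ := S.cover z hz hzE
    have hφp : 0 < ‖φ z‖ ^ 2 := pow_pos (norm_pos_iff.mpr hφ0) 2
    have hle : (z.im * ‖deriv (F i) z * S.Q l z - F i z * deriv (S.Q l) z‖) * ‖φ z‖ ^ 2 ≤
        S.C0 * K' * S.K * (1 + C4) / c' *
          ((‖F 0 z‖ ^ 2 + ‖F 1 z‖ ^ 2) * ‖φ z‖ ^ 2 + 0) := by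
      refine le_of_tendsto_of_tendsto
        (f := fun N => (z.im * ‖deriv (FN N i) z * S.Q l z - FN N i z * deriv (S.Q l) z‖) * ‖φ z‖ ^ 2)
        (((((((hhol z hz hzE i).2.mul_const (S.Q l z))).sub
        ((hlim z hz hzE i).mul_const (deriv (S.Q l) z))).norm).const_mul _).mul_const _)
        ((hsq z hz hzE _).const_mul _) ?_
      filter_upwards [hmem j] with N hN
      exact L4 S hK' hc' hC4 hda (hG N) (hj0 N) hN b z hz φ κ hκ.differentiableAt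
        hφ.differentiableAt (fun i => FNN_diff S _ (c N) i z hz hzE) i l (S.Q_diff l z hz hzE)
        (hid.mono fun w hw => hw.1) (hid.mono fun w hw => hw.2 l) hq1 hq2 hC0
    obtain ⟨hc0, hk0⟩ := hC0' z hz hzE
    have hle2 : z.im * ‖deriv (F i) z * S.Q l z - F i z * deriv (S.Q l) z‖ ≤
        S.C0 * K' * S.K * (1 + C4) / c' * (‖F 0 z‖ ^ 2 + ‖F 1 z‖ ^ 2) := by
      refine le_of_mul_le_mul_right ?_ hφp
      rw [add_zero] at hle
      linarith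
    refine hle2.trans ?_
    refine mul_le_mul_of_nonneg_right ?_ (by positivity)
    rw [hCC]
    have : 0 ≤ 2 * S.C0 * K' ^ 2 / c' := by positivity
    linarith
  · -- points of E
    intro e he hei
    obtain ⟨j, b, κ, φ, hφ, hev⟩ := S.coverE e he hei
    refine ⟨φ, hφ, hev.mono fun w hw => hw.1, K' * (1 / S.M j S.j0) + |S.K| * S.M j S.j0, ?_⟩
    have hM := S.M_pos j S.j0
    have him : ∀ᶠ w : ℂ in 𝓝[≠] e, 0 < w.im :=
      mem_nhdsWithin_of_mem_nhds ((isOpen_lt continuous_const Complex.continuous_im).mem_nhds hei)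
    filter_upwards [hev, him, S.E_disc e hei] with w hw hwi hwE
    obtain ⟨h0, hq1, hq2, hP, hQ⟩ := hw
    have hqm : κ w ∈ Dom (S.R / 2) (S.r j) :=
      mem_Dom_half' _ _ S.R_pos (S.r_nonneg j) (S.r_small j) _ hq1 hq2
    have hqm' := Dom_half_sub' _ _ S.R_pos _ hqm
    constructor
    · intro i
      have h1 : ‖F i w * φ w‖ ≤ K' * (1 / S.M j S.j0) := by
        refine le_of_tendsto (((hlim w hwi hwE i).mul_const (φ w)).norm) ?_
        filter_upwards [hmem j] with N hN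
        exact L1 S hK' (hG N) (hj0 N) hN b i w (φ w) (κ w) hP hqm
      refine h1.trans ?_
      have : 0 ≤ |S.K| * S.M j S.j0 := by positivity
      linarith
    · intro l
      rw [hQ l]
      refine (S.s_bd l j b _ hqm').trans ?_
      have h1 : S.K * S.M j S.j0 ≤ |S.K| * S.M j S.j0 :=
        mul_le_mul_of_nonneg_right (le_abs_self _) hM.le
      have h2 : 0 ≤ K' * (1 / S.M j S.j0) := by positivity
      linarith
end NF

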