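import Pool.Agent.Helper369.NF.Defs

open MeasureTheory

namespace NF


open Set Filter

theorem lapR (b : ℝ) (hb : 0 < b) (c : ℝ) (u : ℂ) :
    Integrable (fun z : ℂ => Real.exp (-b * ‖z‖ ^ 2 + c * inner ℝ u z)) ∧
    ∫ z : ℂ, Real.exp (-b * ‖z‖ ^ 2 + c * inner ℝ u z)
      = Real.pi / b * Real.exp (c ^ 2 * ‖u‖ ^ 2 / (4 * b)) := by
  have hb' : 0 < ((b : ℝ) : ℂ).re := by simpa using hb
  have h1 := GaussianFourier.integrable_cexp_neg_mul_sq_norm_add (V := ℂ) hb' (c : ℂ) u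
  have h2 := GaussianFourier.integral_cexp_neg_mul_sq_norm_add (V := ℂ) hb' (c : ℂ) u
  have h3 : ∀ z : ℂ, Complex.exp (-(b : ℂ) * (‖z‖ : ℂ) ^ 2 + (c : ℂ) * ((inner ℝ u z : ℝ) : ℂ))
      = ((Real.exp (-b * ‖z‖ ^ 2 + c * inner ℝ u z) : ℝ) : ℂ) := by
    intro z
    push_cast
    rfl
  simp only [h3] at h1 h2
  refine ⟨?_, ?_⟩
  · exact h1.re.congr (Eventually.of_forall (fun z => Complex.ofReal_re _))
  · have h5 : ((∫ z : ℂ, Real.exp (-b * ‖z‖ ^ 2 + c * inner ℝ u z) : ℝ) : ℂ) =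
        ∫ z : ℂ, ((Real.exp (-b * ‖z‖ ^ 2 + c * inner ℝ u z) : ℝ) : ℂ) := integral_complex_ofReal.symm
    rw [← h5] at h2
    have h4 : ((Real.pi : ℂ) / (b : ℂ)) ^ ((Module.finrank ℝ ℂ : ℂ) / 2) *
        Complex.exp ((c : ℂ) ^ 2 * (‖u‖ : ℂ) ^ 2 / (4 * (b : ℂ)))
        = ((Real.pi / b * Real.exp (c ^ 2 * ‖u‖ ^ 2 / (4 * b)) : ℝ) : ℂ) := by
      rw [Complex.finrank_real_complex]
      have : ((2 : ℕ) : ℂ) / 2 = 1 := by norm_num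
      rw [this, Complex.cpow_one]
      push_cast
      rfl
    rw [h4] at h2
    exact_mod_cast h2

noncomputable def gd (z : ℂ) : ℝ := Real.pi⁻¹ * Real.exp (-‖z‖ ^ 2)

theorem gd_nonneg (z : ℂ) : 0 ≤ gd z := by
  unfold gd
  have := Real.pi_pos
  positivity

theorem gd_cont : Continuous gd := by
  unfold gd
  fun_prop

noncomputable def nu : Measure ℂ := volume.withDensity (fun z => ENNReal.ofReal (gd z))

theorem gd_integral : Integrable gd ∧ ∫ z, gd z = 1 := by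
  have h := lapR 1 one_pos 0 0
  have e : ∀ z : ℂ, Real.exp (-1 * ‖z‖ ^ 2 + 0 * inner ℝ (0 : ℂ) z) = Real.exp (-‖z‖ ^ 2) := by
    intro z
    congr 1
    ring
  simp only [e] at h
  refine ⟨h.1.const_mul _, ?_⟩
  unfold gd
  rw [integral_const_mul, h.2]
  simp

theorem integral_nu {E : Type*} [NormedAddCommGroup E] [NormedSpace ℝ E] (f : ℂ → E) :
    ∫ z, f z ∂nu = ∫ z, gd z • f z := by
  unfold nu
  rw [integral_withDensity_eq_integral_toReal_smul (gd_cont.measurable.ennreal_ofReal)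
    (Eventually.of_forall (fun z => ENNReal.ofReal_lt_top))]
  refine integral_congr_ae (Eventually.of_forall (fun z => ?_))
  simp only [ENNReal.toReal_ofReal (gd_nonneg z)]

theorem integrable_nu {E : Type*} [NormedAddCommGroup E] [NormedSpace ℝ E] (f : ℂ → E) :
    Integrable f nu ↔ Integrable (fun z => gd z • f z) := by
  unfold nu
  rw [integrable_withDensity_iff_integrable_smul' (gd_cont.measurable.ennreal_ofReal)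
    (Eventually.of_forall (fun z => ENNReal.ofReal_lt_top))]
  refine integrable_congr (Eventually.of_forall (fun z => ?_))
  simp only [ENNReal.toReal_ofReal (gd_nonneg z)]

instance nu_prob : IsProbabilityMeasure nu := by
  constructor
  unfold nu
  rw [withDensity_apply _ MeasurableSet.univ, Measure.restrict_univ,
    ← ofReal_integral_eq_lintegral_ofReal gd_integral.1 (Eventually.of_forall gd_nonneg), gd_integral.2]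
  simp

theorem second : Integrable (fun z : ℂ => ‖z‖ ^ 2) nu ∧ ∫ z : ℂ, ‖z‖ ^ 2 ∂nu = 1 := by
  have h := Complex.integral_rpow_mul_exp_neg_rpow (p := 2) (q := 2) (by norm_num) (by norm_num)
  have hG : Real.Gamma ((2 + 2) / 2) = 1 := by
    have : ((2:ℝ) + 2) / 2 = 1 + 1 := by norm_num
    rw [this, Real.Gamma_add_one one_ne_zero, Real.Gamma_one]
    norm_num
  have hv : ∫ z : ℂ, ‖z‖ ^ (2:ℝ) * Real.exp (-‖z‖ ^ (2:ℝ)) = Real.pi := by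
    rw [h, hG]
    ring
  have e : ∀ z : ℂ, gd z • ‖z‖ ^ 2 = Real.pi⁻¹ * (‖z‖ ^ (2:ℝ) * Real.exp (-‖z‖ ^ (2:ℝ))) := by
    intro z
    unfold gd
    have h2 : ‖z‖ ^ (2:ℝ) = ‖z‖ ^ 2 := by
      rw [← Real.rpow_natCast]
      norm_num
    rw [h2, smul_eq_mul]
    ring
  have hi : Integrable (fun z : ℂ => ‖z‖ ^ (2:ℝ) * Real.exp (-‖z‖ ^ (2:ℝ))) := by
    by_contra hc
    rw [integral_undef hc] at hv
    exact Real.pi_ne_zero hv.symm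
  rw [integrable_nu, integral_nu]
  simp only [e]
  refine ⟨hi.const_mul _, ?_⟩
  rw [integral_const_mul, hv]
  exact inv_mul_cancel₀ Real.pi_ne_zero

theorem gd_even (z : ℂ) : gd (-z) = gd z := by
  unfold gd
  rw [norm_neg]

theorem inner_integrable (u : ℂ) : Integrable (fun z : ℂ => (inner ℝ u z : ℝ)) nu := by
  have h1 : Integrable (fun z : ℂ => ‖u‖ * (1 + ‖z‖ ^ 2)) nu :=
    ((integrable_const 1).add second.1).const_mul _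
  refine h1.mono' (by fun_prop) (Eventually.of_forall (fun z => ?_))
  calc ‖(inner ℝ u z : ℝ)‖ ≤ ‖u‖ * ‖z‖ := norm_inner_le_norm u z
    _ ≤ ‖u‖ * (1 + ‖z‖ ^ 2) := by
      refine mul_le_mul_of_nonneg_left ?_ (norm_nonneg _)
      nlinarith [sq_nonneg (‖z‖ - 1), sq_nonneg ‖z‖, norm_nonneg z]

theorem inner_mean (u : ℂ) : ∫ z : ℂ, (inner ℝ u z : ℝ) ∂nu = 0 := by
  rw [integral_nu]
  have h := integral_neg_eq_self (fun z : ℂ => gd z • (inner ℝ u z : ℝ)) (volume : Measure ℂ)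
  simp only [gd_even, inner_neg_right, smul_neg] at h
  rw [integral_neg] at h
  linarith

theorem norm_expand (a w z : ℂ) :
    ‖a + w * z‖ ^ 2 = ‖a‖ ^ 2 + 2 * inner ℝ (star w * a) z + ‖w‖ ^ 2 * ‖z‖ ^ 2 := by
  rw [Complex.sq_norm, Complex.sq_norm, Complex.sq_norm, Complex.sq_norm]
  rw [Complex.inner]
  simp only [Complex.normSq_apply, Complex.add_re, Complex.add_im, Complex.mul_re, Complex.mul_im,
    map_mul, Complex.star_def, Complex.conj_re, Complex.conj_im]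
  ring

theorem moment (a w : ℂ) : Integrable (fun z : ℂ => ‖a + w * z‖ ^ 2) nu ∧
    ∫ z : ℂ, ‖a + w * z‖ ^ 2 ∂nu = ‖a‖ ^ 2 + ‖w‖ ^ 2 := by
  simp only [norm_expand]
  have i1 : Integrable (fun z : ℂ => ‖a‖ ^ 2 + 2 * (inner ℝ (star w * a) z : ℝ)) nu :=
    (integrable_const _).add ((inner_integrable _).const_mul 2)
  have i2 : Integrable (fun z : ℂ => ‖w‖ ^ 2 * ‖z‖ ^ 2) nu := second.1.const_mul _
  refine ⟨i1.add i2, ?_⟩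
  rw [integral_add i1 i2, integral_add (integrable_const _) ((inner_integrable _).const_mul 2),
    integral_const_mul, integral_const_mul, inner_mean, second.2]
  simp

theorem lap1 (a w : ℂ) (t : ℝ) (ht : 0 ≤ t) :
    ∫ z : ℂ, Real.exp (-t * ‖a + w * z‖ ^ 2) ∂nu
      = (1 + t * ‖w‖ ^ 2)⁻¹ * Real.exp (-(t * ‖a‖ ^ 2 / (1 + t * ‖w‖ ^ 2))) := by
  have hW : 0 < 1 + t * ‖w‖ ^ 2 := by positivity
  rw [integral_nu]
  have e : ∀ z : ℂ, gd z • Real.exp (-t * ‖a + w * z‖ ^ 2) =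
      (Real.pi⁻¹ * Real.exp (-t * ‖a‖ ^ 2)) *
        Real.exp (-(1 + t * ‖w‖ ^ 2) * ‖z‖ ^ 2 + (-2 * t) * inner ℝ (star w * a) z) := by
    intro z
    unfold gd
    rw [norm_expand, smul_eq_mul, mul_assoc, mul_assoc, ← Real.exp_add, ← Real.exp_add]
    congr 2
    ring
  simp only [e]
  rw [integral_const_mul, (lapR _ hW _ _).2]
  have hn : ‖star w * a‖ = ‖w‖ * ‖a‖ := by
    rw [norm_mul, norm_star]
  rw [hn]
  have hpi := Real.pi_ne_zero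
  have e2 : Real.pi⁻¹ * Real.exp (-t * ‖a‖ ^ 2) * (Real.pi / (1 + t * ‖w‖ ^ 2) *
      Real.exp ((-2 * t) ^ 2 * (‖w‖ * ‖a‖) ^ 2 / (4 * (1 + t * ‖w‖ ^ 2)))) =
      (1 + t * ‖w‖ ^ 2)⁻¹ * (Real.exp (-t * ‖a‖ ^ 2) *
        Real.exp ((-2 * t) ^ 2 * (‖w‖ * ‖a‖) ^ 2 / (4 * (1 + t * ‖w‖ ^ 2)))) := by
    field_simp
  rw [e2, ← Real.exp_add]
  congr 2
  field_simp
  ring

noncomputable def mu2 : Measure (ℂ × ℂ) := nu.prod nu

instance mu2_prob : IsProbabilityMeasure mu2 := by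
  unfold mu2
  infer_instance

theorem lap2 (a b w : ℂ) (t : ℝ) (ht : 0 ≤ t) :
    ∫ x : ℂ × ℂ, Real.exp (-t * (‖a + w * x.1‖ ^ 2 + ‖b + w * x.2‖ ^ 2)) ∂mu2
      = ((1 + t * ‖w‖ ^ 2) ^ 2)⁻¹ *
        Real.exp (-((‖a‖ ^ 2 + ‖b‖ ^ 2) * (t / (1 + t * ‖w‖ ^ 2)))) := by
  have e : ∀ x : ℂ × ℂ, Real.exp (-t * (‖a + w * x.1‖ ^ 2 + ‖b + w * x.2‖ ^ 2)) =
      Real.exp (-t * ‖a + w * x.1‖ ^ 2) * Real.exp (-t * ‖b + w * x.2‖ ^ 2) := by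
    intro x
    rw [← Real.exp_add]
    congr 1
    ring
  simp only [e]
  unfold mu2
  rw [integral_prod_mul (fun z : ℂ => Real.exp (-t * ‖a + w * z‖ ^ 2))
    (fun z : ℂ => Real.exp (-t * ‖b + w * z‖ ^ 2)), lap1 a w t ht, lap1 b w t ht]
  rw [mul_mul_mul_comm, ← Real.exp_add, ← mul_inv, ← sq]
  congr 2
  ring

theorem swap (a b w : ℂ) (κ : ℝ) (hκ : 0 < κ) :
    Integrable (fun t : ℝ => Real.exp (-κ * t) * (((1 + t * ‖w‖ ^ 2) ^ 2)⁻¹ *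
        Real.exp (-((‖a‖ ^ 2 + ‖b‖ ^ 2) * (t / (1 + t * ‖w‖ ^ 2)))))) (volume.restrict (Ioi 0)) ∧
    ∫ x : ℂ × ℂ, 1 / (‖a + w * x.1‖ ^ 2 + ‖b + w * x.2‖ ^ 2 + κ) ∂mu2
      = ∫ t in Ioi (0 : ℝ), Real.exp (-κ * t) * (((1 + t * ‖w‖ ^ 2) ^ 2)⁻¹ *
        Real.exp (-((‖a‖ ^ 2 + ‖b‖ ^ 2) * (t / (1 + t * ‖w‖ ^ 2))))) := by
  have hexp : IntegrableOn (fun t : ℝ => Real.exp (-κ * t)) (Ioi 0) :=
    integrableOn_exp_mul_Ioi (by linarith) 0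
  have h1 : ∀ x : ℂ × ℂ, 1 / (‖a + w * x.1‖ ^ 2 + ‖b + w * x.2‖ ^ 2 + κ) =
      ∫ t in Ioi (0 : ℝ), Real.exp (-κ * t) *
        Real.exp (-t * (‖a + w * x.1‖ ^ 2 + ‖b + w * x.2‖ ^ 2)) := by
    intro x
    have hp : 0 < ‖a + w * x.1‖ ^ 2 + ‖b + w * x.2‖ ^ 2 + κ := by positivity
    have h := integral_exp_mul_Ioi (a := -(‖a + w * x.1‖ ^ 2 + ‖b + w * x.2‖ ^ 2 + κ))
      (by linarith) 0
    have e : ∀ t : ℝ, Real.exp (-κ * t) *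
        Real.exp (-t * (‖a + w * x.1‖ ^ 2 + ‖b + w * x.2‖ ^ 2)) =
        Real.exp (-(‖a + w * x.1‖ ^ 2 + ‖b + w * x.2‖ ^ 2 + κ) * t) := by
      intro t
      rw [← Real.exp_add]
      congr 1
      ring
    simp only [e]
    rw [h]
    simp only [mul_zero, Real.exp_zero]
    rw [neg_div_neg_eq]
  have h2 : Integrable (Function.uncurry (fun (x : ℂ × ℂ) (t : ℝ) => Real.exp (-κ * t) *
        Real.exp (-t * (‖a + w * x.1‖ ^ 2 + ‖b + w * x.2‖ ^ 2)))) (mu2.prod (volume.restrict (Ioi 0))) := by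
    have hd : Integrable (fun p : (ℂ × ℂ) × ℝ => (1 : ℝ) * Real.exp (-κ * p.2))
        (mu2.prod (volume.restrict (Ioi 0))) :=
      Integrable.mul_prod (integrable_const (1:ℝ)) hexp
    refine hd.mono' (by
      unfold Function.uncurry
      fun_prop) ?_
    have : ∀ᵐ p : (ℂ × ℂ) × ℝ ∂(mu2.prod (volume.restrict (Ioi 0))), p.2 ∈ Ioi (0:ℝ) := by
      have h3 : ∀ᵐ t ∂(volume.restrict (Ioi (0:ℝ))), t ∈ Ioi (0:ℝ) := ae_restrict_mem measurableSet_Ioi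
      exact Measure.quasiMeasurePreserving_snd.ae h3
    filter_upwards [this] with p hp
    have hp' : 0 < p.2 := hp
    unfold Function.uncurry
    simp only
    rw [Real.norm_eq_abs, abs_of_pos (by positivity), one_mul]
    refine mul_le_of_le_one_right (Real.exp_nonneg _) ?_
    rw [Real.exp_le_one_iff]
    have : 0 ≤ p.2 * (‖a + w * p.1.1‖ ^ 2 + ‖b + w * p.1.2‖ ^ 2) := by positivity
    linarith
  have h4 : ∀ t ∈ Ioi (0 : ℝ), ∫ x : ℂ × ℂ, Real.exp (-κ * t) *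
        Real.exp (-t * (‖a + w * x.1‖ ^ 2 + ‖b + w * x.2‖ ^ 2)) ∂mu2 =
      Real.exp (-κ * t) * (((1 + t * ‖w‖ ^ 2) ^ 2)⁻¹ *
        Real.exp (-((‖a‖ ^ 2 + ‖b‖ ^ 2) * (t / (1 + t * ‖w‖ ^ 2))))) := by
    intro t ht
    rw [integral_const_mul, lap2 a b w t (le_of_lt ht)]
  refine ⟨?_, ?_⟩
  · have h5 := h2.integral_prod_right
    refine h5.congr ?_
    refine (ae_restrict_iff' measurableSet_Ioi).2 (Eventually.of_forall (fun t ht => ?_))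
    exact h4 t ht
  · simp only [h1]
    rw [integral_integral_swap h2]
    exact setIntegral_congr_fun measurableSet_Ioi h4

theorem sder (W : ℝ) (hW : 0 ≤ W) (t : ℝ) (ht : 0 ≤ t) :
    HasDerivAt (fun t : ℝ => t / (1 + t * W)) (((1 + t * W) ^ 2)⁻¹) t := by
  have h0 : 1 + t * W ≠ 0 := by positivity
  have h1 : HasDerivAt (fun t : ℝ => 1 + t * W) W t := by
    have := ((hasDerivAt_id t).mul_const W).const_add 1
    simpa using this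
  have h2 := (hasDerivAt_id t).div h1 h0
  have e : ((1 + t * W) ^ 2)⁻¹ = (1 * (1 + t * W) - id t * W) / (1 + t * W) ^ 2 := by
    simp only [id]
    rw [inv_eq_one_div]
    congr 1
    ring
  rw [e]
  exact h2

theorem slim (W : ℝ) (hW : 0 < W) :
    Tendsto (fun t : ℝ => t / (1 + t * W)) atTop (nhds W⁻¹) := by
  have h1 : Tendsto (fun t : ℝ => 1 + t * W) atTop atTop :=
    tendsto_atTop_add_const_left _ _ (tendsto_id.atTop_mul_const hW)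
  have h2 : Tendsto (fun t : ℝ => W⁻¹ - W⁻¹ * (1 + t * W)⁻¹) atTop (nhds (W⁻¹ - W⁻¹ * 0)) :=
    tendsto_const_nhds.sub (tendsto_const_nhds.mul (tendsto_inv_atTop_zero.comp h1))
  rw [mul_zero, sub_zero] at h2
  refine h2.congr' ?_
  filter_upwards [eventually_ge_atTop (0:ℝ)] with t ht
  have : 1 + t * W ≠ 0 := by positivity
  field_simp
  ring

theorem bound2 (a b w : ℂ) (κ : ℝ) (hκ : 0 < κ) (hw : w ≠ 0) :
    ∫ x : ℂ × ℂ, 1 / (‖a + w * x.1‖ ^ 2 + ‖b + w * x.2‖ ^ 2 + κ) ∂mu2 ≤ 1 / ‖w‖ ^ 2 := by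
  have hW : 0 < ‖w‖ ^ 2 := by positivity
  rw [(swap a b w κ hκ).2]
  have hpos : ∀ t ∈ Ioi (0:ℝ), 0 ≤ ((1 + t * ‖w‖ ^ 2) ^ 2)⁻¹ := by
    intro t ht
    positivity
  have hint := integral_Ioi_of_hasDerivAt_of_nonneg' (a := 0)
    (g := fun t : ℝ => t / (1 + t * ‖w‖ ^ 2)) (g' := fun t : ℝ => ((1 + t * ‖w‖ ^ 2) ^ 2)⁻¹)
    (fun t ht => sder _ hW.le t ht) hpos (slim _ hW)
  have hint2 := integrableOn_Ioi_deriv_of_nonneg' (a := 0)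
    (g := fun t : ℝ => t / (1 + t * ‖w‖ ^ 2)) (g' := fun t : ℝ => ((1 + t * ‖w‖ ^ 2) ^ 2)⁻¹)
    (fun t ht => sder _ hW.le t ht) hpos (slim _ hW)
  have h1 : ∫ t in Ioi (0 : ℝ), Real.exp (-κ * t) * (((1 + t * ‖w‖ ^ 2) ^ 2)⁻¹ *
        Real.exp (-((‖a‖ ^ 2 + ‖b‖ ^ 2) * (t / (1 + t * ‖w‖ ^ 2))))) ≤
      ∫ t in Ioi (0 : ℝ), ((1 + t * ‖w‖ ^ 2) ^ 2)⁻¹ := by
    refine setIntegral_mono_on (swap a b w κ hκ).1 hint2 measurableSet_Ioi ?_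
    intro t ht
    have ht' : 0 < t := ht
    have e1 : Real.exp (-κ * t) ≤ 1 := by
      rw [Real.exp_le_one_iff]
      nlinarith
    have e2 : Real.exp (-((‖a‖ ^ 2 + ‖b‖ ^ 2) * (t / (1 + t * ‖w‖ ^ 2)))) ≤ 1 := by
      rw [Real.exp_le_one_iff]
      have : 0 ≤ (‖a‖ ^ 2 + ‖b‖ ^ 2) * (t / (1 + t * ‖w‖ ^ 2)) := by positivity
      linarith
    calc _ ≤ 1 * (((1 + t * ‖w‖ ^ 2) ^ 2)⁻¹ * 1) := by
          refine mul_le_mul e1 ?_ (by positivity) (by norm_num)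
          exact mul_le_mul_of_nonneg_left e2 (hpos t ht)
      _ = _ := by ring
  refine h1.trans ?_
  rw [hint]
  simp

theorem bound1 (a b w : ℂ) (κ : ℝ) (hκ : 0 < κ) :
    ∫ x : ℂ × ℂ, 1 / (‖a + w * x.1‖ ^ 2 + ‖b + w * x.2‖ ^ 2 + κ) ∂mu2
      ≤ 1 / (‖a‖ ^ 2 + ‖b‖ ^ 2 + κ) := by
  by_cases hw : w = 0
  · subst hw
    simp
  have hW : 0 < ‖w‖ ^ 2 := by positivity
  have hc : 0 < ‖a‖ ^ 2 + ‖b‖ ^ 2 + κ := by positivity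
  rw [(swap a b w κ hκ).2]
  have hder : ∀ t ∈ Ici (0:ℝ), HasDerivAt (fun t : ℝ =>
      -(Real.exp (-((‖a‖ ^ 2 + ‖b‖ ^ 2 + κ) * (t / (1 + t * ‖w‖ ^ 2)))) / (‖a‖ ^ 2 + ‖b‖ ^ 2 + κ)))
      (((1 + t * ‖w‖ ^ 2) ^ 2)⁻¹ * Real.exp (-((‖a‖ ^ 2 + ‖b‖ ^ 2 + κ) * (t / (1 + t * ‖w‖ ^ 2))))) t := by
    intro t ht
    have h := ((((sder _ hW.le t ht).const_mul (‖a‖ ^ 2 + ‖b‖ ^ 2 + κ)).neg).exp.div_const
      (‖a‖ ^ 2 + ‖b‖ ^ 2 + κ)).neg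
    have e : ((1 + t * ‖w‖ ^ 2) ^ 2)⁻¹ * Real.exp (-((‖a‖ ^ 2 + ‖b‖ ^ 2 + κ) * (t / (1 + t * ‖w‖ ^ 2)))) =
      -(Real.exp (-((‖a‖ ^ 2 + ‖b‖ ^ 2 + κ) * (t / (1 + t * ‖w‖ ^ 2)))) *
        -((‖a‖ ^ 2 + ‖b‖ ^ 2 + κ) * ((1 + t * ‖w‖ ^ 2) ^ 2)⁻¹) / (‖a‖ ^ 2 + ‖b‖ ^ 2 + κ)) := by
      field_simp
    rw [e]
    exact h
  have hpos : ∀ t ∈ Ioi (0:ℝ), 0 ≤ ((1 + t * ‖w‖ ^ 2) ^ 2)⁻¹ *
      Real.exp (-((‖a‖ ^ 2 + ‖b‖ ^ 2 + κ) * (t / (1 + t * ‖w‖ ^ 2)))) := by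
    intro t ht
    positivity
  have hlim : Tendsto (fun t : ℝ =>
      -(Real.exp (-((‖a‖ ^ 2 + ‖b‖ ^ 2 + κ) * (t / (1 + t * ‖w‖ ^ 2)))) / (‖a‖ ^ 2 + ‖b‖ ^ 2 + κ)))
      atTop (nhds (-(Real.exp (-((‖a‖ ^ 2 + ‖b‖ ^ 2 + κ) * (‖w‖ ^ 2)⁻¹)) / (‖a‖ ^ 2 + ‖b‖ ^ 2 + κ)))) := by
    refine Tendsto.neg (Tendsto.div_const ?_ _)
    exact (Real.continuous_exp.tendsto _).comp ((tendsto_const_nhds.mul (slim _ hW)).neg)
  have hint := integral_Ioi_of_hasDerivAt_of_nonneg' hder hpos hlim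
  have hint2 := integrableOn_Ioi_deriv_of_nonneg' hder hpos hlim
  have h1 : ∫ t in Ioi (0 : ℝ), Real.exp (-κ * t) * (((1 + t * ‖w‖ ^ 2) ^ 2)⁻¹ *
        Real.exp (-((‖a‖ ^ 2 + ‖b‖ ^ 2) * (t / (1 + t * ‖w‖ ^ 2))))) ≤
      ∫ t in Ioi (0 : ℝ), ((1 + t * ‖w‖ ^ 2) ^ 2)⁻¹ *
        Real.exp (-((‖a‖ ^ 2 + ‖b‖ ^ 2 + κ) * (t / (1 + t * ‖w‖ ^ 2)))) := by
    refine setIntegral_mono_on (swap a b w κ hκ).1 hint2 measurableSet_Ioi ?_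
    intro t ht
    have ht' : 0 < t := ht
    have hst : t / (1 + t * ‖w‖ ^ 2) ≤ t := by
      refine div_le_self ht'.le ?_
      have : 0 ≤ t * ‖w‖ ^ 2 := by positivity
      linarith
    have e1 : Real.exp (-κ * t) ≤ Real.exp (-(κ * (t / (1 + t * ‖w‖ ^ 2)))) := by
      rw [Real.exp_le_exp]
      nlinarith
    have e2 : Real.exp (-((‖a‖ ^ 2 + ‖b‖ ^ 2 + κ) * (t / (1 + t * ‖w‖ ^ 2)))) =
        Real.exp (-(κ * (t / (1 + t * ‖w‖ ^ 2)))) *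
          Real.exp (-((‖a‖ ^ 2 + ‖b‖ ^ 2) * (t / (1 + t * ‖w‖ ^ 2)))) := by
      rw [← Real.exp_add]
      congr 1
      ring
    rw [e2]
    calc _ ≤ Real.exp (-(κ * (t / (1 + t * ‖w‖ ^ 2)))) * (((1 + t * ‖w‖ ^ 2) ^ 2)⁻¹ *
        Real.exp (-((‖a‖ ^ 2 + ‖b‖ ^ 2) * (t / (1 + t * ‖w‖ ^ 2))))) := by
          exact mul_le_mul_of_nonneg_right e1 (by positivity)
      _ = _ := by ring
  refine h1.trans ?_
  rw [hint]
  have h5 : 0 ≤ Real.exp (-((‖a‖ ^ 2 + ‖b‖ ^ 2 + κ) * (‖w‖ ^ 2)⁻¹)) / (‖a‖ ^ 2 + ‖b‖ ^ 2 + κ) := by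
    positivity
  simp only [zero_div, mul_zero, neg_zero, Real.exp_zero]
  linarith

/-- a probability measure on `ℂ × ℂ` (the standard complex Gaussian) for which averaging does not increase
`1/|v|^2` -/
theorem gauss_exists : ∃ μ : Measure (ℂ × ℂ), IsProbabilityMeasure μ ∧
    (∀ a b w : ℂ, Integrable (fun x : ℂ × ℂ => ‖a + w * x.1‖ ^ 2 + ‖b + w * x.2‖ ^ 2) μ ∧
      ∫ x, (‖a + w * x.1‖ ^ 2 + ‖b + w * x.2‖ ^ 2) ∂μ = ‖a‖ ^ 2 + ‖b‖ ^ 2 + 2 * ‖w‖ ^ 2) ∧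
    (∀ (a b w : ℂ) (κ : ℝ), 0 < κ →
      ∫ x, 1 / (‖a + w * x.1‖ ^ 2 + ‖b + w * x.2‖ ^ 2 + κ) ∂μ ≤ 1 / (‖a‖ ^ 2 + ‖b‖ ^ 2 + κ)) ∧
    (∀ (a b w : ℂ) (κ : ℝ), 0 < κ → w ≠ 0 →
      ∫ x, 1 / (‖a + w * x.1‖ ^ 2 + ‖b + w * x.2‖ ^ 2 + κ) ∂μ ≤ 1 / ‖w‖ ^ 2) := by
  refine ⟨mu2, mu2_prob, ?_, ?_, ?_⟩
  · intro a b w
    have i1 : Integrable (fun x : ℂ × ℂ => ‖a + w * x.1‖ ^ 2) mu2 := (moment a w).1.comp_fst nu
    have i2 : Integrable (fun x : ℂ × ℂ => ‖b + w * x.2‖ ^ 2) mu2 := (moment b w).1.comp_snd nu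
    refine ⟨i1.add i2, ?_⟩
    rw [integral_add i1 i2]
    have e1 : ∫ x : ℂ × ℂ, ‖a + w * x.1‖ ^ 2 ∂mu2 = ‖a‖ ^ 2 + ‖w‖ ^ 2 := by
      unfold mu2
      rw [integral_fun_fst (fun z : ℂ => ‖a + w * z‖ ^ 2), (moment a w).2]
      simp
    have e2 : ∫ x : ℂ × ℂ, ‖b + w * x.2‖ ^ 2 ∂mu2 = ‖b‖ ^ 2 + ‖w‖ ^ 2 := by
      unfold mu2
      rw [integral_fun_snd (fun z : ℂ => ‖b + w * z‖ ^ 2), (moment b w).2]
      simp
    rw [e1, e2]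
    ring
  · exact fun a b w κ hκ => bound1 a b w κ hκ
  · exact fun a b w κ hκ hw => bound2 a b w κ hκ hw

end NF

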