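import Pool.Agent.Helper369.NF.Defs
import Pool.Agent.Helper369.NF.J1

open MeasureTheory

namespace NF

section aux

variable {Ω : Type} [MeasurableSpace Ω]

/-- quadratic part -/
theorem noise_quad (μ : Measure (ℂ × ℂ)) (hμ : IsProbabilityMeasure μ)
    (hQ : ∀ a b w : ℂ, Integrable (fun x : ℂ × ℂ => ‖a + w * x.1‖ ^ 2 + ‖b + w * x.2‖ ^ 2) μ ∧
      ∫ x, (‖a + w * x.1‖ ^ 2 + ‖b + w * x.2‖ ^ 2) ∂μ = ‖a‖ ^ 2 + ‖b‖ ^ 2 + 2 * ‖w‖ ^ 2)
    (ν : Measure Ω) (hν : IsFiniteMeasure ν) (f g p : Ω → ℂ)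
    (hf : AEStronglyMeasurable f ν) (hg : AEStronglyMeasurable g ν)
    (hp : AEStronglyMeasurable p ν)
    (Cf Cg Cp : ℝ) (bf : ∀ᵐ x ∂ν, ‖f x‖ ≤ Cf) (bg : ∀ᵐ x ∂ν, ‖g x‖ ≤ Cg)
    (bp : ∀ᵐ x ∂ν, ‖p x‖ ≤ Cp) (t : ℝ) :
    Integrable (fun ξ : ℂ × ℂ => ∫ x, (‖f x + t * p x * ξ.1‖ ^ 2 + ‖g x + t * p x * ξ.2‖ ^ 2) ∂ν) μ ∧
    ∫ ξ, (∫ x, (‖f x + t * p x * ξ.1‖ ^ 2 + ‖g x + t * p x * ξ.2‖ ^ 2) ∂ν) ∂μ =
      ∫ x, (‖f x‖ ^ 2 + ‖g x‖ ^ 2) ∂ν + 2 * t ^ 2 * ∫ x, ‖p x‖ ^ 2 ∂ν := by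
  have h1 : Integrable (fun ξ : ℂ × ℂ => 2 * Cf ^ 2 + 2 * Cg ^ 2 +
      2 * (t * Cp) ^ 2 * (‖ξ.1‖ ^ 2 + ‖ξ.2‖ ^ 2)) μ := by
    have := (hQ 0 0 1).1
    simp only [zero_add, one_mul] at this
    exact (integrable_const _).add (this.const_mul _)
  have hmeas : AEStronglyMeasurable (fun z : (ℂ × ℂ) × Ω =>
      ‖f z.2 + t * p z.2 * z.1.1‖ ^ 2 + ‖g z.2 + t * p z.2 * z.1.2‖ ^ 2) (μ.prod ν) := by
    have f2 : AEStronglyMeasurable (fun z : (ℂ × ℂ) × Ω => f z.2) (μ.prod ν) := hf.comp_snd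
    have g2 : AEStronglyMeasurable (fun z : (ℂ × ℂ) × Ω => g z.2) (μ.prod ν) := hg.comp_snd
    have p2 : AEStronglyMeasurable (fun z : (ℂ × ℂ) × Ω => p z.2) (μ.prod ν) := hp.comp_snd
    have x1 : AEStronglyMeasurable (fun z : (ℂ × ℂ) × Ω => z.1.1) (μ.prod ν) :=
      (measurable_fst.comp measurable_fst).aestronglyMeasurable
    have x2 : AEStronglyMeasurable (fun z : (ℂ × ℂ) × Ω => z.1.2) (μ.prod ν) :=
      (measurable_snd.comp measurable_fst).aestronglyMeasurable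
    exact (((f2.add ((p2.const_mul (t:ℂ)).mul x1)).norm).pow 2).add
      (((g2.add ((p2.const_mul (t:ℂ)).mul x2)).norm).pow 2)
  have hint : Integrable (fun z : (ℂ × ℂ) × Ω =>
      ‖f z.2 + t * p z.2 * z.1.1‖ ^ 2 + ‖g z.2 + t * p z.2 * z.1.2‖ ^ 2) (μ.prod ν) := by
    refine Integrable.mono' (h1.comp_fst ν) hmeas ?_
    have bf' := (Measure.quasiMeasurePreserving_snd (μ := μ) (ν := ν)).ae bf
    have bg' := (Measure.quasiMeasurePreserving_snd (μ := μ) (ν := ν)).ae bg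
    have bp' := (Measure.quasiMeasurePreserving_snd (μ := μ) (ν := ν)).ae bp
    filter_upwards [bf', bg', bp'] with z h1 h2 h3
    have key : ∀ (a w : ℂ) (A : ℝ), ‖a‖ ≤ A → ‖a + t * p z.2 * w‖ ^ 2 ≤
        2 * A ^ 2 + 2 * (t * Cp) ^ 2 * ‖w‖ ^ 2 := by
      intro a w A hA
      have e1 : ‖a + t * p z.2 * w‖ ≤ A + |t| * Cp * ‖w‖ := by
        refine (norm_add_le _ _).trans ?_
        refine add_le_add hA ?_
        rw [norm_mul, norm_mul]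
        have : ‖(t : ℂ)‖ = |t| := by simp
        rw [this]
        have : |t| * ‖p z.2‖ ≤ |t| * Cp := mul_le_mul_of_nonneg_left h3 (abs_nonneg _)
        exact mul_le_mul_of_nonneg_right this (norm_nonneg _)
      have e2 : ‖a + t * p z.2 * w‖ ^ 2 ≤ (A + |t| * Cp * ‖w‖) ^ 2 :=
        pow_le_pow_left₀ (norm_nonneg _) e1 2
      have e3 : |t| ^ 2 = t ^ 2 := sq_abs t
      nlinarith [sq_nonneg (A - |t| * Cp * ‖w‖), mul_pow |t| (Cp * ‖w‖) 2, e3]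
    have k1 := key (f z.2) z.1.1 Cf h1
    have k2 := key (g z.2) z.1.2 Cg h2
    rw [Real.norm_of_nonneg (by positivity)]
    linarith
  refine ⟨hint.integral_prod_left, ?_⟩
  have hswap := integral_integral_swap (μ := μ) (ν := ν)
    (f := fun ξ x => ‖f x + t * p x * ξ.1‖ ^ 2 + ‖g x + t * p x * ξ.2‖ ^ 2) hint
  rw [hswap]
  have e : ∀ x, ∫ ξ, (‖f x + t * p x * ξ.1‖ ^ 2 + ‖g x + t * p x * ξ.2‖ ^ 2) ∂μ =
      (‖f x‖ ^ 2 + ‖g x‖ ^ 2) + 2 * t ^ 2 * ‖p x‖ ^ 2 := by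
    intro x
    rw [(hQ (f x) (g x) (t * p x)).2]
    have : ‖(t : ℂ) * p x‖ ^ 2 = t ^ 2 * ‖p x‖ ^ 2 := by
      rw [norm_mul, mul_pow]
      simp
    rw [this]; ring
  simp_rw [e]
  have sq : ∀ (h : Ω → ℂ) (C : ℝ), AEStronglyMeasurable h ν → (∀ᵐ x ∂ν, ‖h x‖ ≤ C) →
      Integrable (fun x => ‖h x‖ ^ 2) ν := by
    intro h C hh hC
    refine Integrable.of_bound (hh.norm.pow 2) (C ^ 2) ?_
    filter_upwards [hC] with x hx
    rw [Real.norm_of_nonneg (by positivity)]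
    exact pow_le_pow_left₀ (norm_nonneg _) hx 2
  have I1 : Integrable (fun x => ‖f x‖ ^ 2 + ‖g x‖ ^ 2) ν := (sq f Cf hf bf).add (sq g Cg hg bg)
  have I2 : Integrable (fun x => 2 * t ^ 2 * ‖p x‖ ^ 2) ν := (sq p Cp hp bp).const_mul _
  rw [integral_add I1 I2, integral_const_mul]

theorem noise_inv (μ : Measure (ℂ × ℂ)) (hμ : IsProbabilityMeasure μ)
    (ν : Measure Ω) (hν : IsFiniteMeasure ν) (f g p : Ω → ℂ)
    (hf : AEStronglyMeasurable f ν) (hg : AEStronglyMeasurable g ν)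
    (hp : AEStronglyMeasurable p ν) (t κ : ℝ) (hκ : 0 < κ) (B : Ω → ℝ) (hB : Integrable B ν)
    (hle : ∀ᵐ x ∂ν, ∫ ξ, 1 / (‖f x + t * p x * ξ.1‖ ^ 2 + ‖g x + t * p x * ξ.2‖ ^ 2 + κ) ∂μ ≤ B x) :
    Integrable (fun ξ : ℂ × ℂ =>
      ∫ x, 1 / (‖f x + t * p x * ξ.1‖ ^ 2 + ‖g x + t * p x * ξ.2‖ ^ 2 + κ) ∂ν) μ ∧
    ∫ ξ, (∫ x, 1 / (‖f x + t * p x * ξ.1‖ ^ 2 + ‖g x + t * p x * ξ.2‖ ^ 2 + κ) ∂ν) ∂μ ≤
      ∫ x, B x ∂ν := by
  have hmeas : AEStronglyMeasurable (fun z : (ℂ × ℂ) × Ω =>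
      1 / (‖f z.2 + t * p z.2 * z.1.1‖ ^ 2 + ‖g z.2 + t * p z.2 * z.1.2‖ ^ 2 + κ)) (μ.prod ν) := by
    have f2 : AEStronglyMeasurable (fun z : (ℂ × ℂ) × Ω => f z.2) (μ.prod ν) := hf.comp_snd
    have g2 : AEStronglyMeasurable (fun z : (ℂ × ℂ) × Ω => g z.2) (μ.prod ν) := hg.comp_snd
    have p2 : AEStronglyMeasurable (fun z : (ℂ × ℂ) × Ω => p z.2) (μ.prod ν) := hp.comp_snd
    have x1 : AEStronglyMeasurable (fun z : (ℂ × ℂ) × Ω => z.1.1) (μ.prod ν) :=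
      (measurable_fst.comp measurable_fst).aestronglyMeasurable
    have x2 : AEStronglyMeasurable (fun z : (ℂ × ℂ) × Ω => z.1.2) (μ.prod ν) :=
      (measurable_snd.comp measurable_fst).aestronglyMeasurable
    have := (((((f2.add ((p2.const_mul (t:ℂ)).mul x1)).norm).pow 2).add
      (((g2.add ((p2.const_mul (t:ℂ)).mul x2)).norm).pow 2)).add
      (aestronglyMeasurable_const (b := κ))).aemeasurable.inv.aestronglyMeasurable
    simp only [one_div]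
    exact this
  have hint : Integrable (fun z : (ℂ × ℂ) × Ω =>
      1 / (‖f z.2 + t * p z.2 * z.1.1‖ ^ 2 + ‖g z.2 + t * p z.2 * z.1.2‖ ^ 2 + κ)) (μ.prod ν) := by
    refine Integrable.of_bound hmeas (1 / κ) ?_
    filter_upwards with z
    rw [Real.norm_of_nonneg (by positivity)]
    apply one_div_le_one_div_of_le hκ
    nlinarith [sq_nonneg ‖f z.2 + t * p z.2 * z.1.1‖, sq_nonneg ‖g z.2 + t * p z.2 * z.1.2‖]
  refine ⟨hint.integral_prod_left, ?_⟩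
  have hswap := integral_integral_swap (μ := μ) (ν := ν)
    (f := fun ξ x => 1 / (‖f x + t * p x * ξ.1‖ ^ 2 + ‖g x + t * p x * ξ.2‖ ^ 2 + κ)) hint
  rw [hswap]
  exact integral_mono_ae hint.integral_prod_right hB hle

end aux

/-- target -/
theorem noise {ι Ω : Type} [Fintype ι] [DecidableEq ι] [MeasurableSpace Ω] (ν : ι → Measure Ω)
    (hνf : ∀ i, IsFiniteMeasure (ν i)) (hν : ∀ i, (ν i).real Set.univ ≤ 1)
    (p : ι → ι → Ω → ℂ) (hm : ∀ i k, AEStronglyMeasurable (p i k) (ν i))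
    (hb : ∀ i k, ∃ C : ℝ, ∀ᵐ x ∂(ν i), ‖p i k x‖ ≤ C)
    (hlow : ∀ i, ∀ᵐ x ∂(ν i), 1 ≤ ‖p i i x‖) (κ : ℝ) (hκ : 0 < κ)
    (c d : ι → ℂ) (j : ι) (t : ℝ) (ht : 0 < t) (α β : ι → ℝ) (hα : ∀ i, 0 ≤ α i) (hβ : ∀ i, 0 ≤ β i) :
    ∃ c' d' : ι → ℂ,
      ∑ i, α i * ∫ x, (‖∑ k, c' k * p i k x‖ ^ 2 + ‖∑ k, d' k * p i k x‖ ^ 2) ∂(ν i) +
        ∑ i, β i * ∫ x, 1 / (‖∑ k, c' k * p i k x‖ ^ 2 + ‖∑ k, d' k * p i k x‖ ^ 2 + κ) ∂(ν i) ≤
      ∑ i, α i * (∫ x, (‖∑ k, c k * p i k x‖ ^ 2 + ‖∑ k, d k * p i k x‖ ^ 2) ∂(ν i) +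
          2 * t ^ 2 * ∫ x, ‖p i j x‖ ^ 2 ∂(ν i)) +
        ∑ i ∈ Finset.univ.erase j,
          β i * ∫ x, 1 / (‖∑ k, c k * p i k x‖ ^ 2 + ‖∑ k, d k * p i k x‖ ^ 2 + κ) ∂(ν i) +
        β j / t ^ 2 := by
  classical
  obtain ⟨μ, hμ, hQ, hI1, hI2⟩ := gauss_exists
  choose C hC using hb
  -- linear combinations
  have hmeasc : ∀ (e : ι → ℂ) i, AEStronglyMeasurable (fun x => ∑ k, e k * p i k x) (ν i) := by
    intro e i
    have := Finset.aestronglyMeasurable_sum (s := Finset.univ)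
      (f := fun k x => e k * p i k x) (μ := ν i) (fun k _ => (hm i k).const_mul (e k))
    refine this.congr ?_
    filter_upwards with x
    simp
  have hbc : ∀ (e : ι → ℂ) i, ∀ᵐ x ∂(ν i), ‖∑ k, e k * p i k x‖ ≤ ∑ k, ‖e k‖ * C i k := by
    intro e i
    have : ∀ᵐ x ∂(ν i), ∀ k, ‖p i k x‖ ≤ C i k := ae_all_iff.2 (fun k => hC i k)
    filter_upwards [this] with x hx
    refine (norm_sum_le _ _).trans (Finset.sum_le_sum fun k _ => ?_)
    rw [norm_mul]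
    exact mul_le_mul_of_nonneg_left (hx k) (norm_nonneg _)
  have hupd : ∀ (e : ι → ℂ) (w : ℂ) i x, ∑ k, (Function.update e j (e j + t * w)) k * p i k x =
      ∑ k, e k * p i k x + t * p i j x * w := by
    intro e w i x
    rw [← Finset.add_sum_erase _ _ (Finset.mem_univ j),
      ← Finset.add_sum_erase Finset.univ (fun k => e k * p i k x) (Finset.mem_univ j)]
    have : ∑ k ∈ Finset.univ.erase j, (Function.update e j (e j + t * w)) k * p i k x =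
        ∑ k ∈ Finset.univ.erase j, e k * p i k x := by
      refine Finset.sum_congr rfl fun k hk => ?_
      rw [Function.update_of_ne (Finset.ne_of_mem_erase hk)]
    rw [this]
    simp only [Function.update_self]
    ring
  -- quadratic
  have hq : ∀ i, _ := fun i => noise_quad μ hμ hQ (ν i) (hνf i) (fun x => ∑ k, c k * p i k x)
    (fun x => ∑ k, d k * p i k x) (p i j) (hmeasc c i) (hmeasc d i) (hm i j) _ _ _
    (hbc c i) (hbc d i) (hC i j) t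
  have bint : ∀ i, Integrable (fun x => 1 / (‖∑ k, c k * p i k x‖ ^ 2 +
      ‖∑ k, d k * p i k x‖ ^ 2 + κ)) (ν i) := by
    intro i
    have := hνf i
    have hm' : AEStronglyMeasurable (fun x => 1 / (‖∑ k, c k * p i k x‖ ^ 2 +
      ‖∑ k, d k * p i k x‖ ^ 2 + κ)) (ν i) := by
      have := ((((hmeasc c i).norm.pow 2).add ((hmeasc d i).norm.pow 2)).add
        (aestronglyMeasurable_const (b := κ))).aemeasurable.inv.aestronglyMeasurable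
      simp only [one_div]
      exact this
    refine Integrable.of_bound hm' (1 / κ) ?_
    filter_upwards with x
    rw [Real.norm_of_nonneg (by positivity)]
    apply one_div_le_one_div_of_le hκ
    nlinarith [sq_nonneg ‖∑ k, c k * p i k x‖, sq_nonneg ‖∑ k, d k * p i k x‖]
  have hr : ∀ i, _ := fun i => noise_inv μ hμ (ν i) (hνf i) (fun x => ∑ k, c k * p i k x)
    (fun x => ∑ k, d k * p i k x) (p i j) (hmeasc c i) (hmeasc d i) (hm i j) t κ hκ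
    (fun x => 1 / (‖∑ k, c k * p i k x‖ ^ 2 + ‖∑ k, d k * p i k x‖ ^ 2 + κ)) (bint i)
    (by filter_upwards with x
        exact hI1 _ _ (t * p i j x) κ hκ)
  have hrj := noise_inv μ hμ (ν j) (hνf j) (fun x => ∑ k, c k * p j k x)
    (fun x => ∑ k, d k * p j k x) (p j j) (hmeasc c j) (hmeasc d j) (hm j j) t κ hκ
    (fun _ => 1 / t ^ 2) (by have := hνf j; exact integrable_const _)
    (by filter_upwards [hlow j] with x hx
        have hne : (t : ℂ) * p j j x ≠ 0 := by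
          refine mul_ne_zero (by exact_mod_cast ht.ne') ?_
          intro h0; rw [h0, norm_zero] at hx; linarith
        refine (hI2 _ _ (t * p j j x) κ hκ hne).trans ?_
        apply one_div_le_one_div_of_le (by positivity)
        rw [norm_mul, mul_pow]
        have : ‖(t:ℂ)‖ ^ 2 = t ^ 2 := by simp
        rw [this]
        have h1 : (1:ℝ) ≤ ‖p j j x‖ ^ 2 := one_le_pow₀ hx
        nlinarith [sq_nonneg t])
  have hrj2 : ∫ ξ, (∫ x, 1 / (‖∑ k, c k * p j k x + t * p j j x * ξ.1‖ ^ 2 +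
      ‖∑ k, d k * p j k x + t * p j j x * ξ.2‖ ^ 2 + κ) ∂(ν j)) ∂μ ≤ 1 / t ^ 2 := by
    refine hrj.2.trans ?_
    have := hνf j
    rw [integral_const, smul_eq_mul]
    have : 0 ≤ 1 / t ^ 2 := by positivity
    nlinarith [hν j]
  -- the functional
  set Φ : ℂ × ℂ → ℝ := fun ξ =>
    ∑ i, α i * ∫ x, (‖∑ k, c k * p i k x + t * p i j x * ξ.1‖ ^ 2 +
      ‖∑ k, d k * p i k x + t * p i j x * ξ.2‖ ^ 2) ∂(ν i) +
    ∑ i, β i * ∫ x, 1 / (‖∑ k, c k * p i k x + t * p i j x * ξ.1‖ ^ 2 +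
      ‖∑ k, d k * p i k x + t * p i j x * ξ.2‖ ^ 2 + κ) ∂(ν i) with hΦ
  have i1 : Integrable (fun ξ : ℂ × ℂ => ∑ i, α i *
      ∫ x, (‖∑ k, c k * p i k x + t * p i j x * ξ.1‖ ^ 2 +
      ‖∑ k, d k * p i k x + t * p i j x * ξ.2‖ ^ 2) ∂(ν i)) μ :=
    integrable_finsetSum _ fun i _ => (hq i).1.const_mul (α i)
  have i2 : Integrable (fun ξ : ℂ × ℂ => ∑ i, β i *
      ∫ x, 1 / (‖∑ k, c k * p i k x + t * p i j x * ξ.1‖ ^ 2 +
      ‖∑ k, d k * p i k x + t * p i j x * ξ.2‖ ^ 2 + κ) ∂(ν i)) μ :=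
    integrable_finsetSum _ fun i _ => (hr i).1.const_mul (β i)
  have hΦint : Integrable Φ μ := i1.add i2
  have hΦval : ∫ ξ, Φ ξ ∂μ ≤ ∑ i, α i * (∫ x, (‖∑ k, c k * p i k x‖ ^ 2 +
          ‖∑ k, d k * p i k x‖ ^ 2) ∂(ν i) +
          2 * t ^ 2 * ∫ x, ‖p i j x‖ ^ 2 ∂(ν i)) +
        ∑ i ∈ Finset.univ.erase j,
          β i * ∫ x, 1 / (‖∑ k, c k * p i k x‖ ^ 2 + ‖∑ k, d k * p i k x‖ ^ 2 + κ) ∂(ν i) +
        β j / t ^ 2 := by
    rw [hΦ, integral_add i1 i2, integral_finsetSum _ (fun i _ => (hq i).1.const_mul (α i)),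
      integral_finsetSum _ (fun i _ => (hr i).1.const_mul (β i)), add_assoc]
    refine add_le_add (le_of_eq (Finset.sum_congr rfl fun i _ => ?_)) ?_
    · rw [integral_const_mul, (hq i).2]
    · rw [← Finset.sum_erase_add _ _ (Finset.mem_univ j)]
      refine add_le_add (Finset.sum_le_sum fun i _ => ?_) ?_
      · rw [integral_const_mul]
        exact mul_le_mul_of_nonneg_left (hr i).2 (hβ i)
      · rw [integral_const_mul]
        refine (mul_le_mul_of_nonneg_left hrj2 (hβ j)).trans (le_of_eq ?_)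
        ring
  obtain ⟨ξ, hξ⟩ := exists_le_integral hΦint
  refine ⟨Function.update c j (c j + t * ξ.1), Function.update d j (d j + t * ξ.2), ?_⟩
  refine le_trans (le_of_eq ?_) (hξ.trans hΦval)
  rw [hΦ]
  simp only [hupd]

end NF

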