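import Pool.Agent.Helper369.NF.Defs

namespace NF

/-- target -/
theorem avl_comb {ι X : Type} [Fintype ι] [DecidableEq ι] [Nonempty X]
    (A B : ι → X → ℝ) (hA : ∀ i F, 0 ≤ A i F) (hB : ∀ i F, 0 ≤ B i F)
    (M : ι → ι → ℝ) (hM : ∀ i j, 0 < M i j) (hM1 : ∀ i j, M i j ≤ 1) (hMs : ∀ i j, M i j = M j i)
    (hMd : ∀ i, M i i = 1) (hrow : ∀ i, ∑ j ∈ Finset.univ.erase i, M i j ≤ 1 / 2)
    (a : ι → ι → ℝ) (ha0 : ∀ i j, 0 ≤ a i j) (C : ℝ) (hC : 1 ≤ C)
    (ha : ∀ i j, a i j ≤ C * M i j ^ 2)
    (hN : ∀ (F : X) (j : ι) (t : ℝ), 0 < t → ∀ α β : ι → ℝ, (∀ i, 0 ≤ α i) → (∀ i, 0 ≤ β i) →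
      ∃ F' : X, ∑ i, α i * A i F' + ∑ i, β i * B i F' ≤
        ∑ i, α i * (A i F + 2 * t ^ 2 * a i j) + ∑ i ∈ Finset.univ.erase j, β i * B i F +
          β j / t ^ 2)
    (j0 : ι) :
    ∃ (F : X) (τ : ι → ℝ), 0 ≤ τ j0 ∧ (∀ i j, |τ i - τ j| ≤ - Real.log (M i j)) ∧
      ∀ j, A j F ≤ 400 * C * Real.exp (2 * τ j) ∧ B j F ≤ 5 * C * Real.exp (-2 * τ j) := by
  classical
  have hlog : ∀ i j, Real.log (M i j) ≤ 0 := fun i j => Real.log_nonpos (hM i j).le (hM1 i j)
  have hlogs : ∀ i k, Real.log (M i k) = Real.log (M k i) := fun i k => by rw [hMs]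
  have key : ∀ (x : ℝ) (i j : ι), x ≤ -Real.log (M i j) → Real.exp x * M i j ≤ 1 := by
    intro x i j hx
    have h1 : Real.exp x ≤ Real.exp (-Real.log (M i j)) := Real.exp_le_exp.2 hx
    have e : Real.exp (-Real.log (M i j)) = (M i j)⁻¹ := by
      rw [Real.exp_neg, Real.exp_log (hM i j)]
    rw [e] at h1
    calc Real.exp x * M i j ≤ (M i j)⁻¹ * M i j := mul_le_mul_of_nonneg_right h1 (hM i j).le
      _ = 1 := inv_mul_cancel₀ (hM i j).ne'
  have hC0 : 0 < C := by linarith
  let E : X → (ι → ℝ) → ℝ := fun F τ =>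
    ∑ i, Real.exp (-τ i) * A i F + ∑ i, Real.exp (3 * τ i) * B i F
  have hE0 : ∀ F τ, 0 ≤ E F τ := fun F τ =>
    add_nonneg (Finset.sum_nonneg fun i _ => mul_nonneg (Real.exp_pos _).le (hA i F))
      (Finset.sum_nonneg fun i _ => mul_nonneg (Real.exp_pos _).le (hB i F))
  obtain ⟨δ, hδ, hδM⟩ : ∃ δ : ℝ, 0 < δ ∧ ∀ i, δ ≤ M i j0 := by
    refine ⟨∏ i, M i j0, Finset.prod_pos (fun i _ => hM i j0), fun i => ?_⟩
    rw [← Finset.mul_prod_erase _ _ (Finset.mem_univ i)]
    exact mul_le_of_le_one_right (hM i j0).le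
      (Finset.prod_le_one (fun k _ => (hM k j0).le) (fun k _ => hM1 k j0))
  obtain ⟨F, τ, hτ, hτ0, hmin⟩ : ∃ (F : X) (τ : ι → ℝ), (∀ i j, |τ i - τ j| ≤ - Real.log (M i j)) ∧
      0 ≤ τ j0 ∧ ∀ (F' : X) (τ' : ι → ℝ), (∀ i j, |τ' i - τ' j| ≤ - Real.log (M i j)) →
        0 ≤ τ' j0 → E F τ - δ ≤ E F' τ' := by
    let S : Set ℝ := {x | ∃ (F : X) (τ : ι → ℝ), (∀ i j, |τ i - τ j| ≤ - Real.log (M i j)) ∧
      0 ≤ τ j0 ∧ x = E F τ}
    have hbdd : BddBelow S := ⟨0, by rintro x ⟨F, τ, -, -, rfl⟩; exact hE0 F τ⟩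
    have hne : S.Nonempty := ⟨E (Classical.arbitrary X) 0, Classical.arbitrary X, 0,
      by intro i j; simpa using hlog i j, le_rfl, rfl⟩
    obtain ⟨x, ⟨F, τ, h1, h2, rfl⟩, hx⟩ := Real.lt_sInf_add_pos hne hδ
    refine ⟨F, τ, h1, h2, fun F' τ' h3 h4 => ?_⟩
    have := csInf_le hbdd ⟨F', τ', h3, h4, rfl⟩
    linarith
  have hδT : ∀ i, δ ≤ Real.exp (τ i) := by
    intro i
    have h1 := (abs_le.1 (hτ i j0)).1
    refine (hδM i).trans ?_
    rw [← Real.exp_log (hM i j0)]
    refine Real.exp_le_exp.2 ?_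
    linarith
  -- the bound on `B`
  have hBj : ∀ j, B j F ≤ 5 * C * Real.exp (-2 * τ j) := by
    intro j
    obtain ⟨F', hF'⟩ := hN F j (Real.exp (τ j)) (Real.exp_pos _) (fun i => Real.exp (-τ i))
      (fun i => Real.exp (3 * τ i)) (fun i => (Real.exp_pos _).le) (fun i => (Real.exp_pos _).le)
    have h1 := hmin F' τ hτ hτ0
    simp only [E] at h1
    rw [← Finset.add_sum_erase Finset.univ (fun i => Real.exp (3 * τ i) * B i F)
      (Finset.mem_univ j)] at h1
    have h2 : ∑ i, Real.exp (-τ i) * (A i F + 2 * Real.exp (τ j) ^ 2 * a i j) =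
        ∑ i, Real.exp (-τ i) * A i F +
          2 * Real.exp (τ j) * ∑ i, (Real.exp (τ j - τ i) * a i j) := by
      rw [Finset.mul_sum, ← Finset.sum_add_distrib]
      refine Finset.sum_congr rfl fun i _ => ?_
      rw [sub_eq_add_neg, Real.exp_add]; ring
    have h3 : ∑ i, (Real.exp (τ j - τ i) * a i j) ≤ C * (3 / 2) := by
      have h4 : ∀ i, Real.exp (τ j - τ i) * a i j ≤ C * M i j := by
        intro i
        have h5 := key (τ j - τ i) i j (by have := (abs_le.1 (hτ i j)).1; linarith)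
        have h6 := hM i j
        calc Real.exp (τ j - τ i) * a i j ≤ Real.exp (τ j - τ i) * (C * M i j ^ 2) :=
              mul_le_mul_of_nonneg_left (ha i j) (Real.exp_pos _).le
          _ = (Real.exp (τ j - τ i) * M i j) * (C * M i j) := by ring
          _ ≤ 1 * (C * M i j) := mul_le_mul_of_nonneg_right h5 (by positivity)
          _ = C * M i j := one_mul _
      have h7 : ∑ i ∈ Finset.univ.erase j, M i j ≤ 1 / 2 :=
        (Finset.sum_congr rfl fun i _ => hMs i j).trans_le (hrow j)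
      calc ∑ i, (Real.exp (τ j - τ i) * a i j) ≤ ∑ i, C * M i j :=
            Finset.sum_le_sum fun i _ => h4 i
        _ = C * (M j j + ∑ i ∈ Finset.univ.erase j, M i j) := by
            rw [← Finset.mul_sum, Finset.add_sum_erase _ (fun i => M i j) (Finset.mem_univ j)]
        _ ≤ C * (3 / 2) := by
            apply mul_le_mul_of_nonneg_left _ hC0.le
            rw [hMd]; linarith
    rw [h2] at hF'
    have hT : 0 < Real.exp (τ j) := Real.exp_pos _
    have e3 : Real.exp (3 * τ j) = Real.exp (τ j) ^ 3 := by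
      rw [← Real.exp_nat_mul]; norm_num
    have e2 : Real.exp (-2 * τ j) = (Real.exp (τ j) ^ 2)⁻¹ := by
      rw [← Real.exp_nat_mul, ← Real.exp_neg]; congr 1; push_cast; ring
    have hδj := hδT j
    rw [e2]
    rw [e3] at hF' h1
    generalize (∑ i, (Real.exp (τ j - τ i) * a i j)) = S at *
    generalize Real.exp (τ j) = T at *
    have e4 : T ^ 3 / T ^ 2 = T := by field_simp
    rw [e4] at hF'
    rw [← div_eq_mul_inv, le_div_iff₀ (by positivity)]
    have h8 : T ^ 3 * B j F ≤ δ + 2 * T * S + T := by linarith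
    have h9 : T * (B j F * T ^ 2) ≤ T * (5 * C) := by
      have h10 : 2 * T * S ≤ 2 * T * (C * (3 / 2)) :=
        mul_le_mul_of_nonneg_left h3 (by positivity)
      have h11 : T * 1 ≤ T * C := mul_le_mul_of_nonneg_left hC hT.le
      have e5 : T * (B j F * T ^ 2) = T ^ 3 * B j F := by ring
      rw [e5]
      linarith
    exact le_of_mul_le_mul_left h9 hT
  -- the distance
  have hdist : ∀ j, ∃ d : ι → ℝ, (∀ i, τ j - d i ≤ τ i) ∧
      (∀ i k, |d i - d k| ≤ -Real.log (M i k)) ∧ d j = 0 ∧ ∑ i, Real.exp (-d i) ≤ 2 := by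
    intro j
    let P : ι → Set ℝ := fun i => {x | ∃ σ : ι → ℝ,
      (∀ i k, |σ i - σ k| ≤ -Real.log (M i k)) ∧ x = σ j - σ i}
    have hPb : ∀ i, BddAbove (P i) := fun i =>
      ⟨-Real.log (M j i), by rintro x ⟨σ, hσ, rfl⟩; exact (abs_le.1 (hσ j i)).2⟩
    have hPn : ∀ i, (P i).Nonempty := fun i =>
      ⟨0, 0, by intro i k; simpa using hlog i k, by simp⟩
    let d : ι → ℝ := fun i => sSup (P i)
    have d1 : ∀ σ : ι → ℝ, (∀ i k, |σ i - σ k| ≤ -Real.log (M i k)) → ∀ i, σ j - σ i ≤ d i :=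
      fun σ hσ i => le_csSup (hPb i) ⟨σ, hσ, rfl⟩
    have d2' : ∀ i k, d i ≤ d k - Real.log (M i k) := by
      intro i k
      apply csSup_le (hPn i)
      rintro x ⟨σ, hσ, rfl⟩
      have h1 := d1 σ hσ k
      have h2 := (abs_le.1 (hσ i k)).1
      linarith
    have d2 : ∀ i k, |d i - d k| ≤ -Real.log (M i k) := by
      intro i k
      rw [abs_le]
      have h1 := d2' i k
      have h2 := d2' k i
      rw [hlogs k i] at h2
      constructor <;> linarith
    have d3 : d j = 0 := by
      apply le_antisymm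
      · apply csSup_le (hPn j)
        rintro x ⟨σ, hσ, rfl⟩
        simp
      · have := d1 0 (by intro i k; simpa using hlog i k) j
        simpa using this
    have step : ∀ i, i ≠ j →
        Real.exp (-d i) ≤ ∑ k ∈ Finset.univ.erase i, M i k * Real.exp (-d k) := by
      intro i hij
      by_contra hcon
      push Not at hcon
      set m := ∑ k ∈ Finset.univ.erase i, M i k * Real.exp (-d k) with hm
      have hmk : ∀ k, k ≠ i → M i k * Real.exp (-d k) ≤ m := fun k hk =>
        Finset.single_le_sum (f := fun k => M i k * Real.exp (-d k))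
          (fun l _ => by have := hM i l; positivity)
          (Finset.mem_erase.2 ⟨hk, Finset.mem_univ k⟩)
      have hmpos : 0 < m := lt_of_lt_of_le (by have := hM i j; positivity) (hmk j hij.symm)
      let σ : ι → ℝ := Function.update (fun k => -d k) i (Real.log m)
      have hσi : σ i = Real.log m := Function.update_self i (Real.log m) (fun k => -d k)
      have hσk : ∀ k, k ≠ i → σ k = -d k := fun k hk =>
        Function.update_of_ne hk (Real.log m) (fun k => -d k)
      have hlm : Real.log m < -d i := by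
        have := Real.log_lt_log hmpos hcon
        rwa [Real.log_exp] at this
      have hlk : ∀ k, k ≠ i → Real.log (M i k) - d k ≤ Real.log m := by
        intro k hk
        have h1 := Real.log_le_log (by have := hM i k; positivity) (hmk k hk)
        rw [Real.log_mul (hM i k).ne' (Real.exp_pos _).ne', Real.log_exp] at h1
        linarith
      have hσ : ∀ p q, |σ p - σ q| ≤ -Real.log (M p q) := by
        have haux : ∀ k, k ≠ i → |σ i - σ k| ≤ -Real.log (M i k) := by
          intro k hk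
          rw [hσi, hσk k hk, abs_le]
          have h1 := hlk k hk
          have h2 := (abs_le.1 (d2 i k)).1
          constructor <;> linarith
        intro p q
        by_cases hp : p = i
        · by_cases hq : q = i
          · rw [hp, hq]; simpa using hlog i i
          · rw [hp]; exact haux q hq
        · by_cases hq : q = i
          · rw [hq, abs_sub_comm, hlogs]; exact haux p hp
          · rw [hσk p hp, hσk q hq]
            have h1 := d2 p q
            rw [abs_sub_comm] at h1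
            have e : -d p - -d q = d q - d p := by ring
            rw [e]; exact h1
      have h3 := d1 σ hσ i
      rw [hσk j hij.symm, hσi, d3] at h3
      linarith
    refine ⟨d, fun i => ?_, d2, d3, ?_⟩
    · have := d1 τ hτ i
      linarith
    · have hs1 : ∑ i, Real.exp (-d i) = Real.exp (-d j) +
          ∑ i ∈ Finset.univ.erase j, Real.exp (-d i) :=
        (Finset.add_sum_erase Finset.univ (fun i => Real.exp (-d i)) (Finset.mem_univ j)).symm
      have hs2 : ∑ i ∈ Finset.univ.erase j, Real.exp (-d i) ≤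
          ∑ i ∈ Finset.univ.erase j, ∑ k ∈ Finset.univ.erase i, M i k * Real.exp (-d k) :=
        Finset.sum_le_sum fun i hi => step i (Finset.ne_of_mem_erase hi)
      have hs3 : ∑ i ∈ Finset.univ.erase j, ∑ k ∈ Finset.univ.erase i, M i k * Real.exp (-d k) ≤
          ∑ i, ∑ k ∈ Finset.univ.erase i, M i k * Real.exp (-d k) :=
        Finset.sum_le_sum_of_subset_of_nonneg (Finset.erase_subset _ _) (fun i _ _ =>
          Finset.sum_nonneg fun k _ => mul_nonneg (hM i k).le (Real.exp_pos _).le)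
      have hs4 : ∑ i, ∑ k ∈ Finset.univ.erase i, M i k * Real.exp (-d k) =
          ∑ k, ∑ i ∈ Finset.univ.erase k, M i k * Real.exp (-d k) :=
        Finset.sum_comm' (by intro x y; simp [ne_comm])
      have hs5 : ∑ k, ∑ i ∈ Finset.univ.erase k, M i k * Real.exp (-d k) ≤
          ∑ k, (1 / 2) * Real.exp (-d k) := by
        refine Finset.sum_le_sum fun k _ => ?_
        rw [← Finset.sum_mul]
        refine mul_le_mul_of_nonneg_right ?_ (Real.exp_pos _).le
        exact (Finset.sum_congr rfl fun i _ => hMs i k).trans_le (hrow k)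
      rw [← Finset.mul_sum] at hs5
      rw [d3, neg_zero, Real.exp_zero] at hs1
      linarith
  refine ⟨F, τ, hτ0, hτ, fun j => ⟨?_, hBj j⟩⟩
  obtain ⟨d, d1, d2, d3, d4⟩ := hdist j
  let τ' : ι → ℝ := fun i => max (τ i) (τ j + 1 - d i)
  have hτ' : ∀ i k, |τ' i - τ' k| ≤ -Real.log (M i k) := by
    intro i k
    refine (abs_max_sub_max_le_max _ _ _ _).trans (max_le (hτ i k) ?_)
    have h1 := d2 i k
    rw [abs_sub_comm] at h1
    have e : τ j + 1 - d i - (τ j + 1 - d k) = d k - d i := by ring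
    rw [e]; exact h1
  have hle : ∀ i, τ i ≤ τ' i := fun i => le_max_left _ _
  have h1 := hmin F τ' hτ' (hτ0.trans (hle j0))
  simp only [E] at h1
  have hj' : τ' j = τ j + 1 := by
    simp only [τ', d3, sub_zero]
    exact max_eq_right (by linarith)
  have h2 : (Real.exp (-τ j) - Real.exp (-τ' j)) * A j F ≤
      ∑ i, Real.exp (-τ i) * A i F - ∑ i, Real.exp (-τ' i) * A i F := by
    rw [← Finset.sum_sub_distrib]
    have h0 : ∀ i, 0 ≤ Real.exp (-τ i) * A i F - Real.exp (-τ' i) * A i F := by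
      intro i
      rw [← sub_mul]
      refine mul_nonneg (sub_nonneg.2 (Real.exp_le_exp.2 ?_)) (hA i F)
      linarith [hle i]
    calc (Real.exp (-τ j) - Real.exp (-τ' j)) * A j F
        = Real.exp (-τ j) * A j F - Real.exp (-τ' j) * A j F := by ring
      _ ≤ _ := Finset.single_le_sum
          (f := fun i => Real.exp (-τ i) * A i F - Real.exp (-τ' i) * A i F)
          (fun i _ => h0 i) (Finset.mem_univ j)
  have h3 : ∑ i, Real.exp (3 * τ' i) * B i F - ∑ i, Real.exp (3 * τ i) * B i F ≤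
      10 * C * Real.exp 3 * Real.exp (τ j) := by
    rw [← Finset.sum_sub_distrib]
    have h0 : ∀ i, Real.exp (3 * τ' i) * B i F - Real.exp (3 * τ i) * B i F ≤
        5 * C * Real.exp 3 * Real.exp (τ j) * Real.exp (-d i) := by
      intro i
      rcases le_total (τ j + 1 - d i) (τ i) with h | h
      · have e : τ' i = τ i := max_eq_left h
        rw [e, sub_self]; positivity
      · have e : τ' i = τ j + 1 - d i := max_eq_right h
        calc Real.exp (3 * τ' i) * B i F - Real.exp (3 * τ i) * B i F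
            ≤ Real.exp (3 * τ' i) * B i F :=
              sub_le_self _ (mul_nonneg (Real.exp_pos _).le (hB i F))
          _ ≤ Real.exp (3 * τ' i) * (5 * C * Real.exp (-2 * τ i)) :=
              mul_le_mul_of_nonneg_left (hBj i) (Real.exp_pos _).le
          _ = 5 * C * Real.exp (3 * τ' i + -2 * τ i) := by rw [Real.exp_add]; ring
          _ ≤ 5 * C * Real.exp (3 + τ j + -d i) := by
              refine mul_le_mul_of_nonneg_left (Real.exp_le_exp.2 ?_) (by positivity)
              rw [e]; linarith [d1 i]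
          _ = 5 * C * Real.exp 3 * Real.exp (τ j) * Real.exp (-d i) := by
              rw [Real.exp_add, Real.exp_add]; ring
    refine (Finset.sum_le_sum fun i _ => h0 i).trans ?_
    rw [← Finset.mul_sum]
    calc 5 * C * Real.exp 3 * Real.exp (τ j) * ∑ i, Real.exp (-d i)
        ≤ 5 * C * Real.exp 3 * Real.exp (τ j) * 2 :=
          mul_le_mul_of_nonneg_left d4 (by positivity)
      _ = _ := by ring
  have h4 : Real.exp (-τ j) * (1 - Real.exp (-1)) * A j F ≤
      δ + 10 * C * Real.exp 3 * Real.exp (τ j) := by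
    have e : Real.exp (-τ j) * (1 - Real.exp (-1)) = Real.exp (-τ j) - Real.exp (-τ' j) := by
      rw [hj', neg_add, Real.exp_add]; ring
    rw [e]; linarith
  have hδj := hδT j
  have hT : 0 < Real.exp (τ j) := Real.exp_pos _
  have e2 : Real.exp (2 * τ j) = Real.exp (τ j) ^ 2 := by
    rw [← Real.exp_nat_mul]; norm_num
  rw [e2]
  rw [Real.exp_neg (τ j)] at h4
  have hA0 := hA j F
  generalize Real.exp (τ j) = T at h4 hδj hT e2 ⊢
  have h5 : (1 - Real.exp (-1)) * A j F ≤ T ^ 2 * (1 + 10 * C * Real.exp 3) := by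
    have h6 : T * (T⁻¹ * (1 - Real.exp (-1)) * A j F) ≤
        T * (δ + 10 * C * Real.exp 3 * T) := mul_le_mul_of_nonneg_left h4 hT.le
    have e : T * (T⁻¹ * (1 - Real.exp (-1)) * A j F) = (1 - Real.exp (-1)) * A j F := by
      field_simp
    rw [e] at h6
    have h7 : T * δ ≤ T * T := mul_le_mul_of_nonneg_left hδj hT.le
    have e' : T ^ 2 * (1 + 10 * C * Real.exp 3) = T * T + T * (10 * C * Real.exp 3 * T) := by ring
    rw [e']; linarith
  have he1 : Real.exp (-1) ≤ 0.37 := by
    rw [Real.exp_neg, inv_le_comm₀ (Real.exp_pos _) (by norm_num)]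
    have := Real.exp_one_gt_d9
    norm_num at this ⊢
    linarith
  have he3 : Real.exp 3 ≤ 20.1 := by
    have e : Real.exp 3 = Real.exp 1 ^ 3 := by rw [← Real.exp_nat_mul]; norm_num
    rw [e]
    have h6 := Real.exp_one_lt_d9
    calc Real.exp 1 ^ 3 ≤ 2.7182818286 ^ 3 := pow_le_pow_left₀ (Real.exp_pos _).le h6.le 3
      _ ≤ 20.1 := by norm_num
  have h8 : 0.63 * A j F ≤ (1 - Real.exp (-1)) * A j F :=
    mul_le_mul_of_nonneg_right (by linarith) hA0
  have h9 : 1 + 10 * C * Real.exp 3 ≤ 202 * C := by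
    have : C * Real.exp 3 ≤ C * 20.1 := mul_le_mul_of_nonneg_left he3 hC0.le
    nlinarith
  have h10 : T ^ 2 * (1 + 10 * C * Real.exp 3) ≤ T ^ 2 * (202 * C) :=
    mul_le_mul_of_nonneg_left h9 (by positivity)
  have h11 : 0 ≤ T ^ 2 * C := by positivity
  nlinarith

end NF

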