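import Pool.Agent.Helper369.NF.Defs

open MeasureTheory Metric

namespace NF

open Complex Set Filter Topology in
theorem mean_disc (F : ℂ → ℂ) (r : ℝ) (hr : 0 < r) (hF : DifferentiableOn ℂ F (ball 0 r)) :
    ENNReal.ofReal (Real.pi * r ^ 2 * ‖F 0‖) ≤ ∫⁻ w in ball 0 r, ENNReal.ofReal ‖F w‖ := by
  rw [← lintegral_indicator measurableSet_ball, ← Complex.lintegral_comp_polarCoord_symm]
  have hsub : Ioo (0:ℝ) r ×ˢ Ioo (-Real.pi) Real.pi ⊆ polarCoord.target := by
    rintro ⟨a, b⟩ ⟨ha, hb⟩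
    exact ⟨ha.1, hb⟩
  refine le_trans ?_ (lintegral_mono_set hsub)
  have h1 : ∫⁻ p in Ioo (0:ℝ) r ×ˢ Ioo (-Real.pi) Real.pi, ENNReal.ofReal p.1 •
      (ball (0:ℂ) r).indicator (fun w => ENNReal.ofReal ‖F w‖) (Complex.polarCoord.symm p) =
      ∫⁻ p in Ioo (0:ℝ) r ×ˢ Ioo (-Real.pi) Real.pi,
        ENNReal.ofReal p.1 * ENNReal.ofReal ‖F (circleMap 0 p.1 p.2)‖ := by
    apply setLIntegral_congr_fun (measurableSet_Ioo.prod measurableSet_Ioo)
    rintro ⟨ρ, θ⟩ ⟨hρ, -⟩
    simp only [mem_Ioo] at hρ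
    simp only [smul_eq_mul]
    have hn : ‖Complex.polarCoord.symm (ρ, θ)‖ = ρ := by
      rw [Complex.norm_polarCoord_symm]; exact abs_of_pos hρ.1
    rw [indicator_of_mem (by rw [mem_ball, dist_zero_right, hn]; exact hρ.2)]
    congr 4
    rw [Complex.polarCoord_symm_apply, circleMap, zero_add, Complex.exp_mul_I]
    simp
  rw [h1, Measure.volume_eq_prod]
  have hmaps : ∀ p ∈ Ioo (0:ℝ) r ×ˢ Ioo (-Real.pi) Real.pi, circleMap 0 p.1 p.2 ∈ ball (0:ℂ) r := by
    rintro ⟨ρ, θ⟩ ⟨hρ, -⟩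
    simp only [mem_Ioo] at hρ
    rw [mem_ball, dist_zero_right, norm_circleMap_zero]
    rw [abs_of_pos hρ.1]; exact hρ.2
  have hcm : Continuous (fun p : ℝ × ℝ => circleMap 0 p.1 p.2) := by
    unfold circleMap; fun_prop
  have hcont : ContinuousOn (fun p : ℝ × ℝ => ‖F (circleMap 0 p.1 p.2)‖)
      (Ioo (0:ℝ) r ×ˢ Ioo (-Real.pi) Real.pi) :=
    (hF.continuousOn.comp hcm.continuousOn hmaps).norm
  rw [setLIntegral_prod]
  swap
  · have h2 : AEMeasurable (fun p : ℝ × ℝ => ‖F (circleMap 0 p.1 p.2)‖)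
        ((volume : Measure (ℝ × ℝ)).restrict (Ioo (0:ℝ) r ×ˢ Ioo (-Real.pi) Real.pi)) :=
      hcont.aemeasurable (measurableSet_Ioo.prod measurableSet_Ioo)
    exact (measurable_fst.ennreal_ofReal.aemeasurable).mul h2.ennreal_ofReal
  have hinner : ∀ ρ ∈ Ioo (0:ℝ) r, ENNReal.ofReal ρ * ENNReal.ofReal (2 * Real.pi * ‖F 0‖) ≤
      ∫⁻ θ in Ioo (-Real.pi) Real.pi, ENNReal.ofReal ρ * ENNReal.ofReal ‖F (circleMap 0 ρ θ)‖ := by
    intro ρ hρ
    rw [lintegral_const_mul' _ _ ENNReal.ofReal_ne_top]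
    gcongr
    have hd : DiffContOnCl ℂ F (ball 0 |ρ|) := by
      rw [abs_of_pos hρ.1]
      apply DifferentiableOn.diffContOnCl
      rw [closure_ball _ hρ.1.ne']
      exact hF.mono (closedBall_subset_ball hρ.2)
    have hav := hd.circleAverage
    rw [Real.circleAverage_eq_integral_add (-Real.pi)] at hav
    rw [intervalIntegral.integral_comp_add_right (fun θ => F (circleMap 0 ρ θ))] at hav
    have hpi := Real.pi_pos
    have e1 : (0:ℝ) + -Real.pi = -Real.pi := by ring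
    have e2 : 2 * Real.pi + -Real.pi = Real.pi := by ring
    rw [e1, e2, intervalIntegral.integral_of_le (by linarith),
      integral_Ioc_eq_integral_Ioo] at hav
    have h3 : ((2 * Real.pi : ℝ)) • F 0 = ∫ θ in Ioo (-Real.pi) Real.pi, F (circleMap 0 ρ θ) := by
      rw [← hav, smul_smul, mul_inv_cancel₀ (by positivity), one_smul]
    have h4 := enorm_integral_le_lintegral_enorm
      (μ := volume.restrict (Ioo (-Real.pi) Real.pi)) (fun θ => F (circleMap 0 ρ θ))
    rw [← h3] at h4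
    have h5 : ‖(2 * Real.pi : ℝ) • F 0‖ₑ = ENNReal.ofReal (2 * Real.pi * ‖F 0‖) := by
      rw [← ofReal_norm, norm_smul, Real.norm_eq_abs, abs_of_pos (by positivity)]
    rw [h5] at h4
    refine h4.trans (le_of_eq ?_)
    apply lintegral_congr
    intro θ
    rw [ofReal_norm]
  refine le_trans ?_ (setLIntegral_mono' measurableSet_Ioo hinner)
  rw [lintegral_mul_const _ (by fun_prop)]
  have h6 : ∫⁻ ρ in Ioo (0:ℝ) r, ENNReal.ofReal ρ = ENNReal.ofReal (r ^ 2 / 2) := by
    rw [restrict_Ioo_eq_restrict_Ioc, ← ofReal_integral_eq_lintegral_ofReal]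
    · rw [← intervalIntegral.integral_of_le hr.le, integral_id]
      congr 1; ring
    · exact (continuous_id.integrableOn_Icc.mono_set Ioc_subset_Icc_self)
    · filter_upwards [ae_restrict_mem measurableSet_Ioc] with x hx
      exact hx.1.le
  rw [h6, ← ENNReal.ofReal_mul (by positivity)]
  apply ENNReal.ofReal_le_ofReal
  apply le_of_eq
  ring



/-- mean value inequality for squares on a disc -/
theorem sq_disc (f : ℂ → ℂ) (q : ℂ) (s : ℝ) (hs : 0 < s) (hf : DifferentiableOn ℂ f (ball q s))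
    (S : Set ℂ) (hS : ball q s ⊆ S) (A : ℝ)
    (hint : IntegrableOn (fun q => ‖f q‖ ^ 2) S) (hA : ∫ q in S, ‖f q‖ ^ 2 ≤ A) :
    ‖f q‖ ^ 2 ≤ 1 / (Real.pi * s ^ 2) * A := by
  have hd : DifferentiableOn ℂ (fun w => f (q + w) ^ 2) (ball 0 s) := by
    apply DifferentiableOn.pow
    apply hf.comp
    · fun_prop
    · intro w hw
      simpa [mem_ball, dist_eq_norm] using hw
  have h1 := mean_disc _ s hs hd
  have h2 : ∫⁻ w in ball (0:ℂ) s, ENNReal.ofReal ‖f (q + w) ^ 2‖ =
      ∫⁻ w in ball q s, ENNReal.ofReal (‖f w‖ ^ 2) := by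
    have := (measurePreserving_add_left (volume : Measure ℂ) q).setLIntegral_comp_preimage_emb
      (measurableEmbedding_addLeft q) (fun w => ENNReal.ofReal (‖f w‖ ^ 2)) (ball q s)
    rw [← this]
    have hp : (fun x => q + x) ⁻¹' ball q s = ball 0 s := by
      ext w; simp [mem_ball, dist_eq_norm]
    rw [hp]
    simp only [norm_pow]
  rw [h2] at h1
  have h3 : ∫⁻ w in ball q s, ENNReal.ofReal (‖f w‖ ^ 2) ≤ ENNReal.ofReal A := by
    calc ∫⁻ w in ball q s, ENNReal.ofReal (‖f w‖ ^ 2)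
        ≤ ∫⁻ w in S, ENNReal.ofReal (‖f w‖ ^ 2) := lintegral_mono_set hS
      _ = ENNReal.ofReal (∫ w in S, ‖f w‖ ^ 2) := by
          rw [ofReal_integral_eq_lintegral_ofReal hint]
          filter_upwards with x
          positivity
      _ ≤ _ := ENNReal.ofReal_le_ofReal hA
  have hA0 : 0 ≤ A := le_trans (integral_nonneg fun x => by positivity) hA
  have h4 := (ENNReal.ofReal_le_ofReal_iff hA0).mp (h1.trans h3)
  have hpi := Real.pi_pos
  rw [add_zero, norm_pow] at h4
  rw [one_div, ← div_eq_inv_mul, le_div_iff₀ (by positivity)]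
  linarith

/-- target: upper bound from the L2 bounds on the two half annuli (mean value inequality on the circles
`|q| = R/2`, `|q| = 2r/R` and the maximum principle) -/
theorem upper_annulus (R : ℝ) (hR : 0 < R) (r : ℝ) (hr : 0 ≤ r) (hrR : 16 ^ 2 * r ≤ R ^ 2)
    (f : Bool → ℂ → ℂ) (hf : ∀ b, DifferentiableOn ℂ (f b) (Dom R r))
    (hflip : 0 < r → ∀ q ∈ Dom R r, f true q = f false (r / q)) (A : ℝ)
    (hint : ∀ b, IntegrableOn (fun q => ‖f b q‖ ^ 2) (Half R r))
    (hA : ∀ b, ∫ q in Half R r, ‖f b q‖ ^ 2 ≤ A) :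
    ∀ b, ∀ q ∈ Dom (R / 2) r, ‖f b q‖ ^ 2 ≤ 16 / (Real.pi * R ^ 2) * A := by
  have hpi := Real.pi_pos
  set C : ℝ := 16 / (Real.pi * R ^ 2) * A with hC
  have hrR' : r ≤ R ^ 2 / 256 := by linarith
  -- the outer circle
  have houter : ∀ b, ∀ q : ℂ, ‖q‖ = R / 2 → ‖f b q‖ ^ 2 ≤ C := by
    intro b q hq
    have hsub : ball q (R / 4) ⊆ Half R r := by
      intro w hw
      rw [mem_ball, dist_eq_norm] at hw
      have h1 : ‖w‖ ≤ ‖q‖ + ‖w - q‖ := by
        calc ‖w‖ = ‖q + (w - q)‖ := by congr 1; ring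
          _ ≤ _ := norm_add_le _ _
      have h2 : ‖q‖ ≤ ‖w‖ + ‖w - q‖ := by
        calc ‖q‖ = ‖w - (w - q)‖ := by congr 1; ring
          _ ≤ _ := norm_sub_le _ _
      refine ⟨by linarith, ?_⟩
      have h3 : R / 4 < ‖w‖ := by linarith
      nlinarith
    have hsub2 : ball q (R / 4) ⊆ Dom R r := by
      intro w hw
      have h := hsub hw
      rw [mem_ball, dist_eq_norm] at hw
      have h2 : ‖q‖ ≤ ‖w‖ + ‖w - q‖ := by
        calc ‖q‖ = ‖w - (w - q)‖ := by congr 1; ring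
          _ ≤ _ := norm_sub_le _ _
      refine ⟨h.1, Or.inr ?_⟩
      have h3 : R / 4 < ‖w‖ := by linarith
      nlinarith
    have := sq_disc (f b) q (R / 4) (by positivity) ((hf b).mono hsub2) (Half R r) hsub A (hint b) (hA b)
    calc ‖f b q‖ ^ 2 ≤ 1 / (Real.pi * (R / 4) ^ 2) * A := this
      _ = C := by rw [hC]; field_simp; ring
  have hC0 : 0 ≤ C := le_trans (by positivity) (houter true ((R / 2 : ℝ) : ℂ) (by simp [abs_of_pos hR]))
  -- the inner circle
  have hinner : 0 < r → ∀ b, ∀ q : ℂ, ‖q‖ = 2 * r / R → ‖f b q‖ ^ 2 ≤ C := by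
    intro hr0 b q hq
    have hq0 : q ≠ 0 := by
      intro h
      rw [h, norm_zero] at hq
      have : 0 < 2 * r / R := by positivity
      linarith
    have hqd : ‖(r : ℂ) / q‖ = R / 2 := by
      rw [norm_div, hq, Complex.norm_real, Real.norm_eq_abs, abs_of_pos hr0]
      field_simp
    cases b with
    | true =>
      rw [hflip hr0 q ⟨?_, Or.inr ?_⟩]
      · exact houter false _ hqd
      · rw [hq, div_lt_iff₀ hR]; nlinarith
      · rw [hq]; field_simp; linarith
    | false =>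
      have h := hflip hr0 ((r : ℂ) / q) ⟨?_, Or.inr ?_⟩
      · have e : (r : ℂ) / ((r : ℂ) / q) = q := by
          have : (r : ℂ) ≠ 0 := by exact_mod_cast hr0.ne'
          field_simp
        rw [e] at h
        rw [← h]
        exact houter true _ hqd
      · rw [hqd]; linarith
      · rw [hqd]; nlinarith
  -- maximum principle
  intro b q hq
  have hU : Bornology.IsBounded (Dom (R / 2) r) :=
    (isBounded_ball (x := (0:ℂ)) (r := R / 2)).subset fun w hw => by
      rw [mem_ball, dist_zero_right]; exact hw.1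
  have hopen : IsOpen (Dom (R / 2) r) := by
    apply IsOpen.and (isOpen_lt continuous_norm continuous_const)
    apply IsOpen.union (s₁ := {w : ℂ | r = 0}) (s₂ := {w : ℂ | r < R / 2 * ‖w‖})
    · by_cases h : r = 0 <;> simp [h]
    · exact isOpen_lt continuous_const (continuous_const.mul continuous_norm)
  have hcl : ∀ w ∈ closure (Dom (R / 2) r), ‖w‖ ≤ R / 2 ∧ (r = 0 ∨ r ≤ R / 2 * ‖w‖) := by
    have hclosed : IsClosed {w : ℂ | ‖w‖ ≤ R / 2 ∧ (r = 0 ∨ r ≤ R / 2 * ‖w‖)} := by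
      apply IsClosed.and (isClosed_le continuous_norm continuous_const)
      apply IsClosed.union (s₁ := {w : ℂ | r = 0}) (s₂ := {w : ℂ | r ≤ R / 2 * ‖w‖})
      · by_cases h : r = 0 <;> simp [h]
      · exact isClosed_le continuous_const (continuous_const.mul continuous_norm)
    intro w hw
    have : closure (Dom (R / 2) r) ⊆ {w : ℂ | ‖w‖ ≤ R / 2 ∧ (r = 0 ∨ r ≤ R / 2 * ‖w‖)} := by
      apply closure_minimal _ hclosed
      rintro w ⟨h1, h2⟩
      exact ⟨h1.le, h2.imp id le_of_lt⟩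
    exact this hw
  have hclD : closure (Dom (R / 2) r) ⊆ Dom R r := by
    intro w hw
    obtain ⟨h1, h2⟩ := hcl w hw
    refine ⟨by linarith, ?_⟩
    rcases h2 with h | h
    · exact Or.inl h
    · by_cases hr0 : r = 0
      · exact Or.inl hr0
      · right
        have hrp : 0 < r := lt_of_le_of_ne hr (Ne.symm hr0)
        have : 0 < ‖w‖ := by
          by_contra hn
          have : ‖w‖ = 0 := le_antisymm (not_lt.mp hn) (norm_nonneg _)
          rw [this] at h
          linarith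
        nlinarith
  have hdc : DiffContOnCl ℂ (f b) (Dom (R / 2) r) := ((hf b).mono hclD).diffContOnCl
  have hfr : ∀ z ∈ frontier (Dom (R / 2) r), ‖f b z‖ ≤ Real.sqrt C := by
    intro z hz
    rw [hopen.frontier_eq] at hz
    obtain ⟨h1, h2⟩ := hcl z hz.1
    apply Real.le_sqrt_of_sq_le
    by_cases h3 : ‖z‖ = R / 2
    · exact houter b z h3
    · have h4 : ‖z‖ < R / 2 := lt_of_le_of_ne h1 h3
      have h5 : ¬ (r = 0 ∨ r < R / 2 * ‖z‖) := fun h => hz.2 ⟨h4, h⟩
      push Not at h5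
      have hrp : 0 < r := lt_of_le_of_ne hr (Ne.symm h5.1)
      have h6 : r = R / 2 * ‖z‖ := le_antisymm (h2.resolve_left h5.1) h5.2
      apply hinner hrp b z
      rw [h6]; field_simp
  have h := Complex.norm_le_of_forall_mem_frontier_norm_le hU hdc hfr (subset_closure hq)
  calc ‖f b q‖ ^ 2 ≤ Real.sqrt C ^ 2 := by gcongr
    _ = C := Real.sq_sqrt hC0

end NF

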