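import Pool.Agent.Helper369.NF.Defs

open MeasureTheory Metric

namespace NF

/-- radial minorant -/
noncomputable def Fr (a s k y : ℝ) : ℝ := if 0 < y ∧ y < a then 1 / (2 * (s + k * y ^ 2)) else 0

theorem Fr_nonneg {a s k : ℝ} (hs : 0 < s) (hk : 0 < k) (y : ℝ) : 0 ≤ Fr a s k y := by
  unfold Fr
  split_ifs <;> positivity

theorem Fr_le {a s k : ℝ} (hs : 0 < s) (hk : 0 < k) (y : ℝ) : Fr a s k y ≤ 1 / (2 * s) := by
  unfold Fr
  split_ifs with h
  · apply one_div_le_one_div_of_le (by positivity)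
    have : 0 ≤ k * y ^ 2 := by positivity
    linarith
  · positivity

theorem Fr_meas (a s k : ℝ) : Measurable (Fr a s k) := by
  unfold Fr
  refine Measurable.ite ?_ ?_ measurable_const
  · exact (measurableSet_lt measurable_const measurable_id).inter
      (measurableSet_lt measurable_id measurable_const)
  · fun_prop

theorem Fr_int {a s k : ℝ} (hs : 0 < s) (hk : 0 < k) :
    Integrable (fun w : ℂ => Fr a s k ‖w‖) := by
  have h1 : Integrable ((ball (0 : ℂ) a).indicator (fun _ => 1 / (2 * s))) := by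
    rw [integrable_indicator_iff measurableSet_ball]
    exact integrableOn_const (measure_ball_lt_top.ne)
  refine Integrable.mono' h1 ((Fr_meas a s k).comp measurable_norm).aestronglyMeasurable ?_
  filter_upwards with w
  rw [Real.norm_of_nonneg (Fr_nonneg hs hk _)]
  by_cases hw : w ∈ ball (0 : ℂ) a
  · rw [Set.indicator_of_mem hw]
    exact Fr_le hs hk _
  · rw [Set.indicator_of_notMem hw]
    unfold Fr
    rw [if_neg]
    intro h
    apply hw
    rw [mem_ball_zero_iff]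
    exact h.2

theorem Fr_val {a s k : ℝ} (ha : 0 < a) (hs : 0 < s) (hk : 0 < k) :
    ∫ w : ℂ, Fr a s k ‖w‖ = Real.pi / (2 * k) * Real.log (1 + k * a ^ 2 / s) := by
  rw [integral_fun_norm_addHaar (volume : Measure ℂ) (Fr a s k), Complex.finrank_real_complex]
  have hvol : (volume : Measure ℂ).real (ball 0 1) = Real.pi := by
    rw [measureReal_def, Complex.volume_ball]
    simp
  rw [hvol]
  have h1 : ∫ y in Set.Ioi (0 : ℝ), y ^ (2 - 1) • Fr a s k y =
      ∫ y in (0 : ℝ)..a, y / (2 * (s + k * y ^ 2)) := by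
    rw [intervalIntegral.integral_of_le ha.le, integral_Ioc_eq_integral_Ioo]
    have h2 : Set.EqOn (fun y : ℝ => y ^ (2 - 1) • Fr a s k y)
        ((Set.Iio a).indicator (fun y => y / (2 * (s + k * y ^ 2)))) (Set.Ioi 0) := by
      intro y hy
      have hy0 : 0 < y := hy
      by_cases h : y < a
      · rw [Set.indicator_of_mem (show y ∈ Set.Iio a from h)]
        unfold Fr
        simp only [if_pos (And.intro hy0 h), smul_eq_mul]
        rw [mul_one_div, show 2 - 1 = 1 by norm_num, pow_one]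
      · rw [Set.indicator_of_notMem (show y ∉ Set.Iio a from h)]
        unfold Fr
        simp only [h, and_false, if_false, smul_zero]
    rw [setIntegral_congr_fun measurableSet_Ioi h2, setIntegral_indicator measurableSet_Iio,
      Set.Ioi_inter_Iio]
  rw [h1]
  have hpos : ∀ y : ℝ, 0 < s + k * y ^ 2 := fun y => by positivity
  have h3 : ∫ y in (0 : ℝ)..a, y / (2 * (s + k * y ^ 2)) =
      1 / (4 * k) * Real.log (s + k * a ^ 2) - 1 / (4 * k) * Real.log (s + k * 0 ^ 2) := by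
    apply intervalIntegral.integral_eq_sub_of_hasDerivAt
    · intro y _
      have h4 : HasDerivAt (fun y : ℝ => s + k * y ^ 2) (k * (2 * y)) y := by
        have := ((hasDerivAt_pow 2 y).const_mul k).const_add s
        simpa using this
      have h5 := (h4.log (hpos y).ne').const_mul (1 / (4 * k))
      refine h5.congr_deriv ?_
      have := (hpos y).ne'
      field_simp
      ring
    · apply Continuous.intervalIntegrable
      refine Continuous.div continuous_id (by fun_prop) (fun y => ?_)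
      have := hpos y
      positivity
  rw [h3]
  have h6 : Real.log (1 + k * a ^ 2 / s) = Real.log (s + k * a ^ 2) - Real.log s := by
    rw [← Real.log_div (hpos a).ne' hs.ne']
    congr 1
    field_simp
  rw [h6]
  simp only [smul_eq_mul, nsmul_eq_mul]
  have h7 : s + k * 0 ^ 2 = s := by ring
  rw [h7]
  push_cast
  field_simp
  ring

theorem Fr_half {a s k : ℝ} (hs : 0 < s) (hk : 0 < k) (c : ℂ) :
    Integrable (fun w : ℂ => if 0 ≤ (starRingEnd ℂ c * w).re then Fr a s k ‖w‖ else 0) ∧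
    ∫ w : ℂ, Fr a s k ‖w‖ ≤
      2 * ∫ w : ℂ, (if 0 ≤ (starRingEnd ℂ c * w).re then Fr a s k ‖w‖ else 0) := by
  have hm : MeasurableSet {w : ℂ | 0 ≤ (starRingEnd ℂ c * w).re} := by
    apply IsClosed.measurableSet
    apply isClosed_le continuous_const
    exact Complex.continuous_re.comp (continuous_const.mul continuous_id)
  have h1 : Integrable (fun w : ℂ => if 0 ≤ (starRingEnd ℂ c * w).re then Fr a s k ‖w‖ else 0) := by
    have h2 := (Fr_int (a := a) hs hk).indicator hm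
    refine h2.congr ?_
    filter_upwards with w
    by_cases hw : 0 ≤ (starRingEnd ℂ c * w).re
    · rw [if_pos hw, Set.indicator_of_mem (show w ∈ {w : ℂ | 0 ≤ (starRingEnd ℂ c * w).re} from hw)]
    · rw [if_neg hw,
        Set.indicator_of_notMem (show w ∉ {w : ℂ | 0 ≤ (starRingEnd ℂ c * w).re} from hw)]
  refine ⟨h1, ?_⟩
  have h3 := integral_neg_eq_self
    (fun w : ℂ => if 0 ≤ (starRingEnd ℂ c * w).re then Fr a s k ‖w‖ else 0) volume
  have h4 : Integrable (fun w : ℂ => if 0 ≤ (starRingEnd ℂ c * (-w)).re then Fr a s k ‖-w‖ else 0) :=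
    h1.comp_neg
  have h5 : ∫ w : ℂ, Fr a s k ‖w‖ ≤
      ∫ w : ℂ, ((if 0 ≤ (starRingEnd ℂ c * w).re then Fr a s k ‖w‖ else 0) +
        (if 0 ≤ (starRingEnd ℂ c * (-w)).re then Fr a s k ‖-w‖ else 0)) := by
    refine integral_mono (Fr_int hs hk) (h1.add h4) (fun w => ?_)
    have h6 := Fr_nonneg (a := a) hs hk ‖w‖
    show Fr a s k ‖w‖ ≤ (if 0 ≤ (starRingEnd ℂ c * w).re then Fr a s k ‖w‖ else 0) +
        (if 0 ≤ (starRingEnd ℂ c * (-w)).re then Fr a s k ‖-w‖ else 0)
    rw [norm_neg]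
    by_cases hw : 0 ≤ (starRingEnd ℂ c * w).re
    · rw [if_pos hw]
      split_ifs <;> linarith
    · have hw' : 0 ≤ (starRingEnd ℂ c * (-w)).re := by
        rw [mul_neg, Complex.neg_re]
        linarith [not_le.1 hw]
      rw [if_neg hw, if_pos hw']
      linarith
  rw [integral_add h1 h4, h3] at h5
  linarith

theorem mvt_seg {f : ℂ → ℂ} {q₁ w : ℂ} {ρ a K : ℝ} (h0 : 0 ≤ (starRingEnd ℂ q₁ * w).re)
    (hρ : ρ ≤ ‖q₁‖) (ha : ‖q₁‖ + ‖w‖ ≤ a)
    (hf : ∀ q : ℂ, ρ ≤ ‖q‖ → ‖q‖ ≤ a → DifferentiableAt ℂ f q ∧ ‖deriv f q‖ ≤ K) :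
    ‖f (q₁ + w) - f q₁‖ ≤ K * ‖w‖ := by
  have hseg : ∀ q ∈ segment ℝ q₁ (q₁ + w), ρ ≤ ‖q‖ ∧ ‖q‖ ≤ a := by
    intro q hq
    rw [segment_eq_image'] at hq
    obtain ⟨θ, hθ, rfl⟩ := hq
    have e1 : q₁ + θ • (q₁ + w - q₁) = q₁ + (θ : ℂ) * w := by
      rw [add_sub_cancel_left]; rfl
    simp only [e1]
    constructor
    · refine hρ.trans ?_
      have h2 : ‖q₁‖ ^ 2 ≤ ‖q₁ + (θ : ℂ) * w‖ ^ 2 := by
        rw [← Complex.normSq_eq_norm_sq, ← Complex.normSq_eq_norm_sq, Complex.normSq_add]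
        have h3 : (q₁ * starRingEnd ℂ ((θ : ℂ) * w)).re = θ * (starRingEnd ℂ q₁ * w).re := by
          simp only [map_mul, Complex.conj_ofReal, Complex.mul_re, Complex.mul_im, Complex.conj_re,
            Complex.conj_im, Complex.ofReal_re, Complex.ofReal_im]
          ring
        rw [h3]
        have h4 : 0 ≤ θ * (starRingEnd ℂ q₁ * w).re := mul_nonneg hθ.1 h0
        have h5 := Complex.normSq_nonneg ((θ : ℂ) * w)
        linarith
      exact le_of_sq_le_sq h2 (norm_nonneg _)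
    · refine (norm_add_le _ _).trans ?_
      rw [norm_mul, Complex.norm_real, Real.norm_of_nonneg hθ.1]
      have h3 : θ * ‖w‖ ≤ 1 * ‖w‖ := by
        have := hθ.2
        gcongr
      linarith
  have h1 := Convex.norm_image_sub_le_of_norm_deriv_le (𝕜 := ℂ) (f := f) (C := K)
    (s := segment ℝ q₁ (q₁ + w)) (x := q₁) (y := q₁ + w)
    (fun q hq => (hf q (hseg q hq).1 (hseg q hq).2).1)
    (fun q hq => (hf q (hseg q hq).1 (hseg q hq).2).2) (convex_segment _ _)
    (left_mem_segment _ _ _) (right_mem_segment _ _ _)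
  rwa [add_sub_cancel_left] at h1

/-- target: lower bound.  `f, g` have derivative bounded by `L` on `√r ≤ |q| ≤ R/4`. -/
theorem lower_annulus (R : ℝ) (hR : 0 < R) (L B : ℝ) (hL : 0 < L) (hB : 0 < B) :
    ∃ c : ℝ, 0 < c ∧ ∀ (r : ℝ), 0 ≤ r → 16 ^ 2 * r ≤ R ^ 2 → ∀ (f g : ℂ → ℂ) (t κ : ℝ), 0 < t → 0 < κ →
      (∀ q : ℂ, Real.sqrt r ≤ ‖q‖ → ‖q‖ ≤ R / 4 → DifferentiableAt ℂ f q ∧ DifferentiableAt ℂ g q ∧
        ‖deriv f q‖ ≤ L * t ∧ ‖deriv g q‖ ≤ L * t) →
      IntegrableOn (fun q : ℂ => 1 / (‖f q‖ ^ 2 + ‖g q‖ ^ 2 + κ)) (Half R r) →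
      (∫ q in Half R r, 1 / (‖f q‖ ^ 2 + ‖g q‖ ^ 2 + κ)) ≤ B / t ^ 2 →
      ∀ q : ℂ, Real.sqrt r ≤ ‖q‖ → ‖q‖ ≤ R / 8 → c * t ^ 2 ≤ ‖f q‖ ^ 2 + ‖g q‖ ^ 2 + κ := by
  have hpi := Real.pi_pos
  have hexp : 0 < Real.exp (8 * L ^ 2 * B / Real.pi) - 1 := by
    have : 1 < Real.exp (8 * L ^ 2 * B / Real.pi) := Real.one_lt_exp_iff.2 (by positivity)
    linarith
  refine ⟨2 * L ^ 2 * (R / 8) ^ 2 / (Real.exp (8 * L ^ 2 * B / Real.pi) - 1), by positivity, ?_⟩
  intro r hr hrR f g t κ ht hκ hfg hint hB' q₁ hq1 hq2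
  set s : ℝ := ‖f q₁‖ ^ 2 + ‖g q₁‖ ^ 2 + κ with hs
  have hs0 : 0 < s := by positivity
  set k : ℝ := 2 * L ^ 2 * t ^ 2 with hk
  have hk0 : 0 < k := by positivity
  set a : ℝ := R / 8 with ha
  have ha0 : 0 < a := by positivity
  obtain ⟨hh1, hh2⟩ := Fr_half (a := a) hs0 hk0 q₁
  -- translate
  have htr : ∫ w : ℂ, (if 0 ≤ (starRingEnd ℂ q₁ * w).re then Fr a s k ‖w‖ else 0) =
      ∫ q : ℂ, (if 0 ≤ (starRingEnd ℂ q₁ * (q - q₁)).re then Fr a s k ‖q - q₁‖ else 0) :=
    (integral_sub_right_eq_self (μ := (volume : Measure ℂ))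
      (fun w : ℂ => if 0 ≤ (starRingEnd ℂ q₁ * w).re then Fr a s k ‖w‖ else 0) q₁).symm
  have hint' : Integrable (fun q : ℂ => if 0 ≤ (starRingEnd ℂ q₁ * (q - q₁)).re then
      Fr a s k ‖q - q₁‖ else 0) := hh1.comp_sub_right q₁
  have hHm : MeasurableSet (Half R r) := by
    refine (measurableSet_lt measurable_norm measurable_const).inter
      (measurableSet_lt measurable_const (measurable_norm.pow_const 2))
  have hmono : ∫ q : ℂ, (if 0 ≤ (starRingEnd ℂ q₁ * (q - q₁)).re then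
      Fr a s k ‖q - q₁‖ else 0) ≤ ∫ q in Half R r, 1 / (‖f q‖ ^ 2 + ‖g q‖ ^ 2 + κ) := by
    rw [← integral_indicator hHm]
    refine integral_mono hint' (hint.integrable_indicator hHm) (fun q => ?_)
    have hG0 : 0 ≤ (Half R r).indicator (fun q => 1 / (‖f q‖ ^ 2 + ‖g q‖ ^ 2 + κ)) q :=
      Set.indicator_nonneg (fun q _ => by positivity) q
    show (if 0 ≤ (starRingEnd ℂ q₁ * (q - q₁)).re then Fr a s k ‖q - q₁‖ else 0) ≤ _
    by_cases h1 : 0 ≤ (starRingEnd ℂ q₁ * (q - q₁)).re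
    · rw [if_pos h1]
      by_cases h2 : 0 < ‖q - q₁‖ ∧ ‖q - q₁‖ < a
      · unfold Fr
        rw [if_pos h2]
        set w := q - q₁ with hw
        have hq : q = q₁ + w := by rw [hw]; ring
        have hsqr : Real.sqrt r ^ 2 = r := Real.sq_sqrt hr
        have hq1' : r ≤ ‖q₁‖ ^ 2 := by
          rw [← hsqr]
          have := Real.sqrt_nonneg r
          gcongr
        have hmem : q ∈ Half R r := by
          constructor
          · rw [hq]
            refine (norm_add_le _ _).trans_lt ?_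
            rw [ha] at h2
            linarith [h2.2]
          · show r < ‖q‖ ^ 2
            rw [hq, ← Complex.normSq_eq_norm_sq, Complex.normSq_add]
            have h3 : (q₁ * starRingEnd ℂ w).re = (starRingEnd ℂ q₁ * w).re := by
              simp only [Complex.mul_re, Complex.conj_re, Complex.conj_im]
              ring
            rw [h3, Complex.normSq_eq_norm_sq, Complex.normSq_eq_norm_sq]
            have h4 : 0 < ‖w‖ ^ 2 := by
              have := h2.1
              positivity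
            linarith
        rw [Set.indicator_of_mem hmem]
        have hfw := mvt_seg (f := f) (K := L * t) (a := R / 4) h1 hq1
          (by rw [ha] at h2; linarith [h2.2])
          (fun q h3 h4 => ⟨(hfg q h3 h4).1, (hfg q h3 h4).2.2.1⟩)
        have hgw := mvt_seg (f := g) (K := L * t) (a := R / 4) h1 hq1
          (by rw [ha] at h2; linarith [h2.2])
          (fun q h3 h4 => ⟨(hfg q h3 h4).2.1, (hfg q h3 h4).2.2.2⟩)
        rw [← hq] at hfw hgw
        have hgen : ∀ F : ℂ → ℂ, ‖F q - F q₁‖ ≤ L * t * ‖w‖ →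
            ‖F q‖ ^ 2 ≤ 2 * ‖F q₁‖ ^ 2 + k * ‖w‖ ^ 2 := by
          intro F hF
          have h3 : ‖F q‖ ≤ ‖F q₁‖ + L * t * ‖w‖ := by
            have : F q = F q₁ + (F q - F q₁) := by ring
            rw [this]
            exact (norm_add_le _ _).trans (by linarith)
          have h4 : ‖F q‖ ^ 2 ≤ (‖F q₁‖ + L * t * ‖w‖) ^ 2 := by gcongr
          rw [hk]
          nlinarith [sq_nonneg (‖F q₁‖ - L * t * ‖w‖)]
        have h5 := hgen f hfw
        have h6 := hgen g hgw
        apply one_div_le_one_div_of_le (by positivity)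
        rw [hs]
        linarith
      · unfold Fr
        rw [if_neg h2]
        exact hG0
    · rw [if_neg h1]
      exact hG0
  rw [Fr_val ha0 hs0 hk0] at hh2
  rw [htr] at hh2
  have hkey : Real.pi / (2 * k) * Real.log (1 + k * a ^ 2 / s) ≤ 2 * (B / t ^ 2) := by linarith
  have hlog : Real.log (1 + k * a ^ 2 / s) ≤ 8 * L ^ 2 * B / Real.pi := by
    have h1 : Real.log (1 + k * a ^ 2 / s) = (2 * k / Real.pi) *
        (Real.pi / (2 * k) * Real.log (1 + k * a ^ 2 / s)) := by field_simp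
    rw [h1]
    calc (2 * k / Real.pi) * (Real.pi / (2 * k) * Real.log (1 + k * a ^ 2 / s))
        ≤ (2 * k / Real.pi) * (2 * (B / t ^ 2)) := by gcongr
      _ = 8 * L ^ 2 * B / Real.pi := by
          rw [hk]; field_simp; ring
  have h2 : 1 + k * a ^ 2 / s ≤ Real.exp (8 * L ^ 2 * B / Real.pi) := by
    have h3 : 0 < 1 + k * a ^ 2 / s := by positivity
    rw [← Real.exp_log h3]
    exact Real.exp_le_exp.2 hlog
  have h3 : k * a ^ 2 / s ≤ Real.exp (8 * L ^ 2 * B / Real.pi) - 1 := by linarith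
  rw [div_le_iff₀ hs0] at h3
  rw [div_mul_eq_mul_div, div_le_iff₀ hexp]
  calc 2 * L ^ 2 * a ^ 2 * t ^ 2 = k * a ^ 2 := by rw [hk]; ring
    _ ≤ (Real.exp (8 * L ^ 2 * B / Real.pi) - 1) * s := h3
    _ = s * (Real.exp (8 * L ^ 2 * B / Real.pi) - 1) := mul_comm _ _

end NF

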