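import Pool.Agent.Helper369.NF.Defs
import Pool.Agent.Helper369.NF.J2
import Pool.Agent.Helper369.NF.J3
import Pool.Agent.Helper369.NF.J4
import Pool.Agent.Helper369.NF.J5
import Pool.Agent.Helper369.NF.J6

open MeasureTheory Filter Topology Metric

namespace NF

lemma me_mk (b : Bool) : MeasurableEmbedding (Prod.mk b : ℂ → Bool × ℂ) := by
  refine ⟨fun x y h => (Prod.mk.injEq _ _ _ _ ▸ h).2, measurable_prodMk_left, fun s hs => ?_⟩
  have : (Prod.mk b) '' s = {b} ×ˢ s := by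
    ext ⟨c, q⟩
    constructor
    · rintro ⟨w, hw, h⟩
      simp only [Prod.mk.injEq] at h
      exact ⟨h.1.symm, h.2 ▸ hw⟩
    · rintro ⟨h1, h2⟩
      exact ⟨q, h2, by rw [show c = b from h1]⟩
  rw [this]
  exact (measurableSet_singleton b).prod hs

/-- two copies of a measure -/
noncomputable def nu9 (μ : Measure ℂ) : Measure (Bool × ℂ) :=
  μ.map (Prod.mk true) + μ.map (Prod.mk false)

lemma nu_ae {μ : Measure ℂ} {P : Bool × ℂ → Prop} (h : ∀ b, ∀ᵐ q ∂μ, P (b, q)) :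
    ∀ᵐ x ∂(nu9 μ), P x := by
  unfold nu9
  rw [ae_add_measure_iff]
  exact ⟨(me_mk true).ae_map_iff.mpr (h true), (me_mk false).ae_map_iff.mpr (h false)⟩

lemma nu_aesm {μ : Measure ℂ} {f : Bool × ℂ → ℂ}
    (h : ∀ b, AEStronglyMeasurable (fun q => f (b, q)) μ) : AEStronglyMeasurable f (nu9 μ) := by
  unfold nu9
  rw [aestronglyMeasurable_add_measure_iff]
  exact ⟨(me_mk true).aestronglyMeasurable_map_iff.mpr (h true),
    (me_mk false).aestronglyMeasurable_map_iff.mpr (h false)⟩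

lemma nu_finite {μ : Measure ℂ} [IsFiniteMeasure μ] : IsFiniteMeasure (nu9 μ) := by
  unfold nu9
  infer_instance

lemma nu_real {μ : Measure ℂ} [IsFiniteMeasure μ] : (nu9 μ).real Set.univ = 2 * μ.real Set.univ := by
  unfold nu9
  rw [measureReal_add_apply, measureReal_def, measureReal_def, (me_mk true).map_apply,
    (me_mk false).map_apply, measureReal_def]
  simp only [Set.preimage_univ]
  ring

lemma nu_le {μ : Measure ℂ} (b : Bool) : μ.map (Prod.mk b) ≤ nu9 μ := by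
  unfold nu9
  cases b
  · exact Measure.le_add_left le_rfl
  · exact Measure.le_add_right le_rfl

lemma nu_int {μ : Measure ℂ} {f : Bool × ℂ → ℝ} (hf : ∀ x, 0 ≤ f x) (hi : Integrable f (nu9 μ))
    (b : Bool) : ∫ q, f (b, q) ∂μ ≤ ∫ x, f x ∂(nu9 μ) := by
  have h1 := integral_mono_measure (nu_le b) (Eventually.of_forall hf) hi
  rwa [(me_mk b).integral_map] at h1


lemma half_open (R r : ℝ) : IsOpen (Half R r) := by
  unfold Half
  exact (isOpen_lt continuous_norm continuous_const).inter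
    (isOpen_lt continuous_const (continuous_norm.pow 2))

lemma half_sub {R r : ℝ} : Half R r ⊆ Dom R r := by
  rintro q ⟨h1, h2⟩
  refine ⟨h1, Or.inr ?_⟩
  have := norm_nonneg q
  nlinarith

lemma dom_open (R r : ℝ) : IsOpen (Dom R r) := by
  by_cases h : r = 0
  · have : Dom R r = {q | ‖q‖ < R} := by
      ext q; simp [Dom, h]
    rw [this]
    exact isOpen_lt continuous_norm continuous_const
  · have : Dom R r = {q | ‖q‖ < R} ∩ {q | r < R * ‖q‖} := by
      ext q; simp [Dom, h]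
    rw [this]
    exact (isOpen_lt continuous_norm continuous_const).inter
      (isOpen_lt continuous_const (continuous_const.mul continuous_norm))

lemma dom_mono {R r : ℝ} (hR : 0 < R) : Dom (R / 2) r ⊆ Dom R r := by
  rintro q ⟨h1, h2⟩
  have := norm_nonneg q
  refine ⟨by linarith, h2.imp id fun h => ?_⟩
  nlinarith

lemma half_mono {R r : ℝ} (hR : 0 < R) : Half (R / 2) r ⊆ Half R r := by
  rintro q ⟨h1, h2⟩
  exact ⟨by linarith, h2⟩

lemma half_vol {R : ℝ} (hR : 0 < R) (hR3 : R ≤ 1 / 3) (r : ℝ) :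
    volume (Half R r) ≤ ENNReal.ofReal (1 / 2) := by
  have h1 : Half R r ⊆ ball (0 : ℂ) R := by
    rintro q ⟨h1, h2⟩
    simpa using h1
  refine (measure_mono h1).trans ?_
  rw [Complex.volume_ball, ← ENNReal.ofReal_pow hR.le]
  have h2 : (NNReal.pi : ENNReal) = ENNReal.ofReal Real.pi := by
    rw [ENNReal.ofReal, Real.toNNReal_of_nonneg Real.pi_pos.le]
    rfl
  rw [h2, ← ENNReal.ofReal_mul (by positivity)]
  apply ENNReal.ofReal_le_ofReal
  have h3 := Real.pi_lt_four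
  have h4 : R ^ 2 ≤ 1 / 9 := by nlinarith
  nlinarith [Real.pi_pos]

lemma level (R K : ℝ) (hR : 0 < R) (hR3 : R ≤ 1 / 3) : ∃ K' c' : ℝ, 0 < K' ∧ 0 < c' ∧
    ∀ (ι : Type) [Fintype ι] [DecidableEq ι] (M : ι → ι → ℝ), (∀ i j, 0 < M i j) →
      (∀ i j, M i j ≤ 1) → (∀ i j, M i j = M j i) → (∀ i, M i i = 1) →
      (∀ i, ∑ j ∈ Finset.univ.erase i, M i j ≤ 1 / 2) →
      ∀ (r : ι → ℝ), (∀ i, 0 ≤ r i) → (∀ i, 64 ^ 2 * r i ≤ R ^ 2) →
      ∀ (p : ι → Bool → ι → ℂ → ℂ), (∀ i b k, DifferentiableOn ℂ (p i b k) (Dom R (r i))) →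
      (∀ i b k, ∀ q ∈ Dom R (r i), ‖p i b k q‖ ≤ K * M i k) →
      (∀ i b, ∀ q ∈ Dom R (r i), 1 ≤ ‖p i b i q‖) →
      (∀ i k, 0 < r i → ∀ q ∈ Dom R (r i), p i true k q = p i false k (r i / q)) →
      ∀ (κ : ℝ), 0 < κ → ∀ (j0 : ι), ∃ (c : Fin 2 → ι → ℂ) (τ : ι → ℝ), τ j0 = 0 ∧
        (∀ i j, |τ i - τ j| ≤ - Real.log (M i j)) ∧ ∀ i b,
        (∀ q ∈ Dom (R / 2) (r i), ∀ l, ‖∑ k, c l k * p i b k q‖ ≤ K' * Real.exp (τ i)) ∧
        (∀ q : ℂ, Real.sqrt (r i) ≤ ‖q‖ → ‖q‖ ≤ R / 16 →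
          (∀ l, ‖deriv (fun q => ∑ k, c l k * p i b k q) q‖ ≤ K' * Real.exp (τ i)) ∧
          c' * Real.exp (2 * τ i) ≤ ‖∑ k, c 0 k * p i b k q‖ ^ 2 +
            ‖∑ k, c 1 k * p i b k q‖ ^ 2 + κ) := by
  obtain ⟨C4, hC4, hder⟩ := deriv_annulus (R / 2) (half_pos hR)
  set C : ℝ := max 1 (K ^ 2) with hC
  have hC1 : 1 ≤ C := le_max_left _ _
  have hpi := Real.pi_pos
  set K1 : ℝ := Real.sqrt (16 / (Real.pi * R ^ 2) * (400 * C)) with hK1
  have hK1p : 0 < K1 := Real.sqrt_pos.mpr (by positivity)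
  have hK1s : K1 ^ 2 = 16 / (Real.pi * R ^ 2) * (400 * C) := Real.sq_sqrt (by positivity)
  obtain ⟨c', hc', hlow⟩ := lower_annulus (R / 2) (half_pos hR) (C4 * K1) (5 * C) (by positivity)
    (by positivity)
  refine ⟨K1 + C4 * K1, c', by positivity, hc', ?_⟩
  intro ι _ _ M hM0 hM1 hMs hMd hrow r hr0 hrs p hpd hpb hpl hpf κ hκ j0
  -- measures
  set μ : ι → Measure ℂ := fun i => volume.restrict (Half R (r i)) with hμ
  have hμu : ∀ i, (μ i) Set.univ ≤ ENNReal.ofReal (1 / 2) := fun i => by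
    rw [hμ]; simp only [Measure.restrict_apply_univ]; exact half_vol hR hR3 _
  have hμf : ∀ i, IsFiniteMeasure (μ i) := fun i => ⟨(hμu i).trans_lt ENNReal.ofReal_lt_top⟩
  have hμr : ∀ i, (μ i).real Set.univ ≤ 1 / 2 := fun i => by
    rw [measureReal_def]
    exact ENNReal.toReal_le_of_le_ofReal (by norm_num) (hμu i)
  set ν : ι → Measure (Bool × ℂ) := fun i => nu9 (μ i) with hν
  have hνf : ∀ i, IsFiniteMeasure (ν i) := fun i => nu_finite
  have hν1 : ∀ i, (ν i).real Set.univ ≤ 1 := fun i => by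
    have := hμr i
    rw [hν]; simp only; rw [nu_real]; linarith
  set P : ι → ι → Bool × ℂ → ℂ := fun i k x => p i x.1 k x.2 with hP
  have hmem : ∀ i, ∀ᵐ q ∂(μ i), q ∈ Half R (r i) := fun i =>
    ae_restrict_mem (half_open R (r i)).measurableSet
  have hPm : ∀ i k, AEStronglyMeasurable (P i k) (ν i) := fun i k => nu_aesm fun b =>
    ((hpd i b k).continuousOn.mono half_sub).aestronglyMeasurable (half_open R (r i)).measurableSet
  have hPb : ∀ i k, ∀ᵐ x ∂(ν i), ‖P i k x‖ ≤ K * M i k := fun i k => nu_ae fun b => by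
    filter_upwards [hmem i] with q hq
    exact hpb i b k q (half_sub hq)
  have hPl : ∀ i, ∀ᵐ x ∂(ν i), 1 ≤ ‖P i i x‖ := fun i => nu_ae fun b => by
    filter_upwards [hmem i] with q hq
    exact hpl i b q (half_sub hq)
  set a : ι → ι → ℝ := fun i j => ∫ x, ‖P i j x‖ ^ 2 ∂(ν i) with ha
  have ha0 : ∀ i j, 0 ≤ a i j := fun i j => integral_nonneg fun x => by positivity
  have haC : ∀ i j, a i j ≤ C * M i j ^ 2 := by
    intro i j
    have h1 : ‖∫ x, ‖P i j x‖ ^ 2 ∂(ν i)‖ ≤ (K * M i j) ^ 2 * (ν i).real Set.univ := by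
      apply norm_integral_le_of_norm_le_const
      filter_upwards [hPb i j] with x hx
      rw [Real.norm_of_nonneg (by positivity)]
      exact pow_le_pow_left₀ (norm_nonneg _) hx 2
    have h2 := (le_abs_self _).trans h1
    have h3 := hν1 i
    have h4 : (K * M i j) ^ 2 * (ν i).real Set.univ ≤ (K * M i j) ^ 2 * 1 :=
      mul_le_mul_of_nonneg_left h3 (by positivity)
    have h5 : K ^ 2 * M i j ^ 2 ≤ C * M i j ^ 2 :=
      mul_le_mul_of_nonneg_right (le_max_right _ _) (by positivity)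
    calc a i j ≤ (K * M i j) ^ 2 * (ν i).real Set.univ := h2
      _ ≤ (K * M i j) ^ 2 * 1 := h4
      _ = K ^ 2 * M i j ^ 2 := by ring
      _ ≤ _ := h5
  set A : ι → (ι → ℂ) × (ι → ℂ) → ℝ := fun i F =>
    ∫ x, (‖∑ k, F.1 k * P i k x‖ ^ 2 + ‖∑ k, F.2 k * P i k x‖ ^ 2) ∂(ν i) with hA
  set B : ι → (ι → ℂ) × (ι → ℂ) → ℝ := fun i F =>
    ∫ x, 1 / (‖∑ k, F.1 k * P i k x‖ ^ 2 + ‖∑ k, F.2 k * P i k x‖ ^ 2 + κ) ∂(ν i) with hB
  obtain ⟨F, τ, hτ0, hτM, hAB⟩ := avl_comb A B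
    (fun i F => integral_nonneg fun x => by positivity)
    (fun i F => integral_nonneg fun x => by positivity) M hM0 hM1 hMs hMd hrow a ha0 C hC1 haC
    (fun F j t ht α β hα hβ => by
      obtain ⟨c1, d1, h⟩ := noise ν hνf hν1 P hPm (fun i k => ⟨_, hPb i k⟩) hPl κ hκ F.1 F.2 j t ht
        α β hα hβ
      exact ⟨(c1, d1), h⟩) j0
  -- the functions
  set f : Fin 2 → ι → Bool → ℂ → ℂ := fun l i b q => ∑ k, (if l = 0 then F.1 k else F.2 k) * p i b k q
    with hf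
  have hfd : ∀ l i b, DifferentiableOn ℂ (f l i b) (Dom R (r i)) := by
    intro l i b
    apply DifferentiableOn.fun_sum
    intro k _
    exact (hpd i b k).const_mul _
  set D : Fin 2 → ι → ℝ := fun l i => ∑ k, ‖(if l = 0 then F.1 k else F.2 k)‖ * (K * M i k) with hD
  have hfb : ∀ l i b, ∀ q ∈ Dom R (r i), ‖f l i b q‖ ≤ D l i := by
    intro l i b q hq
    refine (norm_sum_le _ _).trans (Finset.sum_le_sum fun k _ => ?_)
    rw [norm_mul]
    exact mul_le_mul_of_nonneg_left (hpb i b k q hq) (norm_nonneg _)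
  have hfm : ∀ l i, AEStronglyMeasurable (fun x : Bool × ℂ => f l i x.1 x.2) (ν i) := fun l i =>
    nu_aesm fun b => ((hfd l i b).continuousOn.mono half_sub).aestronglyMeasurable
      (half_open R (r i)).measurableSet
  have hfb' : ∀ l i, ∀ᵐ x ∂(ν i), ‖f l i x.1 x.2‖ ≤ D l i := fun l i => nu_ae fun b => by
    filter_upwards [hmem i] with q hq
    exact hfb l i b q (half_sub hq)
  have hAint : ∀ i, Integrable (fun x : Bool × ℂ => ‖f 0 i x.1 x.2‖ ^ 2 + ‖f 1 i x.1 x.2‖ ^ 2)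
      (ν i) := by
    intro i
    apply Integrable.of_bound (((hfm 0 i).norm.pow 2).add ((hfm 1 i).norm.pow 2))
      (D 0 i ^ 2 + D 1 i ^ 2)
    filter_upwards [hfb' 0 i, hfb' 1 i] with x h0 h1
    have h2 := pow_le_pow_left₀ (norm_nonneg _) h0 2
    have h3 := pow_le_pow_left₀ (norm_nonneg _) h1 2
    show ‖‖f 0 i x.1 x.2‖ ^ 2 + ‖f 1 i x.1 x.2‖ ^ 2‖ ≤ _
    rw [Real.norm_of_nonneg (by positivity)]
    linarith
  have hBint : ∀ i, Integrable (fun x : Bool × ℂ =>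
      1 / (‖f 0 i x.1 x.2‖ ^ 2 + ‖f 1 i x.1 x.2‖ ^ 2 + κ)) (ν i) := by
    intro i
    have hm : AEMeasurable (fun x : Bool × ℂ => ‖f 0 i x.1 x.2‖ ^ 2 + ‖f 1 i x.1 x.2‖ ^ 2 + κ)
        (ν i) := ((((hfm 0 i).norm.pow 2).add ((hfm 1 i).norm.pow 2)).add_const κ).aemeasurable
    apply Integrable.of_bound (hm.const_div 1).aestronglyMeasurable (1 / κ)
    refine Eventually.of_forall fun x => ?_
    have h1 : κ ≤ ‖f 0 i x.1 x.2‖ ^ 2 + ‖f 1 i x.1 x.2‖ ^ 2 + κ := by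
      have : 0 ≤ ‖f 0 i x.1 x.2‖ ^ 2 + ‖f 1 i x.1 x.2‖ ^ 2 := by positivity
      linarith
    rw [Real.norm_of_nonneg (by positivity)]
    exact one_div_le_one_div_of_le hκ h1
  have hA1 : ∀ i b, ∫ q in Half R (r i), (‖f 0 i b q‖ ^ 2 + ‖f 1 i b q‖ ^ 2) ≤
      400 * C * Real.exp (2 * τ i) := fun i b =>
    (nu_int (fun x => by positivity) (hAint i) b).trans (hAB i).1
  have hB1 : ∀ i b, ∫ q in Half R (r i), 1 / (‖f 0 i b q‖ ^ 2 + ‖f 1 i b q‖ ^ 2 + κ) ≤
      5 * C * Real.exp (-2 * τ i) := fun i b =>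
    (nu_int (fun x => by positivity) (hBint i) b).trans (hAB i).2
  -- integrability on the half annuli
  have hfm' : ∀ l i b, AEStronglyMeasurable (f l i b) (volume.restrict (Half R (r i))) :=
    fun l i b => ((hfd l i b).continuousOn.mono half_sub).aestronglyMeasurable
      (half_open R (r i)).measurableSet
  have hint : ∀ l i b, IntegrableOn (fun q => ‖f l i b q‖ ^ 2) (Half R (r i)) := by
    intro l i b
    have := hμf i
    apply Integrable.of_bound (μ := μ i) ((hfm' l i b).norm.pow 2) (D l i ^ 2)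
    filter_upwards [hmem i] with q hq
    show ‖‖f l i b q‖ ^ 2‖ ≤ _
    rw [Real.norm_of_nonneg (by positivity)]
    exact pow_le_pow_left₀ (norm_nonneg _) (hfb l i b q (half_sub hq)) 2
  have hintB : ∀ i b, IntegrableOn (fun q => 1 / (‖f 0 i b q‖ ^ 2 + ‖f 1 i b q‖ ^ 2 + κ))
      (Half R (r i)) := by
    intro i b
    have := hμf i
    have hm : AEMeasurable (fun q => ‖f 0 i b q‖ ^ 2 + ‖f 1 i b q‖ ^ 2 + κ) (μ i) :=
      ((((hfm' 0 i b).norm.pow 2).add ((hfm' 1 i b).norm.pow 2)).add_const κ).aemeasurable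
    apply Integrable.of_bound (μ := μ i) (hm.const_div 1).aestronglyMeasurable (1 / κ)
    refine Eventually.of_forall fun q => ?_
    have h1 : κ ≤ ‖f 0 i b q‖ ^ 2 + ‖f 1 i b q‖ ^ 2 + κ := by
      have : 0 ≤ ‖f 0 i b q‖ ^ 2 + ‖f 1 i b q‖ ^ 2 := by positivity
      linarith
    rw [Real.norm_of_nonneg (by positivity)]
    exact one_div_le_one_div_of_le hκ h1
  have hA2 : ∀ l i b, ∫ q in Half R (r i), ‖f l i b q‖ ^ 2 ≤ 400 * C * Real.exp (2 * τ i) := by
    intro l i b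
    refine le_trans ?_ (hA1 i b)
    apply integral_mono (hint l i b) ((hint 0 i b).add (hint 1 i b))
    intro q
    fin_cases l
    · simp
    · simp
  have hr1 : ∀ i, 16 ^ 2 * r i ≤ R ^ 2 := fun i => by nlinarith [hr0 i, hrs i]
  have hr2 : ∀ i, 16 ^ 2 * r i ≤ (R / 2) ^ 2 := fun i => by nlinarith [hr0 i, hrs i]
  have hup : ∀ l i b, ∀ q ∈ Dom (R / 2) (r i), ‖f l i b q‖ ≤ K1 * Real.exp (τ i) := by
    intro l i b q hq
    have h1 := upper_annulus R hR (r i) (hr0 i) (hr1 i) (fun b => f l i b) (fun b => hfd l i b)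
      (fun hri q hq => by
        rw [hf]
        simp only
        apply Finset.sum_congr rfl
        intro k _
        rw [hpf i k hri q hq]) (400 * C * Real.exp (2 * τ i)) (fun b => hint l i b)
      (fun b => hA2 l i b) b q hq
    rw [← pow_le_pow_iff_left₀ (norm_nonneg _) (by positivity) (two_ne_zero)]
    refine h1.trans (le_of_eq ?_)
    rw [mul_pow, hK1s, ← Real.exp_nat_mul]
    push_cast
    ring
  have hdr : ∀ l i b q, Real.sqrt (r i) ≤ ‖q‖ → ‖q‖ ≤ R / 8 →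
      ‖deriv (f l i b) q‖ ≤ C4 * (K1 * Real.exp (τ i)) := fun l i b q h1 h2 =>
    hder (r i) (hr0 i) (hr2 i) (f l i b) _ ((hfd l i b).mono (dom_mono hR)) (hup l i b) q h1
      (by linarith)
  have hin : ∀ i q, Real.sqrt (r i) ≤ ‖q‖ → ‖q‖ ≤ R / 8 → q ∈ Dom R (r i) := by
    intro i q h1 h2
    refine ⟨by linarith, ?_⟩
    rcases (hr0 i).eq_or_lt with h | h
    · exact Or.inl h.symm
    · right
      have h3 : Real.sqrt (r i) ^ 2 = r i := Real.sq_sqrt (hr0 i)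
      have h4 : 0 < Real.sqrt (r i) := Real.sqrt_pos.mpr h
      nlinarith
  have hlw : ∀ i b q, Real.sqrt (r i) ≤ ‖q‖ → ‖q‖ ≤ R / 16 →
      c' * Real.exp (τ i) ^ 2 ≤ ‖f 0 i b q‖ ^ 2 + ‖f 1 i b q‖ ^ 2 + κ := by
    intro i b q h1 h2
    apply hlow (r i) (hr0 i) (hr2 i) (f 0 i b) (f 1 i b) (Real.exp (τ i)) κ (Real.exp_pos _) hκ
      ?_ ((hintB i b).mono_set (half_mono hR)) ?_ q h1 (by linarith)
    · intro q' h3 h4
      have h5 : ‖q'‖ ≤ R / 8 := by linarith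
      have h6 := hin i q' h3 h5
      have h7 := (dom_open R (r i)).mem_nhds h6
      exact ⟨(hfd 0 i b).differentiableAt h7, (hfd 1 i b).differentiableAt h7,
        by rw [mul_assoc]; exact hdr 0 i b q' h3 h5, by rw [mul_assoc]; exact hdr 1 i b q' h3 h5⟩
    · calc ∫ q in Half (R / 2) (r i), 1 / (‖f 0 i b q‖ ^ 2 + ‖f 1 i b q‖ ^ 2 + κ)
          ≤ ∫ q in Half R (r i), 1 / (‖f 0 i b q‖ ^ 2 + ‖f 1 i b q‖ ^ 2 + κ) := by
            apply setIntegral_mono_set (hintB i b)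
            · exact Eventually.of_forall fun q => by positivity
            · exact (half_mono hR).eventuallyLE
        _ ≤ 5 * C * Real.exp (-2 * τ i) := hB1 i b
        _ = 5 * C / Real.exp (τ i) ^ 2 := by
            rw [← Real.exp_nat_mul, div_eq_mul_inv, ← Real.exp_neg]
            push_cast
            ring_nf
  -- normalisation
  set lam : ℝ := Real.exp (-τ j0) with hlam
  have hlam0 : 0 < lam := Real.exp_pos _
  have hlam1 : lam ≤ 1 := Real.exp_le_one_iff.mpr (by linarith)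
  have hsum : ∀ l i b q, ∑ k, ((lam : ℂ) * (if l = 0 then F.1 k else F.2 k)) * p i b k q =
      (lam : ℂ) * f l i b q := by
    intro l i b q
    rw [hf]
    simp only
    rw [Finset.mul_sum]
    exact Finset.sum_congr rfl fun k _ => by ring
  have hexp : ∀ i, Real.exp (τ i - τ j0) = lam * Real.exp (τ i) := fun i => by
    rw [hlam, ← Real.exp_add]; congr 1; ring
  refine ⟨fun l k => (lam : ℂ) * (if l = 0 then F.1 k else F.2 k), fun i => τ i - τ j0, by simp,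
    fun i j => ?_, fun i b => ⟨fun q hq l => ?_, fun q h1 h2 => ⟨fun l => ?_, ?_⟩⟩⟩
  · rw [show τ i - τ j0 - (τ j - τ j0) = τ i - τ j by ring]; exact hτM i j
  · simp only
    rw [hsum, norm_mul, Complex.norm_real, Real.norm_of_nonneg hlam0.le, hexp]
    have := hup l i b q hq
    have h3 : lam * ‖f l i b q‖ ≤ lam * (K1 * Real.exp (τ i)) :=
      mul_le_mul_of_nonneg_left this hlam0.le
    have h4 : 0 ≤ C4 * K1 * (lam * Real.exp (τ i)) := by positivity
    calc lam * ‖f l i b q‖ ≤ lam * (K1 * Real.exp (τ i)) := h3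
      _ ≤ lam * (K1 * Real.exp (τ i)) + C4 * K1 * (lam * Real.exp (τ i)) := by linarith
      _ = _ := by ring
  · simp only
    have h3 : (fun q => ∑ k, ((lam : ℂ) * (if l = 0 then F.1 k else F.2 k)) * p i b k q) =
        fun q => (lam : ℂ) * f l i b q := funext fun q => hsum l i b q
    rw [h3, deriv_const_mul_field, norm_mul, Complex.norm_real, Real.norm_of_nonneg hlam0.le, hexp]
    have := hdr l i b q h1 (by linarith)
    have h4 : lam * ‖deriv (f l i b) q‖ ≤ lam * (C4 * (K1 * Real.exp (τ i))) :=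
      mul_le_mul_of_nonneg_left this hlam0.le
    have h5 : 0 ≤ K1 * (lam * Real.exp (τ i)) := by positivity
    calc lam * ‖deriv (f l i b) q‖ ≤ lam * (C4 * (K1 * Real.exp (τ i))) := h4
      _ ≤ lam * (C4 * (K1 * Real.exp (τ i))) + K1 * (lam * Real.exp (τ i)) := by linarith
      _ = _ := by ring
  · show c' * Real.exp (2 * (τ i - τ j0)) ≤
      ‖∑ k, ((lam : ℂ) * (if (0 : Fin 2) = 0 then F.1 k else F.2 k)) * p i b k q‖ ^ 2 +
      ‖∑ k, ((lam : ℂ) * (if (1 : Fin 2) = 0 then F.1 k else F.2 k)) * p i b k q‖ ^ 2 + κ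
    rw [hsum, hsum, norm_mul, norm_mul, Complex.norm_real, Real.norm_of_nonneg hlam0.le]
    have h3 := hlw i b q h1 h2
    have h4 : Real.exp (2 * (τ i - τ j0)) = lam ^ 2 * Real.exp (τ i) ^ 2 := by
      rw [show 2 * (τ i - τ j0) = (τ i - τ j0) + (τ i - τ j0) by ring, Real.exp_add, hexp]; ring
    rw [h4]
    have h5 : lam ^ 2 * (c' * Real.exp (τ i) ^ 2) ≤
        lam ^ 2 * (‖f 0 i b q‖ ^ 2 + ‖f 1 i b q‖ ^ 2 + κ) :=
      mul_le_mul_of_nonneg_left h3 (by positivity)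
    have h6 : lam ^ 2 * κ ≤ κ := by
      have : lam ^ 2 ≤ 1 := pow_le_one₀ hlam0.le hlam1
      nlinarith
    calc c' * (lam ^ 2 * Real.exp (τ i) ^ 2) = lam ^ 2 * (c' * Real.exp (τ i) ^ 2) := by ring
      _ ≤ lam ^ 2 * (‖f 0 i b q‖ ^ 2 + ‖f 1 i b q‖ ^ 2 + κ) := h5
      _ = (lam * ‖f 0 i b q‖) ^ 2 + (lam * ‖f 1 i b q‖) ^ 2 + lam ^ 2 * κ := by ring
      _ ≤ _ := by linarith

/-- target -/
theorem finite_level {Γ : Subgroup (Matrix.SpecialLinearGroup (Fin 2) ℝ)} (S : PSys Γ) :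
    FiniteLevel S := by
  classical
  obtain ⟨K', c', hK', hc', h⟩ := level S.R S.K S.R_pos S.R_le
  refine ⟨K', c', hK', hc', ?_⟩
  intro I hI κ hκ
  have hrow : ∀ i : {x // x ∈ I}, ∑ j ∈ Finset.univ.erase i, S.M i.1 j.1 ≤ 1 / 2 := by
    intro i
    have h1 := S.M_row ((Finset.univ.erase i).map ⟨Subtype.val, Subtype.val_injective⟩) i.1 (by
      rw [Finset.mem_map]
      rintro ⟨j, hj, hji⟩
      exact (Finset.mem_erase.mp hj).1 (Subtype.ext hji))
    rw [Finset.sum_map] at h1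
    exact h1
  obtain ⟨c, τ, h1, h2, h3⟩ := h {x // x ∈ I} (fun i j => S.M i.1 j.1) (fun i j => S.M_pos _ _)
    (fun i j => S.M_le _ _) (fun i j => S.M_symm _ _) (fun i => S.M_self _) hrow
    (fun i => S.r i.1) (fun i => S.r_nonneg _) (fun i => S.r_small _)
    (fun i b k => S.p i.1 b k.1) (fun i b k => S.p_diff _ _ _) (fun i b k => S.p_bd _ _ _)
    (fun i b => S.p_low _ _) (fun i k => S.p_flip _ _) κ hκ ⟨S.j0, hI⟩
  refine ⟨fun l k => if hk : k ∈ I then c l ⟨k, hk⟩ else 0,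
    fun i => if hi : i ∈ I then τ ⟨i, hi⟩ else 0, ?_, ?_, ?_⟩
  · simp only [dif_pos hI]; exact h1
  · intro i hi j hj
    simp only [dif_pos hi, dif_pos hj]
    exact h2 ⟨i, hi⟩ ⟨j, hj⟩
  · intro i hi b
    have hs : ∀ l q, ∑ k ∈ I, (if hk : k ∈ I then c l ⟨k, hk⟩ else 0) * S.p i b k q =
        ∑ k : {x // x ∈ I}, c l k * S.p i b k.1 q := by
      intro l q
      rw [← Finset.sum_coe_sort I]
      apply Finset.sum_congr rfl
      intro k _
      rw [dif_pos k.2]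
    simp only [hs, dif_pos hi]
    exact h3 ⟨i, hi⟩ b

end NF

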