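import Pool.Agent.Helper369.NF.Defs
import Pool.Agent.Helper369.NF.A3
import Pool.Agent.Helper369.NF.A4
import Pool.Agent.Helper369.NF.J10
import Pool.Agent.Helper369.NF.J9

open MeasureTheory Filter Topology Metric UpperHalfPlane

namespace NF

/-! The following statements are GIVEN (other jobs); do not prove them. -/

/-! TARGET: -/

theorem final_result : ∀ Γ : Subgroup (Matrix.SpecialLinearGroup (Fin 2) ℝ),
      (∀ K : Set UpperHalfPlane, IsCompact K →
        {g : Matrix.SpecialLinearGroup (Fin 2) ℝ | g ∈ Γ ∧ ∃ z ∈ K, g • z ∈ K}.Finite) →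
    ∃ f : ℂ → ℂ, MeromorphicOn f {z : ℂ | 0 < z.im} ∧
      (∃ z w : UpperHalfPlane, AnalyticAt ℂ f (z : ℂ) ∧ AnalyticAt ℂ f (w : ℂ) ∧
        f (z : ℂ) ≠ f (w : ℂ)) ∧
      (∀ g ∈ Γ, ∀ z : UpperHalfPlane, AnalyticAt ℂ f (z : ℂ) →
        AnalyticAt ℂ f ((g • z : UpperHalfPlane) : ℂ) →
        f ((g • z : UpperHalfPlane) : ℂ) = f (z : ℂ)) ∧
      ∃ M : ℝ, ∀ z : UpperHalfPlane, AnalyticAt ℂ f (z : ℂ) →
        z.im * ‖deriv f (z : ℂ)‖ / (1 + ‖f (z : ℂ)‖ ^ 2) ≤ M := by
  intro Γ hΓ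
  let Γ' : Subgroup SL2 :=
    { carrier := {g | g ∈ Γ ∨ -g ∈ Γ}
      mul_mem' := by
        intro a b ha hb
        simp only [Set.mem_ofPred_eq] at ha hb ⊢
        rcases ha with ha | ha <;> rcases hb with hb | hb
        · exact Or.inl (Γ.mul_mem ha hb)
        · right
          have := Γ.mul_mem ha hb
          rwa [mul_neg] at this
        · right
          have := Γ.mul_mem ha hb
          rwa [neg_mul] at this
        · left
          have := Γ.mul_mem ha hb
          rwa [neg_mul_neg] at this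
      one_mem' := Or.inl Γ.one_mem
      inv_mem' := by
        intro a ha
        simp only [Set.mem_ofPred_eq] at ha ⊢
        rcases ha with ha | ha
        · exact Or.inl (Γ.inv_mem ha)
        · right
          have h1 := Γ.inv_mem ha
          have h2 : (-a)⁻¹ = -(a⁻¹) := by
            rw [inv_eq_iff_mul_eq_one, neg_mul_neg, mul_inv_cancel]
          rwa [h2] at h1 }
  have hmem : ∀ g : SL2, g ∈ Γ' ↔ (g ∈ Γ ∨ -g ∈ Γ) := fun g => Iff.rfl
  have hPD : PD Γ' := by
    intro K hK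
    have h1 := hΓ K hK
    refine (h1.union (h1.image (fun g => -g))).subset ?_
    rintro g ⟨hg, z, hz, hgz⟩
    rcases (hmem g).1 hg with hg | hg
    · exact Or.inl ⟨hg, z, hz, hgz⟩
    · right
      refine ⟨-g, ⟨hg, z, hz, ?_⟩, neg_neg g⟩
      have h5 : (-g : SL2) • z = g • z := by
        ext1
        rw [UpperHalfPlane.coe_specialLinearGroup_apply, UpperHalfPlane.coe_specialLinearGroup_apply]
        simp only [Matrix.SpecialLinearGroup.coe_neg, Matrix.neg_apply, map_neg, Complex.ofReal_neg]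
        rw [← neg_div_neg_eq]
        congr 1 <;> ring
      rwa [h5]
  have hneg : (-1 : SL2) ∈ Γ' := (hmem _).2 (Or.inr (by rw [neg_neg]; exact Γ.one_mem))
  obtain ⟨n, K1, B0, hn, hK1, hB0, H⟩ := family_exists
  obtain ⟨Φ⟩ := H Γ' hPD hneg
  obtain ⟨S⟩ := psys_of_family Γ' hPD hneg n K1 B0 hn hK1 hB0 Φ
  obtain ⟨f, h1, h2, h3, h4⟩ := main_of_psys S (finite_level S)
  exact ⟨f, h1, h2, fun g hg => h3 g ((hmem g).2 (Or.inl hg)), h4⟩

end NF

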