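import Mathlib

set_option autoImplicit false

/-!
# Normal automorphic functions for Fuchsian groups (MP_b0512f_an)

Every properly discontinuous `Γ ≤ SL(2,ℝ)` has a nonconstant `Γ`-invariant meromorphic function `f` on the
upper half plane with `Im z |f'|/(1+|f|²)` bounded (a normal automorphic function).

Sketch of the proof formalised in this directory.  We look for `f = F₁/F₂`, a quotient of two forms of weight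
`4n` (`n` large, universal).

* Geometry.  `Sp Γ` is the set of special elements: elements of small trace distance to `2` which are minimal
  among the commuting elements; they cover the thin parts (cusps, short geodesics, elliptic points of large
  order).  Every point of the half plane is, modulo `Γ`, either in the thin region `disp g < 1/80` of a special
  element (`SChart`: flow coordinates, the quotient region is a disc or an annulus), or within `ρ/20` of a good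
  point `a` (orbit points `8ρ`-separated, stabiliser of bounded order).  A maximal separated family of good
  points, and representatives of the special elements, give a family of cells (`Family`), with bounded row
  sums of the counting kernel `kk`.
* For each cell `j` there is a form `P_j` (a Poincare series `PR` or a relative Poincare series
  `PS = Σ X_h^{-2n}` over the conjugates of the special element) which is `≥ 1` on its own cell in the local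
  coordinate and decays like `kk^n` away from it (`PSys`).
* Variational principle (`J1`-`J9`).  For a finite set `I` of cells consider pairs `F = (F₁,F₂)` in the span of
  the `P_j` and Lipschitz weights `τ`, and the energy
  `Σ_i e^{-τ_i} ∫_i |F|² + e^{3τ_i} ∫_i 1/(|F|²+κ)`.
  Adding Gaussian noise `v P_j`, `v ∈ ℂ²`, to a minimiser `F` and using that `|v|^{-2}` is superharmonic on
  `ℂ² = ℝ⁴` bounds `∫_j 1/(|F|²+κ)` by `C e^{-2τ_j}`; raising `τ` bounds `∫_j|F|²` by `C e^{2τ_j}`.  Hence on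
  every cell `|F|` is bounded above and below by `e^{τ_j}`, uniformly in `I` and `κ`.
* The limit along an ultrafilter of `I ↑ J`, `κ → 0` is a pair of forms without common zeros and with
  `Im z |F₁'F₂ - F₁F₂'| ≤ C(|F₁|²+|F₂|²)`, so `f = F₁/F₂` is normal; if it is constant, `F₁` has no zeros and
  is comparable to `e^{τ}`, and one of the quotients `Q_l/F_i` with fixed forms `Q_0, Q_1` is used (`J8`, `J10`).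
-/



open MeasureTheory Filter Topology Metric UpperHalfPlane

namespace NF

abbrev SL2 := Matrix.SpecialLinearGroup (Fin 2) ℝ

/-- Killing polynomial of `g`: `g z - z = X g z / (c z + d)` -/
noncomputable def X (g : SL2) (z : ℂ) : ℂ :=
  (g 0 1 : ℂ) + ((g 0 0 : ℂ) - (g 1 1 : ℂ)) * z - (g 1 0 : ℂ) * z ^ 2

noncomputable def dn (g : SL2) (z : ℂ) : ℂ := (g 1 0 : ℂ) * z + (g 1 1 : ℂ)

noncomputable def mob (g : SL2) (z : ℂ) : ℂ := ((g 0 0 : ℂ) * z + (g 0 1 : ℂ)) / dn g z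

def tr (g : SL2) : ℝ := g 0 0 + g 1 1

/-- displacement, `= 2 sinh (dist z (g z) / 2)` -/
noncomputable def disp (g : SL2) (z : ℍ) : ℝ := ‖X g z‖ / z.im

/-- properly discontinuous -/
def PD (Γ : Subgroup SL2) : Prop :=
  ∀ K : Set ℍ, IsCompact K → {g : SL2 | g ∈ Γ ∧ ∃ z ∈ K, g • z ∈ K}.Finite

/-- special elements: short (displacement), close to the identity trace, minimal among commuting elements -/
def Sp (Γ : Subgroup SL2) : Set SL2 :=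
  {g | g ∈ Γ ∧ g ≠ 1 ∧ 2 - 1 / 10 ^ 6 < tr g ∧ tr g ^ 2 - 4 < (1 / 160) ^ 2 ∧
    ∀ k ∈ Γ, k ≠ 1 → k ≠ -1 → k * g = g * k → ∀ z : ℍ, disp g z ≤ disp k z}

/-- a good point: orbit separated by `8 ρ`, stabiliser with angles bounded away from `0`, away from the
special regions -/
def Good (Γ : Subgroup SL2) (a : ℍ) (ρ : ℝ) : Prop :=
  (∀ γ ∈ Γ, γ • a = a ∨ 8 * ρ ≤ dist a (γ • a)) ∧
  (∀ γ ∈ Γ, γ • a = a → γ ≠ 1 → γ ≠ -1 → |tr γ| ≤ 2 - 1 / 10 ^ 6) ∧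
  (∀ g ∈ Sp Γ, 1 / 100 ≤ disp g a)

/-- the counting kernel -/
noncomputable def kk (Γ : Subgroup SL2) (z p : ℍ) : ℝ :=
  ∑' γ : Γ, ((Real.cosh (dist z ((γ : SL2) • p) / 2)) ^ 4)⁻¹

/-- the strip `0 < Im ζ`, `ℓ Im ζ < π` (upper half plane when `ℓ = 0`) -/
def St (ℓ : ℝ) : Set ℂ := {ζ | 0 < ζ.im ∧ ℓ * ζ.im < Real.pi}

/-- flow coordinates near the thin region of `g` -/
structure SChart (g : SL2) where
  ℓ : ℝ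
  tp : ℝ
  κ0 : ℝ
  ψ : Bool → ℂ → ℂ
  zb : Bool → ℍ
  ℓ_nonneg : 0 ≤ ℓ
  ℓ_le : ℓ ≤ 1 / 150
  tp_lo : 15 ≤ tp
  tp_hi : tp ≤ 25
  κ_pos : 0 < κ0
  κ_le : κ0 ≤ 2
  diff : ∀ b, ∀ ζ ∈ St ℓ, DifferentiableAt ℂ (ψ b) ζ
  im_pos : ∀ b, ∀ ζ ∈ St ℓ, 0 < (ψ b ζ).im
  X_ne : ∀ b, ∀ ζ ∈ St ℓ, X g (ψ b ζ) ≠ 0
  per : ∀ b, ∃ s, (s = g ∨ s = g⁻¹) ∧ ∀ ζ ∈ St ℓ, ψ b (ζ + 1) = mob s (ψ b ζ)
  flow : ∀ b, ∀ ζ ∈ St ℓ, ‖X g (ψ b ζ)‖ = κ0 * ‖deriv (ψ b) ζ‖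
  low : ∀ b, ∀ ζ ∈ St ℓ, ℓ * ζ.im ≤ Real.pi / 2 →
    Real.exp (-(2 * Real.pi * ζ.im)) ≤ ‖X g (ψ b ζ)‖ / (ψ b ζ).im
  inside : ∀ b, ∀ ζ ∈ St ℓ, tp ≤ ζ.im → ℓ * (ζ.im + tp) ≤ Real.pi →
    ‖X g (ψ b ζ)‖ / (ψ b ζ).im ≤ 1 / 20
  level : ∀ b (x : ℝ), ‖X g (ψ b (x + tp * Complex.I))‖ / (ψ b (x + tp * Complex.I)).im = 1 / 20
  flip : 0 < ℓ → ∀ ζ ∈ St ℓ, ψ true ζ = ψ false ((Real.pi / ℓ : ℝ) * Complex.I - ζ)
  same : ℓ = 0 → ψ true = ψ false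
  zb_eq : ∀ b, (zb b : ℂ) = ψ b (tp * Complex.I)
  cover : ∀ z : ℍ, disp g z < 1 / 80 → X g z ≠ 0 →
    ∃ b, ∃ ζ ∈ St ℓ, ψ b ζ = z ∧ tp + 2 ≤ ζ.im ∧ ℓ * ζ.im ≤ Real.pi / 2
  port : ∀ z : ℍ, 1 / 200 ≤ disp g z →
    ∃ b, ∃ n : ℤ, Real.cosh (dist z (g ^ n • zb b) / 2) ^ 2 ≤ 10 ^ 5 * disp g z

/-- the annulus `r/R < |q| < R`, or the disc `|q| < R` when `r = 0` -/
def Dom (R r : ℝ) : Set ℂ := {q | ‖q‖ < R ∧ (r = 0 ∨ r < R * ‖q‖)}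

/-- half annulus on which we integrate -/
def Half (R r : ℝ) : Set ℂ := {q | ‖q‖ < R ∧ r < ‖q‖ ^ 2}

/-- terms of the Poincare series of a regular point -/
noncomputable def Tr (n e : ℕ) (a : ℍ) (γ : SL2) (z : ℂ) : ℂ :=
  (2 * (Real.sqrt a.im : ℂ)) ^ (4 * n) *
    (((γ 0 0 : ℂ) * z + (γ 0 1 : ℂ)) - (a : ℂ) * dn γ z) ^ e /
    (((γ 0 0 : ℂ) * z + (γ 0 1 : ℂ)) - (starRingEnd ℂ) (a : ℂ) * dn γ z) ^ (4 * n + e)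

noncomputable def PR (Γ : Subgroup SL2) (n e : ℕ) (a : ℍ) (z : ℂ) : ℂ := ∑' γ : Γ, Tr n e a (γ : SL2) z

/-- conjugates of `g` under `Γ` -/
def Conj (Γ : Subgroup SL2) (g : SL2) : Set SL2 := {h | ∃ γ ∈ Γ, h = γ * g * γ⁻¹}

/-- relative Poincare series of a special element -/
noncomputable def PS (Γ : Subgroup SL2) (n : ℕ) (g : SL2) (z : ℂ) : ℂ :=
  ∑' h : Conj Γ g, ((X (h : SL2) z) ^ (2 * n))⁻¹

/-- forms of weight `4n`, poles allowed at the special centres -/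
structure IsForm (Γ : Subgroup SL2) (n : ℕ) (F : ℂ → ℂ) : Prop where
  diff : ∀ z : ℂ, 0 < z.im → (∀ h ∈ Sp Γ, X h z ≠ 0) → DifferentiableAt ℂ F z
  aut : ∀ γ ∈ Γ, ∀ z : ℍ, F (mob γ z) = dn γ z ^ (4 * n) * F z
  crude : ∀ g ∈ Sp Γ, ∃ C : ℝ, ∀ z : ℍ, disp g z ≤ 1 / 20 → X g z ≠ 0 →
    ‖F z * X g z ^ (2 * n)‖ ≤ C

/-- points away from the special centres -/
def Away (Γ : Subgroup SL2) (z : ℍ) : Prop := ∀ h ∈ Sp Γ, 1 / 200 ≤ disp h z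

structure Cell (Γ : Subgroup SL2) (n : ℕ) (K1 : ℝ) where
  pt : Bool → ℍ
  r : ℝ
  U : Bool → Set ℂ
  ψ : Bool → ℂ → ℂ
  π : Bool → ℂ → ℂ
  φ : ℂ → ℂ
  In : Set ℍ
  P : ℂ → ℂ
  r_nonneg : 0 ≤ r
  r_small : 64 ^ 2 * r ≤ (1 / 4) ^ 2
  P_form : IsForm Γ n P
  P_bd : ∀ z : ℍ, Away Γ z →
    z.im ^ (2 * n) * ‖P z‖ ≤ (K1 * (kk Γ z (pt false) + kk Γ z (pt true))) ^ n
  chart : ∀ F : ℂ → ℂ, IsForm Γ n F → ∀ β : ℝ, 0 ≤ β →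
    (∀ z : ℍ, Away Γ z → (∃ b, ∃ γ ∈ Γ, dist z (γ • pt b) ≤ 10) → z.im ^ (2 * n) * ‖F z‖ ≤ β) →
    ∃ p : Bool → ℂ → ℂ, (∀ b, DifferentiableOn ℂ (p b) (Dom (1 / 4) r)) ∧
      (∀ b, ∀ q ∈ Dom (1 / 4) r, ‖p b q‖ ≤ K1 * β) ∧
      (0 < r → ∀ q ∈ Dom (1 / 4) r, p true q = p false (r / q)) ∧
      ∀ b, ∀ u ∈ U b, F (ψ b u) * φ (ψ b u) = p b (π b u)
  own : ∀ b, ∀ u ∈ U b, 1 ≤ ‖P (ψ b u) * φ (ψ b u)‖
  onto : ∀ b, ∀ q ∈ Dom (1 / 4) r, q ≠ 0 → ∃ u ∈ U b, π b u = q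
  inner : ∀ z ∈ In, AnalyticAt ℂ φ z ∧ φ z ≠ 0 ∧ ∃ b, ∃ u ∈ U b, ψ b u = z ∧ U b ∈ 𝓝 u ∧
    AnalyticAt ℂ (ψ b) u ∧ AnalyticAt ℂ (π b) u ∧ deriv (ψ b) u ≠ 0 ∧
    Real.sqrt r ≤ ‖π b u‖ ∧ ‖π b u‖ ≤ (1 / 4) / 16 ∧
    z.im * ‖deriv (π b) u‖ ≤ Real.exp 200 * ‖deriv (ψ b) u‖

/-- the stabiliser bound as a hypothesis -/
def StabBound (N0 M0 : ℕ) : Prop := 0 < N0 ∧ 0 < M0 ∧ ∀ (Γ : Subgroup SL2), PD Γ → ∀ a : ℍ,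
    (∀ γ ∈ Γ, γ • a = a → γ ≠ 1 → γ ≠ -1 → |tr γ| ≤ 2 - 1 / 10 ^ 6) →
    {γ : SL2 | γ ∈ Γ ∧ γ • a = a}.Finite ∧ {γ : SL2 | γ ∈ Γ ∧ γ • a = a}.ncard ≤ N0 ∧
      ∀ γ ∈ Γ, γ • a = a → (dn γ a) ^ M0 = 1

/-- summability of the counting kernel -/
def KSum (Γ : Subgroup SL2) (p : ℍ) : Prop :=
  ∀ z : ℍ, Summable (fun γ : Γ => ((Real.cosh (dist z ((γ : SL2) • p) / 2)) ^ 4)⁻¹)

/-- covering condition at an elliptic special centre -/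
def CovE (Γ : Subgroup SL2) (n : ℕ) (K1 : ℝ) (c : Cell Γ n K1) (e : ℂ) : Prop :=
  AnalyticAt ℂ c.φ e ∧ ∀ᶠ w in 𝓝[≠] e, c.φ w ≠ 0 ∧ ∃ u ∈ c.U false, c.ψ false u = w ∧
    Real.sqrt c.r ≤ ‖c.π false u‖ ∧ ‖c.π false u‖ ≤ (1 / 4) / 16

/-- a complete family of cells -/
structure Family (Γ : Subgroup SL2) (n : ℕ) (K1 B0 : ℝ) where
  J : Type
  cell : J → Cell Γ n K1
  j0 : J
  ksum : ∀ j b, KSum Γ ((cell j).pt b)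
  row : ∀ z : ℍ, Summable (fun j => kk Γ z ((cell j).pt false) + kk Γ z ((cell j).pt true)) ∧
    ∑' j, (kk Γ z ((cell j).pt false) + kk Γ z ((cell j).pt true)) ≤ B0
  cov : ∀ z : ℍ, (∀ g ∈ Sp Γ, X g z ≠ 0) → ∃ j, ∃ γ ∈ Γ, γ • z ∈ (cell j).In
  covE : ∀ e : ℂ, 0 < e.im → (∃ g ∈ Sp Γ, X g e = 0) → ∃ j, ∃ γ ∈ Γ, CovE Γ n K1 (cell j) (mob γ e)
  Q : Fin 2 → ℂ → ℂ
  Q_form : ∀ l, IsForm Γ n (Q l)
  Q_bd : ∀ l, ∀ z : ℍ, z.im ^ (2 * n) * ‖Q l z‖ ≤ (kk Γ z ((cell j0).pt false)) ^ n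
  Q_ind : ∃ z w : ℍ, (∀ g ∈ Sp Γ, X g z ≠ 0) ∧ (∀ g ∈ Sp Γ, X g w ≠ 0) ∧ Q 0 z * Q 1 w ≠ Q 0 w * Q 1 z

/-- total interaction of two cells -/
noncomputable def bh {Γ : Subgroup SL2} {n : ℕ} {K1 : ℝ} (c d : Cell Γ n K1) : ℝ :=
  (kk Γ (c.pt false) (d.pt false) + kk Γ (c.pt false) (d.pt true)) +
    (kk Γ (c.pt true) (d.pt false) + kk Γ (c.pt true) (d.pt true))

end NF

open MeasureTheory Filter Topology

namespace NF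

open UpperHalfPlane in
/-- the input of the analytic part -/
structure PSys (Γ : Subgroup (Matrix.SpecialLinearGroup (Fin 2) ℝ)) where
  m : ℕ
  J : Type
  j0 : J
  E : Set ℂ
  P : J → ℂ → ℂ
  Q : Fin 2 → ℂ → ℂ
  M : J → J → ℝ
  r : J → ℝ
  R : ℝ
  K : ℝ
  C0 : ℝ
  p : J → Bool → J → ℂ → ℂ
  s : Fin 2 → J → Bool → ℂ → ℂ
  E_count : E.Countable
  E_disc : ∀ z : ℂ, 0 < z.im → ∀ᶠ w in 𝓝[≠] z, w ∉ E
  P_diff : ∀ j z, 0 < z.im → z ∉ E → DifferentiableAt ℂ (P j) z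
  Q_diff : ∀ l z, 0 < z.im → z ∉ E → DifferentiableAt ℂ (Q l) z
  P_aut : ∀ j, ∀ g ∈ Γ, ∀ z : ℍ, P j ((g • z : ℍ) : ℂ) = (denom g z) ^ (2 * m) * P j (z : ℂ)
  Q_aut : ∀ l, ∀ g ∈ Γ, ∀ z : ℍ, Q l ((g • z : ℍ) : ℂ) = (denom g z) ^ (2 * m) * Q l (z : ℂ)
  Q_ind : ∃ z w : ℂ, 0 < z.im ∧ 0 < w.im ∧ z ∉ E ∧ w ∉ E ∧ Q 0 z * Q 1 w ≠ Q 0 w * Q 1 z
  M_pos : ∀ i j, 0 < M i j
  M_le : ∀ i j, M i j ≤ 1
  M_symm : ∀ i j, M i j = M j i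
  M_self : ∀ i, M i i = 1
  M_row : ∀ (t : Finset J) (i : J), i ∉ t → ∑ j ∈ t, M i j ≤ 1 / 2
  R_pos : 0 < R
  R_le : R ≤ 1 / 3
  r_nonneg : ∀ j, 0 ≤ r j
  r_small : ∀ j, 64 ^ 2 * r j ≤ R ^ 2
  p_diff : ∀ i b k, DifferentiableOn ℂ (p i b k) (Dom R (r i))
  p_bd : ∀ i b k, ∀ q ∈ Dom R (r i), ‖p i b k q‖ ≤ K * M i k
  p_low : ∀ i b, ∀ q ∈ Dom R (r i), 1 ≤ ‖p i b i q‖
  p_flip : ∀ i k, 0 < r i → ∀ q ∈ Dom R (r i), p i true k q = p i false k (r i / q)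
  s_diff : ∀ l i b, DifferentiableOn ℂ (s l i b) (Dom R (r i))
  s_bd : ∀ l i b, ∀ q ∈ Dom R (r i), ‖s l i b q‖ ≤ K * M i j0
  cover : ∀ z : ℂ, 0 < z.im → z ∉ E → ∃ (j : J) (b : Bool) (κ φ : ℂ → ℂ),
    AnalyticAt ℂ κ z ∧ AnalyticAt ℂ φ z ∧ φ z ≠ 0 ∧
    (∀ᶠ w in 𝓝 z, (∀ k, P k w * φ w = p j b k (κ w)) ∧ ∀ l, Q l w * φ w = s l j b (κ w)) ∧
    Real.sqrt (r j) ≤ ‖κ z‖ ∧ ‖κ z‖ ≤ R / 16 ∧ z.im * ‖deriv κ z‖ ≤ C0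
  coverE : ∀ e ∈ E, 0 < e.im → ∃ (j : J) (b : Bool) (κ φ : ℂ → ℂ),
    AnalyticAt ℂ φ e ∧ ∀ᶠ w in 𝓝[≠] e, φ w ≠ 0 ∧ Real.sqrt (r j) ≤ ‖κ w‖ ∧ ‖κ w‖ ≤ R / 16 ∧
      (∀ k, P k w * φ w = p j b k (κ w)) ∧ ∀ l, Q l w * φ w = s l j b (κ w)

/-- the finite level statement -/
def FiniteLevel {Γ : Subgroup (Matrix.SpecialLinearGroup (Fin 2) ℝ)} (S : PSys Γ) : Prop :=
  ∃ K' c' : ℝ, 0 < K' ∧ 0 < c' ∧ ∀ (I : Finset S.J), S.j0 ∈ I → ∀ κ : ℝ, 0 < κ →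
    ∃ (c : Fin 2 → S.J → ℂ) (τ : S.J → ℝ), τ S.j0 = 0 ∧
      (∀ i ∈ I, ∀ j ∈ I, |τ i - τ j| ≤ - Real.log (S.M i j)) ∧
      ∀ i ∈ I, ∀ b : Bool,
        (∀ q ∈ Dom (S.R / 2) (S.r i), ∀ l, ‖∑ k ∈ I, c l k * S.p i b k q‖ ≤ K' * Real.exp (τ i)) ∧
        (∀ q : ℂ, Real.sqrt (S.r i) ≤ ‖q‖ → ‖q‖ ≤ S.R / 16 →
          (∀ l, ‖deriv (fun q => ∑ k ∈ I, c l k * S.p i b k q) q‖ ≤ K' * Real.exp (τ i)) ∧
          c' * Real.exp (2 * τ i) ≤ ‖∑ k ∈ I, c 0 k * S.p i b k q‖ ^ 2 +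
            ‖∑ k ∈ I, c 1 k * S.p i b k q‖ ^ 2 + κ)

end NF
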